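import Pool.Agent.L5helper10.TV.Star2

/-! The upper bound for the energies with a general weight (after `Pool.Agent.L5helper10.TV`). -/

set_option autoImplicit false

open Filter Topology Set MeasureTheory H370
open scoped ENNReal

namespace Pool.Agent.L5helper12.PV

open Pool.Agent.L5helper10.TV

lemma g_mul_intOn (g : ℝ → ℝ) (hgm : Measurable g) (hg0 : ∀ u, 0 ≤ g u) (s : ℝ) (hgs : ∀ u, g u ≤ s) (f : ℝ → ℝ)
    (a b : ℝ) (hf : IntegrableOn f (Ioc a b)) : IntegrableOn (fun u => g u * f u) (Ioc a b) :=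
  hf.bdd_mul (c := s) hgm.aestronglyMeasurable
    (Eventually.of_forall fun u => by rw [Real.norm_of_nonneg (hg0 u)]; exact hgs u)

theorem I_splitg (κ : ℝ) (hκ0 : 0 < κ) (hκ : κ ≤ 1) (g : ℝ → ℝ) (hgm : Measurable g) (hg0 : ∀ u, 0 ≤ g u)
    (s s1 : ℝ) (hs10 : 0 ≤ s1) (hs0 : 0 ≤ s) (hgs : ∀ u, g u ≤ s) (E : ℝ → ℝ) (hE : Continuous E) (U M c1 c2 c3 c4 A Bc : ℝ) (hκU : κ ≤ U) (hUM : U ≤ M) (hgs1 : ∀ u ∈ Ioc 0 U, g u ≤ s1) (h1 : 0 ≤ c1) (h2 : 0 ≤ c2)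
    (h3 : 0 ≤ c3) (h4 : 0 ≤ c4) (hA : 0 ≤ A) (hB : 0 ≤ Bc)
    (b1 : ∀ u ∈ Ioc 0 κ, E u ≤ c1) (b2 : ∀ u ∈ Ioc κ U, E u ≤ c2 * Real.exp (-u ^ 2) + c3 * (G1 κ u + κ))
    (b3 : ∀ u ∈ Ioc U M, E u ≤ A * G0 κ u + Bc * G1 κ u + c4) :
    ∫ u in Ioc 0 M, g u * E u ≤ s1 * (c1 * κ) +
      s1 * (c2 * (Real.sqrt Real.pi / 2) + c3 * ((∫ u in Ioc 0 U, G1 κ u) + κ * U)) +
      (∫ u in Ioc 0 M, g u * (A * G0 κ u + Bc * G1 κ u)) + s * (c4 * M) := by
  have hEi : ∀ a b : ℝ, IntegrableOn (fun u => g u * E u) (Ioc a b) := fun a b =>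
    g_mul_intOn g hgm hg0 s hgs E a b (hE.continuousOn.integrableOn_Icc.mono_set Ioc_subset_Icc_self)
  have hG0i : ∀ a b, IntegrableOn (G0 κ) (Ioc a b) := by
    intro a b
    apply bdd_intOn _ (G0_meas κ) a b (K1 * Real.exp b)
    intro u hu
    rw [abs_of_nonneg (G0_nonneg κ u)]
    exact ((G0_le_G1 κ u hκ0.le hκ).trans (G1_le κ u hκ0.le hκ)).trans
      (mul_le_mul_of_nonneg_left (Real.exp_le_exp.2 hu.2) K1_nonneg)
  have hG1i := G1_intOn κ hκ0.le hκ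
  have hAB : ∀ a b, IntegrableOn (fun u => g u * (A * G0 κ u + Bc * G1 κ u)) (Ioc a b) := fun a b =>
    g_mul_intOn g hgm hg0 s hgs _ a b (((hG0i a b).const_mul A).add ((hG1i a b).const_mul Bc))
  -- split
  have e1 : ∫ u in Ioc 0 M, g u * E u = (∫ u in Ioc 0 κ, g u * E u) + (∫ u in Ioc κ U, g u * E u) +
      ∫ u in Ioc U M, g u * E u := by
    have hd1 : Disjoint (Ioc (0 : ℝ) κ) (Ioc κ U) := Set.disjoint_left.2 (fun x h1 h2 => not_lt.2 h1.2 h2.1)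
    have hd2 : Disjoint (Ioc (0 : ℝ) U) (Ioc U M) := Set.disjoint_left.2 (fun x h1 h2 => not_lt.2 h1.2 h2.1)
    rw [← setIntegral_union hd1 measurableSet_Ioc (hEi 0 κ) (hEi κ U), Ioc_union_Ioc_eq_Ioc hκ0.le hκU,
      ← setIntegral_union hd2 measurableSet_Ioc (hEi 0 U) (hEi U M), Ioc_union_Ioc_eq_Ioc (hκ0.le.trans hκU) hUM]
  rw [e1]
  have i1 : ∫ u in Ioc 0 κ, g u * E u ≤ s1 * (c1 * κ) := by
    have : ∫ u in Ioc 0 κ, g u * E u ≤ ∫ u in Ioc 0 κ, s1 * c1 := by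
      apply setIntegral_mono_on (hEi 0 κ) (integrableOn_const (by simp)) measurableSet_Ioc
      intro u hu
      exact (mul_le_mul_of_nonneg_left (b1 u hu) (hg0 u)).trans (mul_le_mul_of_nonneg_right (hgs1 u ⟨hu.1, hu.2.trans hκU⟩) h1)
    refine this.trans (le_of_eq ?_)
    rw [setIntegral_const, measureReal_def, Real.volume_Ioc, sub_zero, ENNReal.toReal_ofReal hκ0.le, smul_eq_mul]
    ring
  have i2 : ∫ u in Ioc κ U, g u * E u ≤
      s1 * (c2 * (Real.sqrt Real.pi / 2) + c3 * ((∫ u in Ioc 0 U, G1 κ u) + κ * U)) := by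
    have hgi : IntegrableOn (fun u : ℝ => Real.exp (-u ^ 2)) (Ioi 0) := by
      have := integrable_exp_neg_mul_sq (b := 1) one_pos
      simp only [neg_mul, one_mul] at this
      exact this.integrableOn
    have hgi2 : IntegrableOn (fun u : ℝ => Real.exp (-u ^ 2)) (Ioc κ U) :=
      hgi.mono_set fun u hu => hκ0.trans hu.1
    have hci : IntegrableOn (fun _ : ℝ => κ) (Ioc κ U) := integrableOn_const (by simp)
    have : ∫ u in Ioc κ U, g u * E u ≤ ∫ u in Ioc κ U, s1 * (c2 * Real.exp (-u ^ 2) + c3 * (G1 κ u + κ)) := by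
      apply setIntegral_mono_on (hEi κ U) _ measurableSet_Ioc
      · intro u hu
        refine (mul_le_mul_of_nonneg_left (b2 u hu) (hg0 u)).trans (mul_le_mul_of_nonneg_right (hgs1 u ⟨hκ0.trans hu.1, hu.2⟩) ?_)
        have := G1_nonneg κ u
        positivity
      · exact ((hgi2.const_mul c2).add (((hG1i κ U).add hci).const_mul c3)).const_mul s1
    refine this.trans ?_
    rw [integral_const_mul]
    apply mul_le_mul_of_nonneg_left _ hs10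
    have hGc : IntegrableOn (fun u => G1 κ u + κ) (Ioc κ U) := (hG1i κ U).add hci
    have hGc3 : IntegrableOn (fun u => c3 * (G1 κ u + κ)) (Ioc κ U) := hGc.const_mul c3
    have hge2 : IntegrableOn (fun u : ℝ => c2 * Real.exp (-u ^ 2)) (Ioc κ U) := hgi2.const_mul c2
    rw [integral_add hge2 hGc3, integral_const_mul, integral_const_mul,
      integral_add (hG1i κ U) hci]
    have g1 : ∫ u in Ioc κ U, Real.exp (-u ^ 2) ≤ Real.sqrt Real.pi / 2 := by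
      have hg := integral_gaussian_Ioi 1
      simp only [neg_mul, one_mul, div_one] at hg
      rw [← hg]
      apply setIntegral_mono_set hgi
      · exact Eventually.of_forall fun u => (Real.exp_pos _).le
      · have hsub : Ioc κ U ⊆ Ioi 0 := fun u hu => hκ0.trans hu.1
        exact LE.le.eventuallyLE hsub
    have g2 : ∫ u in Ioc κ U, G1 κ u ≤ ∫ u in Ioc 0 U, G1 κ u := by
      apply setIntegral_mono_set (hG1i 0 U)
      · exact Eventually.of_forall fun u => G1_nonneg κ u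
      · have hsub : Ioc κ U ⊆ Ioc 0 U := Ioc_subset_Ioc_left hκ0.le
        exact LE.le.eventuallyLE hsub
    have g3 : ∫ _ in Ioc κ U, κ ≤ κ * U := by
      rw [setIntegral_const, measureReal_def, Real.volume_Ioc, ENNReal.toReal_ofReal (by linarith), smul_eq_mul]
      nlinarith
    have := mul_le_mul_of_nonneg_left g1 h2
    have := mul_le_mul_of_nonneg_left (add_le_add g2 g3) h3
    linarith
  have i3 : ∫ u in Ioc U M, g u * E u ≤ (∫ u in Ioc 0 M, g u * (A * G0 κ u + Bc * G1 κ u)) + s * (c4 * M) := by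
    have hci : IntegrableOn (fun _ : ℝ => s * c4) (Ioc U M) := integrableOn_const (by simp)
    have : ∫ u in Ioc U M, g u * E u ≤ ∫ u in Ioc U M, (g u * (A * G0 κ u + Bc * G1 κ u) + s * c4) := by
      apply setIntegral_mono_on (hEi U M) ((hAB U M).add hci) measurableSet_Ioc
      intro u hu
      refine (mul_le_mul_of_nonneg_left (b3 u hu) (hg0 u)).trans ?_
      rw [mul_add]
      exact add_le_add_right (mul_le_mul_of_nonneg_right (hgs u) h4) _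
    refine this.trans ?_
    rw [integral_add (hAB U M) hci]
    have g1 : ∫ u in Ioc U M, g u * (A * G0 κ u + Bc * G1 κ u) ≤ ∫ u in Ioc 0 M, g u * (A * G0 κ u + Bc * G1 κ u) := by
      apply setIntegral_mono_set (hAB 0 M)
      · refine Eventually.of_forall fun u => ?_
        have := G0_nonneg κ u
        have := G1_nonneg κ u
        have := hg0 u
        simp only [Pi.zero_apply]
        positivity
      · have hsub : Ioc U M ⊆ Ioc 0 M := Ioc_subset_Ioc_left (hκ0.le.trans hκU)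
        exact LE.le.eventuallyLE hsub
    have g2 : ∫ _ in Ioc U M, s * c4 ≤ s * (c4 * M) := by
      rw [setIntegral_const, measureReal_def, Real.volume_Ioc, ENNReal.toReal_ofReal (by linarith), smul_eq_mul]
      have : 0 ≤ s * c4 := mul_nonneg hs0 h4
      nlinarith
    linarith
  linarith

theorem swap2g (κ : ℝ) (hκ0 : 0 < κ) (hκ : κ ≤ 1) (g : ℝ → ℝ) (hGGn : ∀ u, 0 ≤ g u) (s : ℝ) (hs0 : 0 ≤ s) (hGGle : ∀ u, g u ≤ s)
    (A Bc M V0 : ℝ) (hA : 0 ≤ A) (hB : 0 ≤ Bc) (hM : 0 ≤ M) (hV0 : 0 ≤ V0) (G : ℝ → ℝ) (hGm : Measurable G)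
    (hG0 : ∀ v, 0 ≤ G v) (hH : ∀ u v, 0 ≤ u → |u - v| ≤ V0 → g u ≠ 0 → g u + 1 ≤ G v)
    (hGi : Integrable (fun v => fk κ v ^ 2 * G v)) :
    ∫ u in Ioc 0 M, g u * (A * G0 κ u + Bc * G1 κ u) ≤
      (A * Real.sqrt Real.pi + 3 * Bc * s) * (∫ v, fk κ v ^ 2 * G v) +
      (A + Bc) * s * Real.exp (-V0 ^ 2 / 4) * (K1 * (M * Real.exp M)) := by
  have hK1 := K1_nonneg
  have hfG0 : 0 ≤ ∫ v, fk κ v ^ 2 * G v := integral_nonneg fun v => mul_nonneg (sq_nonneg _) (hG0 v)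
  have hpi := Real.pi_gt_three
  have hpi4 := Real.pi_le_four
  apply int_le_of_lint
  · intro u
    have a1 : 0 ≤ G0 κ u := integral_nonneg fun v => mul_nonneg (sq_nonneg _) (Real.exp_pos _).le
    have a2 : 0 ≤ G1 κ u := integral_nonneg fun v => mul_nonneg (sq_nonneg _) (Real.exp_pos _).le
    have := hGGn u
    positivity
  · positivity
  have e1 : ∀ u : ℝ, ENNReal.ofReal (g u * (A * G0 κ u + Bc * G1 κ u)) =
      ∫⁻ v, ENNReal.ofReal (g u * (fk κ v ^ 2 * (A * Real.exp (-(u - v) ^ 2) + Bc * Real.exp (-(u - v) ^ 2 / 2)))) := by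
    intro u
    have i0 := G0_int κ u hκ0.le hκ
    have i1 := G1_int κ u hκ0.le hκ
    have e2 : g u * (A * G0 κ u + Bc * G1 κ u) =
        ∫ v, g u * (fk κ v ^ 2 * (A * Real.exp (-(u - v) ^ 2) + Bc * Real.exp (-(u - v) ^ 2 / 2))) := by
      unfold G0 G1
      rw [← integral_const_mul, ← integral_const_mul, ← integral_add (i0.const_mul A) (i1.const_mul Bc),
        ← integral_const_mul]
      apply integral_congr_ae
      refine Eventually.of_forall fun v => ?_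
      simp only
      ring
    rw [e2, ofReal_integral_eq_lintegral_ofReal]
    · refine (((i0.const_mul A).add (i1.const_mul Bc)).const_mul (g u)).congr (Eventually.of_forall fun v => ?_)
      simp only [Pi.add_apply]
      ring
    · refine Eventually.of_forall fun v => mul_nonneg (hGGn u) (mul_nonneg (sq_nonneg _) ?_)
      positivity
  simp_rw [e1]
  -- the pointwise inequality
  have hpt : ∀ u v : ℝ, 0 ≤ u → g u * (fk κ v ^ 2 * (A * Real.exp (-(u - v) ^ 2) + Bc * Real.exp (-(u - v) ^ 2 / 2))) ≤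
      fk κ v ^ 2 * G v * (A * Real.exp (-1 * (u - v) ^ 2) + Bc * s * Real.exp (-(1 / 2) * (u - v) ^ 2)) +
      (A + Bc) * s * Real.exp (-V0 ^ 2 / 4) * (fk κ v ^ 2 * Real.exp (-(u - v) ^ 2 / 4)) := by
    intro u v hu
    have hf := sq_nonneg (fk κ v)
    have hE1 : Real.exp (-1 * (u - v) ^ 2) = Real.exp (-(u - v) ^ 2) := by congr 1; ring
    have hE2 : Real.exp (-(1 / 2) * (u - v) ^ 2) = Real.exp (-(u - v) ^ 2 / 2) := by congr 1; ring
    rw [hE1, hE2]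
    have p1 := Real.exp_pos (-(u - v) ^ 2)
    have p2 := Real.exp_pos (-(u - v) ^ 2 / 2)
    have p3 := Real.exp_pos (-(u - v) ^ 2 / 4)
    rcases le_or_gt |u - v| V0 with h | h
    · have hterm : g u * (fk κ v ^ 2 * (A * Real.exp (-(u - v) ^ 2) + Bc * Real.exp (-(u - v) ^ 2 / 2))) ≤
          fk κ v ^ 2 * G v * (A * Real.exp (-(u - v) ^ 2) + Bc * s * Real.exp (-(u - v) ^ 2 / 2)) := by
        by_cases hz : g u = 0
        · rw [hz, zero_mul]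
          have := hG0 v
          positivity
        · have h1 := hH u v hu h hz
          have h2 : g u ≤ G v := by linarith
          have h3 : 1 ≤ G v := by linarith [hGGn u]
          have h4 : g u ≤ s * G v := by
            calc g u ≤ s := hGGle u
              _ = s * 1 := by ring
              _ ≤ s * G v := mul_le_mul_of_nonneg_left h3 hs0
          calc g u * (fk κ v ^ 2 * (A * Real.exp (-(u - v) ^ 2) + Bc * Real.exp (-(u - v) ^ 2 / 2))) =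
              fk κ v ^ 2 * (A * Real.exp (-(u - v) ^ 2)) * g u + fk κ v ^ 2 * (Bc * Real.exp (-(u - v) ^ 2 / 2)) *
                g u := by ring
            _ ≤ fk κ v ^ 2 * (A * Real.exp (-(u - v) ^ 2)) * G v + fk κ v ^ 2 * (Bc * Real.exp (-(u - v) ^ 2 / 2)) *
                (s * G v) := by gcongr
            _ = _ := by ring
      have : 0 ≤ (A + Bc) * s * Real.exp (-V0 ^ 2 / 4) * (fk κ v ^ 2 * Real.exp (-(u - v) ^ 2 / 4)) := by positivity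
      linarith
    · have hsq : V0 ^ 2 ≤ (u - v) ^ 2 := by
        rw [← sq_abs (u - v)]
        exact pow_le_pow_left₀ hV0 h.le 2
      have q1 : Real.exp (-(u - v) ^ 2) ≤ Real.exp (-V0 ^ 2 / 4) * Real.exp (-(u - v) ^ 2 / 4) := by
        rw [← Real.exp_add]
        apply Real.exp_le_exp.2
        nlinarith
      have q2 : Real.exp (-(u - v) ^ 2 / 2) ≤ Real.exp (-V0 ^ 2 / 4) * Real.exp (-(u - v) ^ 2 / 4) := by
        rw [← Real.exp_add]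
        apply Real.exp_le_exp.2
        nlinarith
      have hterm : g u * (fk κ v ^ 2 * (A * Real.exp (-(u - v) ^ 2) + Bc * Real.exp (-(u - v) ^ 2 / 2))) ≤
          (A + Bc) * s * Real.exp (-V0 ^ 2 / 4) * (fk κ v ^ 2 * Real.exp (-(u - v) ^ 2 / 4)) := by
        calc g u * (fk κ v ^ 2 * (A * Real.exp (-(u - v) ^ 2) + Bc * Real.exp (-(u - v) ^ 2 / 2))) ≤
            s * (fk κ v ^ 2 * (A * (Real.exp (-V0 ^ 2 / 4) * Real.exp (-(u - v) ^ 2 / 4)) +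
              Bc * (Real.exp (-V0 ^ 2 / 4) * Real.exp (-(u - v) ^ 2 / 4)))) := by
              have := hGGle u
              gcongr
          _ = _ := by ring
      have : 0 ≤ fk κ v ^ 2 * G v * (A * Real.exp (-(u - v) ^ 2) + Bc * s * Real.exp (-(u - v) ^ 2 / 2)) := by
        have := hG0 v
        positivity
      linarith
  have hhm : Measurable (fun v => fk κ v ^ 2 * G v) := ((fk_meas κ).pow_const 2).mul hGm
  have hh0 : ∀ v, 0 ≤ fk κ v ^ 2 * G v := fun v => mul_nonneg (sq_nonneg _) (hG0 v)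
  have hD : 0 ≤ (A + Bc) * s * Real.exp (-V0 ^ 2 / 4) := by positivity
  have hF1m' : ∀ u, Measurable (fun v => F1 (fun v => fk κ v ^ 2 * G v) A (Bc * s) u v) := fun u =>
    F1_meas' (fun v => fk κ v ^ 2 * G v) hhm A (Bc * s) u
  have step1 : ∫⁻ u in Ioc 0 M, ∫⁻ v, ENNReal.ofReal (g u * (fk κ v ^ 2 * (A * Real.exp (-(u - v) ^ 2) +
      Bc * Real.exp (-(u - v) ^ 2 / 2)))) ≤ ∫⁻ u in Ioc 0 M, ((∫⁻ v, F1 (fun v => fk κ v ^ 2 * G v) A (Bc * s) u v) +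
      ∫⁻ v, ENNReal.ofReal ((A + Bc) * s * Real.exp (-V0 ^ 2 / 4) * (fk κ v ^ 2 * Real.exp (-(u - v) ^ 2 / 4)))) := by
    apply setLIntegral_mono' measurableSet_Ioc
    intro u hu
    rw [← lintegral_add_left (hF1m' u)]
    apply lintegral_mono
    intro v
    unfold F1
    have hx1 := hh0 v
    beta_reduce
    rw [← ENNReal.ofReal_add (by positivity) (by positivity)]
    exact ENNReal.ofReal_le_ofReal (hpt u v hu.1.le)
  refine step1.trans ?_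
  have hF1u := F1_meas2 (fun v => fk κ v ^ 2 * G v) hhm A (Bc * s)
  rw [lintegral_add_left hF1u]
  have p1 := (setLIntegral_le_lintegral (Ioc 0 M) _).trans
    (part1 (fun v => fk κ v ^ 2 * G v) hhm hh0 hGi A (Bc * s) hA (mul_nonneg hB hs0))
  have p2 := part2 κ hκ0 hκ ((A + Bc) * s * Real.exp (-V0 ^ 2 / 4)) M hD
  refine (add_le_add p1 p2).trans (le_of_eq ?_)
  rw [← ENNReal.ofReal_add (mul_nonneg (by positivity) hfG0) (by positivity)]
  congr 1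
  ring

/-- the upper bound for fixed `κ` -/
lemma star_upg (κ ℓ η ε1 θ C a δ : ℝ) (N : ℕ) (hκ : 0 < κ) (hκ1 : κ ≤ 1) (hℓ : 1 ≤ ℓ) (hη : 0 < η)
    (hε1p : 0 < ε1) (hε1h : ε1 ≤ 1 / 2) (hδ : 0 < δ) (ha : 0 < a) (hC : 0 < C) (hθ0 : 0 < θ)
    (hθh : θ ≤ 1 / 2) (hθη : 108000 * ℓ * C * θ ≤ η / 16)
    (b1 : ∀ u : ℝ, 0 ≤ u → u ≤ 1 → EE κ a δ N u ≤ C * (κ * La κ ^ 2))
    (b2 : ∀ u : ℝ, κ ≤ u → u ≤ ℓ * La κ → EE κ a δ N u ≤
        (1 + ε1) * (1 / (2 * Real.pi)) * (κ * La κ ^ 2 * Real.exp (-u ^ 2)) * TT a δ N + C * (G1 κ u + κ))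
    (b3 : ∀ u : ℝ, κ ≤ u → u ≤ ℓ * La κ → EE κ a δ N u ≤
        (1 + ε1) ^ 2 / 2 * G0 κ u + C * (κ ^ 2 * G1 κ u) +
          C * (κ * (La κ ^ 2 * Real.exp (-u ^ 2) + Real.exp (-(2 * u)))))
    (hL1 : 1 ≤ La κ) (hLθ : 1 / θ ≤ La κ) (c1 : 8 * ℓ * C * κ ≤ η / 16)
    (c2 : (8 * ℓ * C * K0 * θ) * Real.exp (-(θ ^ 2 / 4) * La κ ^ 2) ≤ η / 16 * κ)
    (c3 : 8 * ℓ * C * θ * (16 / η) ≤ La κ)
    (c4 : (8 * (2 + C) * ℓ ^ 2 * K1) * Real.exp (ℓ * La κ - η ^ 2 / 4 * La κ ^ 2) ≤ η / 16 * κ)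
    (c5 : (8 * ℓ ^ 2 * C) * Real.exp (2 * La κ - θ ^ 2 * La κ ^ 2) ≤ η / 32 * κ)
    (c6 : 8 * ℓ ^ 2 * C * (32 / η) ≤ La κ) (c7 : 16 * C * ℓ * (La κ * κ ^ 2) ≤ ε1)
    (g : ℝ → ℝ) (hgm : Measurable g) (hg0 : ∀ u, 0 ≤ g u) (s1 : ℝ) (hs10 : 0 ≤ s1) (hs1M : s1 ≤ ℓ * La κ)
    (hgs : ∀ u, g u ≤ ℓ * La κ) (hgs1 : ∀ u ∈ Ioc 0 (θ * La κ), g u ≤ s1) (G : ℝ → ℝ) (hGm : Measurable G)
    (hG0 : ∀ v, 0 ≤ G v)
    (hH : ∀ u v, 0 ≤ u → |u - v| ≤ η * La κ → g u ≠ 0 → g u + 1 ≤ G v)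
    (hGi : Integrable (fun v => fk κ v ^ 2 * G v)) :
    4 * Real.sqrt Real.pi * (∫ u in Ioc 0 (ℓ * La κ), g u * EE κ a δ N u) ≤
      (1 + ε1) * TT a δ N * (κ * La κ ^ 2 * s1) +
      Real.pi * ((1 + ε1) ^ 2 + ε1) * (2 * ∫ v, fk κ v ^ 2 * G v) + η / 2 * (κ * La κ ^ 3) := by
  have hpi := Real.pi_gt_three
  have hpi4 := Real.pi_le_four
  have hsq := sqrt_pi_le
  have hsq0 : 0 ≤ Real.sqrt Real.pi := Real.sqrt_nonneg _
  have hsq2 : Real.sqrt Real.pi * Real.sqrt Real.pi = Real.pi := Real.mul_self_sqrt (by linarith)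
  have hK0 := K0_nonneg
  have hK1 := K1_nonneg
  generalize hΛ : La κ = Λ at *
  have hℓ0 : 0 < ℓ := by linarith
  have hΛ0 : 0 < Λ := by linarith
  obtain ⟨s, hs⟩ : ∃ s, s = ℓ * Λ := ⟨_, rfl⟩
  have hs0 : 0 ≤ s := by rw [hs]; positivity
  have hgs' : ∀ u, g u ≤ s := by rw [hs]; exact hgs
  have hs1s : s1 ≤ s := by rw [hs]; exact hs1M
  have hM0 : 0 ≤ ℓ * Λ := by positivity
  have hsM : s ≤ ℓ * Λ := hs.le
  set Φ := ∫ v, fk κ v ^ 2 * G v with hΦ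
  have hΦ0 : 0 ≤ Φ := integral_nonneg fun v => mul_nonneg (sq_nonneg _) (hG0 v)
  obtain ⟨U, hU⟩ : ∃ U, U = θ * Λ := ⟨_, rfl⟩
  have hU1 : 1 ≤ U := by
    rw [hU]
    rw [div_le_iff₀ hθ0] at hLθ
    linarith
  have hUM : U ≤ ℓ * Λ := by rw [hU]; exact mul_le_mul_of_nonneg_right (by linarith) hΛ0.le
  have hκU : κ ≤ U := hκ1.trans hU1
  have hTT0 : 0 ≤ TT a δ N := by
    unfold TT
    exact Finset.sum_nonneg fun j _ => by
      have := Wj_pos (a := a) hδ j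
      have := xj_pos ha hδ (j + 1)
      positivity
  have hspl := I_splitg κ hκ hκ1 g hgm hg0 s s1 hs10 hs0 hgs' (EE κ a δ N) (EE_cont κ a δ N) U (ℓ * Λ) (C * (κ * Λ ^ 2))
    ((1 + ε1) * (1 / (2 * Real.pi)) * (κ * Λ ^ 2) * TT a δ N) C
    (C * (κ * (Λ ^ 2 * Real.exp (-U ^ 2) + Real.exp (-(2 * U))))) ((1 + ε1) ^ 2 / 2) (C * κ ^ 2)
    hκU hUM (fun u hu => hgs1 u (hU ▸ hu)) (by positivity) (by positivity) hC.le (by positivity) (by positivity) (by positivity)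
    (fun u hu => b1 u hu.1.le (hu.2.trans hκ1))
    (fun u hu => (b2 u hu.1.le (hu.2.trans hUM)).trans (le_of_eq (by ring)))
    (fun u hu => by
      have h1 := b3 u (hκU.trans hu.1.le) hu.2
      have h2 : Real.exp (-u ^ 2) ≤ Real.exp (-U ^ 2) := Real.exp_le_exp.2 (by nlinarith [hu.1])
      have h3 : Real.exp (-(2 * u)) ≤ Real.exp (-(2 * U)) := Real.exp_le_exp.2 (by linarith [hu.1])
      have h4 : C * (κ * (Λ ^ 2 * Real.exp (-u ^ 2) + Real.exp (-(2 * u)))) ≤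
          C * (κ * (Λ ^ 2 * Real.exp (-U ^ 2) + Real.exp (-(2 * U)))) := by
        apply mul_le_mul_of_nonneg_left _ hC.le
        apply mul_le_mul_of_nonneg_left _ hκ.le
        exact add_le_add (mul_le_mul_of_nonneg_left h2 (by positivity)) h3
      linarith)
  have hfi : IntegrableOn (fun v => fk κ v ^ 2) (Iic (2 * U)) := by
    have := fk_wt_int κ 1 0 (2 * U) (2 * U) hκ hκ1 zero_le_one le_rfl le_rfl
    simpa using this
  have hsw1 := swap1 κ U hκ hκ1 (by linarith) hfi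
  have hcr := crude κ (2 * U) hκ hκ1 (by linarith)
    (by rw [hU, hΛ, ← mul_assoc]; exact (mul_le_mul_of_nonneg_right (by linarith : 2 * θ ≤ 1) hΛ0.le).trans (by linarith))
  have hsw2 := swap2g κ hκ hκ1 g hg0 s hs0 hgs' ((1 + ε1) ^ 2 / 2) (C * κ ^ 2) (ℓ * Λ) (η * Λ) (by positivity) (by positivity)
    hM0 (by positivity) G hGm hG0 hH hGi
  rw [← hΦ] at hsw2
  set I := ∫ u in Ioc 0 (ℓ * Λ), g u * EE κ a δ N u with hI
  set SW := ∫ u in Ioc 0 (ℓ * Λ), g u * ((1 + ε1) ^ 2 / 2 * G0 κ u + C * κ ^ 2 * G1 κ u) with hSW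
  set G1I := ∫ u in Ioc 0 U, G1 κ u with hG1I
  -- the error terms
  have hG1b : G1I ≤ 13500 * κ * U ^ 2 + K0 * U * Real.exp (-U ^ 2 / 4) := by
    have h1 : (1 + 2 * U) ^ 2 ≤ 9 * U ^ 2 := by nlinarith
    have h2 : 3 * (500 * κ * (1 + 2 * U) ^ 2) ≤ 13500 * κ * U ^ 2 := by nlinarith
    linarith
  have hexp1 : Real.exp (-U ^ 2 / 4) = Real.exp (-(θ ^ 2 / 4) * Λ ^ 2) := by rw [hU]; congr 1; ring
  have hκΛ3 : 0 ≤ κ * Λ ^ 3 := by positivity
  -- e1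
  have q1 : 8 * (s * (C * (κ * Λ ^ 2) * κ)) ≤ η / 16 * (κ * Λ ^ 3) := by
    have h1 : 8 * (s * (C * (κ * Λ ^ 2) * κ)) ≤ 8 * ((ℓ * Λ) * (C * (κ * Λ ^ 2) * κ)) := by
      have : 0 ≤ C * (κ * Λ ^ 2) * κ := by positivity
      have := mul_le_mul_of_nonneg_right hsM this
      linarith
    have h2 := mul_le_mul_of_nonneg_right c1 hκΛ3
    calc _ ≤ _ := h1
      _ = 8 * ℓ * C * κ * (κ * Λ ^ 3) := by ring
      _ ≤ _ := h2
  have q2a : 8 * (s * (C * (13500 * κ * U ^ 2))) ≤ η / 16 * (κ * Λ ^ 3) := by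
    have h0 : 0 ≤ C * (13500 * κ * U ^ 2) := by positivity
    have h1 := mul_le_mul_of_nonneg_right hsM h0
    have h2 : 108000 * ℓ * C * θ ^ 2 ≤ η / 16 := by
      have : θ ^ 2 ≤ θ := by nlinarith
      have := mul_le_mul_of_nonneg_left this (by positivity : 0 ≤ 108000 * ℓ * C)
      linarith
    have h3 := mul_le_mul_of_nonneg_right h2 hκΛ3
    calc _ ≤ 8 * (ℓ * Λ * (C * (13500 * κ * U ^ 2))) := by linarith
      _ = 108000 * ℓ * C * θ ^ 2 * (κ * Λ ^ 3) := by rw [hU]; ring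
      _ ≤ _ := h3
  have q2b : 8 * (s * (C * (K0 * U * Real.exp (-U ^ 2 / 4)))) ≤ η / 16 * (κ * Λ ^ 3) := by
    have h0 : 0 ≤ C * (K0 * U * Real.exp (-U ^ 2 / 4)) := by positivity
    have h1 := mul_le_mul_of_nonneg_right hsM h0
    have h3 := mul_le_mul_of_nonneg_right c2 (by positivity : 0 ≤ Λ ^ 2)
    have h4 : η / 16 * κ * Λ ^ 2 ≤ η / 16 * (κ * Λ ^ 3) := by
      have : κ * Λ ^ 2 * 1 ≤ κ * Λ ^ 2 * Λ := mul_le_mul_of_nonneg_left hL1 (by positivity)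
      have := mul_le_mul_of_nonneg_left this (by positivity : 0 ≤ η / 16)
      calc _ = η / 16 * (κ * Λ ^ 2 * 1) := by ring
        _ ≤ _ := this
        _ = _ := by ring
    calc _ ≤ 8 * (ℓ * Λ * (C * (K0 * U * Real.exp (-U ^ 2 / 4)))) := by linarith
      _ = 8 * ℓ * C * K0 * θ * Real.exp (-(θ ^ 2 / 4) * Λ ^ 2) * Λ ^ 2 := by rw [hexp1, hU]; ring
      _ ≤ _ := h3.trans h4
  have q2c : 8 * (s * (C * (κ * U))) ≤ η / 16 * (κ * Λ ^ 3) := by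
    have h0 : 0 ≤ C * (κ * U) := by positivity
    have h1 := mul_le_mul_of_nonneg_right hsM h0
    have h2 : 8 * ℓ * C * θ ≤ η / 16 * Λ := by
      have := mul_le_mul_of_nonneg_left c3 (by positivity : 0 ≤ η / 16)
      have e : η / 16 * (8 * ℓ * C * θ * (16 / η)) = 8 * ℓ * C * θ := by field_simp
      linarith
    have h3 := mul_le_mul_of_nonneg_right h2 (by positivity : 0 ≤ κ * Λ ^ 2)
    calc _ ≤ 8 * (ℓ * Λ * (C * (κ * U))) := by linarith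
      _ = 8 * ℓ * C * θ * (κ * Λ ^ 2) := by rw [hU]; ring
      _ ≤ _ := h3
      _ = _ := by ring
  have q3 : 24 * (C * κ ^ 2) * s ≤ 2 * 3 * ε1 := by
    have h1 := mul_le_mul_of_nonneg_left hsM (by positivity : 0 ≤ 24 * (C * κ ^ 2))
    calc _ ≤ _ := h1
      _ = 3 / 2 * (16 * C * ℓ * (Λ * κ ^ 2)) := by ring
      _ ≤ 3 / 2 * ε1 := by linarith
      _ ≤ _ := by linarith
  have q4 : 8 * (((1 + ε1) ^ 2 / 2 + C * κ ^ 2) * s * Real.exp (-(η * Λ) ^ 2 / 4) *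
      (K1 * (ℓ * Λ * Real.exp (ℓ * Λ)))) ≤ η / 16 * (κ * Λ ^ 3) := by
    have h0 : (1 + ε1) ^ 2 / 2 + C * κ ^ 2 ≤ 2 + C := by
      have : κ ^ 2 ≤ 1 := by nlinarith
      have := mul_le_mul_of_nonneg_left this hC.le
      nlinarith
    have h1 : ((1 + ε1) ^ 2 / 2 + C * κ ^ 2) * s ≤ (2 + C) * (ℓ * Λ) :=
      mul_le_mul h0 hsM hs0 (by positivity)
    have hE : 0 ≤ Real.exp (-(η * Λ) ^ 2 / 4) * (K1 * (ℓ * Λ * Real.exp (ℓ * Λ))) := by positivity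
    have h2 := mul_le_mul_of_nonneg_right h1 hE
    have hexp : Real.exp (-(η * Λ) ^ 2 / 4) * Real.exp (ℓ * Λ) = Real.exp (ℓ * Λ - η ^ 2 / 4 * Λ ^ 2) := by
      rw [← Real.exp_add]; congr 1; ring
    have h3 := mul_le_mul_of_nonneg_right c4 (by positivity : 0 ≤ Λ ^ 2)
    have h4 : η / 16 * κ * Λ ^ 2 ≤ η / 16 * (κ * Λ ^ 3) := by
      have : κ * Λ ^ 2 * 1 ≤ κ * Λ ^ 2 * Λ := mul_le_mul_of_nonneg_left hL1 (by positivity)
      have := mul_le_mul_of_nonneg_left this (by positivity : 0 ≤ η / 16)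
      calc _ = η / 16 * (κ * Λ ^ 2 * 1) := by ring
        _ ≤ _ := this
        _ = _ := by ring
    calc _ = 8 * (((1 + ε1) ^ 2 / 2 + C * κ ^ 2) * s * (Real.exp (-(η * Λ) ^ 2 / 4) * (K1 * (ℓ * Λ * Real.exp (ℓ * Λ))))) := by
          ring
      _ ≤ 8 * ((2 + C) * (ℓ * Λ) * (Real.exp (-(η * Λ) ^ 2 / 4) * (K1 * (ℓ * Λ * Real.exp (ℓ * Λ))))) := by linarith
      _ = 8 * (2 + C) * ℓ ^ 2 * K1 * (Real.exp (-(η * Λ) ^ 2 / 4) * Real.exp (ℓ * Λ)) * Λ ^ 2 := by ring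
      _ ≤ _ := by rw [hexp]; exact h3.trans h4
  have q5 : 8 * (s * (C * (κ * (Λ ^ 2 * Real.exp (-U ^ 2) + Real.exp (-(2 * U)))) * (ℓ * Λ))) ≤ η / 16 * (κ * Λ ^ 3) := by
    have h0 : 0 ≤ C * (κ * (Λ ^ 2 * Real.exp (-U ^ 2) + Real.exp (-(2 * U)))) * (ℓ * Λ) := by positivity
    have h1 := mul_le_mul_of_nonneg_right hsM h0
    have h2 : Λ ^ 2 * Real.exp (-U ^ 2) ≤ Real.exp (2 * Λ - θ ^ 2 * Λ ^ 2) := by
      have e1 : Λ ≤ Real.exp Λ := by linarith [Real.add_one_le_exp Λ]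
      have e2 : Λ ^ 2 ≤ Real.exp (2 * Λ) := by
        have := pow_le_pow_left₀ hΛ0.le e1 2
        rwa [← Real.exp_nat_mul, Nat.cast_ofNat] at this
      have e3 : Real.exp (2 * Λ - θ ^ 2 * Λ ^ 2) = Real.exp (2 * Λ) * Real.exp (-U ^ 2) := by
        rw [← Real.exp_add, hU]; congr 1; ring
      rw [e3]
      exact mul_le_mul_of_nonneg_right e2 (Real.exp_pos _).le
    have h3 : Real.exp (-(2 * U)) ≤ 1 := Real.exp_le_one_iff.2 (by linarith)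
    have h4 : 8 * ℓ ^ 2 * C ≤ η / 32 * Λ := by
      have := mul_le_mul_of_nonneg_left c6 (by positivity : 0 ≤ η / 32)
      have e : η / 32 * (8 * ℓ ^ 2 * C * (32 / η)) = 8 * ℓ ^ 2 * C := by field_simp
      linarith
    have h5 : 8 * ℓ ^ 2 * C * (Λ ^ 2 * Real.exp (-U ^ 2) + Real.exp (-(2 * U))) ≤ η / 16 * Λ := by
      have k1 := mul_le_mul_of_nonneg_left h2 (by positivity : 0 ≤ 8 * ℓ ^ 2 * C)
      have k2 := mul_le_mul_of_nonneg_left h3 (by positivity : 0 ≤ 8 * ℓ ^ 2 * C)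
      have k3 : η / 32 * κ ≤ η / 32 * Λ := mul_le_mul_of_nonneg_left (hκ1.trans hL1) (by positivity)
      linarith
    have h6 := mul_le_mul_of_nonneg_right h5 (by positivity : 0 ≤ κ * Λ ^ 2)
    calc _ ≤ 8 * (ℓ * Λ * (C * (κ * (Λ ^ 2 * Real.exp (-U ^ 2) + Real.exp (-(2 * U)))) * (ℓ * Λ))) := by linarith
      _ = 8 * ℓ ^ 2 * C * (Λ ^ 2 * Real.exp (-U ^ 2) + Real.exp (-(2 * U))) * (κ * Λ ^ 2) := by ring
      _ ≤ _ := h6
      _ = _ := by ring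
  -- put together
  have t1 : 4 * Real.sqrt Real.pi * (s * (C * (κ * Λ ^ 2) * κ)) ≤ 8 * (s * (C * (κ * Λ ^ 2) * κ)) :=
    mul_le_mul_of_nonneg_right (by linarith) (by positivity)
  have t2 : 4 * Real.sqrt Real.pi * (s1 * ((1 + ε1) * (1 / (2 * Real.pi)) * (κ * Λ ^ 2) * TT a δ N * (Real.sqrt Real.pi / 2))) =
      (1 + ε1) * TT a δ N * (κ * Λ ^ 2 * s1) := by
    calc _ = (Real.sqrt Real.pi * Real.sqrt Real.pi) * (1 / Real.pi) * ((1 + ε1) * TT a δ N * (κ * Λ ^ 2 * s1)) := by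
          field_simp; ring
      _ = _ := by rw [hsq2]; field_simp
  have t3 : 4 * Real.sqrt Real.pi * (s * (C * (G1I + κ * U))) ≤ 8 * (s * (C * (13500 * κ * U ^ 2))) +
      8 * (s * (C * (K0 * U * Real.exp (-U ^ 2 / 4)))) + 8 * (s * (C * (κ * U))) := by
    have h1 : s * (C * (G1I + κ * U)) ≤ s * (C * (13500 * κ * U ^ 2 + K0 * U * Real.exp (-U ^ 2 / 4) + κ * U)) := by
      apply mul_le_mul_of_nonneg_left _ hs0
      apply mul_le_mul_of_nonneg_left _ hC.le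
      linarith
    have h2 : 0 ≤ s * (C * (13500 * κ * U ^ 2 + K0 * U * Real.exp (-U ^ 2 / 4) + κ * U)) := by positivity
    calc _ ≤ 4 * Real.sqrt Real.pi * (s * (C * (13500 * κ * U ^ 2 + K0 * U * Real.exp (-U ^ 2 / 4) + κ * U))) :=
          mul_le_mul_of_nonneg_left h1 (by positivity)
      _ ≤ 8 * (s * (C * (13500 * κ * U ^ 2 + K0 * U * Real.exp (-U ^ 2 / 4) + κ * U))) :=
          mul_le_mul_of_nonneg_right (by linarith) h2
      _ = _ := by ring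
  have t4 : 4 * Real.sqrt Real.pi * SW ≤ Real.pi * ((1 + ε1) ^ 2 + ε1) * (2 * Φ) + η / 16 * (κ * Λ ^ 3) := by
    have h1 := mul_le_mul_of_nonneg_left hsw2 (by positivity : 0 ≤ 4 * Real.sqrt Real.pi)
    have h2 : 4 * Real.sqrt Real.pi * (((1 + ε1) ^ 2 / 2 + C * κ ^ 2) * s * Real.exp (-(η * Λ) ^ 2 / 4) *
      (K1 * (ℓ * Λ * Real.exp (ℓ * Λ)))) ≤ η / 16 * (κ * Λ ^ 3) :=
      le_trans (mul_le_mul_of_nonneg_right (by linarith) (by positivity)) q4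
    have h3 : 4 * Real.sqrt Real.pi * (((1 + ε1) ^ 2 / 2 * Real.sqrt Real.pi + 3 * (C * κ ^ 2) * s) * Φ) ≤
        Real.pi * ((1 + ε1) ^ 2 + ε1) * (2 * Φ) := by
      have k1 : 4 * Real.sqrt Real.pi * ((1 + ε1) ^ 2 / 2 * Real.sqrt Real.pi + 3 * (C * κ ^ 2) * s) ≤
          2 * Real.pi * ((1 + ε1) ^ 2 + ε1) := by
        have e1 : 4 * Real.sqrt Real.pi * ((1 + ε1) ^ 2 / 2 * Real.sqrt Real.pi + 3 * (C * κ ^ 2) * s) =
            2 * (Real.sqrt Real.pi * Real.sqrt Real.pi) * (1 + ε1) ^ 2 + Real.sqrt Real.pi * (12 * (C * κ ^ 2) * s) := by ring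
        rw [e1, hsq2]
        have e2 : Real.sqrt Real.pi * (12 * (C * κ ^ 2) * s) ≤ 2 * (12 * (C * κ ^ 2) * s) :=
          mul_le_mul_of_nonneg_right hsq (by positivity)
        have e3 : 2 * 3 * ε1 ≤ 2 * Real.pi * ε1 := mul_le_mul_of_nonneg_right (by linarith) hε1p.le
        linarith
      have := mul_le_mul_of_nonneg_right k1 hΦ0
      linarith
    linarith
  have t5 : 4 * Real.sqrt Real.pi * (s * (C * (κ * (Λ ^ 2 * Real.exp (-U ^ 2) + Real.exp (-(2 * U)))) * (ℓ * Λ))) ≤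
      8 * (s * (C * (κ * (Λ ^ 2 * Real.exp (-U ^ 2) + Real.exp (-(2 * U)))) * (ℓ * Λ))) :=
    mul_le_mul_of_nonneg_right (by linarith) (by positivity)
  have hG1I0 : 0 ≤ G1I := integral_nonneg fun u => G1_nonneg κ u
  have hU0 : 0 ≤ U := by linarith
  have m1 : s1 * (C * (κ * Λ ^ 2) * κ) ≤ s * (C * (κ * Λ ^ 2) * κ) := mul_le_mul_of_nonneg_right hs1s (by positivity)
  have m3 : s1 * (C * (G1I + κ * U)) ≤ s * (C * (G1I + κ * U)) := mul_le_mul_of_nonneg_right hs1s (by positivity)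
  have m1' := mul_le_mul_of_nonneg_left m1 (by positivity : 0 ≤ 4 * Real.sqrt Real.pi)
  have m3' := mul_le_mul_of_nonneg_left m3 (by positivity : 0 ≤ 4 * Real.sqrt Real.pi)
  have hfin := mul_le_mul_of_nonneg_left hspl (by positivity : 0 ≤ 4 * Real.sqrt Real.pi)
  have hηκ : 0 ≤ η * (κ * Λ ^ 3) := mul_nonneg hη.le hκΛ3
  linarith

theorem star_upg_ev (ℓ η ε1 θ C a δ : ℝ) (N : ℕ) (hℓ : 1 ≤ ℓ) (hη : 0 < η)
    (hε1p : 0 < ε1) (hε1h : ε1 ≤ 1 / 2) (hδ : 0 < δ) (ha : 0 < a) (hC : 0 < C) (hθ0 : 0 < θ)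
    (hθh : θ ≤ 1 / 2) (hθη : 108000 * ℓ * C * θ ≤ η / 16)
    (hE : ∀ᶠ κ in 𝓝[>] (0 : ℝ), (∀ u : ℝ, 0 ≤ u → u ≤ 1 → EE κ a δ N u ≤ C * (κ * La κ ^ 2)) ∧
      (∀ u : ℝ, κ ≤ u → u ≤ ℓ * La κ → EE κ a δ N u ≤
        (1 + ε1) * (1 / (2 * Real.pi)) * (κ * La κ ^ 2 * Real.exp (-u ^ 2)) * TT a δ N + C * (G1 κ u + κ)) ∧
      (∀ u : ℝ, κ ≤ u → u ≤ ℓ * La κ → EE κ a δ N u ≤
        (1 + ε1) ^ 2 / 2 * G0 κ u + C * (κ ^ 2 * G1 κ u) +
          C * (κ * (La κ ^ 2 * Real.exp (-u ^ 2) + Real.exp (-(2 * u)))))) :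
    ∀ᶠ κ in 𝓝[>] (0 : ℝ), ∀ g : ℝ → ℝ, Measurable g → (∀ u, 0 ≤ g u) → ∀ s1 : ℝ, 0 ≤ s1 → s1 ≤ ℓ * La κ →
      (∀ u, g u ≤ ℓ * La κ) → (∀ u ∈ Ioc 0 (θ * La κ), g u ≤ s1) →
      ∀ G : ℝ → ℝ, Measurable G → (∀ v, 0 ≤ G v) →
      (∀ u v, 0 ≤ u → |u - v| ≤ η * La κ → g u ≠ 0 → g u + 1 ≤ G v) →
      Integrable (fun v => fk κ v ^ 2 * G v) →
      4 * Real.sqrt Real.pi * (∫ u in Ioc 0 (ℓ * La κ), g u * EE κ a δ N u) ≤
      (1 + ε1) * TT a δ N * (κ * La κ ^ 2 * s1) +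
      Real.pi * ((1 + ε1) ^ 2 + ε1) * (2 * ∫ v, fk κ v ^ 2 * G v) + η / 2 * (κ * La κ ^ 3) := by
  have hK0 := K0_nonneg
  have hK1 := K1_nonneg
  have hℓ0 : 0 < ℓ := by linarith
  have e1 : ∀ᶠ κ in 𝓝[>] (0 : ℝ), 8 * ℓ * C * κ ≤ η / 16 := by
    filter_upwards [La_small (η / 16) (8 * ℓ * C) (by positivity) 0, self_mem_nhdsWithin] with κ h1 h2
    have hκ : 0 < κ := h2
    rwa [pow_zero, mul_one, le_div_iff₀ hκ] at h1
  have e2 := gauss_small' (θ ^ 2 / 4) (8 * ℓ * C * K0 * θ) (η / 16) (by positivity) (by positivity) (by positivity)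
  have e4 := gauss_small (η ^ 2 / 4) ℓ (8 * (2 + C) * ℓ ^ 2 * K1) (η / 16) (by positivity) (by positivity) (by positivity)
  have e5 := gauss_small (θ ^ 2) 2 (8 * ℓ ^ 2 * C) (η / 32) (by positivity) (by positivity) (by positivity)
  have e7 := sq_small (16 * C * ℓ) ε1 (by positivity) hε1p
  have eκ : ∀ᶠ κ in 𝓝[>] (0 : ℝ), 0 < κ := self_mem_nhdsWithin
  have eall := (hE.and (eκ.and (le_one_ev.and ((La_ge 1).and ((La_ge (1 / θ)).and (e1.and (e2.and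
    ((La_ge (8 * ℓ * C * θ * (16 / η))).and (e4.and (e5.and ((La_ge (8 * ℓ ^ 2 * C * (32 / η))).and e7)))))))))))
  refine eall.mono fun κ h => ?_
  obtain ⟨⟨b1, b2, b3⟩, hκ, hκ1, hL1, hLθ, c1, c2, c3, c4, c5, c6, c7⟩ := h
  intro g hgm hg0 s1 hs10 hs1M hgs hgs1 G hGm hG0 hH hGi
  exact star_upg κ ℓ η ε1 θ C a δ N hκ hκ1 hℓ hη hε1p hε1h hδ ha hC hθ0 hθh hθη b1 b2 b3 hL1 hLθ c1 c2 c3 c4 c5 c6 c7
    g hgm hg0 s1 hs10 hs1M hgs hgs1 G hGm hG0 hH hGi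


end Pool.Agent.L5helper12.PV
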