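import Pool.Agent.L5helper12.PV.RH

/-! The variance in the variable `x`. -/

set_option autoImplicit false

open Filter Topology Set MeasureTheory

namespace Pool.Agent.L5helper12.PV

open Pool.Agent.L5helper10.TV

/-- the integrand of the variance -/
noncomputable def gT (T x : ℝ) : ℝ := (Chebyshev.psi (x + x / T) - Chebyshev.psi x - x / T) ^ 2 / x ^ 2

lemma gT_nonneg (T x : ℝ) : 0 ≤ gT T x := by unfold gT; positivity

lemma log_count (c : ℝ) : ∀ᵐ v : ℝ, ∀ n : ℕ, v - c ≠ Real.log n := by
  rw [ae_all_iff]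
  intro n
  have : {v : ℝ | ¬ (v - c ≠ Real.log n)} = {Real.log n + c} := by
    ext v
    simp only [Set.mem_setOf_eq, not_not, Set.mem_singleton_iff]
    constructor
    · intro h; linarith
    · intro h; linarith
  rw [ae_iff, this]
  exact measure_singleton _

lemma gT_fk (T κ v : ℝ) (hκ : 0 < κ) (hT : Real.exp κ = 1 + 1 / T) (h : ∀ n : ℕ, v - κ / 2 ≠ Real.log n) :
    |Real.exp (v - κ / 2)| • gT T (Real.exp (v - κ / 2)) = Real.exp (κ / 2) * fk κ v ^ 2 := by
  have h1 := cnt_psi κ (v + κ / 2) hκ.le (fun n => by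
    rw [show v + κ / 2 - κ = v - κ / 2 by ring]
    exact h n)
  rw [show v + κ / 2 - κ / 2 = v by ring, show v + κ / 2 - κ = v - κ / 2 by ring] at h1
  set x := Real.exp (v - κ / 2) with hx
  have hx0 : 0 < x := Real.exp_pos _
  have e1 : x + x / T = Real.exp (v + κ / 2) := by
    have : x + x / T = x * (1 + 1 / T) := by ring
    rw [this, ← hT, hx, ← Real.exp_add]
    congr 1; ring
  have e2 : x / T = 2 * Real.sinh (κ / 2) * Real.exp v := by
    have : x / T = Real.exp (v + κ / 2) - x := by rw [← e1]; ring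
    rw [this, hx, Real.sinh_eq, show 2 * ((Real.exp (κ / 2) - Real.exp (-(κ / 2))) / 2) * Real.exp v =
      Real.exp (κ / 2) * Real.exp v - Real.exp (-(κ / 2)) * Real.exp v by ring, ← Real.exp_add, ← Real.exp_add]
    congr 2 <;> ring
  unfold gT
  rw [e1, e2, ← h1, abs_of_pos hx0, smul_eq_mul]
  unfold fk
  set y := cnt κ v - 2 * Real.sinh (κ / 2) * Real.exp v with hy
  have e3 : Real.exp (κ / 2) * (Real.exp (-v / 2) * y) ^ 2 = Real.exp (κ / 2 - v) * y ^ 2 := by
    rw [mul_pow, ← mul_assoc, sq (Real.exp (-v / 2)), ← Real.exp_add, ← Real.exp_add]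
    congr 2; ring
  have e4 : x * (y ^ 2 / x ^ 2) = x⁻¹ * y ^ 2 := by field_simp
  rw [e3, e4, hx, ← Real.exp_neg]
  congr 2; ring

lemma img (κ A B : ℝ) : (fun v : ℝ => Real.exp (v - κ / 2)) '' Ioc A B = Ioc (Real.exp (A - κ / 2)) (Real.exp (B - κ / 2)) := by
  ext x
  constructor
  · rintro ⟨v, hv, rfl⟩
    exact ⟨Real.exp_lt_exp.2 (by linarith [hv.1]), Real.exp_le_exp.2 (by linarith [hv.2])⟩
  · intro hx
    have hx0 : 0 < x := (Real.exp_pos _).trans hx.1
    refine ⟨Real.log x + κ / 2, ⟨?_, ?_⟩, ?_⟩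
    · have := (Real.lt_log_iff_exp_lt hx0).2 hx.1
      linarith
    · have := (Real.log_le_iff_le_exp hx0).2 hx.2
      linarith
    · simp only [add_sub_cancel_right]
      exact Real.exp_log hx0

theorem V_change (T κ A B : ℝ) (hκ : 0 < κ) (hκ1 : κ ≤ 1) (hT : Real.exp κ = 1 + 1 / T) (hAB : A ≤ B) :
    IntegrableOn (gT T) (Ioc (Real.exp (A - κ / 2)) (Real.exp (B - κ / 2))) ∧
    ∫ v in A..B, fk κ v ^ 2 = Real.exp (-(κ / 2)) * ∫ x in (Real.exp (A - κ / 2))..(Real.exp (B - κ / 2)), gT T x := by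
  have hd : ∀ v ∈ Ioc A B, HasDerivWithinAt (fun v : ℝ => Real.exp (v - κ / 2)) (Real.exp (v - κ / 2)) (Ioc A B) v := by
    intro v _
    have h1 : HasDerivAt (fun v : ℝ => Real.exp (v - κ / 2)) (Real.exp (v - κ / 2) * 1) v :=
      (((hasDerivAt_id v).sub_const (κ / 2))).exp
    rw [mul_one] at h1
    exact h1.hasDerivWithinAt
  have hinj : InjOn (fun v : ℝ => Real.exp (v - κ / 2)) (Ioc A B) := by
    intro v _ w _ hvw
    have := Real.exp_injective hvw
    linarith
  have hae : ∀ᵐ v ∂(volume.restrict (Ioc A B)), |Real.exp (v - κ / 2)| • gT T (Real.exp (v - κ / 2)) =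
      Real.exp (κ / 2) * fk κ v ^ 2 := by
    apply ae_restrict_of_ae
    filter_upwards [log_count (κ / 2)] with v hv
    exact gT_fk T κ v hκ hT hv
  constructor
  · rw [← img κ A B, integrableOn_image_iff_integrableOn_abs_deriv_smul measurableSet_Ioc hd hinj]
    have h1 := (fk2_ioc κ A B hκ hκ1).const_mul (Real.exp (κ / 2))
    exact h1.congr (hae.mono fun v hv => hv.symm)
  · have h1 := integral_image_eq_integral_abs_deriv_smul measurableSet_Ioc hd hinj (gT T)
    rw [img] at h1
    rw [intervalIntegral.integral_of_le hAB,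
      intervalIntegral.integral_of_le (Real.exp_le_exp.2 (by linarith)), h1, integral_congr_ae hae,
      integral_const_mul, ← mul_assoc, ← Real.exp_add, neg_add_cancel, Real.exp_zero, one_mul]

/-- the upper bound for the variance, in the variables of the literature -/
def UpperT : Prop := ∀ a b ε : ℝ, 1 ≤ a → a < b → 0 < ε → ∀ᶠ T in atTop,
  ∫ x in (T ^ a)..(T ^ b), gT T x ≤ (b - a + ε) * (Real.log T ^ 2 / T)

theorem UpperV_of_T (h : UpperT) : UpperV := by
  intro a b ε ha hab hε
  set η := ε / 4 with hη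
  have h1 := h a (b + η) (ε / 4) ha (by linarith) (by positivity)
  -- T as a function of κ
  have ht0 : Tendsto (fun κ : ℝ => Real.exp κ - 1) (𝓝[>] 0) (𝓝[>] 0) := by
    apply tendsto_nhdsWithin_of_tendsto_nhds_of_eventually_within
    · have : Tendsto (fun κ : ℝ => Real.exp κ - 1) (𝓝 0) (𝓝 (Real.exp 0 - 1)) :=
        (Real.continuous_exp.sub continuous_const).tendsto 0
      rw [Real.exp_zero, sub_self] at this
      exact this.mono_left nhdsWithin_le_nhds
    · filter_upwards [self_mem_nhdsWithin] with κ hκ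
      have : (0 : ℝ) < κ := hκ
      have := Real.add_one_lt_exp this.ne'
      show 0 < Real.exp κ - 1
      linarith
  have htT : Tendsto (fun κ : ℝ => (Real.exp κ - 1)⁻¹) (𝓝[>] 0) atTop := tendsto_inv_nhdsGT_zero.comp ht0
  have hsm : ∀ᶠ κ : ℝ in 𝓝[>] 0, κ < min 1 (ε / (4 * (b - a + ε) + 1)) :=
    eventually_nhdsWithin_of_eventually_nhds (eventually_lt_nhds (by
      have : 0 < b - a := by linarith
      positivity))
  have hLa : ∀ᶠ κ : ℝ in 𝓝[>] 0, b / η + 1 ≤ La κ := by
    have : Tendsto La (𝓝[>] 0) atTop := tendsto_neg_atBot_atTop.comp Real.tendsto_log_nhdsGT_zero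
    exact this.eventually_ge_atTop _
  filter_upwards [htT.eventually h1, htT.eventually_gt_atTop 1, self_mem_nhdsWithin, hsm, hLa]
    with κ g1 g2 hκ0 g3 g4
  have hκ : 0 < κ := hκ0
  have hκ1 : κ < 1 := lt_of_lt_of_le g3 (min_le_left _ _)
  have hκ2 : κ < ε / (4 * (b - a + ε) + 1) := lt_of_lt_of_le g3 (min_le_right _ _)
  set T := (Real.exp κ - 1)⁻¹ with hT
  have hT0 : 0 < T := by linarith
  have hTe : Real.exp κ = 1 + 1 / T := by rw [hT]; field_simp; ring
  have hL : 0 < Real.log T := Real.log_pos g2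
  obtain ⟨-, hch⟩ := V_change T κ (a * La κ) (b * La κ) hκ hκ1.le hTe
    (mul_le_mul_of_nonneg_right hab.le (by
      have : 0 ≤ b / η := by
        have : 0 < b := by linarith
        positivity
      linarith))
  rw [hch]
  -- comparison of T and 1/κ
  have hlow : κ / 2 ≤ La κ - Real.log T := by
    have e1 : Real.log T = -Real.log (Real.exp κ - 1) := by rw [hT, Real.log_inv]
    rw [e1]
    unfold La
    have e2 : Real.exp κ - 1 = Real.exp (κ / 2) * (2 * Real.sinh (κ / 2)) := by
      rw [Real.sinh_eq, show Real.exp (κ / 2) * (2 * ((Real.exp (κ / 2) - Real.exp (-(κ / 2))) / 2)) =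
        Real.exp (κ / 2) * Real.exp (κ / 2) - Real.exp (κ / 2) * Real.exp (-(κ / 2)) by ring, ← Real.exp_add,
        ← Real.exp_add, add_neg_cancel, Real.exp_zero]
      congr 2; ring
    have hs := sinh_half_ge κ hκ.le
    have hs0 : 0 < 2 * Real.sinh (κ / 2) := by linarith
    rw [e2, Real.log_mul (Real.exp_pos _).ne' hs0.ne', Real.log_exp]
    have := Real.log_le_log hκ hs
    linarith
  have hexp : Real.exp κ - 1 ≤ κ + κ ^ 2 := by
    have := Real.abs_exp_sub_one_sub_id_le (x := κ) (by rw [abs_of_pos hκ]; exact hκ1.le)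
    have := (abs_le.1 this).2
    linarith
  have hup : La κ - Real.log T ≤ κ := by
    have e1 : Real.log T = -Real.log (Real.exp κ - 1) := by rw [hT, Real.log_inv]
    rw [e1]
    unfold La
    have e2 : Real.exp κ - 1 ≤ κ * Real.exp κ := by
      have := Real.add_one_le_exp (-κ)
      have h2 : Real.exp κ * (-κ + 1) ≤ Real.exp κ * Real.exp (-κ) := mul_le_mul_of_nonneg_left this (Real.exp_pos _).le
      rw [← Real.exp_add, add_neg_cancel, Real.exp_zero] at h2
      linarith
    have h0 : 0 < Real.exp κ - 1 := by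
      have := Real.add_one_lt_exp hκ.ne'
      linarith
    have := Real.log_le_log h0 e2
    rw [Real.log_mul hκ.ne' (Real.exp_pos _).ne', Real.log_exp] at this
    linarith
  have hΛ1 : 1 ≤ La κ := by
    have : 0 ≤ b / η := by
      have : 0 < b := by linarith
      positivity
    linarith
  have b1 : T ^ a ≤ Real.exp (a * La κ - κ / 2) := by
    rw [Real.rpow_def_of_pos hT0]
    apply Real.exp_le_exp.2
    nlinarith
  have b2 : Real.exp (b * La κ - κ / 2) ≤ T ^ (b + η) := by
    rw [Real.rpow_def_of_pos hT0]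
    apply Real.exp_le_exp.2
    have hη0 : 0 < η := by positivity
    have hb0 : 0 < b := by linarith
    have e1 : b * La κ ≤ b * (Real.log T + κ) := mul_le_mul_of_nonneg_left (by linarith) hb0.le
    have e2 : b / η ≤ Real.log T := by linarith
    rw [div_le_iff₀ hη0] at e2
    have e3 : b * κ ≤ b := by nlinarith
    linarith
  have b3 : Real.exp (a * La κ - κ / 2) ≤ Real.exp (b * La κ - κ / 2) := by
    apply Real.exp_le_exp.2
    nlinarith
  have hint : IntervalIntegrable (gT T) volume (T ^ a) (T ^ (b + η)) := by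
    rw [intervalIntegrable_iff_integrableOn_Ioc_of_le (b1.trans (b3.trans b2))]
    have hle : a * Real.log T + κ / 2 ≤ (b + η) * Real.log T + κ / 2 := by
      have hη0 : 0 < η := by positivity
      have : a * Real.log T ≤ (b + η) * Real.log T := mul_le_mul_of_nonneg_right (by linarith) hL.le
      linarith
    have h2 := (V_change T κ (a * Real.log T + κ / 2) ((b + η) * Real.log T + κ / 2) hκ hκ1.le hTe hle).1
    rw [add_sub_cancel_right, add_sub_cancel_right] at h2
    rw [Real.rpow_def_of_pos hT0, Real.rpow_def_of_pos hT0, mul_comm (Real.log T), mul_comm (Real.log T)]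
    exact h2
  have b4 : ∫ x in (Real.exp (a * La κ - κ / 2))..(Real.exp (b * La κ - κ / 2)), gT T x ≤
      ∫ x in (T ^ a)..(T ^ (b + η)), gT T x := by
    apply intervalIntegral.integral_mono_interval b1 b3 b2
    · exact Eventually.of_forall fun x => gT_nonneg T x
    · exact hint
  have b5 : 0 ≤ ∫ x in (Real.exp (a * La κ - κ / 2))..(Real.exp (b * La κ - κ / 2)), gT T x :=
    intervalIntegral.integral_nonneg b3 fun x _ => gT_nonneg T x
  have b6 : Real.exp (-(κ / 2)) ≤ 1 := by rw [Real.exp_le_one_iff]; linarith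
  have b7 : Real.log T ^ 2 / T ≤ La κ ^ 2 * (κ * (1 + κ)) := by
    have e1 : Real.log T ^ 2 ≤ La κ ^ 2 := pow_le_pow_left₀ hL.le (by linarith) 2
    have e2 : 1 / T ≤ κ * (1 + κ) := by linarith
    rw [div_eq_mul_one_div]
    exact mul_le_mul e1 e2 (by positivity) (by positivity)
  have b8 : (b - a + ε / 2) * (1 + κ) ≤ b - a + ε := by
    rw [lt_div_iff₀ (by nlinarith)] at hκ2
    have : 0 < b - a := by linarith
    nlinarith
  calc Real.exp (-(κ / 2)) * ∫ x in (Real.exp (a * La κ - κ / 2))..(Real.exp (b * La κ - κ / 2)), gT T x ≤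
        1 * ∫ x in (Real.exp (a * La κ - κ / 2))..(Real.exp (b * La κ - κ / 2)), gT T x :=
          mul_le_mul_of_nonneg_right b6 b5
    _ ≤ (b + η - a + ε / 4) * (Real.log T ^ 2 / T) := by rw [one_mul]; exact b4.trans g1
    _ ≤ (b + η - a + ε / 4) * (La κ ^ 2 * (κ * (1 + κ))) := by
        apply mul_le_mul_of_nonneg_left b7
        have : 0 < b - a := by linarith
        have : 0 < η := by positivity
        linarith
    _ = (b - a + ε / 2) * (1 + κ) * (κ * La κ ^ 2) := by rw [hη]; ring
    _ ≤ (b - a + ε) * (κ * La κ ^ 2) := mul_le_mul_of_nonneg_right b8 (by positivity)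

end Pool.Agent.L5helper12.PV
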