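import Pool.Agent.L5helper12.PV.Wt
import Pool.Agent.W190.A17

/-! The upper half of the variance asymptotics implies the Riemann hypothesis. -/

set_option autoImplicit false

open Filter Topology Set MeasureTheory

namespace Pool.Agent.L5helper12.PV

open Pool.Agent.L5helper10.TV

lemma cnt_psi (κ v : ℝ) (hκ : 0 ≤ κ) (h : ∀ n : ℕ, v - κ ≠ Real.log n) :
    cnt κ (v - κ / 2) = Chebyshev.psi (Real.exp v) - Chebyshev.psi (Real.exp (v - κ)) := by
  rw [cnt_eq_sum, show v - κ / 2 + κ / 2 = v by ring]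
  unfold Chebyshev.psi
  have hle : ⌊Real.exp (v - κ)⌋₊ ≤ ⌊Real.exp v⌋₊ := Nat.floor_le_floor (Real.exp_le_exp.2 (by linarith))
  have h1 : ∑ n ∈ Finset.Ioc 0 ⌊Real.exp (v - κ)⌋₊, ArithmeticFunction.vonMangoldt n =
      ∑ n ∈ Finset.Ioc 0 ⌊Real.exp v⌋₊, if n ∈ Finset.Ioc 0 ⌊Real.exp (v - κ)⌋₊ then
        ArithmeticFunction.vonMangoldt n else 0 := by
    rw [Finset.sum_ite_mem, Finset.inter_eq_right.2 (Finset.Ioc_subset_Ioc_right hle)]
  rw [h1, ← Finset.sum_sub_distrib]
  apply Finset.sum_congr rfl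
  intro n hn
  obtain ⟨hn1, hn2⟩ := Finset.mem_Ioc.1 hn
  have hn0 : (0 : ℝ) < n := by exact_mod_cast hn1
  have hnv : Real.log n ≤ v := by
    rw [Real.log_le_iff_le_exp hn0]
    exact (Nat.le_floor_iff (Real.exp_pos _).le).1 hn2
  by_cases hc : v - κ < Real.log n
  · have h2 : |Real.log n - (v - κ / 2)| ≤ κ / 2 := abs_le.2 ⟨by linarith, by linarith⟩
    have h3 : n ∉ Finset.Ioc 0 ⌊Real.exp (v - κ)⌋₊ := by
      intro hmem
      have h4 := (Nat.le_floor_iff (Real.exp_pos _).le).1 (Finset.mem_Ioc.1 hmem).2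
      have h5 : Real.exp (v - κ) < n := by
        rw [← Real.lt_log_iff_exp_lt hn0]; exact hc
      linarith
    rw [if_pos h2, if_neg h3, sub_zero]
  · have hc' : Real.log n < v - κ := lt_of_le_of_ne (not_lt.1 hc) (h n).symm
    have h2 : ¬ |Real.log n - (v - κ / 2)| ≤ κ / 2 := by
      intro h3
      have := (abs_le.1 h3).1
      linarith
    have h3 : n ∈ Finset.Ioc 0 ⌊Real.exp (v - κ)⌋₊ := by
      refine Finset.mem_Ioc.2 ⟨hn1, (Nat.le_floor_iff (Real.exp_pos _).le).2 ?_⟩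
      rw [← Real.log_le_iff_le_exp hn0]; exact hc'.le
    rw [if_neg h2, if_pos h3, sub_self]

lemma fk_exp (κ v : ℝ) : cnt κ v - 2 * Real.sinh (κ / 2) * Real.exp v = Real.exp (v / 2) * fk κ v := by
  unfold fk
  rw [← mul_assoc, ← Real.exp_add, show v / 2 + -v / 2 = 0 by ring, Real.exp_zero, one_mul]

lemma delta_sum (κ v : ℝ) (hκ : 0 ≤ κ) (h : ∀ j n : ℕ, v - (j + 1) * κ ≠ Real.log n) (J : ℕ) :
    Chebyshev.psi (Real.exp v) - Real.exp v = (∑ j ∈ Finset.range J,
      Real.exp ((v - (j + 1 / 2) * κ) / 2) * fk κ (v - (j + 1 / 2) * κ)) +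
      (Chebyshev.psi (Real.exp (v - J * κ)) - Real.exp (v - J * κ)) := by
  induction J with
  | zero => simp
  | succ J ih =>
    rw [ih, Finset.sum_range_succ, ← fk_exp]
    have h1 := cnt_psi κ (v - J * κ) hκ (fun n => by
      have := h J n
      rw [show v - J * κ - κ = v - (J + 1) * κ by ring]
      exact this)
    rw [show v - J * κ - κ / 2 = v - (J + 1 / 2) * κ by ring, show v - J * κ - κ = v - ((J + 1 : ℕ) : ℝ) * κ by
      push_cast; ring] at h1
    rw [h1]
    have h2 : 2 * Real.sinh (κ / 2) * Real.exp (v - (J + 1 / 2) * κ) =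
        Real.exp (v - J * κ) - Real.exp (v - ((J + 1 : ℕ) : ℝ) * κ) := by
      rw [Real.sinh_eq, show 2 * ((Real.exp (κ / 2) - Real.exp (-(κ / 2))) / 2) * Real.exp (v - (J + 1 / 2) * κ) =
        Real.exp (κ / 2) * Real.exp (v - (J + 1 / 2) * κ) - Real.exp (-(κ / 2)) * Real.exp (v - (J + 1 / 2) * κ) by ring,
        ← Real.exp_add, ← Real.exp_add]
      congr 1
      · congr 1; ring
      · congr 1; push_cast; ring
    rw [h2]
    ring

lemma psi_small (w : ℝ) (hw : w ≤ 0) : |Chebyshev.psi (Real.exp w) - Real.exp w| ≤ 1 := by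
  have h1 : Real.exp w ≤ 1 := Real.exp_le_one_iff.2 hw
  have h2 : Chebyshev.psi (Real.exp w) = 0 := by
    unfold Chebyshev.psi
    apply Finset.sum_eq_zero
    intro n hn
    obtain ⟨hn1, hn2⟩ := Finset.mem_Ioc.1 hn
    have h3 : (n : ℝ) ≤ 1 := ((Nat.le_floor_iff (Real.exp_pos _).le).1 hn2).trans h1
    have h4 : n ≤ 1 := by exact_mod_cast h3
    have h5 : n = 1 := by omega
    rw [h5]; simp
  rw [h2, zero_sub, abs_neg, abs_of_pos (Real.exp_pos _)]
  exact h1

lemma delta_le (κ v : ℝ) (hκ : 0 ≤ κ) (h : ∀ j n : ℕ, v - (j + 1) * κ ≠ Real.log n) (J : ℕ) (hJ : v ≤ J * κ) :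
    |Chebyshev.psi (Real.exp v) - Real.exp v| ≤ Real.exp (v / 2) * (∑ j ∈ Finset.range J,
      |fk κ (v - (j + 1 / 2) * κ)|) + 1 := by
  rw [delta_sum κ v hκ h J]
  refine (abs_add_le _ _).trans (add_le_add ?_ (psi_small _ (by linarith)))
  refine (Finset.abs_sum_le_sum_abs _ _).trans ?_
  rw [Finset.mul_sum]
  apply Finset.sum_le_sum
  intro j _
  rw [abs_mul, abs_of_pos (Real.exp_pos _)]
  apply mul_le_mul_of_nonneg_right _ (abs_nonneg _)
  apply Real.exp_le_exp.2
  have : 0 ≤ ((j : ℝ) + 1 / 2) * κ := by positivity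
  linarith

lemma ae_good (κ : ℝ) : ∀ᵐ v : ℝ, ∀ j n : ℕ, v - (j + 1) * κ ≠ Real.log n := by
  rw [ae_all_iff]
  intro j
  rw [ae_all_iff]
  intro n
  have : ∀ᵐ v : ℝ, v ≠ Real.log n + (j + 1) * κ := by
    rw [ae_iff]
    simp
  filter_upwards [this] with v hv h
  exact hv (by linarith)

lemma abs_int_le (κ A R M : ℝ) (hκ : 0 < κ) (hκ1 : κ ≤ 1) (hR : 0 < R) (s : ℝ) (hs : 0 ≤ s)
    (hM : ∫ v in Iic (A + 1), fk κ v ^ 2 ≤ M) :
    ∫ v in Ioc A (A + 1), |fk κ (v - s)| ≤ R * M + 1 / R := by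
  have hfi : ∀ B, IntegrableOn (fun v => fk κ v ^ 2) (Iic B) := by
    intro B
    have := fk_wt_int κ 1 0 B B hκ hκ1 zero_le_one le_rfl le_rfl
    simpa using this
  have h1 : ∫ v in Ioc A (A + 1), |fk κ (v - s)| = ∫ v in Ioc (A - s) (A + 1 - s), |fk κ v| := by
    rw [← intervalIntegral.integral_of_le (by linarith), ← intervalIntegral.integral_of_le (by linarith)]
    exact intervalIntegral.integral_comp_sub_right (fun v => |fk κ v|) s
  rw [h1]
  have hi2 : IntegrableOn (fun v => fk κ v ^ 2) (Ioc (A - s) (A + 1 - s)) := (hfi (A + 1 - s)).mono_set fun v hv => hv.2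
  have hi3 : IntegrableOn (fun _ : ℝ => 1 / R) (Ioc (A - s) (A + 1 - s)) := integrableOn_const (by simp)
  have h2 : ∫ v in Ioc (A - s) (A + 1 - s), |fk κ v| ≤ ∫ v in Ioc (A - s) (A + 1 - s), (R * fk κ v ^ 2 + 1 / R) := by
    apply integral_mono_of_nonneg (Eventually.of_forall fun v => abs_nonneg _) ((hi2.const_mul R).add hi3)
    refine Eventually.of_forall fun v => ?_
    show |fk κ v| ≤ R * fk κ v ^ 2 + 1 / R
    rw [← sq_abs (fk κ v)]
    have h3 : 0 ≤ (R * |fk κ v| - 1) ^ 2 := sq_nonneg _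
    have h4 : R * (R * |fk κ v| ^ 2 + 1 / R - |fk κ v|) = (R * |fk κ v| - 1) ^ 2 + R * |fk κ v| := by
      field_simp
      ring
    have h5 : 0 ≤ R * (R * |fk κ v| ^ 2 + 1 / R - |fk κ v|) := by
      rw [h4]; positivity
    have := nonneg_of_mul_nonneg_right h5 hR
    linarith
  refine h2.trans ?_
  rw [integral_add (hi2.const_mul R) hi3, integral_const_mul, setIntegral_const, measureReal_def, Real.volume_Ioc,
    ENNReal.toReal_ofReal (by linarith), smul_eq_mul]
  have h6 : ∫ v in Ioc (A - s) (A + 1 - s), fk κ v ^ 2 ≤ M := by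
    refine le_trans ?_ hM
    apply setIntegral_mono_set (hfi (A + 1))
    · exact Eventually.of_forall fun v => sq_nonneg _
    · have hsub : Ioc (A - s) (A + 1 - s) ⊆ Iic (A + 1) := fun v hv => by
        have := hv.2
        simp only [Set.mem_Iic]
        linarith
      exact LE.le.eventuallyLE hsub
  have := mul_le_mul_of_nonneg_left h6 hR.le
  have e : (A + 1 - s - (A - s)) * (1 / R) = 1 / R := by ring
  rw [e]
  linarith

lemma l1_bound (κ A M : ℝ) (hκ : 0 < κ) (hκ1 : κ ≤ 1) (hA : 0 ≤ A) (hM0 : 0 ≤ M)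
    (hM : ∫ v in Iic (A + 1), fk κ v ^ 2 ≤ κ * M) :
    ∫ v in Ioc A (A + 1), Real.exp v * |Chebyshev.psi (Real.exp v) - Real.exp v| ≤
      Real.exp (3 / 2 * (A + 1)) * ((A + 2) * (M + 1) * Real.exp (La κ / 2)) + Real.exp (A + 1) := by
  have hfi : ∀ B, IntegrableOn (fun v => fk κ v ^ 2) (Iic B) := by
    intro B
    have := fk_wt_int κ 1 0 B B hκ hκ1 zero_le_one le_rfl le_rfl
    simpa using this
  set J : ℕ := ⌈(A + 1) / κ⌉₊ with hJ
  have hJ1 : A + 1 ≤ J * κ := by
    have := Nat.le_ceil ((A + 1) / κ)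
    rw [div_le_iff₀ hκ] at this
    exact this
  have hJ2 : (J : ℝ) * κ ≤ A + 2 := by
    have := Nat.ceil_lt_add_one (show 0 ≤ (A + 1) / κ by positivity)
    have h2 : (J : ℝ) * κ ≤ ((A + 1) / κ + 1) * κ := mul_le_mul_of_nonneg_right this.le hκ.le
    have h3 : ((A + 1) / κ + 1) * κ = A + 1 + κ := by field_simp
    linarith
  -- integrability
  have hfs : ∀ s : ℝ, 0 ≤ s → IntegrableOn (fun v => |fk κ (v - s)|) (Ioc A (A + 1)) := by
    intro s hs
    refine Integrable.of_bound ((((fk_meas κ).comp (measurable_id.sub_const s)).abs).aestronglyMeasurable)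
      (10 * Real.exp ((A + 1) / 2)) ?_
    refine ae_restrict_of_forall_mem measurableSet_Ioc fun v hv => ?_
    rw [Real.norm_eq_abs, abs_abs]
    refine (fk_le κ (v - s) hκ.le hκ1).trans ?_
    apply mul_le_mul_of_nonneg_left _ (by norm_num)
    apply Real.exp_le_exp.2
    linarith [hv.2]
  have hcst : ∀ c : ℝ, IntegrableOn (fun _ : ℝ => c) (Ioc A (A + 1)) := fun c => integrableOn_const (by simp)
  have hsumi : IntegrableOn (fun v => ∑ j ∈ Finset.range J, |fk κ (v - ((j : ℝ) + 1 / 2) * κ)|) (Ioc A (A + 1)) :=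
    integrable_finsetSum _ fun j _ => hfs _ (by positivity)
  have h1 : ∫ v in Ioc A (A + 1), Real.exp v * |Chebyshev.psi (Real.exp v) - Real.exp v| ≤
      ∫ v in Ioc A (A + 1), (Real.exp (3 / 2 * (A + 1)) * (∑ j ∈ Finset.range J, |fk κ (v - ((j : ℝ) + 1 / 2) * κ)|) +
        Real.exp (A + 1)) := by
    apply integral_mono_of_nonneg
    · exact Eventually.of_forall fun v => by positivity
    · exact (hsumi.const_mul _).add (hcst _)
    · have h2 : ∀ᵐ v ∂(volume.restrict (Ioc A (A + 1))), ∀ j n : ℕ, v - (j + 1) * κ ≠ Real.log n :=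
        ae_restrict_of_ae (ae_good κ)
      filter_upwards [h2, ae_restrict_mem measurableSet_Ioc] with v hv hvA
      have h3 := delta_le κ v hκ.le hv J (by linarith [hvA.2])
      have h4 : 0 ≤ ∑ j ∈ Finset.range J, |fk κ (v - ((j : ℝ) + 1 / 2) * κ)| :=
        Finset.sum_nonneg fun _ _ => abs_nonneg _
      calc Real.exp v * |Chebyshev.psi (Real.exp v) - Real.exp v| ≤ Real.exp v * (Real.exp (v / 2) *
            (∑ j ∈ Finset.range J, |fk κ (v - ((j : ℝ) + 1 / 2) * κ)|) + 1) :=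
            mul_le_mul_of_nonneg_left h3 (Real.exp_pos _).le
        _ = Real.exp (v + v / 2) * (∑ j ∈ Finset.range J, |fk κ (v - ((j : ℝ) + 1 / 2) * κ)|) + Real.exp v := by
            rw [Real.exp_add]; ring
        _ ≤ _ := by
            apply add_le_add
            · apply mul_le_mul_of_nonneg_right _ h4
              apply Real.exp_le_exp.2
              linarith [hvA.2]
            · exact Real.exp_le_exp.2 hvA.2
  refine h1.trans ?_
  rw [integral_add (hsumi.const_mul _) (hcst _), integral_const_mul, setIntegral_const, measureReal_def,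
    Real.volume_Ioc, ENNReal.toReal_ofReal (by linarith), smul_eq_mul,
    integral_finsetSum _ (fun j _ => hfs _ (by positivity))]
  have hRexp : Real.exp (La κ / 2) * Real.exp (La κ / 2) = 1 / κ := by
    rw [← Real.exp_add, ← exp_La hκ]; congr 1; ring
  have h5 : ∑ j ∈ Finset.range J, ∫ v in Ioc A (A + 1), |fk κ (v - ((j : ℝ) + 1 / 2) * κ)| ≤
      (A + 2) * (M + 1) * Real.exp (La κ / 2) := by
    set R := Real.exp (La κ / 2) with hR
    have hR0 : 0 < R := Real.exp_pos _
    have hRR : κ * R * R = 1 := by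
      rw [mul_assoc, hRexp]; field_simp
    calc _ ≤ ∑ j ∈ Finset.range J, (R * (κ * M) + 1 / R) :=
          Finset.sum_le_sum fun j _ => abs_int_le κ A R (κ * M) hκ hκ1 hR0 _ (by positivity) hM
      _ = J * (R * (κ * M) + 1 / R) := by rw [Finset.sum_const, Finset.card_range, nsmul_eq_mul]
      _ = (J * κ) * (M + 1) * R := by
          have : 1 / R = κ * R := by rw [div_eq_iff hR0.ne']; linarith
          rw [this]; ring
      _ ≤ _ := by gcongr
  have h6 := mul_le_mul_of_nonneg_left h5 (Real.exp_pos (3 / 2 * (A + 1))).le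
  linarith

theorem rh_of_U (hU : UpperV) : RiemannHypothesis := by
  rw [W190.rh_free]
  intro s hs hz
  set θ : ℝ := (1 / 2 + s.re) / 2 with hθ
  have hθ1 : 1 / 2 < θ := by rw [hθ]; linarith
  have hθs : θ < s.re := by rw [hθ]; linarith
  set q : ℝ := θ - 1 / 2 with hq
  have hq0 : 0 < q := by rw [hq]; linarith
  set b : ℝ := 3 / q + 2 with hb
  have hb2 : 2 ≤ b := by
    have : 0 < 3 / q := by positivity
    rw [hb]; linarith
  have hqb : 3 ≤ q * b := by
    rw [hb, mul_add, mul_div_cancel₀ _ hq0.ne']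
    linarith
  have hwin := W190.mangoldt_window (κ := 0) (θ := θ) (c := Real.exp 1 - 1) (δ := 1 / 2) le_rfl
    (by linarith [Real.add_one_le_exp (1 : ℝ)]) (by norm_num) hθ1.le (by nlinarith [sq_nonneg (2 * θ - 1)]) ⟨s, hz, hθs⟩
  -- pull back along κ
  have htend : Tendsto (fun κ : ℝ => Real.exp (b * La κ - 1)) (𝓝[>] (0 : ℝ)) atTop := by
    apply Real.tendsto_exp_atTop.comp
    have h1 : Tendsto (fun κ : ℝ => b * La κ) (𝓝[>] (0 : ℝ)) atTop := La_tendsto.const_mul_atTop (by linarith)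
    simpa [sub_eq_add_neg] using tendsto_atTop_add_const_right _ (-1) h1
  have hev := htend.eventually hwin
  have hpoly : ∀ᶠ L : ℝ in atTop, (b * L + 1) * ((500 * (1 + L) ^ 2 + b * L ^ 2) + 1) + 1 ≤ Real.exp (L / 2) := by
    have h1 : (fun L : ℝ => (b * L + 1) * ((500 * (1 + L) ^ 2 + b * L ^ 2) + 1) + 1) =o[atTop] fun L => Real.exp (L / 2) := by
      have e : (fun L : ℝ => (b * L + 1) * ((500 * (1 + L) ^ 2 + b * L ^ 2) + 1) + 1) = fun L =>
          (b * (500 + b)) * L ^ 3 + (1000 * b + 500 + b) * L ^ 2 + (501 * b + 1000) * L ^ 1 + 502 * L ^ 0 := by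
        funext L; ring
      rw [e]
      have hp : ∀ k : ℕ, (fun L : ℝ => L ^ k) =o[atTop] fun L => Real.exp (L / 2) := by
        intro k
        have := isLittleO_pow_exp_pos_mul_atTop k (show (0 : ℝ) < 1 / 2 by norm_num)
        refine this.congr_right fun L => ?_
        congr 1; ring
      exact ((((hp 3).const_mul_left _).add ((hp 2).const_mul_left _)).add ((hp 1).const_mul_left _)).add
        ((hp 0).const_mul_left _)
    have h2 := h1.bound (show (0 : ℝ) < 1 by norm_num)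
    filter_upwards [h2] with L hL
    rw [one_mul, Real.norm_eq_abs, Real.norm_eq_abs, abs_of_pos (Real.exp_pos _)] at hL
    exact (le_abs_self _).trans hL
  have hpκ := La_tendsto.eventually hpoly
  have hκU := hU 1 b 1 le_rfl (by linarith) one_pos
  obtain ⟨κ, h1, h2, h3, hκ1, hL, h5⟩ := (hev.and (hpκ.and (hκU.and (le_one_ev2.and
    ((La_ge (4 + 4 * (1 + θ))).and self_mem_nhdsWithin))))).exists
  have hκ : 0 < κ := h5
  have hθ1' : θ < 1 := hθs.trans (W190.zero_FF hz).2
  obtain ⟨L, hLdef⟩ : ∃ L, L = La κ := ⟨_, rfl⟩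
  rw [← hLdef] at h1 h2 h3 hL
  have hL8 : 8 ≤ L := by linarith
  have hbL : 16 ≤ b * L := by nlinarith
  have hPdeg : ((Polynomial.X : Polynomial ℝ).natDegree : ℝ) ≤ Real.log (Real.exp (b * L - 1)) ^ (1 / 2 : ℝ) := by
    rw [Polynomial.natDegree_X, Real.log_exp]
    push_cast
    exact Real.one_le_rpow (by linarith) (by norm_num)
  have h6 := h1 Polynomial.X hPdeg
  have hwinE : Real.exp (b * L - 1) + (Real.exp 1 - 1) * Real.exp (b * L - 1) /
      Real.log (Real.exp (b * L - 1)) ^ (0 : ℝ) = Real.exp (b * L - 1 + 1) := by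
    rw [Real.rpow_zero, div_one, Real.exp_add]; ring
  rw [hwinE, W190.exp_change _ (by linarith)] at h6
  have h7 : ∫ v in Ioc (b * L - 1) (b * L - 1 + 1), Real.exp v *
      |W190.SF (fun n => ArithmeticFunction.vonMangoldt n) (Real.exp v) - (Polynomial.X : Polynomial ℝ).eval (Real.exp v)| =
      ∫ v in Ioc (b * L - 1) (b * L - 1 + 1), Real.exp v * |Chebyshev.psi (Real.exp v) - Real.exp v| := by
    congr 1
    funext v
    rw [W190.SF_psi, Polynomial.eval_X]
  rw [h7] at h6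
  -- the mean square
  have hM : ∫ v in Iic (b * L - 1 + 1), fk κ v ^ 2 ≤ κ * (500 * (1 + L) ^ 2 + b * L ^ 2) := by
    rw [show b * L - 1 + 1 = b * L by ring]
    have hLb : L ≤ b * L := by nlinarith
    have hfi : ∀ B, IntegrableOn (fun v => fk κ v ^ 2) (Iic B) := by
      intro B
      have := fk_wt_int κ 1 0 B B hκ hκ1 zero_le_one le_rfl le_rfl
      simpa using this
    have hsp : ∫ v in Iic (b * L), fk κ v ^ 2 = (∫ v in Iic L, fk κ v ^ 2) + ∫ v in L..(b * L), fk κ v ^ 2 := by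
      have hdis : Disjoint (Iic L) (Ioc L (b * L)) := Set.disjoint_left.2 fun x hx hx2 => not_lt.2 hx hx2.1
      rw [intervalIntegral.integral_of_le hLb, ← setIntegral_union hdis measurableSet_Ioc (hfi L)
        ((hfi (b * L)).mono_set fun v hv => hv.2), Iic_union_Ioc_eq_Iic hLb]
    have hcr := crude κ L hκ hκ1 (by linarith) hLdef.le
    rw [one_mul] at h3
    rw [hsp]
    nlinarith
  have h8 := l1_bound κ (b * L - 1) _ hκ hκ1 (by linarith) (by positivity) hM
  rw [← hLdef, show b * L - 1 + 1 = b * L by ring, show b * L - 1 + 2 = b * L + 1 by ring] at h8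
  rw [show b * L - 1 + 1 = b * L by ring] at h6
  have h9 := h6.trans_le h8
  -- contradiction
  have hlow : Real.exp ((3 / 2 * b + 1) * L) ≤ Real.exp (b * L - 1) ^ (1 + θ) := by
    rw [← Real.exp_mul]
    apply Real.exp_le_exp.2
    have : θ = q + 1 / 2 := by rw [hq]; ring
    rw [this] at hL ⊢
    nlinarith
  have hup : Real.exp (3 / 2 * (b * L)) * ((b * L + 1) * ((500 * (1 + L) ^ 2 + b * L ^ 2) + 1) * Real.exp (L / 2)) +
      Real.exp (b * L) ≤ Real.exp ((3 / 2 * b + 1) * L) := by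
    have e1 : Real.exp ((3 / 2 * b + 1) * L) = Real.exp (3 / 2 * (b * L)) * (Real.exp (L / 2) * Real.exp (L / 2)) := by
      rw [← Real.exp_add, ← Real.exp_add]; congr 1; ring
    have e2 : Real.exp (b * L) ≤ Real.exp (3 / 2 * (b * L)) * Real.exp (L / 2) := by
      rw [← Real.exp_add]
      apply Real.exp_le_exp.2
      linarith
    rw [e1]
    have e3 := mul_le_mul_of_nonneg_right h2 (by positivity : 0 ≤ Real.exp (3 / 2 * (b * L)) * Real.exp (L / 2))
    linarith
  linarith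

end Pool.Agent.L5helper12.PV
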