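import Pool.Agent.L5helper12.PV.QL
import Pool.Agent.L5helper12.PV.RH

/-! Bounds for the Fejer transform of the density. -/

set_option autoImplicit false

open Filter Topology Set MeasureTheory H370

namespace Pool.Agent.L5helper12.PV

open Pool.Agent.L5helper10.TV hiding GG

lemma MS_ii {k : ℝ → ℝ} (hk : Continuous k) (ℓ : ℕ) (P : Finset ℂ) (L : ℝ) (φ : ℝ → ℝ) (t0 t1 : ℝ) (h : t0 ≤ t1)
    (hφ : ContinuousOn φ (Icc t0 t1)) :
    IntegrableOn (fun u => k (u / L) * (∫ t in t0..t1, φ t * ‖SP P u t‖ ^ 2)) (Ioc 0 (ℓ * L)) := by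
  have hint : Integrable (Function.uncurry fun u t => k (u / L) * (φ t * ‖SP P u t‖ ^ 2))
      ((volume.restrict (Ioc 0 (ℓ * L))).prod (volume.restrict (Ioc t0 t1))) := by
    rw [Measure.prod_restrict]
    have h1 : IntegrableOn (Function.uncurry fun u t => k (u / L) * (φ t * ‖SP P u t‖ ^ 2))
        (Icc 0 (ℓ * L) ×ˢ Icc t0 t1) (volume.prod volume) := by
      apply ContinuousOn.integrableOn_compact (isCompact_Icc.prod isCompact_Icc)
      have h2 := SP_cont_c P (fun p : ℝ × ℝ => p.1) (fun p => p.2) continuous_fst continuous_snd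
      apply ContinuousOn.mul
      · exact (hk.comp (by fun_prop : Continuous fun p : ℝ × ℝ => p.1 / L)).continuousOn
      · apply ContinuousOn.mul
        · exact hφ.comp continuous_snd.continuousOn fun p hp => hp.2
        · exact (h2.norm.pow 2).continuousOn
    exact h1.mono_set (Set.prod_mono Ioc_subset_Icc_self Ioc_subset_Icc_self)
  have h3 := hint.integral_prod_left
  refine h3.congr (Eventually.of_forall fun u => ?_)
  simp only [Function.uncurry, intervalIntegral.integral_of_le h]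
  rw [integral_const_mul]

lemma rem_ev (D ε : ℝ) (hε : 0 < ε) : ∀ᶠ T in atTop, D * (Real.log T / T ^ 2) ≤ ε := by
  filter_upwards [eventually_ge_atTop (max 1 (|D| / ε))] with T hT
  have h1 : 1 ≤ T := (le_max_left _ _).trans hT
  have h2 : |D| / ε ≤ T := (le_max_right _ _).trans hT
  have hT0 : 0 < T := by linarith
  rw [div_le_iff₀ hε] at h2
  have h3 : Real.log T ≤ T := (Real.log_le_sub_one_of_pos hT0).trans (by linarith)
  have h4 : 0 ≤ Real.log T := Real.log_nonneg h1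
  calc D * (Real.log T / T ^ 2) ≤ |D| * (T / T ^ 2) :=
        mul_le_mul (le_abs_self D) (div_le_div_of_nonneg_right h3 (by positivity)) (by positivity) (abs_nonneg _)
    _ = |D| / T := by field_simp
    _ ≤ ε := by rw [div_le_iff₀ hT0]; linarith

lemma sqpi : Real.sqrt Real.pi ≤ 2 := by
  rw [Real.sqrt_le_left (by norm_num)]
  linarith [Real.pi_le_four]

lemma f_cont (κ c t0 t1 : ℝ) (h0 : 0 < t0) : ContinuousOn (fun t => (qf κ t - c) / t ^ 2) (Icc t0 t1) := by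
  apply ContinuousOn.div ((qf_cont κ).sub continuous_const).continuousOn (continuous_pow 2).continuousOn
  intro t ht
  have : 0 < t := lt_of_lt_of_le h0 ht.1
  positivity

lemma xj_ge (a δ : ℝ) (N : ℕ) (hδ : 0 < δ) : a ≤ xj a δ N := by
  unfold xj
  have : 0 ≤ (N : ℝ) * δ := by positivity
  linarith

theorem G1 (hU : UpperV) {k : ℝ → ℝ} {ℓ : ℕ} {C B : ℝ} (h : KW k ℓ C B) (X a δ : ℝ) (N : ℕ) (hX : 0 < X) (ha : 0 < a)
    (hδ : 0 < δ) (hδa : δ ≤ a / 2) (ε : ℝ) (hε : 0 < ε) : ∀ᶠ T in atTop,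
    (1 - 2 * δ / a) * (∫ y in (a / X)..(xj a δ N / X), (qf X y - 5 * δ) / y ^ 2 * NU k ℓ T y) ≤
      X * (TT a δ N * k 0 + Real.pi * (2 * Jm k ℓ) + ε) := by
  have RH := rh_of_U hU
  have hpi := Real.pi_pos
  set M := TT a δ N * k 0 + Real.pi * (2 * Jm k ℓ) with hM
  have hM0 : 0 ≤ M := by
    have h1 := TT_nonneg a δ N ha hδ
    have h2 := h.nn 0
    have h3 := Jm_nonneg h
    positivity
  set η := min 1 (ε / (16 * (M + 1))) with hη
  have hη0 : 0 < η := by positivity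
  have hη1 : η ≤ 1 := min_le_left _ _
  have hη2 : η * M ≤ ε / 16 := by
    have h1 : η ≤ ε / (16 * (M + 1)) := min_le_right _ _
    calc η * M ≤ ε / (16 * (M + 1)) * M := mul_le_mul_of_nonneg_right h1 hM0
      _ = ε / 16 * (M / (M + 1)) := by field_simp
      _ ≤ ε / 16 * 1 := by
        apply mul_le_mul_of_nonneg_left _ (by positivity)
        rw [div_le_one (by positivity)]; linarith
      _ = _ := by ring
  obtain ⟨CE, hCE0, hCE⟩ := EE_SP RH X a δ N hX ha hδ hδa η hη0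
  filter_upwards [hCE, (kap_tendsto X hX).eventually (Qup hU h a δ N ha hδ hδa (ε / 16) (by positivity)),
    QL hU h X a δ N hX ha hδ hδa (ε / 256) (by positivity), ratio_ev X hX η hη0,
    rem_ev (8 * CE * B * ℓ * X ^ 3) (X * ε / 4) (by positivity), eventually_ge_atTop 4,
    (kap_tendsto X hX).eventually self_mem_nhdsWithin] with T q1 q2 q3 q4 q5 q6 q7
  have hκ : 0 < X / T := q7
  have hT0 : 0 < T := by linarith
  have hL : 0 < Real.log T := Real.log_pos (by linarith)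
  have hfub := NU_fub h.cont ℓ T X a (xj a δ N) (5 * δ) q6 hX ha (xj_ge a δ N hδ)
  have hab' : a / (X / T) ≤ xj a δ N / (X / T) := div_le_div_of_nonneg_right (xj_ge a δ N hδ) hκ.le
  have hkc := h.cont
  have hEc := EE_cont (X / T) a δ N
  have hci : ∀ f : ℝ → ℝ, Continuous f → IntegrableOn f (Ioc 0 (ℓ * Real.log T)) := fun f hf =>
    hf.continuousOn.integrableOn_Icc.mono_set Ioc_subset_Icc_self
  have hii := MS_ii hkc ℓ (Zw T) (Real.log T) (fun t => (qf (X / T) t - 5 * δ) / t ^ 2) _ _ hab'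
    (f_cont (X / T) (5 * δ) _ _ (div_pos ha hκ))
  have f1 : (1 - 2 * δ / a) * (∫ u in Ioc 0 (ℓ * Real.log T), k (u / Real.log T) *
      (∫ t in (a / (X / T))..(xj a δ N / (X / T)), (qf (X / T) t - 5 * δ) / t ^ 2 * ‖SP (Zw T) u t‖ ^ 2)) ≤
      (1 + η) * (∫ u in Ioc 0 (ℓ * Real.log T), k (u / Real.log T) * EE (X / T) a δ N u) +
      CE * ((X / T) ^ 3 * Real.log T ^ 2) * (B * (ℓ * Real.log T)) := by
    have e1 : ∫ _u in Ioc 0 (ℓ * Real.log T), CE * ((X / T) ^ 3 * Real.log T ^ 2) * B =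
        CE * ((X / T) ^ 3 * Real.log T ^ 2) * (B * (ℓ * Real.log T)) := by
      rw [setIntegral_const, Real.volume_real_Ioc_of_le (by positivity), smul_eq_mul]; ring
    rw [← e1, ← integral_const_mul, ← integral_const_mul, ← integral_add ((hci _ (by fun_prop)).const_mul _)
      (hci _ (by fun_prop))]
    apply setIntegral_mono_on (hii.const_mul _) (hci _ (by fun_prop)) measurableSet_Ioc
    intro u hu
    have g1 := (q1 u).2
    have g2 := h.nn (u / Real.log T)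
    have g3 := h.bd (u / Real.log T)
    have g4 := mul_le_mul_of_nonneg_left g1 g2
    have g5 : k (u / Real.log T) * (CE * ((X / T) ^ 3 * Real.log T ^ 2)) ≤ CE * ((X / T) ^ 3 * Real.log T ^ 2) * B := by
      rw [mul_comm]
      exact mul_le_mul_of_nonneg_left g3 (by positivity)
    linarith
  have hsq0 := Real.sqrt_nonneg Real.pi
  have hsq2 := sqpi
  generalize (∫ u in Ioc 0 (ℓ * Real.log T), k (u / Real.log T) *
      (∫ t in (a / (X / T))..(xj a δ N / (X / T)), (qf (X / T) t - 5 * δ) / t ^ 2 * ‖SP (Zw T) u t‖ ^ 2)) = K at *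
  generalize (∫ u in Ioc 0 (ℓ * Real.log T), k (u / Real.log T) * EE (X / T) a δ N u) = E1 at *
  generalize (∫ u in Ioc 0 (ℓ * La (X / T)), k (u / La (X / T)) * EE (X / T) a δ N u) = E2 at *
  generalize (∫ y in (a / X)..(xj a δ N / X), (qf X y - 5 * δ) / y ^ 2 * NU k ℓ T y) = Y at *
  generalize Real.sqrt Real.pi = s at *
  have f2 : E1 ≤ E2 + ε / 256 * (X / T * Real.log T ^ 2) := by linarith [(abs_le.1 q3).2]
  have f3 : La (X / T) ^ 2 ≤ (1 + η) * Real.log T ^ 2 := by linarith [(abs_le.1 q4).2]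
  generalize La (X / T) = Λ at *
  have hB0 := h.B0
  generalize Real.log T = L at *
  -- combine
  have hL2T : 0 < L ^ 2 / T := by positivity
  rw [← mul_le_mul_iff_right₀ hL2T]
  have c1 : L ^ 2 / T * ((1 - 2 * δ / a) * Y) = 4 * s * ((1 - 2 * δ / a) * K) := by
    calc L ^ 2 / T * ((1 - 2 * δ / a) * Y) = (1 - 2 * δ / a) * (L ^ 2 / T * Y) := by ring
      _ = (1 - 2 * δ / a) * (4 * s * K) := by rw [hfub]
      _ = _ := by ring
  rw [c1]
  have c2 : 4 * s * ((1 - 2 * δ / a) * K) ≤ 4 * s * ((1 + η) * E1 + CE * ((X / T) ^ 3 * L ^ 2) * (B * (ℓ * L))) :=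
    mul_le_mul_of_nonneg_left f1 (by positivity)
  have c3 : 4 * s * ((1 + η) * E1) ≤ (1 + η) * (4 * s * E2 + ε / 32 * (X / T * L ^ 2)) := by
    have d1 : 4 * s * ((1 + η) * E1) ≤ 4 * s * ((1 + η) * (E2 + ε / 256 * (X / T * L ^ 2))) := by gcongr
    have d2 : s * (ε / 256 * (X / T * L ^ 2)) ≤ 2 * (ε / 256 * (X / T * L ^ 2)) :=
      mul_le_mul_of_nonneg_right hsq2 (by positivity)
    have d3 := mul_le_mul_of_nonneg_left d2 (by positivity : 0 ≤ 4 * (1 + η))
    linarith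
  have c4 : (1 + η) * (4 * s * E2 + ε / 32 * (X / T * L ^ 2)) ≤
      (1 + η) * ((M + ε / 16) * (X / T * ((1 + η) * L ^ 2)) + ε / 32 * (X / T * L ^ 2)) := by
    apply mul_le_mul_of_nonneg_left _ (by positivity)
    have d1 : (M + ε / 16) * (X / T * Λ ^ 2) ≤ (M + ε / 16) * (X / T * ((1 + η) * L ^ 2)) := by gcongr
    linarith
  have c5 : 4 * s * (CE * ((X / T) ^ 3 * L ^ 2) * (B * (ℓ * L))) ≤ L ^ 2 / T * (X * ε / 4) := by
    have d1 : 4 * s * (CE * ((X / T) ^ 3 * L ^ 2) * (B * (ℓ * L))) ≤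
        4 * 2 * (CE * ((X / T) ^ 3 * L ^ 2) * (B * (ℓ * L))) := by gcongr
    have d2 : 4 * 2 * (CE * ((X / T) ^ 3 * L ^ 2) * (B * (ℓ * L))) =
        L ^ 2 / T * ((8 * CE * B * ℓ * X ^ 3) * (L / T ^ 2)) := by field_simp; ring
    rw [d2] at d1
    exact d1.trans (mul_le_mul_of_nonneg_left q5 hL2T.le)
  have c6 : (1 + η) * ((M + ε / 16) * (X / T * ((1 + η) * L ^ 2)) + ε / 32 * (X / T * L ^ 2)) =
      L ^ 2 / T * (X * ((1 + η) * ((M + ε / 16) * (1 + η) + ε / 32))) := by field_simp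
  have c7 : (1 + η) * ((M + ε / 16) * (1 + η) + ε / 32) ≤ M + 3 * ε / 4 := by
    have d1 : (1 + η) * (1 + η) ≤ 1 + 3 * η := by nlinarith
    have d2 : (1 + η) * ((M + ε / 16) * (1 + η) + ε / 32) = (1 + η) * (1 + η) * (M + ε / 16) + (1 + η) * (ε / 32) := by
      ring
    rw [d2]
    have d3 : (1 + η) * (1 + η) * (M + ε / 16) ≤ (1 + 3 * η) * (M + ε / 16) :=
      mul_le_mul_of_nonneg_right d1 (by positivity)
    have d4 : η * ε ≤ ε := by nlinarith
    nlinarith
  have c8 : L ^ 2 / T * (X * ((1 + η) * ((M + ε / 16) * (1 + η) + ε / 32))) ≤ L ^ 2 / T * (X * (M + 3 * ε / 4)) := by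
    gcongr
  have c9 : L ^ 2 / T * (X * (M + ε)) = L ^ 2 / T * (X * (M + 3 * ε / 4)) + L ^ 2 / T * (X * ε / 4) := by ring
  linarith

theorem G2 (hU : UpperV) {k : ℝ → ℝ} {ℓ : ℕ} {C B : ℝ} (h : KW k ℓ C B) (ε : ℝ) (hε : 0 < ε) :
    ∃ a δ : ℝ, ∃ N : ℕ, 0 < a ∧ 0 < δ ∧ ∀ X : ℝ, 0 < X → ∀ᶠ T in atTop,
    X * (Real.pi * (k 0 + 2 * Jm k ℓ) - ε) ≤
      ∫ y in (a / X)..(xj a δ N / X), qf X y / y ^ 2 * NU k ℓ T y := by
  have RH := rh_of_U hU
  have hpi := Real.pi_pos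
  set Q := Real.pi * (k 0 + 2 * Jm k ℓ) with hQ
  have hQ0 : 0 ≤ Q := by
    have h2 := h.nn 0
    have h3 := Jm_nonneg h
    positivity
  set η := min (1 / 2) (ε / (16 * (Q + 1))) with hη
  have hη0 : 0 < η := by positivity
  have hη1 : η ≤ 1 / 2 := min_le_left _ _
  have hη2 : η * Q ≤ ε / 16 := by
    have h1 : η ≤ ε / (16 * (Q + 1)) := min_le_right _ _
    calc η * Q ≤ ε / (16 * (Q + 1)) * Q := mul_le_mul_of_nonneg_right h1 hQ0
      _ = ε / 16 * (Q / (Q + 1)) := by field_simp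
      _ ≤ ε / 16 * 1 := by
        apply mul_le_mul_of_nonneg_left _ (by positivity)
        rw [div_le_one (by positivity)]; linarith
      _ = _ := by ring
  obtain ⟨a, δ, N, ha, hδ, hδa, hlow⟩ := Qlow hU h (ε / 4) (by positivity)
  refine ⟨a, δ, N, ha, hδ, fun X hX => ?_⟩
  obtain ⟨CE, hCE0, hCE⟩ := EE_SP RH X a δ N hX ha hδ hδa η hη0
  filter_upwards [hCE, (kap_tendsto X hX).eventually hlow,
    QL hU h X a δ N hX ha hδ hδa (ε / 128) (by positivity), ratio_ev X hX η hη0,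
    rem_ev (8 * CE * B * ℓ * X ^ 3) (X * ε / 8) (by positivity), eventually_ge_atTop 4,
    (kap_tendsto X hX).eventually self_mem_nhdsWithin] with T q1 q2 q3 q4 q5 q6 q7
  have hκ : 0 < X / T := q7
  have hT0 : 0 < T := by linarith
  have hL : 0 < Real.log T := Real.log_pos (by linarith)
  have hfub := NU_fub h.cont ℓ T X a (xj a δ N) 0 q6 hX ha (xj_ge a δ N hδ)
  have hab' : a / (X / T) ≤ xj a δ N / (X / T) := div_le_div_of_nonneg_right (xj_ge a δ N hδ) hκ.le
  have hkc := h.cont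
  have hEc := EE_cont (X / T) a δ N
  have hci : ∀ f : ℝ → ℝ, Continuous f → IntegrableOn f (Ioc 0 (ℓ * Real.log T)) := fun f hf =>
    hf.continuousOn.integrableOn_Icc.mono_set Ioc_subset_Icc_self
  have hii := MS_ii hkc ℓ (Zw T) (Real.log T) (fun t => (qf (X / T) t - 0) / t ^ 2) _ _ hab'
    (f_cont (X / T) 0 _ _ (div_pos ha hκ))
  simp only [sub_zero] at hfub hii
  by_cases hcase : Q - ε ≤ 0
  · have h1 : X * (Q - ε) ≤ 0 := mul_nonpos_of_nonneg_of_nonpos hX.le hcase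
    refine h1.trans ?_
    apply intervalIntegral.integral_nonneg (div_le_div_of_nonneg_right (xj_ge a δ N hδ) hX.le)
    intro y _
    exact mul_nonneg (div_nonneg (qf_nonneg _ _) (sq_nonneg _)) (NU_nonneg h.nn _ _ _)
  push Not at hcase
  have f1 : (∫ u in Ioc 0 (ℓ * Real.log T), k (u / Real.log T) * EE (X / T) a δ N u) ≤
      (1 + η) * (∫ u in Ioc 0 (ℓ * Real.log T), k (u / Real.log T) *
      (∫ t in (a / (X / T))..(xj a δ N / (X / T)), qf (X / T) t / t ^ 2 * ‖SP (Zw T) u t‖ ^ 2)) +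
      CE * ((X / T) ^ 3 * Real.log T ^ 2) * (B * (ℓ * Real.log T)) := by
    have e1 : ∫ _u in Ioc 0 (ℓ * Real.log T), CE * ((X / T) ^ 3 * Real.log T ^ 2) * B =
        CE * ((X / T) ^ 3 * Real.log T ^ 2) * (B * (ℓ * Real.log T)) := by
      rw [setIntegral_const, Real.volume_real_Ioc_of_le (by positivity), smul_eq_mul]; ring
    rw [← e1, ← integral_const_mul, ← integral_add (hii.const_mul _)
      (hci _ (by fun_prop))]
    apply setIntegral_mono_on (hci _ (by fun_prop)) ((hii.const_mul _).add (hci _ (by fun_prop))) measurableSet_Ioc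
    intro u hu
    have g1 := (q1 u).1
    have g2 := h.nn (u / Real.log T)
    have g3 := h.bd (u / Real.log T)
    have g4 := mul_le_mul_of_nonneg_left g1 g2
    have g5 : k (u / Real.log T) * (CE * ((X / T) ^ 3 * Real.log T ^ 2)) ≤ CE * ((X / T) ^ 3 * Real.log T ^ 2) * B := by
      rw [mul_comm]
      exact mul_le_mul_of_nonneg_left g3 (by positivity)
    simp only [Pi.add_apply]
    linarith
  have hsq0 := Real.sqrt_nonneg Real.pi
  have hsq2 := sqpi
  generalize (∫ u in Ioc 0 (ℓ * Real.log T), k (u / Real.log T) *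
      (∫ t in (a / (X / T))..(xj a δ N / (X / T)), qf (X / T) t / t ^ 2 * ‖SP (Zw T) u t‖ ^ 2)) = K at *
  generalize (∫ u in Ioc 0 (ℓ * Real.log T), k (u / Real.log T) * EE (X / T) a δ N u) = E1 at *
  generalize (∫ u in Ioc 0 (ℓ * La (X / T)), k (u / La (X / T)) * EE (X / T) a δ N u) = E2 at *
  generalize (∫ y in (a / X)..(xj a δ N / X), qf X y / y ^ 2 * NU k ℓ T y) = Y at *
  generalize Real.sqrt Real.pi = s at *
  have f2 : E2 ≤ E1 + ε / 128 * (X / T * Real.log T ^ 2) := by linarith [(abs_le.1 q3).1]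
  have f3 : (1 - η) * Real.log T ^ 2 ≤ La (X / T) ^ 2 := by linarith [(abs_le.1 q4).1]
  generalize La (X / T) = Λ at *
  have hB0 := h.B0
  generalize Real.log T = L at *
  have hL2T : 0 < L ^ 2 / T := by positivity
  have c1 : (Q - ε / 4) * (X / T * ((1 - η) * L ^ 2)) ≤ 4 * s * E2 := by
    refine le_trans ?_ q2
    have : 0 ≤ Q - ε / 4 := by linarith
    gcongr
  have c2 : 4 * s * E2 ≤ 4 * s * E1 + ε / 16 * (X / T * L ^ 2) := by
    have d1 : 4 * s * E2 ≤ 4 * s * (E1 + ε / 128 * (X / T * L ^ 2)) := by gcongr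
    have d2 : s * (ε / 128 * (X / T * L ^ 2)) ≤ 2 * (ε / 128 * (X / T * L ^ 2)) :=
      mul_le_mul_of_nonneg_right hsq2 (by positivity)
    linarith
  have c3 : 4 * s * E1 ≤ (1 + η) * (L ^ 2 / T * Y) + L ^ 2 / T * (X * ε / 8) := by
    have d0 : 4 * s * E1 ≤ 4 * s * ((1 + η) * K + CE * ((X / T) ^ 3 * L ^ 2) * (B * (ℓ * L))) := by gcongr
    have d1 : 4 * s * (CE * ((X / T) ^ 3 * L ^ 2) * (B * (ℓ * L))) ≤
        4 * 2 * (CE * ((X / T) ^ 3 * L ^ 2) * (B * (ℓ * L))) := by gcongr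
    have d2 : 4 * 2 * (CE * ((X / T) ^ 3 * L ^ 2) * (B * (ℓ * L))) =
        L ^ 2 / T * ((8 * CE * B * ℓ * X ^ 3) * (L / T ^ 2)) := by field_simp; ring
    rw [d2] at d1
    have d3 := mul_le_mul_of_nonneg_left q5 hL2T.le
    have d4 : 4 * s * ((1 + η) * K) = (1 + η) * (L ^ 2 / T * Y) := by rw [← hfub]; ring
    linarith
  have c4 : (Q - ε / 4) * (X / T * ((1 - η) * L ^ 2)) = L ^ 2 / T * (X * ((Q - ε / 4) * (1 - η))) := by field_simp
  have c5 : ε / 16 * (X / T * L ^ 2) = L ^ 2 / T * (X * (ε / 16)) := by field_simp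
  have c6 : L ^ 2 / T * (X * ((Q - ε / 4) * (1 - η))) ≤ L ^ 2 / T * ((1 + η) * Y + X * (ε / 16) + X * ε / 8) := by
    linarith
  have c7 : X * ((Q - ε / 4) * (1 - η)) ≤ (1 + η) * Y + X * (ε / 16) + X * ε / 8 := le_of_mul_le_mul_left c6 hL2T
  have c8 : (1 + η) * (Q - ε) ≤ (Q - ε / 4) * (1 - η) - ε / 16 - ε / 8 := by nlinarith
  have c9 : (1 + η) * (X * (Q - ε)) ≤ (1 + η) * Y := by
    have d1 := mul_le_mul_of_nonneg_left c8 hX.le
    linarith
  exact le_of_mul_le_mul_left c9 (by positivity)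

end Pool.Agent.L5helper12.PV
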