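import Pool.Agent.L5helper12.PV.G

/-! The density: dyadic bound, upper and lower bound of the transform. -/

set_option autoImplicit false

open Filter Topology Set MeasureTheory H370

namespace Pool.Agent.L5helper12.PV

open Pool.Agent.L5helper10.TV hiding GG

theorem A0 (hU : UpperV) {k : ℝ → ℝ} {ℓ : ℕ} {C B : ℝ} (h : KW k ℓ C B) : ∃ C0 : ℝ, 0 ≤ C0 ∧
    ∀ V : ℝ, 0 < V → ∀ᶠ T in atTop, ∫ y in V..(2 * V), NU k ℓ T y ≤ C0 * V := by
  set M := TT 1 (1 / 20) 20 * k 0 + Real.pi * (2 * Jm k ℓ) with hM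
  have hM0 : 0 ≤ M := by
    have h1 := TT_nonneg 1 (1 / 20) 20 one_pos (by norm_num)
    have h2 := h.nn 0
    have h3 := Jm_nonneg h
    have := Real.pi_pos
    positivity
  refine ⟨9 * (M + 1), by positivity, fun V hV => ?_⟩
  filter_upwards [G1 hU h (1 / V) 1 (1 / 20) 20 (by positivity) one_pos (by norm_num) (by norm_num) 1 one_pos]
    with T hT
  have e1 : (1 : ℝ) / (1 / V) = V := by field_simp
  have e2 : xj 1 (1 / 20) 20 / (1 / V) = 2 * V := by unfold xj; push_cast; field_simp; norm_num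
  rw [e1, e2] at hT
  have hc := NU_cont h.cont ℓ T
  have hVV : V ≤ 2 * V := by linarith
  have h1 : ∫ y in V..(2 * V), 1 / (8 * V ^ 2) * NU k ℓ T y ≤
      ∫ y in V..(2 * V), (qf (1 / V) y - 5 * (1 / 20)) / y ^ 2 * NU k ℓ T y := by
    apply intervalIntegral.integral_mono_on hVV
    · exact ((continuous_const.mul hc).intervalIntegrable _ _)
    · apply ContinuousOn.intervalIntegrable
      rw [uIcc_of_le hVV]
      exact (f_cont (1 / V) (5 * (1 / 20)) V (2 * V) hV).mul hc.continuousOn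
    · intro y hy
      have hy0 : 0 < y := lt_of_lt_of_le hV hy.1
      apply mul_le_mul_of_nonneg_right _ (NU_nonneg h.nn _ _ _)
      have g1 : 1 ≤ 1 / V * y := by
        rw [one_div, inv_mul_eq_div, le_div_iff₀ hV]; linarith [hy.1]
      have g2 : 1 / V * y ≤ 2 := by
        rw [one_div, inv_mul_eq_div, div_le_iff₀ hV]; linarith [hy.2]
      have g3 : Real.cos (1 / V * y) ≤ Real.cos 1 := by
        apply Real.cos_le_cos_of_nonneg_of_le_pi zero_le_one _ g1
        linarith [Real.pi_gt_three]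
      have g4 := Real.cos_one_le
      have g5 : 1 / 2 ≤ qf (1 / V) y - 5 * (1 / 20) := by
        unfold qf; linarith
      rw [div_le_div_iff₀ (by positivity) (by positivity), one_mul]
      have g6 : y ^ 2 ≤ 4 * V ^ 2 := by
        have := hy.2
        nlinarith
      nlinarith
  rw [intervalIntegral.integral_const_mul] at h1
  generalize (∫ y in V..(2 * V), NU k ℓ T y) = I at *
  generalize (∫ y in V..(2 * V), (qf (1 / V) y - 5 * (1 / 20)) / y ^ 2 * NU k ℓ T y) = Y at *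
  rw [← hM] at hT
  have h2 : Y ≤ 10 / 9 * (1 / V * (M + 1)) := by
    have : (1 - 2 * (1 / 20) / 1 : ℝ) = 9 / 10 := by norm_num
    rw [this] at hT
    linarith
  have h3 : 1 / (8 * V ^ 2) * I ≤ 10 / 9 * (1 / V * (M + 1)) := h1.trans h2
  have h4 : I = 8 * V ^ 2 * (1 / (8 * V ^ 2) * I) := by field_simp
  rw [h4]
  calc 8 * V ^ 2 * (1 / (8 * V ^ 2) * I) ≤ 8 * V ^ 2 * (10 / 9 * (1 / V * (M + 1))) :=
        mul_le_mul_of_nonneg_left h3 (by positivity)
    _ = 80 / 9 * (M + 1) * V := by field_simp; norm_num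
    _ ≤ 9 * (M + 1) * V := by nlinarith [mul_nonneg hM0 hV.le]

lemma A0n (hU : UpperV) {k : ℝ → ℝ} {ℓ : ℕ} {C B : ℝ} (h : KW k ℓ C B) (y0 : ℝ) (hy0 : 0 < y0) (n : ℕ) :
    ∃ D : ℝ, 0 ≤ D ∧ ∀ᶠ T in atTop, ∫ y in y0..(2 ^ n * y0), NU k ℓ T y ≤ D := by
  obtain ⟨C0, hC0, hA⟩ := A0 hU h
  induction n with
  | zero => exact ⟨0, le_rfl, Eventually.of_forall fun T => by simp⟩
  | succ n ih =>
    obtain ⟨D, hD, hi⟩ := ih
    refine ⟨D + C0 * (2 ^ n * y0), by positivity, ?_⟩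
    filter_upwards [hi, hA (2 ^ n * y0) (by positivity)] with T t1 t2
    have hc := NU_cont h.cont ℓ T
    rw [← intervalIntegral.integral_add_adjacent_intervals (hc.intervalIntegrable y0 (2 ^ n * y0))
      (hc.intervalIntegrable (2 ^ n * y0) (2 ^ (n + 1) * y0))]
    have e1 : 2 * (2 ^ n * y0) = 2 ^ (n + 1) * y0 := by ring
    rw [e1] at t2
    linarith

theorem Aup (hU : UpperV) {k : ℝ → ℝ} {ℓ : ℕ} {C B : ℝ} (h : KW k ℓ C B) (X : ℝ) (hX : 0 < X) (y0 y1 : ℝ)
    (hy0 : 0 < y0) (hy : y0 ≤ y1) (ε : ℝ) (hε : 0 < ε) : ∀ᶠ T in atTop,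
    ∫ y in y0..y1, qf X y / y ^ 2 * NU k ℓ T y ≤ X * (Real.pi * (k 0 + 2 * Jm k ℓ) + ε) := by
  have hpi := Real.pi_pos
  have hk0 := h.nn 0
  have hJ := Jm_nonneg h
  rcases eq_or_lt_of_le hy with heq | hlt
  · refine Eventually.of_forall fun T => ?_
    rw [heq, intervalIntegral.integral_same]
    positivity
  obtain ⟨n, hn⟩ := pow_unbounded_of_one_lt (y1 / y0) (by norm_num : (1 : ℝ) < 2)
  rw [div_lt_iff₀ hy0] at hn
  obtain ⟨D, hD, hDT⟩ := A0n hU h y0 hy0 n
  set a := X * y0 with ha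
  have ha0 : 0 < a := by positivity
  set g : ℝ → ℝ := fun δ => X * ((Real.pi + 5 * δ / a) * k 0 + Real.pi * (2 * Jm k ℓ) + ε / 4) / (1 - 2 * δ / a) +
    5 * δ * (D / y0 ^ 2) with hg
  have hg0 : ContinuousAt g 0 := by
    rw [hg]
    apply ContinuousAt.add
    · apply ContinuousAt.div (by fun_prop) (by fun_prop)
      simp
    · fun_prop
  have hg1 : g 0 < X * (Real.pi * (k 0 + 2 * Jm k ℓ) + ε) := by
    rw [hg]; simp only [mul_zero, zero_div, add_zero, sub_zero, div_one, zero_mul]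
    apply mul_lt_mul_of_pos_left _ hX
    linarith
  have hδ := tendsto_const_div_atTop_nhds_zero_nat (X * (y1 - y0))
  have hgev := (hg0.tendsto.comp hδ).eventually (eventually_lt_nhds hg1)
  have hδ2 := hδ.eventually (eventually_lt_nhds (by positivity : (0 : ℝ) < a / 4))
  obtain ⟨N, hN1, hN2, hN3⟩ := (hgev.and (hδ2.and (eventually_gt_atTop 0))).exists
  simp only [Function.comp] at hN1
  set δ := X * (y1 - y0) / N with hδd
  have hNpos : (0 : ℝ) < N := by exact_mod_cast hN3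
  have hδ0 : 0 < δ := by
    have : 0 < y1 - y0 := by linarith
    positivity
  filter_upwards [G1 hU h X a δ N hX ha0 hδ0 (by linarith) (ε / 4) (by positivity), hDT] with T t1 t2
  have e1 : a / X = y0 := by rw [ha]; field_simp
  have e2 : xj a δ N / X = y1 := by
    unfold xj
    rw [hδd, ha]
    field_simp
    ring
  rw [e1, e2] at t1
  have hT := T_upper a δ ha0 hδ0 N
  have hTT : TT a δ N ≤ Real.pi + 5 * δ / a := hT
  have hc := NU_cont h.cont ℓ T
  have hcI : ∀ c, IntervalIntegrable (fun y => (qf X y - c) / y ^ 2 * NU k ℓ T y) volume y0 y1 := by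
    intro c
    apply ContinuousOn.intervalIntegrable
    rw [uIcc_of_le hy]
    exact (f_cont X c y0 y1 hy0).mul hc.continuousOn
  have s1 : ∫ y in y0..y1, qf X y / y ^ 2 * NU k ℓ T y ≤
      (∫ y in y0..y1, (qf X y - 5 * δ) / y ^ 2 * NU k ℓ T y) + 5 * δ * (D / y0 ^ 2) := by
    have r1 : ∫ y in y0..y1, NU k ℓ T y ≤ D := by
      refine le_trans ?_ t2
      apply intervalIntegral.integral_mono_interval le_rfl hy hn.le
      · exact Eventually.of_forall fun y => NU_nonneg h.nn _ _ _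
      · exact hc.intervalIntegrable _ _
    have r2 : ∫ y in y0..y1, qf X y / y ^ 2 * NU k ℓ T y ≤
        ∫ y in y0..y1, ((qf X y - 5 * δ) / y ^ 2 * NU k ℓ T y + 5 * δ / y0 ^ 2 * NU k ℓ T y) := by
      apply intervalIntegral.integral_mono_on hy
      · have := hcI 0
        simpa using this
      · exact (hcI _).add ((continuous_const.mul hc).intervalIntegrable _ _)
      · intro y hy'
        have hyp : 0 < y := lt_of_lt_of_le hy0 hy'.1
        have r3 : 5 * δ / y ^ 2 ≤ 5 * δ / y0 ^ 2 := by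
          apply div_le_div_of_nonneg_left (by positivity) (by positivity)
          exact pow_le_pow_left₀ hy0.le hy'.1 2
        have r4 := mul_le_mul_of_nonneg_right r3 (NU_nonneg h.nn ℓ T y)
        have r5 : qf X y / y ^ 2 * NU k ℓ T y = (qf X y - 5 * δ) / y ^ 2 * NU k ℓ T y + 5 * δ / y ^ 2 * NU k ℓ T y := by
          ring
        rw [r5]; linarith
    have hcc : IntervalIntegrable (fun y => 5 * δ / y0 ^ 2 * NU k ℓ T y) volume y0 y1 :=
      (continuous_const.mul hc).intervalIntegrable _ _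
    rw [intervalIntegral.integral_add (hcI (5 * δ)) hcc, intervalIntegral.integral_const_mul] at r2
    have r6 : 5 * δ / y0 ^ 2 * (∫ y in y0..y1, NU k ℓ T y) ≤ 5 * δ / y0 ^ 2 * D :=
      mul_le_mul_of_nonneg_left r1 (by positivity)
    have r7 : 5 * δ / y0 ^ 2 * D = 5 * δ * (D / y0 ^ 2) := by ring
    linarith
  have hd : 0 < 1 - 2 * δ / a := by
    rw [sub_pos, div_lt_one ha0]; linarith
  have s2 : (∫ y in y0..y1, (qf X y - 5 * δ) / y ^ 2 * NU k ℓ T y) ≤
      X * ((Real.pi + 5 * δ / a) * k 0 + Real.pi * (2 * Jm k ℓ) + ε / 4) / (1 - 2 * δ / a) := by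
    rw [le_div_iff₀ hd]
    have r1 : X * (TT a δ N * k 0 + Real.pi * (2 * Jm k ℓ) + ε / 4) ≤
        X * ((Real.pi + 5 * δ / a) * k 0 + Real.pi * (2 * Jm k ℓ) + ε / 4) := by gcongr
    linarith
  have s3 : X * ((Real.pi + 5 * δ / a) * k 0 + Real.pi * (2 * Jm k ℓ) + ε / 4) / (1 - 2 * δ / a) +
    5 * δ * (D / y0 ^ 2) < X * (Real.pi * (k 0 + 2 * Jm k ℓ) + ε) := hN1
  linarith

theorem Alow (hU : UpperV) {k : ℝ → ℝ} {ℓ : ℕ} {C B : ℝ} (h : KW k ℓ C B) (ε : ℝ) (hε : 0 < ε) :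
    ∃ a b : ℝ, 0 < a ∧ a ≤ b ∧ ∀ X : ℝ, 0 < X → ∀ᶠ T in atTop,
    X * (Real.pi * (k 0 + 2 * Jm k ℓ) - ε) ≤ ∫ y in (a / X)..(b / X), qf X y / y ^ 2 * NU k ℓ T y := by
  obtain ⟨a, δ, N, ha, hδ, h1⟩ := G2 hU h ε hε
  exact ⟨a, xj a δ N, ha, xj_ge a δ N hδ, h1⟩

end Pool.Agent.L5helper12.PV
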