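import Pool.Agent.L5helper12.PV.QSl
import Pool.Agent.L5helper12.PV.Chg
import Pool.Agent.L5helper12.TW.Crit

/-! The assembly. -/

set_option autoImplicit false

open Filter Topology Set MeasureTheory H370

namespace Pool.Agent.L5helper12.PV

open Pool.Agent.L5helper10.TV hiding GG
open Pool.Agent.L5helper12.TW (T4_fav Mont)
open Pool.Agent.Results.MP_103a5c_nt.BohrSetPairs
open Pool.Agent.Y744 (mz mz_nonneg Zb mem_Zb QS Xf Xf_pos Q2 TK ct AG Kav fav Aa Aa_int Nr pr Nr_all)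

/-- the Tauberian theorem -/
def TauberStmt : Prop := ∀ (ν : ℝ → ℝ → ℝ) (ρ C0 : ℝ), 0 ≤ ρ → 0 ≤ C0 → (∀ T, Continuous (ν T)) →
  (∀ T y, 0 ≤ ν T y) →
  (∀ V : ℝ, 0 < V → ∀ᶠ T in atTop, ∫ y in V..(2 * V), ν T y ≤ C0 * V) →
  (∀ X : ℝ, 0 < X → ∀ y0 y1 : ℝ, 0 < y0 → y0 ≤ y1 → ∀ ε : ℝ, 0 < ε → ∀ᶠ T in atTop,
    ∫ y in y0..y1, (2 - 2 * Real.cos (X * y)) / y ^ 2 * ν T y ≤ X * (Real.pi * ρ + ε)) →
  (∀ ε : ℝ, 0 < ε → ∃ a b : ℝ, 0 < a ∧ a ≤ b ∧ ∀ X : ℝ, 0 < X → ∀ᶠ T in atTop,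
    X * (Real.pi * ρ - ε) ≤ ∫ y in (a / X)..(b / X), (2 - 2 * Real.cos (X * y)) / y ^ 2 * ν T y) →
  Tendsto (fun T => ∫ y in (1 : ℝ)..2, ν T y) atTop (𝓝 ρ)

/-- the main term for every support -/
def AGallStmt : Prop := ∀ (κ : ℝ) (K : ℝ → ℝ), TK κ K → 0 < κ → ∀ h : ℝ, 0 < h → ∀ M : ℝ, κ ≤ M → 1 ≤ M →
  ∫ y, AG y * (ct K (y + h) - ct K (y - h)) = -(Kav K h 0 + 2 * ∫ α in (0 : ℝ)..M, Kav K h α * min α 1)

/-- uniqueness -/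
def AaAllStmt : Prop := ∀ l : Filter ℝ, l ≤ atTop → (∀ κ : ℝ, 0 < κ → Mont κ l) → ∀ x : ℝ,
  Tendsto (fun T => Aa T x) l (𝓝 (AG x))

theorem DL_of (tb : TauberStmt) (hU : UpperV) : DL := by
  intro k ℓ C B h
  obtain ⟨C0, hC0, hA0⟩ := A0 hU h
  have hρ : 0 ≤ k 0 + 2 * Jm k ℓ := by
    have := h.nn 0
    have := Jm_nonneg h
    positivity
  exact tb (NU k ℓ) _ C0 hρ hC0 (NU_cont h.cont ℓ) (NU_nonneg h.nn ℓ) hA0
    (fun X hX y0 y1 hy0 hy ε hε => Aup hU h X hX y0 y1 hy0 hy ε hε) (fun ε hε => Alow hU h ε hε)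

theorem Mont_of (hDL : DL) (ag : AGallStmt) (κ : ℝ) (hκ : 0 < κ) : Mont κ atTop := by
  intro K hK h hh
  have h4 := T4_fav hK (show κ < κ + 1 by linarith) (by linarith : (0 : ℝ) < κ + 1) hh
  set M : ℕ := ⌈κ + 1⌉₊ with hM
  have hMκ : κ + 1 ≤ M := Nat.le_ceil _
  have h1 := (Q2_lim hDL h4 M hMκ).neg
  rw [ag κ K hK hκ h hh M (by linarith) (by linarith)]
  refine h1.congr fun T => ?_
  rw [Aa_int hK hh, div_eq_inv_mul]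

theorem Aa_lim (tb : TauberStmt) (ag : AGallStmt) (aa : AaAllStmt) (hU : UpperV) (x : ℝ) :
    Tendsto (fun T => Aa T x) atTop (𝓝 (AG x)) :=
  aa atTop le_rfl (fun κ hκ => Mont_of (DL_of tb hU) ag κ hκ) x

end Pool.Agent.L5helper12.PV
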