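import Pool.Agent.L5helper12.PV.SZ

/-! The energies against the mean squares of the zero sum. -/

set_option autoImplicit false

open Filter Topology Set MeasureTheory H370

namespace Pool.Agent.L5helper12.PV

open Pool.Agent.L5helper10.TV hiding GG
open Pool.Agent.Y744 (mz mz_nonneg)

lemma kap_tendsto (X : ℝ) (hX : 0 < X) : Tendsto (fun T : ℝ => X / T) atTop (𝓝[>] (0 : ℝ)) := by
  rw [tendsto_nhdsWithin_iff]
  refine ⟨tendsto_const_nhds.div_atTop tendsto_id, ?_⟩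
  filter_upwards [eventually_gt_atTop 0] with T hT
  exact div_pos hX hT

lemma La_kap (X T : ℝ) (hX : 0 < X) (hT : 0 < T) : La (X / T) = Real.log T - Real.log X := by
  unfold La
  rw [Real.log_div hX.ne' hT.ne']; ring

lemma ev_facts (X a b : ℝ) (hX : 0 < X) (ha : 0 < a) (hb : 0 < b) : ∀ᶠ T in atTop, 4 ≤ T ∧ 0 < X / T ∧ X / T ≤ 1 ∧
    4 ≤ a / (X / T) - La (X / T) ∧ b / (X / T) + La (X / T) ≤ T ^ 2 ∧ 4 ≤ La (X / T) ∧
    Real.exp (-La (X / T) ^ 2 / 4) ≤ X / T := by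
  have h1 := (kap_tendsto X hX).eventually (La_small (a / 2) 1 (by positivity) 1)
  have h2 := (kap_tendsto X hX).eventually (La_small (a / 2) 4 (by positivity) 0)
  have h3 := (kap_tendsto X hX).eventually (La_ge 4)
  have h4 := (kap_tendsto X hX).eventually (La_small 1 1 one_pos 1)
  have h5 := (kap_tendsto X hX).eventually le_one_ev
  filter_upwards [h1, h2, h3, h4, h5, eventually_ge_atTop 4, eventually_ge_atTop ((b + 1) / X)] with T a1 a2 a3 a4 a5 a6 a7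
  have hT : 0 < T := by linarith
  have hκ : 0 < X / T := div_pos hX hT
  rw [pow_one, one_mul] at a1 a4
  rw [pow_zero, mul_one] at a2
  refine ⟨a6, hκ, a5, ?_, ?_, a3, ?_⟩
  · have : a / (X / T) = a / 2 / (X / T) + a / 2 / (X / T) := by ring
    rw [this]; linarith
  · have e1 : b / (X / T) + 1 / (X / T) = (b + 1) / X * T := by field_simp
    have e2 : (b + 1) / X * T ≤ T * T := mul_le_mul_of_nonneg_right a7 hT.le
    nlinarith
  · have e1 : X / T = Real.exp (-La (X / T)) := by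
      unfold La
      rw [neg_neg, Real.exp_log hκ]
    conv_rhs => rw [e1]
    apply Real.exp_le_exp.2
    nlinarith

lemma SP_cont_t (P : Finset ℂ) (u : ℝ) : Continuous (fun t => SP P u t) := by
  unfold SP Y750.OM.GG
  fun_prop

lemma sq_up (η : ℝ) (hη : 0 < η) (z w : ℂ) : ‖z‖ ^ 2 ≤ (1 + η) * ‖w‖ ^ 2 + (1 + 1 / η) * ‖z - w‖ ^ 2 := by
  have h1 : ‖z‖ ≤ ‖w‖ + ‖z - w‖ := by
    have := norm_add_le w (z - w)
    rwa [add_sub_cancel] at this
  have h2 : ‖z‖ ^ 2 ≤ (‖w‖ + ‖z - w‖) ^ 2 := pow_le_pow_left₀ (norm_nonneg _) h1 2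
  have h3 : 0 ≤ (1 / η) * (η * ‖w‖ - ‖z - w‖) ^ 2 := by positivity
  have h4 : (1 / η) * (η * ‖w‖ - ‖z - w‖) ^ 2 = η * ‖w‖ ^ 2 - 2 * ‖w‖ * ‖z - w‖ + 1 / η * ‖z - w‖ ^ 2 := by
    field_simp
    ring
  nlinarith

/-- the weight -/
noncomputable def qf (κ t : ℝ) : ℝ := 2 - 2 * Real.cos (κ * t)

lemma qf_nonneg (κ t : ℝ) : 0 ≤ qf κ t := by unfold qf; linarith [Real.cos_le_one (κ * t)]

lemma qf_le (κ t : ℝ) : qf κ t ≤ 4 := by unfold qf; linarith [Real.neg_one_le_cos (κ * t)]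

lemma qf_cont (κ : ℝ) : Continuous (qf κ) := by unfold qf; fun_prop

lemma cos_near (x y : ℝ) : |Real.cos x - Real.cos y| ≤ |x - y| := by
  have h3 := Real.cos_sub_cos x y
  have h4 := Real.abs_sin_le_one ((x + y) / 2)
  have h5 : |Real.sin ((x - y) / 2)| ≤ |(x - y) / 2| := Real.abs_sin_le_abs
  rw [h3, abs_mul, abs_mul, abs_neg, abs_of_pos (by norm_num : (0 : ℝ) < 2)]
  rw [abs_div, abs_of_pos (by norm_num : (0 : ℝ) < 2)] at h5
  have h6 := abs_nonneg (Real.sin ((x - y) / 2))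
  nlinarith

lemma blk_up (κ x δ t : ℝ) (hκ : 0 < κ) (hx : 0 < x) (hδ : 0 < δ) (h1 : x / κ ≤ t) (h2 : t ≤ (x + δ) / κ) :
    κ ^ 2 / ((2 - 2 * Real.cos x + 3 * δ) * (x + δ) ^ 2) * qf κ t ^ 2 ≤ qf κ t / t ^ 2 := by
  have ht : 0 < t := lt_of_lt_of_le (by positivity) h1
  have hq := qf_nonneg κ t
  have hc := Real.cos_le_one x
  have hκt1 : x ≤ κ * t := by rw [div_le_iff₀ hκ] at h1; linarith
  have hκt2 : κ * t ≤ x + δ := by rw [le_div_iff₀ hκ] at h2; linarith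
  have hW : qf κ t ≤ 2 - 2 * Real.cos x + 3 * δ := by
    unfold qf
    have := cos_near (κ * t) x
    rw [abs_of_nonneg (by linarith : 0 ≤ κ * t - x)] at this
    have := (abs_le.1 this).1
    linarith
  have hWp : 0 < 2 - 2 * Real.cos x + 3 * δ := by linarith
  rw [div_mul_eq_mul_div, div_le_div_iff₀ (by positivity) (by positivity)]
  have e1 : (κ * t) ^ 2 ≤ (x + δ) ^ 2 := pow_le_pow_left₀ (by positivity) hκt2 2
  calc κ ^ 2 * qf κ t ^ 2 * t ^ 2 = qf κ t * qf κ t * (κ * t) ^ 2 := by ring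
    _ ≤ qf κ t * (2 - 2 * Real.cos x + 3 * δ) * (x + δ) ^ 2 := by gcongr
    _ = _ := by ring

lemma blk_low (κ x δ a t : ℝ) (hκ : 0 < κ) (ha : 0 < a) (hax : a ≤ x) (hδ : 0 < δ) (hδa : δ ≤ a / 2) (h1 : x / κ ≤ t)
    (h2 : t ≤ (x + δ) / κ) : (1 - 2 * δ / a) * ((qf κ t - 5 * δ) / t ^ 2) ≤
      κ ^ 2 / ((2 - 2 * Real.cos x + 3 * δ) * (x + δ) ^ 2) * qf κ t ^ 2 := by
  have hx : 0 < x := by linarith
  have ht : 0 < t := lt_of_lt_of_le (by positivity) h1
  have hq := qf_nonneg κ t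
  have hc := Real.cos_le_one x
  have hκt1 : x ≤ κ * t := by rw [div_le_iff₀ hκ] at h1; linarith
  have hκt2 : κ * t ≤ x + δ := by rw [le_div_iff₀ hκ] at h2; linarith
  have hd0 : 0 ≤ 1 - 2 * δ / a := by
    rw [sub_nonneg, div_le_one ha]; linarith
  have hWp : 0 < 2 - 2 * Real.cos x + 3 * δ := by linarith
  rcases le_or_gt (qf κ t) (5 * δ) with h | h
  · have : (1 - 2 * δ / a) * ((qf κ t - 5 * δ) / t ^ 2) ≤ 0 :=
      mul_nonpos_of_nonneg_of_nonpos hd0 (div_nonpos_of_nonpos_of_nonneg (by linarith) (by positivity))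
    refine this.trans (by positivity)
  · have hW : 2 - 2 * Real.cos x + 3 * δ ≤ qf κ t + 5 * δ := by
      unfold qf
      have := cos_near (κ * t) x
      rw [abs_of_nonneg (by linarith : 0 ≤ κ * t - x)] at this
      have := (abs_le.1 this).2
      linarith
    have e1 : (qf κ t - 5 * δ) * (2 - 2 * Real.cos x + 3 * δ) ≤ qf κ t ^ 2 := by
      have := mul_le_mul_of_nonneg_left hW (by linarith : 0 ≤ qf κ t - 5 * δ)
      nlinarith
    have e2 : (1 - 2 * δ / a) * (x + δ) ^ 2 ≤ x ^ 2 := by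
      have e3 : (1 - 2 * δ / a) ≤ 1 - 2 * δ / (x + δ) := by
        apply sub_le_sub_left
        apply div_le_div_of_nonneg_left (by positivity) ha (by linarith)
      have e4 := mul_le_mul_of_nonneg_right e3 (sq_nonneg (x + δ))
      have e5 : (1 - 2 * δ / (x + δ)) * (x + δ) ^ 2 = (x + δ) ^ 2 - 2 * δ * (x + δ) := by field_simp
      rw [e5] at e4
      nlinarith [sq_nonneg δ]
    have e6 : x ^ 2 ≤ (κ * t) ^ 2 := pow_le_pow_left₀ hx.le hκt1 2
    rw [← mul_div_assoc, div_mul_eq_mul_div, div_le_div_iff₀ (by positivity) (by positivity)]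
    calc (1 - 2 * δ / a) * (qf κ t - 5 * δ) * ((2 - 2 * Real.cos x + 3 * δ) * (x + δ) ^ 2) =
          ((1 - 2 * δ / a) * (x + δ) ^ 2) * ((qf κ t - 5 * δ) * (2 - 2 * Real.cos x + 3 * δ)) := by ring
      _ ≤ (κ * t) ^ 2 * qf κ t ^ 2 := by
          apply mul_le_mul (e2.trans e6) e1 _ (by positivity)
          exact mul_nonneg (by linarith) hWp.le
      _ = _ := by ring

theorem EE_SP (RH : RiemannHypothesis) (X a δ : ℝ) (N : ℕ) (hX : 0 < X) (ha : 0 < a) (hδ : 0 < δ) (hδa : δ ≤ a / 2)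
    (η : ℝ) (hη : 0 < η) : ∃ C : ℝ, 0 ≤ C ∧ ∀ᶠ T in atTop, ∀ u : ℝ,
      EE (X / T) a δ N u ≤ (1 + η) * (∫ t in (a / (X / T))..(xj a δ N / (X / T)),
        qf (X / T) t / t ^ 2 * ‖SP (Zw T) u t‖ ^ 2) + C * ((X / T) ^ 3 * Real.log T ^ 2) ∧
      (1 - 2 * δ / a) * (∫ t in (a / (X / T))..(xj a δ N / (X / T)),
        (qf (X / T) t - 5 * δ) / t ^ 2 * ‖SP (Zw T) u t‖ ^ 2) ≤
        (1 + η) * EE (X / T) a δ N u + C * ((X / T) ^ 3 * Real.log T ^ 2) := by
  obtain ⟨C0, hC0, hLg⟩ := Lg_le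
  have hxN : 0 < xj a δ N := xj_pos ha hδ N
  refine ⟨N * ((1 + 1 / η) * (64 * C0 ^ 2 / (3 * a ^ 2))), by positivity, ?_⟩
  filter_upwards [ev_facts X a (xj a δ N) hX ha hxN] with T hT u
  obtain ⟨hT4, hκ, hκ1, f1, f2, f3, f4⟩ := hT
  have hL0 : 0 ≤ Real.log T := Real.log_nonneg (by linarith)
  obtain ⟨κ, hκdef⟩ : ∃ κ, κ = X / T := ⟨_, rfl⟩
  rw [← hκdef] at hκ hκ1 f1 f2 f3 f4 ⊢
  clear hκdef
  have hax : ∀ j : ℕ, a ≤ xj a δ j := by
    intro j
    unfold xj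
    have : (0 : ℝ) ≤ j := Nat.cast_nonneg j
    nlinarith
  have hxj : ∀ j : ℕ, xj a δ j ≤ xj a δ (j + 1) := by
    intro j; rw [xj_succ]; linarith
  have hxjN : ∀ j ≤ N, xj a δ j ≤ xj a δ N := by
    intro j hj
    unfold xj
    have : (j : ℝ) ≤ N := by exact_mod_cast hj
    nlinarith
  have hdiv : ∀ j : ℕ, xj a δ j / κ ≤ xj a δ (j + 1) / κ := fun j => div_le_div_of_nonneg_right (hxj j) hκ.le
  obtain ⟨S, hS⟩ : ∃ S : ℝ → ℝ, ∀ t, S t = ‖SP (Zw T) u t‖ ^ 2 := ⟨_, fun _ => rfl⟩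
  simp only [← hS]
  have hSc : Continuous S := by
    have h2 := SP_cont_t (Zw T) u
    have e : S = fun t => ‖SP (Zw T) u t‖ ^ 2 := funext hS
    rw [e]
    exact (h2.norm).pow 2
  have hS0 : ∀ t, 0 ≤ S t := fun t => by rw [hS]; positivity
  have hqc := qf_cont κ
  set E : ℝ := 8 * κ * (C0 * Real.log T) with hE
  have hE0 : 0 ≤ E := by positivity
  have herr : ∀ j < N, ∀ t ∈ Icc (xj a δ j / κ) (xj a δ (j + 1) / κ),
      ‖FB κ (xj a δ j) (xj a δ (j + 1)) u t - ((qf κ t : ℝ) : ℂ) * SP (Zw T) u t‖ ≤ E := by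
    intro j hj t ht
    have h1 : 4 ≤ xj a δ j / κ - La κ := by
      have : a / κ ≤ xj a δ j / κ := div_le_div_of_nonneg_right (hax j) hκ.le
      linarith
    have h2 : xj a δ (j + 1) / κ + La κ ≤ T ^ 2 := by
      have : xj a δ (j + 1) / κ ≤ xj a δ N / κ := div_le_div_of_nonneg_right (hxjN _ hj) hκ.le
      linarith
    have h3 := FB_SP RH κ (xj a δ j) (xj a δ (j + 1)) T t u hκ hκ1 h1 h2 ht.1 ht.2 (by linarith) f4
    refine h3.trans ?_
    rw [hE]
    exact mul_le_mul_of_nonneg_left (hLg T hT4 t) (by positivity)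
  -- integrability on blocks
  have hpos : ∀ j : ℕ, 0 < xj a δ j / κ := fun j => div_pos (xj_pos ha hδ j) hκ
  have hii : ∀ (c : ℝ) (j : ℕ), IntervalIntegrable (fun t => (qf κ t - c) / t ^ 2 * S t) volume (xj a δ j / κ)
      (xj a δ (j + 1) / κ) := by
    intro c j
    apply ContinuousOn.intervalIntegrable
    rw [uIcc_of_le (hdiv j)]
    apply ContinuousOn.mul _ hSc.continuousOn
    apply ContinuousOn.div (hqc.sub continuous_const).continuousOn (continuous_pow 2).continuousOn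
    intro t ht
    have := (hpos j).trans_le ht.1
    positivity
  have hw : ∀ j, wj κ a δ j = κ ^ 2 / ((2 - 2 * Real.cos (xj a δ j) + 3 * δ) * (xj a δ j + δ) ^ 2) := by
    intro j
    unfold wj Wj
    rw [xj_succ]
  have hw0 : ∀ j, 0 ≤ wj κ a δ j := wj_nonneg κ a δ hδ
  have hq2 : ∀ j : ℕ, IntervalIntegrable (fun t => qf κ t ^ 2 * S t) volume (xj a δ j / κ) (xj a δ (j + 1) / κ) := by
    intro j
    exact ((hqc.pow 2).mul hSc).intervalIntegrable _ _
  have hFBi : ∀ j : ℕ, IntervalIntegrable (fun t => ‖FB κ (xj a δ j) (xj a δ (j + 1)) u t‖ ^ 2) volume (xj a δ j / κ)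
      (xj a δ (j + 1) / κ) := by
    intro j
    exact (((FB_cont κ (xj a δ j) (xj a δ (j + 1)) u).norm).pow 2).intervalIntegrable _ _
  have hcst : ∀ (c : ℝ) (j : ℕ), IntervalIntegrable (fun _ : ℝ => c) volume (xj a δ j / κ) (xj a δ (j + 1) / κ) :=
    fun c j => by simp
  have hlen : ∀ j : ℕ, xj a δ (j + 1) / κ - xj a δ j / κ = δ / κ := by
    intro j; rw [xj_succ]; ring
  have hnorm : ∀ t : ℝ, ‖((qf κ t : ℝ) : ℂ) * SP (Zw T) u t‖ ^ 2 = qf κ t ^ 2 * S t := by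
    intro t
    rw [norm_mul, Complex.norm_real, Real.norm_of_nonneg (qf_nonneg κ t), mul_pow, hS]
  have herrw : ∀ j : ℕ, wj κ a δ j * ((1 + 1 / η) * E ^ 2 * (δ / κ)) ≤
      (1 + 1 / η) * (64 * C0 ^ 2 / (3 * a ^ 2)) * (κ ^ 3 * Real.log T ^ 2) := by
    intro j
    rw [hw j]
    have hc := Real.cos_le_one (xj a δ j)
    have h1 : κ ^ 2 / ((2 - 2 * Real.cos (xj a δ j) + 3 * δ) * (xj a δ j + δ) ^ 2) ≤ κ ^ 2 / (3 * δ * a ^ 2) := by
      apply div_le_div_of_nonneg_left (by positivity) (by positivity)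
      apply mul_le_mul (by linarith) _ (by positivity) (by linarith)
      exact pow_le_pow_left₀ ha.le (by linarith [hax j]) 2
    calc _ ≤ κ ^ 2 / (3 * δ * a ^ 2) * ((1 + 1 / η) * E ^ 2 * (δ / κ)) := mul_le_mul_of_nonneg_right h1 (by positivity)
      _ = _ := by rw [hE]; field_simp; ring
  -- per block
  have hup : ∀ j ∈ Finset.range N, wj κ a δ j * Ej κ (xj a δ j) (xj a δ (j + 1)) u ≤
      (1 + η) * (∫ t in (xj a δ j / κ)..(xj a δ (j + 1) / κ), (qf κ t - 0) / t ^ 2 * S t) +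
      (1 + 1 / η) * (64 * C0 ^ 2 / (3 * a ^ 2)) * (κ ^ 3 * Real.log T ^ 2) := by
    intro j hj
    have hjN := Finset.mem_range.1 hj
    have h1 : Ej κ (xj a δ j) (xj a δ (j + 1)) u ≤ ∫ t in (xj a δ j / κ)..(xj a δ (j + 1) / κ),
        ((1 + η) * (qf κ t ^ 2 * S t) + (1 + 1 / η) * E ^ 2) := by
      unfold Ej
      apply intervalIntegral.integral_mono_on (hdiv j) (hFBi j) (((hq2 j).const_mul _).add (hcst _ j))
      intro t ht
      have h2 := sq_up η hη (FB κ (xj a δ j) (xj a δ (j + 1)) u t) (((qf κ t : ℝ) : ℂ) * SP (Zw T) u t)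
      rw [hnorm] at h2
      have h3 := pow_le_pow_left₀ (norm_nonneg _) (herr j hjN t ht) 2
      have h4 := mul_le_mul_of_nonneg_left h3 (by positivity : 0 ≤ 1 + 1 / η)
      linarith
    rw [intervalIntegral.integral_add ((hq2 j).const_mul _) (hcst _ j), intervalIntegral.integral_const_mul,
      intervalIntegral.integral_const, smul_eq_mul, hlen] at h1
    have h5 : wj κ a δ j * (∫ t in (xj a δ j / κ)..(xj a δ (j + 1) / κ), qf κ t ^ 2 * S t) ≤
        ∫ t in (xj a δ j / κ)..(xj a δ (j + 1) / κ), (qf κ t - 0) / t ^ 2 * S t := by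
      rw [← intervalIntegral.integral_const_mul]
      apply intervalIntegral.integral_mono_on (hdiv j) ((hq2 j).const_mul _) (hii 0 j)
      intro t ht
      rw [sub_zero, ← mul_assoc, hw j]
      apply mul_le_mul_of_nonneg_right _ (hS0 t)
      exact blk_up κ (xj a δ j) δ t hκ (xj_pos ha hδ j) hδ ht.1 (by rw [← xj_succ]; exact ht.2)
    have h6 := mul_le_mul_of_nonneg_left h1 (hw0 j)
    have h7 := mul_le_mul_of_nonneg_left h5 (by linarith : 0 ≤ 1 + η)
    have h8 := herrw j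
    calc _ ≤ _ := h6
      _ = (1 + η) * (wj κ a δ j * ∫ t in (xj a δ j / κ)..(xj a δ (j + 1) / κ), qf κ t ^ 2 * S t) +
          wj κ a δ j * ((1 + 1 / η) * E ^ 2 * (δ / κ)) := by ring
      _ ≤ _ := add_le_add h7 h8
  have hlow : ∀ j ∈ Finset.range N, (1 - 2 * δ / a) * (∫ t in (xj a δ j / κ)..(xj a δ (j + 1) / κ),
      (qf κ t - 5 * δ) / t ^ 2 * S t) ≤ (1 + η) * (wj κ a δ j * Ej κ (xj a δ j) (xj a δ (j + 1)) u) +
      (1 + 1 / η) * (64 * C0 ^ 2 / (3 * a ^ 2)) * (κ ^ 3 * Real.log T ^ 2) := by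
    intro j hj
    have hjN := Finset.mem_range.1 hj
    have h1 : ∫ t in (xj a δ j / κ)..(xj a δ (j + 1) / κ), qf κ t ^ 2 * S t ≤
        (1 + η) * Ej κ (xj a δ j) (xj a δ (j + 1)) u + (1 + 1 / η) * E ^ 2 * (δ / κ) := by
      have h0 : ∫ t in (xj a δ j / κ)..(xj a δ (j + 1) / κ), qf κ t ^ 2 * S t ≤
          ∫ t in (xj a δ j / κ)..(xj a δ (j + 1) / κ),
          ((1 + η) * ‖FB κ (xj a δ j) (xj a δ (j + 1)) u t‖ ^ 2 + (1 + 1 / η) * E ^ 2) := by
        apply intervalIntegral.integral_mono_on (hdiv j) (hq2 j) (((hFBi j).const_mul _).add (hcst _ j))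
        intro t ht
        have h2 := sq_up η hη (((qf κ t : ℝ) : ℂ) * SP (Zw T) u t) (FB κ (xj a δ j) (xj a δ (j + 1)) u t)
        rw [hnorm, norm_sub_rev] at h2
        have h3 := pow_le_pow_left₀ (norm_nonneg _) (herr j hjN t ht) 2
        have h4 := mul_le_mul_of_nonneg_left h3 (by positivity : 0 ≤ 1 + 1 / η)
        linarith
      rw [intervalIntegral.integral_add ((hFBi j).const_mul _) (hcst _ j), intervalIntegral.integral_const_mul,
        intervalIntegral.integral_const, smul_eq_mul, hlen] at h0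
      unfold Ej
      linarith
    have h5 : (1 - 2 * δ / a) * (∫ t in (xj a δ j / κ)..(xj a δ (j + 1) / κ), (qf κ t - 5 * δ) / t ^ 2 * S t) ≤
        wj κ a δ j * (∫ t in (xj a δ j / κ)..(xj a δ (j + 1) / κ), qf κ t ^ 2 * S t) := by
      rw [← intervalIntegral.integral_const_mul, ← intervalIntegral.integral_const_mul]
      apply intervalIntegral.integral_mono_on (hdiv j) ((hii (5 * δ) j).const_mul _) ((hq2 j).const_mul _)
      intro t ht
      rw [← mul_assoc, ← mul_assoc, hw j]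
      apply mul_le_mul_of_nonneg_right _ (hS0 t)
      exact blk_low κ (xj a δ j) δ a t hκ ha (hax j) hδ hδa ht.1 (by rw [← xj_succ]; exact ht.2)
    have h6 := mul_le_mul_of_nonneg_left h1 (hw0 j)
    have h8 := herrw j
    calc _ ≤ _ := h5
      _ ≤ _ := h6
      _ = (1 + η) * (wj κ a δ j * Ej κ (xj a δ j) (xj a δ (j + 1)) u) +
          wj κ a δ j * ((1 + 1 / η) * E ^ 2 * (δ / κ)) := by ring
      _ ≤ _ := add_le_add le_rfl h8
  have hadj : ∀ c : ℝ, ∑ j ∈ Finset.range N, (∫ t in (xj a δ j / κ)..(xj a δ (j + 1) / κ), (qf κ t - c) / t ^ 2 * S t) =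
      ∫ t in (a / κ)..(xj a δ N / κ), (qf κ t - c) / t ^ 2 * S t := by
    intro c
    rw [intervalIntegral.sum_integral_adjacent_intervals (a := fun j => xj a δ j / κ) (fun k _ => hii c k)]
    congr 1
    unfold xj
    simp
  constructor
  · have h1 := Finset.sum_le_sum hup
    rw [Finset.sum_add_distrib, ← Finset.mul_sum, hadj 0, Finset.sum_const, Finset.card_range, nsmul_eq_mul] at h1
    simp only [sub_zero] at h1
    unfold EE
    calc _ ≤ _ := h1
      _ = _ := by ring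
  · have h1 := Finset.sum_le_sum hlow
    rw [← Finset.mul_sum, hadj (5 * δ), Finset.sum_add_distrib, ← Finset.mul_sum, Finset.sum_const, Finset.card_range,
      nsmul_eq_mul] at h1
    unfold EE
    calc _ ≤ _ := h1
      _ = _ := by ring

end Pool.Agent.L5helper12.PV
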