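import Pool.Agent.L5helper12.PV.Qlow

/-! The lower bound for the variance. -/

set_option autoImplicit false

open Filter Topology Set MeasureTheory

namespace Pool.Agent.L5helper12.PV

open Pool.Agent.L5helper10.TV

lemma KW_kA' (A : ℕ) : KW (kA A) A 1 A where
  nn := fun α => le_max_left _ _
  lip := fun x y => by rw [one_mul]; exact kA_lip A x y
  supp := fun α hα => by
    unfold kA
    apply max_eq_left
    have := le_max_left α 0
    linarith
  bd := fun α => max_le (Nat.cast_nonneg A) (by linarith [le_max_right α 0])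

theorem Qup2 {k : ℝ → ℝ} {ℓ : ℕ} {C B : ℝ} (h : KW k ℓ C B) (a δ : ℝ) (N : ℕ) (ha : 0 < a) (hδ : 0 < δ)
    (hδa : δ ≤ a / 2) (ε : ℝ) (hε : 0 < ε) : ∃ c : ℝ, 0 ≤ c ∧ c ≤ ε ∧ ∀ᶠ κ in 𝓝[>] (0 : ℝ),
    Integrable (fun v => fk κ v ^ 2 * (La κ * Kt k ℓ c (v / La κ))) →
    La κ * (4 * Real.sqrt Real.pi * (∫ u in Ioc 0 (ℓ * La κ), k (u / La κ) * EE κ a δ N u)) ≤
      (TT a δ N * k 0 + ε) * (κ * La κ ^ 3) +
      Real.pi * (1 + ε) * (2 * ∫ v, fk κ v ^ 2 * (La κ * Kt k ℓ c (v / La κ))) := by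
  have hpi := Real.pi_gt_three
  have hpi4 := Real.pi_le_four
  have hC := h.C0
  have hB := h.B0
  set τ := TT a δ N with hτ
  have hτ0 : 0 ≤ τ := TT_nonneg a δ N ha hδ
  set ε1 : ℝ := min (1 / 2) (ε / (8 * (τ * B + 1))) with hε1
  have hε1p : 0 < ε1 := by rw [hε1]; positivity
  have hε1h : ε1 ≤ 1 / 2 := min_le_left _ _
  have hε1a : ε1 ≤ ε / (8 * (τ * B + 1)) := min_le_right _ _
  have hε1e : ε1 * (τ * B + 1) ≤ ε / 8 := by
    have := hε1a
    rw [le_div_iff₀ (by positivity)] at this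
    linarith
  have hε1f : 4 * ε1 ≤ ε := by
    have : 0 ≤ τ * B := by positivity
    nlinarith
  set η : ℝ := min 1 (ε / (8 * (C + 1))) with hη
  have hη0 : 0 < η := by rw [hη]; positivity
  have hη1 : η ≤ 1 := min_le_left _ _
  have hηe : (C + 1) * η ≤ ε / 8 := by
    have : η ≤ ε / (8 * (C + 1)) := min_le_right _ _
    rw [le_div_iff₀ (by positivity)] at this
    nlinarith
  have hη2 : η ≤ ε / 8 := by nlinarith
  set ℓ' : ℝ := ℓ + 2 + B + C with hℓ'
  have hℓ'1 : 1 ≤ ℓ' := by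
    have : (0 : ℝ) ≤ ℓ := Nat.cast_nonneg ℓ
    rw [hℓ']; linarith
  obtain ⟨CE, hCE, hEE⟩ := EE_bd ℓ' a δ ε1 N hℓ'1 ha hδ hδa hε1p (by linarith)
  set θ : ℝ := min (1 / 2) (min (η / (16 * 108000 * ℓ' * CE)) (ε / (8 * (2 * τ * C + 1)))) with hθ
  have hθ0 : 0 < θ := by rw [hθ]; positivity
  have hθh : θ ≤ 1 / 2 := min_le_left _ _
  have hθη : 108000 * ℓ' * CE * θ ≤ η / 16 := by
    have : θ ≤ η / (16 * 108000 * ℓ' * CE) := (min_le_right _ _).trans (min_le_left _ _)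
    rw [le_div_iff₀ (by positivity)] at this
    linarith
  have hθe : 2 * τ * C * θ ≤ ε / 8 := by
    have : θ ≤ ε / (8 * (2 * τ * C + 1)) := (min_le_right _ _).trans (min_le_right _ _)
    rw [le_div_iff₀ (by positivity)] at this
    nlinarith
  have hup := star_upg_ev ℓ' η ε1 θ CE a δ N hℓ'1 hη0 hε1p hε1h hδ ha hCE hθ0 hθh hθη hEE
  set c : ℝ := (C + 1) * η with hc
  have hc0 : 0 ≤ c := by positivity
  refine ⟨c, hc0, by linarith, ?_⟩
  filter_upwards [hup, La_ge 1, La_ge (1 / η), self_mem_nhdsWithin] with κ h1 hL1 hL2 h3 hGi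
  have hκ : 0 < κ := h3
  generalize La κ = Λ at *
  have hΛ0 : 0 < Λ := by linarith
  have hηΛ : 1 ≤ η * Λ := by
    rw [div_le_iff₀ hη0] at hL2
    linarith
  have hkc := h.cont
  have hk0B := h.bd 0
  have hk0 := h.nn 0
  have h4 := h1 (fun u => Λ * k (u / Λ)) ((by fun_prop : Continuous (fun u => Λ * k (u / Λ))).measurable)
    (fun u => mul_nonneg hΛ0.le (h.nn _)) (Λ * (k 0 + C * θ)) (by positivity)
    (by
      have hℓ0 : (0 : ℝ) ≤ ℓ := Nat.cast_nonneg ℓ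
      have : k 0 + C * θ ≤ ℓ' := by rw [hℓ']; nlinarith
      nlinarith)
    (fun u => by
      have hℓ0 : (0 : ℝ) ≤ ℓ := Nat.cast_nonneg ℓ
      have : k (u / Λ) ≤ ℓ' := by rw [hℓ']; linarith [h.bd (u / Λ)]
      nlinarith)
    (fun u hu => by
      apply mul_le_mul_of_nonneg_left _ hΛ0.le
      have h5 := (abs_le.1 (h.lip (u / Λ) 0)).2
      rw [sub_zero, abs_of_nonneg (by have := hu.1; positivity)] at h5
      have h6 : u / Λ ≤ θ := by rw [div_le_iff₀ hΛ0]; exact hu.2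
      have := mul_le_mul_of_nonneg_left h6 hC
      linarith)
    (fun v => Λ * Kt k ℓ c (v / Λ))
    ((by have := Kt_cont h c; fun_prop : Continuous (fun v => Λ * Kt k ℓ c (v / Λ))).measurable)
    (fun v => mul_nonneg hΛ0.le (add_nonneg (h.nn _) (mul_nonneg hc0 (le_min zero_le_one (le_max_left _ _)))))
    (fun u v hu huv hg => by
      have hku : k (u / Λ) ≠ 0 := fun h0 => hg (by rw [h0, mul_zero])
      have huℓ : u / Λ < ℓ := by
        by_contra hcon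
        exact hku (h.supp _ (not_lt.1 hcon))
      have hd : |u / Λ - v / Λ| ≤ η := by
        rw [← sub_div, abs_div, abs_of_pos hΛ0, div_le_iff₀ hΛ0]
        exact huv
      have h5 := (abs_le.1 (h.lip (u / Λ) (v / Λ))).2
      have h6 := mul_le_mul_of_nonneg_left hd hC
      have h7 := (abs_le.1 hd).1
      have h8 : Kt k ℓ c (v / Λ) = k (v / Λ) + c := by
        unfold Kt
        rw [min_eq_left, mul_one]
        refine le_trans ?_ (le_max_right _ _)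
        push_cast
        linarith
      rw [h8, hc]
      nlinarith)
    hGi
  have hint : ∫ u in Ioc 0 (ℓ' * Λ), Λ * k (u / Λ) * EE κ a δ N u =
      Λ * ∫ u in Ioc 0 (ℓ * Λ), k (u / Λ) * EE κ a δ N u := by
    rw [← integral_const_mul]
    have : ∫ u in Ioc 0 (ℓ' * Λ), Λ * k (u / Λ) * EE κ a δ N u =
        ∫ u in Ioc 0 (ℓ * Λ), Λ * k (u / Λ) * EE κ a δ N u := by
      apply setIntegral_eq_of_subset_of_forall_sdiff_eq_zero measurableSet_Ioc
      · apply Ioc_subset_Ioc_right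
        apply mul_le_mul_of_nonneg_right _ hΛ0.le
        rw [hℓ']; linarith
      · intro u hu
        have : ℓ * Λ < u := by
          by_contra hc
          exact hu.2 ⟨hu.1.1, not_lt.1 hc⟩
        rw [h.supp _ (by rw [le_div_iff₀ hΛ0]; exact this.le), mul_zero, zero_mul]
    rw [this]
    congr 1
    funext u
    ring
  rw [hint] at h4
  have hκΛ : 0 ≤ κ * Λ ^ 3 := by positivity
  have hG0 : 0 ≤ ∫ v, fk κ v ^ 2 * (Λ * Kt k ℓ c (v / Λ)) :=
    integral_nonneg fun v => mul_nonneg (sq_nonneg _) (mul_nonneg hΛ0.le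
      (add_nonneg (h.nn _) (mul_nonneg hc0 (le_min zero_le_one (le_max_left _ _)))))
  have h6 : Real.pi * ((1 + ε1) ^ 2 + ε1) * (2 * ∫ v, fk κ v ^ 2 * (Λ * Kt k ℓ c (v / Λ))) ≤
      Real.pi * (1 + ε) * (2 * ∫ v, fk κ v ^ 2 * (Λ * Kt k ℓ c (v / Λ))) := by
    have g1 : (1 + ε1) ^ 2 + ε1 ≤ 1 + ε := by nlinarith
    gcongr
  have h7 : (1 + ε1) * τ * (κ * Λ ^ 2 * (Λ * (k 0 + C * θ))) ≤
      (τ * k 0 + ε1 * (τ * B) + 2 * τ * C * θ) * (κ * Λ ^ 3) := by
    have g1 : (1 + ε1) * τ * (k 0 + C * θ) ≤ τ * k 0 + ε1 * (τ * B) + 2 * τ * C * θ := by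
      have g2 : ε1 * (τ * k 0) ≤ ε1 * (τ * B) := by gcongr
      have g3 : (1 + ε1) * (τ * C * θ) ≤ 2 * (τ * C * θ) := by
        apply mul_le_mul_of_nonneg_right (by linarith) (by positivity)
      linarith
    calc _ = (1 + ε1) * τ * (k 0 + C * θ) * (κ * Λ ^ 3) := by ring
      _ ≤ _ := mul_le_mul_of_nonneg_right g1 hκΛ
  have g4 : (τ * k 0 + ε1 * (τ * B) + 2 * τ * C * θ) + η / 2 ≤ τ * k 0 + ε := by
    linarith
  have g5 := mul_le_mul_of_nonneg_right g4 hκΛ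
  calc Λ * (4 * Real.sqrt Real.pi * ∫ u in Ioc 0 (ℓ * Λ), k (u / Λ) * EE κ a δ N u) =
      4 * Real.sqrt Real.pi * (Λ * ∫ u in Ioc 0 (ℓ * Λ), k (u / Λ) * EE κ a δ N u) := by ring
    _ ≤ _ := h4
    _ ≤ _ := by linarith

theorem bump_low (hU : UpperV) {k : ℝ → ℝ} {ℓ : ℕ} {C B : ℝ} (h : KW k ℓ C B) (ε : ℝ) (hε : 0 < ε) :
    ∀ᶠ κ in 𝓝[>] (0 : ℝ), (Jm k ℓ - ε) * (κ * La κ ^ 2) ≤ ∫ v, fk κ v ^ 2 * k (v / La κ) := by
  have hpi := Real.pi_gt_three
  have hpi4 := Real.pi_le_four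
  have hC := h.C0
  have hB := h.B0
  set B' : ℝ := B + 1 with hB'
  have hB'0 : 0 < B' := by rw [hB']; linarith
  obtain ⟨m, hm⟩ := exists_nat_gt (4 * B' / ε)
  set A : ℕ := ℓ + m + 1 with hA
  have hA1 : 1 ≤ A := by omega
  have hAr : (A : ℝ) = ℓ + m + 1 := by rw [hA]; push_cast; ring
  have hA1' : (1 : ℝ) ≤ A := by exact_mod_cast hA1
  have hA_1 : (A : ℝ) ≤ (A + 2) ^ 2 := by nlinarith only [hA1']
  have hA_2 : (A : ℝ) ^ 2 ≤ (A + 2) ^ 2 := by nlinarith only [hA1']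
  have hA_3 : (A : ℝ) + 2 ≤ (A + 2) ^ 2 := by nlinarith only [hA1']
  have hA_4 : (A : ℝ) ≤ A ^ 2 := by nlinarith only [hA1']
  set lam : ℝ := (A - ℓ) / B' with hlam
  have hm0 : (0 : ℝ) ≤ m := Nat.cast_nonneg m
  have hℓ0 : (0 : ℝ) ≤ ℓ := Nat.cast_nonneg ℓ
  have hlam0 : 0 < lam := by rw [hlam, hAr]; apply div_pos _ hB'0; linarith
  have hlame : 4 ≤ ε * lam := by
    rw [hlam, hAr, mul_div_assoc', le_div_iff₀ hB'0]
    rw [div_lt_iff₀ hε] at hm
    nlinarith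
  have hlamB : lam * B ≤ A - ℓ := by
    have : lam * B' = A - ℓ := by rw [hlam]; field_simp
    have h2 : lam * B ≤ lam * B' := mul_le_mul_of_nonneg_left (by linarith) hlam0.le
    linarith
  set ε1 : ℝ := 1 / (24 * (A : ℝ) ^ 2) with hε1
  have hε1p : 0 < ε1 := by rw [hε1]; positivity
  have hε1A : ε1 * (A : ℝ) ^ 2 = 1 / 24 := by rw [hε1]; field_simp
  have hε11 : ε1 ≤ 1 := by
    rw [hε1, div_le_one (by positivity)]
    linarith
  obtain ⟨a, δ, ε2, N, ha, hδ, hδa, hδ1, hε2, hε2ε, hT1, hT2⟩ := num ε1 hε1p hε11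
  have hkA := KW_kA' A
  set ε3 : ℝ := 1 / (96 * (A + 2) ^ 2) with hε3
  have hε3p : 0 < ε3 := by rw [hε3]; positivity
  have hε3A : ε3 * (A + 2) ^ 2 = 1 / 96 := by rw [hε3]; field_simp
  obtain ⟨c, hc0, hcε, hup⟩ := Qup2 hkA a δ N ha hδ hδa ε3 hε3p
  have hkc := h.cont
  have hkAc := kA_cont A
  have hKtc := Kt_cont hkA c
  -- the continuous weight
  have hK'0 : ∀ α, 0 ≤ Kt (kA A) A c α - lam * k α := by
    intro α
    have h5 : 0 ≤ c * min 1 (max 0 (((A + 2 : ℕ) : ℝ) - α)) := mul_nonneg hc0 (le_min zero_le_one (le_max_left _ _))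
    have h6 : 0 ≤ kA A α - lam * k α := by
      rcases le_or_gt (ℓ : ℝ) α with h1 | h1
      · rw [h.supp α h1, mul_zero, sub_zero]
        exact le_max_left _ _
      · have h2 : lam * k α ≤ lam * B := mul_le_mul_of_nonneg_left (h.bd α) hlam0.le
        have h3 : (A : ℝ) - max α 0 ≤ kA A α := le_max_right _ _
        have h4 : max α 0 ≤ ℓ := max_le h1.le hℓ0
        linarith
    unfold Kt
    linarith
  have hw := wt_upper hU (fun α => Kt (kA A) A c α - lam * k α) (by fun_prop) hK'0 (A + 2) (by omega) (fun α hα => by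
      have h1 : kA A α = 0 := hkA.supp α (by push_cast at hα; linarith)
      have h2 : k α = 0 := h.supp α (by push_cast at hα; linarith)
      unfold Kt
      rw [h1, h2, max_eq_left (by linarith), min_eq_right zero_le_one]; ring) (A + c)
      (fun α => by
        have h3 : min 1 (max 0 (((A + 2 : ℕ) : ℝ) - α)) ≤ 1 := min_le_left _ _
        have h4 := mul_le_mul_of_nonneg_left h3 hc0
        have h5 := hkA.bd α
        have h6 := mul_nonneg hlam0.le (h.nn α)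
        unfold Kt
        linarith) ε3 hε3p
  have hwk := wt_upper hU k hkc h.nn (ℓ + 1) (by omega) (fun α hα => h.supp α (by push_cast at hα; linarith)) B
    h.bd 1 one_pos
  filter_upwards [hup, hw, hwk, fejer_low A hA1 a δ ε2 N ha hδ hδ1 hε2 (by linarith), La_ge 1, self_mem_nhdsWithin]
    with κ h1 h2 h2k h3 hL h3'
  have hκ : 0 < κ := h3'
  obtain ⟨hGi, h2⟩ := h2
  obtain ⟨hGk, -⟩ := h2k
  generalize La κ = Λ at *
  have hΛ0 : 0 < Λ := by linarith
  have hkk : ∫ v, fk κ v ^ 2 * (Λ * k (v / Λ)) = Λ * ∫ v, fk κ v ^ 2 * k (v / Λ) := by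
    rw [← integral_const_mul]
    congr 1; funext v; ring
  have hspl : (fun v => fk κ v ^ 2 * (Λ * Kt (kA A) A c (v / Λ))) = fun v =>
      fk κ v ^ 2 * (Λ * (Kt (kA A) A c (v / Λ) - lam * k (v / Λ))) + lam * (fk κ v ^ 2 * (Λ * k (v / Λ))) := by
    funext v; ring
  have h4 := h1 (by rw [hspl]; exact hGi.add (hGk.const_mul lam))
  rw [hspl, integral_add hGi (hGk.const_mul lam), integral_const_mul, hkk] at h4
  have hkA0 : kA A 0 = A := by rw [kA_pos A le_rfl (by linarith), sub_zero]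
  rw [hkA0] at h4
  -- the mass
  have hmass : ∫ α in (0 : ℝ)..((A + 2 : ℕ) : ℝ), (Kt (kA A) A c α - lam * k α) * min α 1 ≤
      ((A : ℝ) ^ 2 / 2 - A / 2 + 1 / 6) + c * (A + 2) - lam * Jm k ℓ := by
    have e0 := Kt_int hkA c hc0
    have e3 : Jm (kA A) A = (A : ℝ) ^ 2 / 2 - A / 2 + 1 / 6 := kA_int A hA1
    rw [e3] at e0
    have hi2 : ∀ a b : ℝ, IntervalIntegrable (fun α => k α * min α 1) volume a b := fun a b =>
      (by fun_prop : Continuous fun α => k α * min α 1).intervalIntegrable a b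
    have hi1 : ∀ a b : ℝ, IntervalIntegrable (fun α => Kt (kA A) A c α * min α 1) volume a b := fun a b =>
      (by fun_prop : Continuous fun α => Kt (kA A) A c α * min α 1).intervalIntegrable a b
    have e1 : ∫ α in (0 : ℝ)..((A + 2 : ℕ) : ℝ), (Kt (kA A) A c α - lam * k α) * min α 1 =
        (∫ α in (0 : ℝ)..((A + 2 : ℕ) : ℝ), Kt (kA A) A c α * min α 1) -
        lam * ∫ α in (0 : ℝ)..((A + 2 : ℕ) : ℝ), k α * min α 1 := by
      rw [← intervalIntegral.integral_const_mul, ← intervalIntegral.integral_sub (hi1 _ _) ((hi2 _ _).const_mul _)]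
      apply intervalIntegral.integral_congr
      intro α _
      simp only
      ring
    have e2 : ∫ α in (0 : ℝ)..((A + 2 : ℕ) : ℝ), k α * min α 1 = Jm k ℓ := by
      rw [← intervalIntegral.integral_add_adjacent_intervals (b := (ℓ : ℝ)) (hi2 0 _) (hi2 _ _)]
      have e4 : ∫ α in (ℓ : ℝ)..((A + 2 : ℕ) : ℝ), k α * min α 1 = 0 := by
        apply intervalIntegral.integral_zero_ae
        refine Eventually.of_forall fun α hα => ?_
        rw [uIoc_of_le (by push_cast; linarith)] at hα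
        rw [h.supp α hα.1.le, zero_mul]
      rw [e4, add_zero]
      rfl
    rw [e1, e2]
    linarith
  set I := ∫ v, fk κ v ^ 2 * k (v / Λ) with hI
  set I' := ∫ v, fk κ v ^ 2 * (Λ * (Kt (kA A) A c (v / Λ) - lam * k (v / Λ))) with hI'
  set TL := ∑ j ∈ Finset.range N, δ * (Vj a δ ε2 j ^ 2 / Wj a δ j) / xj a δ (j + 1) ^ 2 with hTL
  set J := Jm k ℓ with hJ
  have hκΛ : 0 ≤ κ * Λ ^ 3 := by positivity
  have hI0 : 0 ≤ I := integral_nonneg fun v => mul_nonneg (sq_nonneg _) (h.nn _)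
  have g0 : I' ≤ (((A : ℝ) ^ 2 / 2 - A / 2 + 1 / 6) + c * (A + 2) - lam * J + ε3) * (κ * Λ ^ 3) := by
    refine h2.trans (mul_le_mul_of_nonneg_right ?_ hκΛ)
    linarith
  have g1 : TT a δ N * A ≤ Real.pi * (1 + ε1) * A := mul_le_mul_of_nonneg_right hT1 (by linarith)
  have g2 : Real.pi * (1 - 2 * ε1) ≤ (1 - ε2) * TL := by
    have : (1 - ε1) * (Real.pi * (1 - ε1)) ≤ (1 - ε2) * TL :=
      mul_le_mul (by linarith) hT2 (mul_nonneg (by linarith) (by linarith)) (by linarith)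
    have h5' : 0 ≤ Real.pi * ε1 ^ 2 := by positivity
    linarith
  have g3 : (A : ℝ) ^ 2 * (Real.pi * (1 - 2 * ε1)) ≤ (A : ℝ) ^ 2 * (1 - ε2) * TL := by
    have := mul_le_mul_of_nonneg_left g2 (sq_nonneg (A : ℝ))
    linarith
  have g4 : (A : ℝ) ^ 2 * (Real.pi * (1 - 2 * ε1)) * (κ * Λ ^ 3) ≤
      (TT a δ N * A + ε3) * (κ * Λ ^ 3) + Real.pi * (1 + ε3) * (2 * (I' + lam * (Λ * I))) := by
    refine le_trans ?_ h4
    have q1 := mul_le_mul_of_nonneg_left h3 hΛ0.le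
    have q2 := mul_le_mul_of_nonneg_right g3 hκΛ
    refine q2.trans (le_trans (le_of_eq ?_) q1)
    ring
  -- combine
  have g5 : Real.pi * (1 + ε3) * (2 * I') ≤ Real.pi * (1 + ε3) * (2 * ((((A : ℝ) ^ 2 / 2 - A / 2 + 1 / 6) +
      c * (A + 2) - lam * J + ε3) * (κ * Λ ^ 3))) := by gcongr
  have hx1 : ε3 * A ≤ 1 / 96 := by
    rw [← hε3A]
    exact mul_le_mul_of_nonneg_left hA_1 hε3p.le
  have hx2 : ε3 * (A : ℝ) ^ 2 ≤ 1 / 96 := by
    rw [← hε3A]
    exact mul_le_mul_of_nonneg_left hA_2 hε3p.le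
  have hx3 : c * (A + 2) ≤ 1 / 96 := by
    have : c * (A + 2) ≤ ε3 * (A + 2) := mul_le_mul_of_nonneg_right hcε (by linarith)
    refine this.trans ?_
    rw [← hε3A]
    exact mul_le_mul_of_nonneg_left hA_3 hε3p.le
  have hx4 : ε3 ≤ 1 / 96 := by
    have := mul_le_mul_of_nonneg_left hA1' hε3p.le
    linarith
  have hx5 : ε1 * A ≤ 1 / 24 := by
    rw [← hε1A]
    exact mul_le_mul_of_nonneg_left hA_4 hε1p.le
  -- numbers: everything over (κ Λ ^ 3)
  have g6 : (A : ℝ) ^ 2 * (Real.pi * (1 - 2 * ε1)) - (TT a δ N * A + ε3) -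
      Real.pi * (1 + ε3) * (2 * (((A : ℝ) ^ 2 / 2 - A / 2 + 1 / 6) + c * (A + 2) - lam * J + ε3)) ≥
      Real.pi * (1 + ε3) * (2 * lam * J) - 3 := by
    have r1 : (A : ℝ) ^ 2 * (Real.pi * (1 - 2 * ε1)) = Real.pi * A ^ 2 - 2 * Real.pi * (1 / 24) := by
      rw [← hε1A]; ring
    have r2 : TT a δ N * A ≤ Real.pi * A + Real.pi * (1 / 24) := by
      refine g1.trans ?_
      have := mul_le_mul_of_nonneg_left hx5 (by linarith : 0 ≤ Real.pi)
      linarith
    have r3 : Real.pi * (1 + ε3) * (2 * (((A : ℝ) ^ 2 / 2 - A / 2 + 1 / 6) + c * (A + 2) - lam * J + ε3)) =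
        Real.pi * (A ^ 2 - A + 1 / 3) + Real.pi * (ε3 * A ^ 2 - ε3 * A + ε3 * (1 / 3)) +
        Real.pi * (1 + ε3) * (2 * (c * (A + 2) + ε3)) - Real.pi * (1 + ε3) * (2 * lam * J) := by ring
    have r4 : ε3 * (A : ℝ) ^ 2 - ε3 * A + ε3 * (1 / 3) ≤ 1 / 48 := by
      have : 0 ≤ ε3 * A := by positivity
      linarith
    have r5 : (1 + ε3) * (2 * (c * (A + 2) + ε3)) ≤ 2 * (2 * (1 / 96 + 1 / 96)) := by
      apply mul_le_mul (by linarith) (by linarith) (by positivity) (by norm_num)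
    have r6 : Real.pi * (ε3 * (A : ℝ) ^ 2 - ε3 * A + ε3 * (1 / 3)) ≤ Real.pi * (1 / 48) :=
      mul_le_mul_of_nonneg_left r4 (by linarith)
    have r7 : Real.pi * ((1 + ε3) * (2 * (c * (A + 2) + ε3))) ≤ Real.pi * (2 * (2 * (1 / 96 + 1 / 96))) :=
      mul_le_mul_of_nonneg_left r5 (by linarith)
    rw [r1, r3]
    linarith
  have g7 := mul_le_mul_of_nonneg_right g6 hκΛ
  have g8 : (Real.pi * (1 + ε3) * (2 * lam * J) - 3) * (κ * Λ ^ 3) ≤ Real.pi * (1 + ε3) * (2 * (lam * (Λ * I))) := by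
    linarith
  have g9 : Λ * (2 * Real.pi * (1 + ε3) * lam * ((J - ε) * (κ * Λ ^ 2))) ≤ Λ * (2 * Real.pi * (1 + ε3) * lam * I) := by
    have s1 : 3 ≤ 2 * Real.pi * (1 + ε3) * (lam * ε) := by
      have h1' : 1 * 4 ≤ (1 + ε3) * (lam * ε) := mul_le_mul (by linarith) (by linarith) (by norm_num) (by positivity)
      have h2' : 3 * (1 * 4) ≤ Real.pi * ((1 + ε3) * (lam * ε)) := mul_le_mul hpi.le h1' (by norm_num) (by positivity)
      linarith
    have s2 := mul_le_mul_of_nonneg_right s1 hκΛ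
    linarith
  have g10 := le_of_mul_le_mul_left g9 hΛ0
  exact le_of_mul_le_mul_left g10 (by positivity)

end Pool.Agent.L5helper12.PV
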