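import Pool.Agent.L5helper12.PV.Stm2
import Pool.Agent.L5helper12.PV.Vlow

/-! Bounds which are uniform in the scale. -/

set_option autoImplicit false

open Filter Topology Set MeasureTheory H370

namespace Pool.Agent.L5helper12.PV

open Pool.Agent.L5helper10.TV hiding GG
open Pool.Agent.Y744 (mz mz_nonneg)

lemma liftU {P : ℝ → Prop} (h : ∀ᶠ κ in 𝓝[>] (0 : ℝ), P κ) (x1 x2 : ℝ) (h1 : 0 < x1) :
    ∀ᶠ T in atTop, ∀ x ∈ Icc x1 x2, P (x / T) := by
  rw [eventually_nhdsWithin_iff, Metric.eventually_nhds_iff] at h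
  obtain ⟨ε, hε, h⟩ := h
  filter_upwards [eventually_gt_atTop (max 0 (x2 / ε))] with T hT x hx
  have hT0 : 0 < T := (le_max_left _ _).trans_lt hT
  have hT1 : x2 / ε < T := (le_max_right _ _).trans_lt hT
  have hx0 : 0 < x := lt_of_lt_of_le h1 hx.1
  have hp : 0 < x / T := div_pos hx0 hT0
  apply h _ hp
  rw [Real.dist_eq, sub_zero, abs_of_pos hp, div_lt_iff₀ hT0]
  rw [div_lt_iff₀ hε] at hT1
  linarith [hx.2]

lemma ev_factsU (a b x1 x2 : ℝ) (hx1 : 0 < x1) (ha : 0 < a) (hb : 0 < b) : ∀ᶠ T in atTop, ∀ X ∈ Icc x1 x2,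
    4 ≤ T ∧ 0 < X / T ∧ X / T ≤ 1 ∧
    4 ≤ a / (X / T) - La (X / T) ∧ b / (X / T) + La (X / T) ≤ T ^ 2 ∧ 4 ≤ La (X / T) ∧
    Real.exp (-La (X / T) ^ 2 / 4) ≤ X / T := by
  have h1 := liftU (La_small (a / 2) 1 (by positivity) 1) x1 x2 hx1
  have h2 := liftU (La_small (a / 2) 4 (by positivity) 0) x1 x2 hx1
  have h3 := liftU (La_ge 4) x1 x2 hx1
  have h4 := liftU (La_small 1 1 one_pos 1) x1 x2 hx1
  have h5 := liftU le_one_ev x1 x2 hx1
  filter_upwards [h1, h2, h3, h4, h5, eventually_ge_atTop 4, eventually_ge_atTop ((b + 1) / x1)] with T b1 b2 b3 b4 b5 a6 a7 X hX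
  have a1 := b1 X hX
  have a2 := b2 X hX
  have a3 := b3 X hX
  have a4 := b4 X hX
  have a5 := b5 X hX
  have hX0 : 0 < X := lt_of_lt_of_le hx1 hX.1
  have hT : 0 < T := by linarith
  have hκ : 0 < X / T := div_pos hX0 hT
  rw [pow_one, one_mul] at a1 a4
  rw [pow_zero, mul_one] at a2
  refine ⟨a6, hκ, a5, ?_, ?_, a3, ?_⟩
  · have : a / (X / T) = a / 2 / (X / T) + a / 2 / (X / T) := by ring
    rw [this]; linarith
  · have e1 : b / (X / T) + 1 / (X / T) = (b + 1) / X * T := by field_simp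
    have e3 : (b + 1) / X ≤ (b + 1) / x1 := div_le_div_of_nonneg_left (by linarith) hx1 hX.1
    have e2 : (b + 1) / X * T ≤ T * T := mul_le_mul_of_nonneg_right (e3.trans a7) hT.le
    nlinarith
  · have e1 : X / T = Real.exp (-La (X / T)) := by
      unfold La
      rw [neg_neg, Real.exp_log hκ]
    conv_rhs => rw [e1]
    apply Real.exp_le_exp.2
    nlinarith

theorem EE_SPu (RH : RiemannHypothesis) (a δ : ℝ) (N : ℕ) (ha : 0 < a) (hδ : 0 < δ) (hδa : δ ≤ a / 2)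
    (η : ℝ) (hη : 0 < η) : ∃ C : ℝ, 0 ≤ C ∧ ∀ x1 x2 : ℝ, 0 < x1 → ∀ᶠ T in atTop, ∀ X ∈ Icc x1 x2, ∀ u : ℝ,
      EE (X / T) a δ N u ≤ (1 + η) * (∫ t in (a / (X / T))..(xj a δ N / (X / T)),
        qf (X / T) t / t ^ 2 * ‖SP (Zw T) u t‖ ^ 2) + C * ((X / T) ^ 3 * Real.log T ^ 2) ∧
      (1 - 2 * δ / a) * (∫ t in (a / (X / T))..(xj a δ N / (X / T)),
        (qf (X / T) t - 5 * δ) / t ^ 2 * ‖SP (Zw T) u t‖ ^ 2) ≤
        (1 + η) * EE (X / T) a δ N u + C * ((X / T) ^ 3 * Real.log T ^ 2) := by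
  obtain ⟨C0, hC0, hLg⟩ := Lg_le
  have hxN : 0 < xj a δ N := xj_pos ha hδ N
  refine ⟨N * ((1 + 1 / η) * (64 * C0 ^ 2 / (3 * a ^ 2))), by positivity, fun x1 x2 hx1 => ?_⟩
  filter_upwards [ev_factsU a (xj a δ N) x1 x2 hx1 ha hxN] with T hT X hXX u
  obtain ⟨hT4, hκ, hκ1, f1, f2, f3, f4⟩ := hT X hXX
  have hL0 : 0 ≤ Real.log T := Real.log_nonneg (by linarith)
  obtain ⟨κ, hκdef⟩ : ∃ κ, κ = X / T := ⟨_, rfl⟩
  rw [← hκdef] at hκ hκ1 f1 f2 f3 f4 ⊢
  clear hκdef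
  have hax : ∀ j : ℕ, a ≤ xj a δ j := by
    intro j
    unfold xj
    have : (0 : ℝ) ≤ j := Nat.cast_nonneg j
    nlinarith
  have hxj : ∀ j : ℕ, xj a δ j ≤ xj a δ (j + 1) := by
    intro j; rw [xj_succ]; linarith
  have hxjN : ∀ j ≤ N, xj a δ j ≤ xj a δ N := by
    intro j hj
    unfold xj
    have : (j : ℝ) ≤ N := by exact_mod_cast hj
    nlinarith
  have hdiv : ∀ j : ℕ, xj a δ j / κ ≤ xj a δ (j + 1) / κ := fun j => div_le_div_of_nonneg_right (hxj j) hκ.le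
  obtain ⟨S, hS⟩ : ∃ S : ℝ → ℝ, ∀ t, S t = ‖SP (Zw T) u t‖ ^ 2 := ⟨_, fun _ => rfl⟩
  simp only [← hS]
  have hSc : Continuous S := by
    have h2 := SP_cont_t (Zw T) u
    have e : S = fun t => ‖SP (Zw T) u t‖ ^ 2 := funext hS
    rw [e]
    exact (h2.norm).pow 2
  have hS0 : ∀ t, 0 ≤ S t := fun t => by rw [hS]; positivity
  have hqc := qf_cont κ
  set E : ℝ := 8 * κ * (C0 * Real.log T) with hE
  have hE0 : 0 ≤ E := by positivity
  have herr : ∀ j < N, ∀ t ∈ Icc (xj a δ j / κ) (xj a δ (j + 1) / κ),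
      ‖FB κ (xj a δ j) (xj a δ (j + 1)) u t - ((qf κ t : ℝ) : ℂ) * SP (Zw T) u t‖ ≤ E := by
    intro j hj t ht
    have h1 : 4 ≤ xj a δ j / κ - La κ := by
      have : a / κ ≤ xj a δ j / κ := div_le_div_of_nonneg_right (hax j) hκ.le
      linarith
    have h2 : xj a δ (j + 1) / κ + La κ ≤ T ^ 2 := by
      have : xj a δ (j + 1) / κ ≤ xj a δ N / κ := div_le_div_of_nonneg_right (hxjN _ hj) hκ.le
      linarith
    have h3 := FB_SP RH κ (xj a δ j) (xj a δ (j + 1)) T t u hκ hκ1 h1 h2 ht.1 ht.2 (by linarith) f4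
    refine h3.trans ?_
    rw [hE]
    exact mul_le_mul_of_nonneg_left (hLg T hT4 t) (by positivity)
  -- integrability on blocks
  have hpos : ∀ j : ℕ, 0 < xj a δ j / κ := fun j => div_pos (xj_pos ha hδ j) hκ
  have hii : ∀ (c : ℝ) (j : ℕ), IntervalIntegrable (fun t => (qf κ t - c) / t ^ 2 * S t) volume (xj a δ j / κ)
      (xj a δ (j + 1) / κ) := by
    intro c j
    apply ContinuousOn.intervalIntegrable
    rw [uIcc_of_le (hdiv j)]
    apply ContinuousOn.mul _ hSc.continuousOn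
    apply ContinuousOn.div (hqc.sub continuous_const).continuousOn (continuous_pow 2).continuousOn
    intro t ht
    have := (hpos j).trans_le ht.1
    positivity
  have hw : ∀ j, wj κ a δ j = κ ^ 2 / ((2 - 2 * Real.cos (xj a δ j) + 3 * δ) * (xj a δ j + δ) ^ 2) := by
    intro j
    unfold wj Wj
    rw [xj_succ]
  have hw0 : ∀ j, 0 ≤ wj κ a δ j := wj_nonneg κ a δ hδ
  have hq2 : ∀ j : ℕ, IntervalIntegrable (fun t => qf κ t ^ 2 * S t) volume (xj a δ j / κ) (xj a δ (j + 1) / κ) := by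
    intro j
    exact ((hqc.pow 2).mul hSc).intervalIntegrable _ _
  have hFBi : ∀ j : ℕ, IntervalIntegrable (fun t => ‖FB κ (xj a δ j) (xj a δ (j + 1)) u t‖ ^ 2) volume (xj a δ j / κ)
      (xj a δ (j + 1) / κ) := by
    intro j
    exact (((FB_cont κ (xj a δ j) (xj a δ (j + 1)) u).norm).pow 2).intervalIntegrable _ _
  have hcst : ∀ (c : ℝ) (j : ℕ), IntervalIntegrable (fun _ : ℝ => c) volume (xj a δ j / κ) (xj a δ (j + 1) / κ) :=
    fun c j => by simp
  have hlen : ∀ j : ℕ, xj a δ (j + 1) / κ - xj a δ j / κ = δ / κ := by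
    intro j; rw [xj_succ]; ring
  have hnorm : ∀ t : ℝ, ‖((qf κ t : ℝ) : ℂ) * SP (Zw T) u t‖ ^ 2 = qf κ t ^ 2 * S t := by
    intro t
    rw [norm_mul, Complex.norm_real, Real.norm_of_nonneg (qf_nonneg κ t), mul_pow, hS]
  have herrw : ∀ j : ℕ, wj κ a δ j * ((1 + 1 / η) * E ^ 2 * (δ / κ)) ≤
      (1 + 1 / η) * (64 * C0 ^ 2 / (3 * a ^ 2)) * (κ ^ 3 * Real.log T ^ 2) := by
    intro j
    rw [hw j]
    have hc := Real.cos_le_one (xj a δ j)
    have h1 : κ ^ 2 / ((2 - 2 * Real.cos (xj a δ j) + 3 * δ) * (xj a δ j + δ) ^ 2) ≤ κ ^ 2 / (3 * δ * a ^ 2) := by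
      apply div_le_div_of_nonneg_left (by positivity) (by positivity)
      apply mul_le_mul (by linarith) _ (by positivity) (by linarith)
      exact pow_le_pow_left₀ ha.le (by linarith [hax j]) 2
    calc _ ≤ κ ^ 2 / (3 * δ * a ^ 2) * ((1 + 1 / η) * E ^ 2 * (δ / κ)) := mul_le_mul_of_nonneg_right h1 (by positivity)
      _ = _ := by rw [hE]; field_simp; ring
  -- per block
  have hup : ∀ j ∈ Finset.range N, wj κ a δ j * Ej κ (xj a δ j) (xj a δ (j + 1)) u ≤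
      (1 + η) * (∫ t in (xj a δ j / κ)..(xj a δ (j + 1) / κ), (qf κ t - 0) / t ^ 2 * S t) +
      (1 + 1 / η) * (64 * C0 ^ 2 / (3 * a ^ 2)) * (κ ^ 3 * Real.log T ^ 2) := by
    intro j hj
    have hjN := Finset.mem_range.1 hj
    have h1 : Ej κ (xj a δ j) (xj a δ (j + 1)) u ≤ ∫ t in (xj a δ j / κ)..(xj a δ (j + 1) / κ),
        ((1 + η) * (qf κ t ^ 2 * S t) + (1 + 1 / η) * E ^ 2) := by
      unfold Ej
      apply intervalIntegral.integral_mono_on (hdiv j) (hFBi j) (((hq2 j).const_mul _).add (hcst _ j))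
      intro t ht
      have h2 := sq_up η hη (FB κ (xj a δ j) (xj a δ (j + 1)) u t) (((qf κ t : ℝ) : ℂ) * SP (Zw T) u t)
      rw [hnorm] at h2
      have h3 := pow_le_pow_left₀ (norm_nonneg _) (herr j hjN t ht) 2
      have h4 := mul_le_mul_of_nonneg_left h3 (by positivity : 0 ≤ 1 + 1 / η)
      linarith
    rw [intervalIntegral.integral_add ((hq2 j).const_mul _) (hcst _ j), intervalIntegral.integral_const_mul,
      intervalIntegral.integral_const, smul_eq_mul, hlen] at h1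
    have h5 : wj κ a δ j * (∫ t in (xj a δ j / κ)..(xj a δ (j + 1) / κ), qf κ t ^ 2 * S t) ≤
        ∫ t in (xj a δ j / κ)..(xj a δ (j + 1) / κ), (qf κ t - 0) / t ^ 2 * S t := by
      rw [← intervalIntegral.integral_const_mul]
      apply intervalIntegral.integral_mono_on (hdiv j) ((hq2 j).const_mul _) (hii 0 j)
      intro t ht
      rw [sub_zero, ← mul_assoc, hw j]
      apply mul_le_mul_of_nonneg_right _ (hS0 t)
      exact blk_up κ (xj a δ j) δ t hκ (xj_pos ha hδ j) hδ ht.1 (by rw [← xj_succ]; exact ht.2)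
    have h6 := mul_le_mul_of_nonneg_left h1 (hw0 j)
    have h7 := mul_le_mul_of_nonneg_left h5 (by linarith : 0 ≤ 1 + η)
    have h8 := herrw j
    calc _ ≤ _ := h6
      _ = (1 + η) * (wj κ a δ j * ∫ t in (xj a δ j / κ)..(xj a δ (j + 1) / κ), qf κ t ^ 2 * S t) +
          wj κ a δ j * ((1 + 1 / η) * E ^ 2 * (δ / κ)) := by ring
      _ ≤ _ := add_le_add h7 h8
  have hlow : ∀ j ∈ Finset.range N, (1 - 2 * δ / a) * (∫ t in (xj a δ j / κ)..(xj a δ (j + 1) / κ),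
      (qf κ t - 5 * δ) / t ^ 2 * S t) ≤ (1 + η) * (wj κ a δ j * Ej κ (xj a δ j) (xj a δ (j + 1)) u) +
      (1 + 1 / η) * (64 * C0 ^ 2 / (3 * a ^ 2)) * (κ ^ 3 * Real.log T ^ 2) := by
    intro j hj
    have hjN := Finset.mem_range.1 hj
    have h1 : ∫ t in (xj a δ j / κ)..(xj a δ (j + 1) / κ), qf κ t ^ 2 * S t ≤
        (1 + η) * Ej κ (xj a δ j) (xj a δ (j + 1)) u + (1 + 1 / η) * E ^ 2 * (δ / κ) := by
      have h0 : ∫ t in (xj a δ j / κ)..(xj a δ (j + 1) / κ), qf κ t ^ 2 * S t ≤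
          ∫ t in (xj a δ j / κ)..(xj a δ (j + 1) / κ),
          ((1 + η) * ‖FB κ (xj a δ j) (xj a δ (j + 1)) u t‖ ^ 2 + (1 + 1 / η) * E ^ 2) := by
        apply intervalIntegral.integral_mono_on (hdiv j) (hq2 j) (((hFBi j).const_mul _).add (hcst _ j))
        intro t ht
        have h2 := sq_up η hη (((qf κ t : ℝ) : ℂ) * SP (Zw T) u t) (FB κ (xj a δ j) (xj a δ (j + 1)) u t)
        rw [hnorm, norm_sub_rev] at h2
        have h3 := pow_le_pow_left₀ (norm_nonneg _) (herr j hjN t ht) 2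
        have h4 := mul_le_mul_of_nonneg_left h3 (by positivity : 0 ≤ 1 + 1 / η)
        linarith
      rw [intervalIntegral.integral_add ((hFBi j).const_mul _) (hcst _ j), intervalIntegral.integral_const_mul,
        intervalIntegral.integral_const, smul_eq_mul, hlen] at h0
      unfold Ej
      linarith
    have h5 : (1 - 2 * δ / a) * (∫ t in (xj a δ j / κ)..(xj a δ (j + 1) / κ), (qf κ t - 5 * δ) / t ^ 2 * S t) ≤
        wj κ a δ j * (∫ t in (xj a δ j / κ)..(xj a δ (j + 1) / κ), qf κ t ^ 2 * S t) := by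
      rw [← intervalIntegral.integral_const_mul, ← intervalIntegral.integral_const_mul]
      apply intervalIntegral.integral_mono_on (hdiv j) ((hii (5 * δ) j).const_mul _) ((hq2 j).const_mul _)
      intro t ht
      rw [← mul_assoc, ← mul_assoc, hw j]
      apply mul_le_mul_of_nonneg_right _ (hS0 t)
      exact blk_low κ (xj a δ j) δ a t hκ ha (hax j) hδ hδa ht.1 (by rw [← xj_succ]; exact ht.2)
    have h6 := mul_le_mul_of_nonneg_left h1 (hw0 j)
    have h8 := herrw j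
    calc _ ≤ _ := h5
      _ ≤ _ := h6
      _ = (1 + η) * (wj κ a δ j * Ej κ (xj a δ j) (xj a δ (j + 1)) u) +
          wj κ a δ j * ((1 + 1 / η) * E ^ 2 * (δ / κ)) := by ring
      _ ≤ _ := add_le_add le_rfl h8
  have hadj : ∀ c : ℝ, ∑ j ∈ Finset.range N, (∫ t in (xj a δ j / κ)..(xj a δ (j + 1) / κ), (qf κ t - c) / t ^ 2 * S t) =
      ∫ t in (a / κ)..(xj a δ N / κ), (qf κ t - c) / t ^ 2 * S t := by
    intro c
    rw [intervalIntegral.sum_integral_adjacent_intervals (a := fun j => xj a δ j / κ) (fun k _ => hii c k)]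
    congr 1
    unfold xj
    simp
  constructor
  · have h1 := Finset.sum_le_sum hup
    rw [Finset.sum_add_distrib, ← Finset.mul_sum, hadj 0, Finset.sum_const, Finset.card_range, nsmul_eq_mul] at h1
    simp only [sub_zero] at h1
    unfold EE
    calc _ ≤ _ := h1
      _ = _ := by ring
  · have h1 := Finset.sum_le_sum hlow
    rw [← Finset.mul_sum, hadj (5 * δ), Finset.sum_add_distrib, ← Finset.mul_sum, Finset.sum_const, Finset.card_range,
      nsmul_eq_mul] at h1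
    unfold EE
    calc _ ≤ _ := h1
      _ = _ := by ring


/-- the lower bound with a free scale -/
lemma fejer_lowL (A : ℕ) (hA : 1 ≤ A) (a δ ε : ℝ) (N : ℕ) (ha : 0 < a) (hδ : 0 < δ) (hδ1 : δ ≤ 1) (hε : 0 < ε)
    (hε1 : ε ≤ 1) : ∀ᶠ κ in 𝓝[>] (0 : ℝ), ∀ L : ℝ, 0 < L →
    (A : ℝ) ^ 2 * (1 - ε) * (∑ j ∈ Finset.range N, δ * (Vj a δ ε j ^ 2 / Wj a δ j) / xj a δ (j + 1) ^ 2) *
      (κ * (L * La κ)) ≤ 4 * Real.sqrt Real.pi * ∫ u in Ioc 0 (A * L), kA A (u / L) * EE κ a δ N u := by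
  filter_upwards [lower_EE a δ ε N ha hδ hδ1 hε hε1, La_ge 1, self_mem_nhdsWithin] with κ h1 hL h3 L hL0
  have hκ : 0 < κ := h3
  have h4 := h1 (Icc 0 (A * L)) measurableSet_Icc (A * L) (by positivity) le_rfl
  rw [Real.volume_Icc, sub_zero, ENNReal.toReal_ofReal (by positivity)] at h4
  have hEc := EE_cont κ a δ N
  have hE0 : ∀ u, 0 ≤ EE κ a δ N u := by
    intro u
    unfold EE
    refine Finset.sum_nonneg fun j _ => mul_nonneg (wj_nonneg κ a δ hδ j) (Ej_nonneg ?_ u)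
    apply div_le_div_of_nonneg_right _ hκ.le
    rw [xj_succ]; linarith
  have h5 : ∫ u in Ioc 0 (A * L), L5helper10.TV.GG (Icc 0 (A * L)) u * EE κ a δ N u ≤
      ∫ u in Ioc 0 (A * L), L * (kA A (u / L) * EE κ a δ N u) := by
    have hkc := kA_cont A
    apply setIntegral_mono_on
    · exact GG_mul_intOn _ measurableSet_Icc (by rw [Real.volume_Icc]; exact ENNReal.ofReal_lt_top) _ _ _ (hEc.continuousOn.integrableOn_Icc.mono_set Ioc_subset_Icc_self)
    · exact ((by fun_prop : Continuous fun u => L * (kA A (u / L) * EE κ a δ N u)).continuousOn.integrableOn_Icc.mono_set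
        Ioc_subset_Icc_self)
    · exact measurableSet_Ioc
    · intro u hu
      rw [← mul_assoc]
      apply mul_le_mul_of_nonneg_right _ (hE0 u)
      refine (GG_Icc_le _ u).trans ?_
      rw [kA_pos A (by have := hu.1; positivity) (by rw [div_le_iff₀ hL0]; exact hu.2)]
      rw [max_eq_left (by linarith [hu.2])]
      apply le_of_eq
      field_simp
  rw [integral_const_mul] at h5
  have h6 := h4.trans (mul_le_mul_of_nonneg_left h5 (by positivity : 0 ≤ 4 * Real.sqrt Real.pi))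
  have h7 : L * ((A : ℝ) ^ 2 * (1 - ε) * (∑ j ∈ Finset.range N, δ * (Vj a δ ε j ^ 2 / Wj a δ j) / xj a δ (j + 1) ^ 2) *
      (κ * (L * La κ))) ≤ L * (4 * Real.sqrt Real.pi * ∫ u in Ioc 0 (A * L), kA A (u / L) * EE κ a δ N u) := by
    refine le_trans (le_of_eq ?_) (h6.trans (le_of_eq ?_))
    · ring
    · ring
  exact le_of_mul_le_mul_left h7 hL0

end Pool.Agent.L5helper12.PV
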