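import Pool.Agent.L5helper12.TW.Tele

/-! The sum over dyadic blocks, with a general limit. -/

set_option autoImplicit false

open Filter Topology Complex MeasureTheory

namespace Pool.Agent.L5helper12.PV

open H370 TH803TW Pool.Agent.Results.MP_103a5c_nt.BohrSetPairs
open Pool.Agent.L5helper12.TW
open Pool.Agent.Y744 (mz mz_nonneg Zt Zb mem_Zt mem_Zb QS Xf Xf_pos QS_abs_bound QS_far_bound
  QS_le_abs split_pairs near_bound PP1_Zt_step PP1_anti Q2 QS_split)

lemma step_limc {R : ℝ → ℝ} {κ : ℝ} {f : ℝ → ℝ} {cc : ℝ} {l : Filter ℝ} (hl : l ≤ atTop) (h : T4 R κ f)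
    (h1 : Tendsto (fun V => QS (Zb V (2 * V)) (Zb V (2 * V)) mz (fun s => s.im) f (Real.log V) /
      Xf V) l (𝓝 (cc))) {σ : ℝ} (hσ : 0 ≤ σ) :
    Tendsto (fun V => (Q2 f (2 * V) (Real.log V + σ) - Q2 f V (Real.log V + σ)) / Xf V) l
      (𝓝 (cc)) := by
  obtain ⟨C, B0, V0, hC, hB0, hV0, hblk, hloc⟩ := PP_bd
  obtain ⟨C1, hC1, hs⟩ := h.scale
  -- scale change
  have h2 : Tendsto (fun V => (QS (Zb V (2 * V)) (Zb V (2 * V)) mz (fun s => s.im) f
      (Real.log V + σ) - QS (Zb V (2 * V)) (Zb V (2 * V)) mz (fun s => s.im) f (Real.log V)) /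
      Xf V) l (𝓝 0) := by
    have h3 : Tendsto (fun V : ℝ => 3200 * C1 * σ * C * (2 * Real.pi) * (Real.log V)⁻¹) l
        (𝓝 (3200 * C1 * σ * C * (2 * Real.pi) * 0)) :=
      ((tendsto_inv_atTop_zero.comp Real.tendsto_log_atTop).const_mul _).mono_left hl
    rw [mul_zero] at h3
    refine squeeze_zero_norm' ?_ h3
    filter_upwards [hl (eventually_ge_atTop V0)] with V hV
    have hV20 : 20 ≤ V := hV0.trans hV
    have hL : 0 < Real.log V := Real.log_pos (by linarith)
    have hX := Xf_pos (V := V) (by linarith)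
    have h4 := scale_err (x := fun s : ℂ => s.im) (Zb V (2 * V)) mz_nonneg hC1 hs hL
      (s := 1 + σ / Real.log V) (by
        have : 0 ≤ σ / Real.log V := by positivity
        linarith)
    have e1 : (1 + σ / Real.log V) * Real.log V = Real.log V + σ := by field_simp
    rw [e1] at h4
    rw [Real.norm_eq_abs, abs_div, abs_of_pos hX, div_le_iff₀ hX]
    refine h4.trans ((mul_le_mul_of_nonneg_left (hblk V hV) ?_).trans (le_of_eq ?_))
    · have : 0 ≤ σ / Real.log V := by positivity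
      have h5 : 0 ≤ C1 * (1 + σ / Real.log V - 1) := mul_nonneg hC1 (by linarith)
      linarith
    · unfold Xf
      have hpi := Real.pi_pos
      field_simp
      ring
  -- cross terms
  have h3 : Tendsto (fun V => 2 * QS (Zt V) (Zb V (2 * V)) mz (fun s => s.im) f
      (Real.log V + σ) / Xf V) l (𝓝 0) := by
    refine Tendsto.mono_left ?_ hl
    rw [Metric.tendsto_atTop]
    intro ε hε
    obtain ⟨V1, hV1, h4⟩ := cross_small h (η := ε / 16) (by positivity)
    refine ⟨V1, fun V hV => ?_⟩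
    have hV20 : 20 ≤ V := hV1.trans hV
    have hX := Xf_pos (V := V) (by linarith)
    have h5 := h4 V hV (Real.log V + σ) (by linarith)
    rw [Real.dist_eq, sub_zero, abs_div, abs_of_pos hX, div_lt_iff₀ hX, abs_mul,
      abs_of_pos (by norm_num : (0 : ℝ) < 2)]
    have hY : 0 < V * Real.log V := mul_pos (by linarith) (Real.log_pos (by linarith))
    have h6 : ε / 8 * (V * Real.log V) < ε * Xf V := by
      unfold Xf
      have hpi := Real.pi_lt_d2
      have hpi0 := Real.pi_pos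
      rw [← mul_div_assoc, lt_div_iff₀ (by positivity)]
      have : 0 < ε * (V * Real.log V) := by positivity
      nlinarith
    linarith
  have h4 := (h1.add h2).add h3
  rw [add_zero, add_zero] at h4
  refine h4.congr' ?_
  filter_upwards [hl (eventually_ge_atTop (1 : ℝ))] with V hV
  rw [QS_split h.even hV]
  ring

lemma tele_limc {R : ℝ → ℝ} {κ : ℝ} {f : ℝ → ℝ} {cc : ℝ} {l : Filter ℝ} (hl : l ≤ atTop) (h : T4 R κ f)
    (hblk : ∀ J : ℕ, Tendsto (fun V => QS (Zb V (2 * V)) (Zb V (2 * V)) mz (fun s => s.im) f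
      (Real.log V) / Xf V) (map (fun T : ℝ => T / 2 ^ (J + 1)) l) (𝓝 (cc))) (J : ℕ) :
    Tendsto (fun T => (Q2 f T (Real.log T) - Q2 f (T / 2 ^ J) (Real.log T)) / Xf T) l
      (𝓝 (cc * (1 - 1 / 2 ^ J))) := by
  induction J with
  | zero =>
    simp only [pow_zero, div_one, sub_self, zero_div, mul_zero]
    exact tendsto_const_nhds
  | succ J ih =>
    have ht : Tendsto (fun T : ℝ => T / 2 ^ (J + 1)) l atTop :=
      (tendsto_id.atTop_div_const (by positivity)).mono_left hl
    have h1 := step_limc (l := map (fun T : ℝ => T / 2 ^ (J + 1)) l) ht h (hblk J)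
      (σ := (J + 1) * Real.log 2)
      (mul_nonneg (by positivity) (Real.log_nonneg (by norm_num)))
    have h2 := tendsto_map'_iff.1 h1
    have h3 : Tendsto (fun T : ℝ => Xf (T / 2 ^ (J + 1)) / Xf T) l (𝓝 (1 / 2 ^ (J + 1))) := by
      refine Tendsto.mono_left ?_ hl
      have h4 : Tendsto (fun T : ℝ => 1 / 2 ^ (J + 1) * (1 - (J + 1) * Real.log 2 *
          (Real.log T)⁻¹)) atTop (𝓝 (1 / 2 ^ (J + 1) * (1 - (J + 1) * Real.log 2 * 0))) :=
        (tendsto_const_nhds.sub ((tendsto_inv_atTop_zero.comp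
          Real.tendsto_log_atTop).const_mul _)).const_mul _
      rw [mul_zero, sub_zero, mul_one] at h4
      refine h4.congr' ?_
      filter_upwards [eventually_gt_atTop (1 : ℝ)] with T hT
      have hL : 0 < Real.log T := Real.log_pos hT
      unfold Xf
      rw [Real.log_div (by linarith) (by positivity), Real.log_pow]
      have hpi := Real.pi_pos
      push_cast
      field_simp
    have h4 := ih.add (h2.mul h3)
    have e : cc * (1 - 1 / 2 ^ J) + cc * (1 / 2 ^ (J + 1)) =
        cc * (1 - 1 / 2 ^ (J + 1)) := by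
      rw [pow_succ]
      field_simp
      ring
    rw [e] at h4
    refine h4.congr' ?_
    filter_upwards [hl (eventually_gt_atTop ((2 : ℝ) ^ (J + 1)))] with T hT
    have hT1 : 1 < T := lt_of_le_of_lt (one_le_pow₀ (by norm_num)) hT
    have hV : 1 < T / 2 ^ (J + 1) := by
      rw [lt_div_iff₀ (by positivity)]
      linarith
    have hX := Xf_pos hT1
    have hXV := Xf_pos hV
    show (Q2 f T (Real.log T) - Q2 f (T / 2 ^ J) (Real.log T)) / Xf T +
      (Q2 f (2 * (T / 2 ^ (J + 1))) (Real.log (T / 2 ^ (J + 1)) + (J + 1) * Real.log 2) -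
        Q2 f (T / 2 ^ (J + 1)) (Real.log (T / 2 ^ (J + 1)) + (J + 1) * Real.log 2)) /
        Xf (T / 2 ^ (J + 1)) * (Xf (T / 2 ^ (J + 1)) / Xf T) = _
    have e1 : Real.log (T / 2 ^ (J + 1)) + (J + 1) * Real.log 2 = Real.log T := by
      rw [Real.log_div (by linarith) (by positivity), Real.log_pow]
      push_cast
      ring
    have e2 : 2 * (T / 2 ^ (J + 1)) = T / 2 ^ J := by
      rw [pow_succ]
      field_simp
    rw [e1, e2]
    field_simp
    ring

/-- **Montgomery's theorem for the zeros up to height `T`** -/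
theorem mont_limc {R : ℝ → ℝ} {κ : ℝ} {f : ℝ → ℝ} {cc : ℝ} {l : Filter ℝ} (hl : l ≤ atTop) (h : T4 R κ f)
    (hblk : ∀ J : ℕ, Tendsto (fun V => QS (Zb V (2 * V)) (Zb V (2 * V)) mz (fun s => s.im) f
      (Real.log V) / Xf V) (map (fun T : ℝ => T / 2 ^ (J + 1)) l) (𝓝 (cc))) :
    Tendsto (fun T => Q2 f T (Real.log T) / Xf T) l (𝓝 (cc)) := by
  obtain ⟨C, B0, V0, hC, hB0, hV0, -, hloc⟩ := PP_bd
  obtain ⟨K, hK, hf⟩ := h.decay1
  set c := cc with hc
  rw [Metric.tendsto_nhds]
  intro ε hε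
  set D : ℝ := |c| + 3200 * K * (2 * Real.pi) * (C + 1) with hD
  have hpi := Real.pi_pos
  have hD0 : 0 ≤ D := by positivity
  obtain ⟨J, hJ⟩ := pow_unbounded_of_one_lt (4 * (D + 1) / ε) (one_lt_two)
  have h1 := (Metric.tendsto_nhds.1 (tele_limc hl h hblk J)) (ε / 4) (by positivity)
  have ev2 : ∀ᶠ T : ℝ in atTop, (2 : ℝ) ^ J * V0 ≤ T := eventually_ge_atTop _
  have ev3 : ∀ᶠ T : ℝ in atTop, (2 : ℝ) ^ J * B0 ≤ T := eventually_ge_atTop _
  filter_upwards [h1, hl ev2, hl ev3] with T a1 a2 a3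
  have h2J : (1 : ℝ) ≤ 2 ^ J := one_le_pow₀ (by norm_num)
  have hTV : V0 ≤ T / 2 ^ J := by
    rw [le_div_iff₀ (by positivity)]
    linarith
  have hT20 : 20 ≤ T := by
    have : T / 2 ^ J ≤ T := by
      rw [div_le_iff₀ (by positivity)]
      have : 0 ≤ T := by
        by_contra hc
        push Not at hc
        have : T / 2 ^ J < 0 := div_neg_of_neg_of_pos hc (by positivity)
        linarith
      nlinarith
    linarith
  have hL1 : 1 ≤ Real.log T := by
    rw [Real.le_log_iff_exp_le (by linarith)]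
    linarith [Real.exp_one_lt_d9]
  have hX := Xf_pos (V := T) (by linarith)
  have hlog : Real.log (T / 2 ^ J) ≤ Real.log T := by
    refine Real.log_le_log (by linarith) ?_
    rw [div_le_iff₀ (by positivity)]
    nlinarith
  -- the first block
  have b1 : |Q2 f (T / 2 ^ J) (Real.log T)| ≤
      3200 * K * (B0 + C * (T / 2 ^ J * Real.log (T / 2 ^ J))) := by
    unfold Q2
    refine (QS_le_abs _ _ mz_nonneg _ _).trans ?_
    refine (QS_abs_bound (x := fun s : ℂ => s.im) _ _ mz_nonneg hf (by linarith) one_pos).trans ?_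
    have h3 := hloc (T / 2 ^ J) hTV (Real.log T) hlog
    have h4 : (1 : ℝ) * PP1 (Zt (T / 2 ^ J)) mz (fun s => s.im) (Real.log T) +
        1 / 1 * PP1 (Zt (T / 2 ^ J)) mz (fun s => s.im) (Real.log T) ≤
        2 * (B0 + C * (T / 2 ^ J * Real.log (T / 2 ^ J))) := by
      rw [one_mul, div_one, one_mul]
      linarith
    have h5 := mul_le_mul_of_nonneg_left h4 (show (0 : ℝ) ≤ 1600 * K by positivity)
    linarith
  have b2 : |Q2 f (T / 2 ^ J) (Real.log T)| / Xf T ≤
      3200 * K * (2 * Real.pi) * (C + 1) / 2 ^ J := by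
    rw [div_le_div_iff₀ hX (by positivity)]
    have h3 : B0 ≤ T / 2 ^ J * Real.log T := by
      have : B0 ≤ T / 2 ^ J := by
        rw [le_div_iff₀ (by positivity)]
        linarith
      have h4 : 0 ≤ T / 2 ^ J := by linarith
      nlinarith
    have h4 : C * (T / 2 ^ J * Real.log (T / 2 ^ J)) ≤ C * (T / 2 ^ J * Real.log T) := by
      have h5 : 0 ≤ T / 2 ^ J := by linarith
      gcongr
    have h5 : |Q2 f (T / 2 ^ J) (Real.log T)| ≤
        3200 * K * ((C + 1) * (T / 2 ^ J * Real.log T)) := by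
      refine b1.trans (mul_le_mul_of_nonneg_left ?_ (by positivity))
      linarith
    have h6 : 3200 * K * ((C + 1) * (T / 2 ^ J * Real.log T)) * 2 ^ J =
        3200 * K * (2 * Real.pi) * (C + 1) * Xf T := by
      unfold Xf
      field_simp
    rw [← h6]
    exact mul_le_mul_of_nonneg_right h5 (by positivity)
  rw [Real.dist_eq] at a1 ⊢
  have e : Q2 f T (Real.log T) / Xf T - c =
      ((Q2 f T (Real.log T) - Q2 f (T / 2 ^ J) (Real.log T)) / Xf T - c * (1 - 1 / 2 ^ J)) +
      (Q2 f (T / 2 ^ J) (Real.log T) / Xf T - c / 2 ^ J) := by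
    ring
  rw [e]
  have b3 : |Q2 f (T / 2 ^ J) (Real.log T) / Xf T - c / 2 ^ J| ≤ D / 2 ^ J := by
    refine (abs_sub _ _).trans ?_
    rw [abs_div, abs_div, abs_of_pos hX, abs_of_pos (by positivity : (0 : ℝ) < 2 ^ J), hD,
      add_div, add_comm]
    gcongr
  have b4 : D / 2 ^ J < ε / 4 := by
    rw [div_lt_iff₀ hε] at hJ
    rw [div_lt_iff₀ (by positivity)]
    linarith
  refine (abs_add_le _ _).trans_lt ?_
  linarith



end Pool.Agent.L5helper12.PV
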