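import Pool.Agent.L5helper12.PV.A
import Pool.Agent.L5helper12.PV.Tele2

/-! From the density to the sum over pairs in a dyadic block. -/

set_option autoImplicit false

open Filter Topology Set MeasureTheory H370

namespace Pool.Agent.L5helper12.PV

open Pool.Agent.L5helper10.TV hiding GG
open Pool.Agent.Y744 (mz mz_nonneg Zb mem_Zb)

lemma SP_far (P : Finset ℂ) (u t E : ℝ) (hE : ∀ s ∈ P, Real.exp (-(s.im - t) ^ 2 / 4) ≤ E) :
    ‖SP P u t‖ ≤ E * Lg P t := by
  unfold SP Y750.OM.GG Lg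
  rw [Finset.mul_sum]
  refine (norm_sum_le _ _).trans (Finset.sum_le_sum fun s hs => ?_)
  rw [term_norm]
  have h1 : Real.exp (-(s.im - t) ^ 2 / 2) = Real.exp (-(s.im - t) ^ 2 / 4) * Real.exp (-(s.im - t) ^ 2 / 4) := by
    rw [← Real.exp_add]; congr 1; ring
  rw [h1]
  calc mz s * (Real.exp (-(s.im - t) ^ 2 / 4) * Real.exp (-(s.im - t) ^ 2 / 4)) ≤
      mz s * (E * Real.exp (-(s.im - t) ^ 2 / 4)) := by
        have := mz_nonneg s
        have := hE s hs
        gcongr
    _ = _ := by ring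

lemma gq_int (c : ℝ) : Integrable (fun t : ℝ => Real.exp (-(t - c) ^ 2 / 4)) ∧
    ∫ t : ℝ, Real.exp (-(t - c) ^ 2 / 4) ≤ 4 := by
  have h0 : (fun t : ℝ => Real.exp (-(t - c) ^ 2 / 4)) = fun t => (fun x : ℝ => Real.exp (-(1 / 4) * x ^ 2)) (t - c) := by
    funext t
    simp only
    congr 1; ring
  have h1 := integrable_exp_neg_mul_sq (b := 1 / 4) (by norm_num)
  constructor
  · rw [h0]; exact h1.comp_sub_right c
  · rw [h0, integral_sub_right_eq_self (fun x : ℝ => Real.exp (-(1 / 4) * x ^ 2)), integral_gaussian]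
    rw [Real.sqrt_le_left (by norm_num)]
    have := Real.pi_le_four
    linarith

theorem JB_close : ∃ C : ℝ, 0 ≤ C ∧ ∀ T : ℝ, 4 ≤ T → ∀ u : ℝ,
    |(∫ t in T..(2 * T), ‖SP (Zw T) u t‖ ^ 2) - Y750.OM.JB (Zb T (2 * T)) mz u| ≤ C * Real.log T ^ 2 := by
  classical
  obtain ⟨C, hC, hLg⟩ := Lg_le
  refine ⟨24 * C ^ 2, by positivity, fun T hT u => ?_⟩
  set L := Real.log T with hL
  have hL0 : 0 ≤ L := Real.log_nonneg (by linarith)
  set S := Zb T (2 * T) with hS
  have hSub : S ⊆ Zw T := by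
    intro s hs
    rw [hS, mem_Zb (by linarith)] at hs
    rw [mem_Zw]
    obtain ⟨a1, a2, a3, a4, a5⟩ := hs
    exact ⟨a1, a2, by linarith, by nlinarith, a5⟩
  set Q := Zw T \ S with hQ
  have hQs : ∀ s ∈ Q, s.im ≤ T ∨ 2 * T < s.im := by
    intro s hs
    rw [hQ, Finset.mem_sdiff] at hs
    obtain ⟨h1, h2⟩ := hs
    rw [mem_Zw] at h1
    rw [hS, mem_Zb (by linarith)] at h2
    by_contra hc
    push Not at hc
    exact h2 ⟨h1.1, h1.2.1, hc.1, hc.2, h1.2.2.2.2⟩
  have hadd : ∀ t, SP (Zw T) u t = SP S u t + SP Q u t := by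
    intro t
    unfold SP Y750.OM.GG
    rw [hQ, add_comm, Finset.sum_sdiff hSub]
  have hbS : ∀ t, Lg S t ≤ C * L := fun t => (Lg_mono hSub t).trans (hLg T hT t)
  have hbQ : ∀ t, Lg Q t ≤ C * L := fun t => (Lg_mono Finset.sdiff_subset t).trans (hLg T hT t)
  set E : ℝ → ℝ := fun t => Real.exp (-(t - T) ^ 2 / 4) + Real.exp (-(t - 2 * T) ^ 2 / 4) with hE
  have hE0 : ∀ t, 0 ≤ E t := fun t => by positivity
  have hpt : ∀ t, |(Ioc T (2 * T)).indicator (fun t => ‖SP (Zw T) u t‖ ^ 2) t - ‖SP S u t‖ ^ 2| ≤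
      3 * (C * L) ^ 2 * E t := by
    intro t
    have hCL : 0 ≤ C * L := by positivity
    have hA := (SP_le S u t).trans (hbS t)
    by_cases ht : t ∈ Ioc T (2 * T)
    · rw [Set.indicator_of_mem ht, hadd t]
      have hB := (SP_le Q u t).trans (hbQ t)
      have hB2 : ‖SP Q u t‖ ≤ E t * (C * L) := by
        refine (SP_far Q u t (E t) fun s hs => ?_).trans (mul_le_mul_of_nonneg_left (hbQ t) (hE0 t))
        rcases hQs s hs with h | h
        · have : Real.exp (-(s.im - t) ^ 2 / 4) ≤ Real.exp (-(t - T) ^ 2 / 4) := by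
            apply Real.exp_le_exp.2
            have := ht.1
            nlinarith
          exact this.trans (le_add_of_nonneg_right (by positivity))
        · have : Real.exp (-(s.im - t) ^ 2 / 4) ≤ Real.exp (-(t - 2 * T) ^ 2 / 4) := by
            apply Real.exp_le_exp.2
            have := ht.2
            nlinarith
          exact this.trans (le_add_of_nonneg_left (by positivity))
      have h1 : |‖SP S u t + SP Q u t‖ - ‖SP S u t‖| ≤ ‖SP Q u t‖ := by
        have := abs_norm_sub_norm_le (SP S u t + SP Q u t) (SP S u t)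
        rwa [add_sub_cancel_left] at this
      have h2 : ‖SP S u t + SP Q u t‖ ≤ 2 * (C * L) := by
        refine (norm_add_le _ _).trans ?_
        linarith
      have h3 : ‖SP S u t + SP Q u t‖ ^ 2 - ‖SP S u t‖ ^ 2 =
          (‖SP S u t + SP Q u t‖ - ‖SP S u t‖) * (‖SP S u t + SP Q u t‖ + ‖SP S u t‖) := by ring
      rw [h3, abs_mul, abs_of_nonneg (by positivity : 0 ≤ ‖SP S u t + SP Q u t‖ + ‖SP S u t‖)]
      calc |‖SP S u t + SP Q u t‖ - ‖SP S u t‖| * (‖SP S u t + SP Q u t‖ + ‖SP S u t‖) ≤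
            (E t * (C * L)) * (3 * (C * L)) := by
              apply mul_le_mul (h1.trans hB2) (by linarith) (by positivity) (by have := hE0 t; positivity)
        _ = _ := by ring
    · rw [Set.indicator_of_notMem ht, zero_sub, abs_neg, abs_of_nonneg (by positivity)]
      have h1 : ∃ E1 : ℝ, 0 ≤ E1 ∧ E1 ≤ 1 ∧ E1 ≤ E t ∧ ∀ s ∈ S, Real.exp (-(s.im - t) ^ 2 / 4) ≤ E1 := by
        rw [Set.mem_Ioc, not_and_or, not_lt, not_le] at ht
        rcases ht with h | h
        · refine ⟨Real.exp (-(t - T) ^ 2 / 4), by positivity, ?_, le_add_of_nonneg_right (by positivity), fun s hs => ?_⟩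
          · rw [Real.exp_le_one_iff]; nlinarith [sq_nonneg (t - T)]
          · rw [hS, mem_Zb (by linarith)] at hs
            apply Real.exp_le_exp.2
            have := hs.2.2.1
            nlinarith
        · refine ⟨Real.exp (-(t - 2 * T) ^ 2 / 4), by positivity, ?_, le_add_of_nonneg_left (by positivity), fun s hs => ?_⟩
          · rw [Real.exp_le_one_iff]; nlinarith [sq_nonneg (t - 2 * T)]
          · rw [hS, mem_Zb (by linarith)] at hs
            apply Real.exp_le_exp.2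
            have := hs.2.2.2.1
            nlinarith
      obtain ⟨E1, e0, e1, e2, e3⟩ := h1
      have h2 : ‖SP S u t‖ ≤ E1 * (C * L) :=
        (SP_far S u t E1 e3).trans (mul_le_mul_of_nonneg_left (hbS t) e0)
      calc ‖SP S u t‖ ^ 2 ≤ (E1 * (C * L)) ^ 2 := pow_le_pow_left₀ (norm_nonneg _) h2 2
        _ = (C * L) ^ 2 * (E1 * E1) := by ring
        _ ≤ (C * L) ^ 2 * (E1 * 1) := by gcongr
        _ ≤ (C * L) ^ 2 * E t := by rw [mul_one]; gcongr
        _ ≤ 3 * (C * L) ^ 2 * E t := by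
            have := hE0 t
            have h4 : 0 ≤ (C * L) ^ 2 * E t := by positivity
            linarith
  have hiS : Integrable (fun t => ‖SP S u t‖ ^ 2) :=
    (Y750.OM.GG_sq S (fun s => (mz s : ℂ)) (fun s => (s.im : ℂ)) u).1
  have hiI : Integrable ((Ioc T (2 * T)).indicator (fun t => ‖SP (Zw T) u t‖ ^ 2)) := by
    rw [integrable_indicator_iff measurableSet_Ioc]
    exact (((SP_cont_t (Zw T) u).norm.pow 2).continuousOn.integrableOn_Icc).mono_set Ioc_subset_Icc_self
  have hiE : Integrable (fun t => 3 * (C * L) ^ 2 * E t) := by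
    exact ((gq_int T).1.add (gq_int (2 * T)).1).const_mul _
  have e1 : (∫ t in T..(2 * T), ‖SP (Zw T) u t‖ ^ 2) - Y750.OM.JB S mz u =
      ∫ t, ((Ioc T (2 * T)).indicator (fun t => ‖SP (Zw T) u t‖ ^ 2) t - ‖SP S u t‖ ^ 2) := by
    rw [integral_sub hiI hiS, integral_indicator measurableSet_Ioc, intervalIntegral.integral_of_le (by linarith)]
    rfl
  rw [e1]
  refine (abs_integral_le_integral_abs).trans ((integral_mono (hiI.sub hiS).abs hiE hpt).trans ?_)
  rw [integral_const_mul, hE, integral_add (gq_int T).1 (gq_int (2 * T)).1]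
  have h5 := (gq_int T).2
  have h6 := (gq_int (2 * T)).2
  calc 3 * (C * L) ^ 2 * ((∫ t : ℝ, Real.exp (-(t - T) ^ 2 / 4)) + ∫ t : ℝ, Real.exp (-(t - 2 * T) ^ 2 / 4)) ≤
      3 * (C * L) ^ 2 * 8 := by
        apply mul_le_mul_of_nonneg_left (by linarith) (by positivity)
    _ = _ := by ring

lemma NU_block {k : ℝ → ℝ} (hk : Continuous k) (ℓ : ℕ) (T : ℝ) (hT : 4 ≤ T) :
    ∫ y in (1 : ℝ)..2, NU k ℓ T y = 4 * Real.sqrt Real.pi / (Real.log T ^ 2 * T) *
      ∫ u in Ioc 0 (ℓ * Real.log T), k (u / Real.log T) * (∫ t in T..(2 * T), ‖SP (Zw T) u t‖ ^ 2) := by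
  have hT0 : 0 < T := by linarith
  have h1 := MS_fub hk ℓ (Zw T) (Real.log T) (fun _ => 1) T (2 * T) (by linarith) continuousOn_const
  simp only [one_mul] at h1
  rw [h1]
  unfold NU
  rw [intervalIntegral.integral_const_mul, intervalIntegral.integral_comp_mul_right (fun t => MS k ℓ (Zw T) (Real.log T) t)
    hT0.ne', one_mul, smul_eq_mul]
  field_simp

theorem JB_lim {k : ℝ → ℝ} {ℓ : ℕ} {C B : ℝ} (h : KW k ℓ C B) (ρ : ℝ)
    (hlim : Tendsto (fun T => ∫ y in (1 : ℝ)..2, NU k ℓ T y) atTop (𝓝 ρ)) :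
    Tendsto (fun T => 4 * Real.sqrt Real.pi / (Real.log T * T) *
      ∫ α in (0 : ℝ)..ℓ, k α * Y750.OM.JB (Zb T (2 * T)) mz (α * Real.log T)) atTop (𝓝 ρ) := by
  obtain ⟨CJ, hCJ0, hCJ⟩ := JB_close
  have hB0 := h.B0
  have hdiff : Tendsto (fun T => (∫ y in (1 : ℝ)..2, NU k ℓ T y) - 4 * Real.sqrt Real.pi / (Real.log T * T) *
      ∫ α in (0 : ℝ)..ℓ, k α * Y750.OM.JB (Zb T (2 * T)) mz (α * Real.log T)) atTop (𝓝 0) := by
    have hz : Tendsto (fun T : ℝ => 4 * Real.sqrt Real.pi * (B * CJ * ℓ) * (Real.log T / T)) atTop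
        (𝓝 (4 * Real.sqrt Real.pi * (B * CJ * ℓ) * 0)) := by
      apply Tendsto.const_mul
      have := Real.isLittleO_log_id_atTop.tendsto_div_nhds_zero
      exact this
    rw [mul_zero] at hz
    apply squeeze_zero_norm' _ hz
    filter_upwards [eventually_ge_atTop 4] with T hT
    have hT0 : 0 < T := by linarith
    have hL : 0 < Real.log T := Real.log_pos (by linarith)
    rw [NU_block h.cont ℓ T hT]
    have e1 : ∫ α in (0 : ℝ)..ℓ, k α * Y750.OM.JB (Zb T (2 * T)) mz (α * Real.log T) =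
        1 / Real.log T * ∫ u in Ioc 0 (ℓ * Real.log T), k (u / Real.log T) * Y750.OM.JB (Zb T (2 * T)) mz u := by
      have e2 := intervalIntegral.integral_comp_mul_right (a := 0) (b := ℓ)
        (fun u => k (u / Real.log T) * Y750.OM.JB (Zb T (2 * T)) mz u) hL.ne'
      rw [zero_mul, smul_eq_mul, intervalIntegral.integral_of_le (by positivity : (0 : ℝ) ≤ ℓ * Real.log T)] at e2
      rw [one_div, ← e2]
      apply intervalIntegral.integral_congr
      intro α _
      simp only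
      rw [mul_div_assoc, div_self hL.ne', mul_one]
    have hkc := h.cont
    have hJc := Y750.OM.JB_cont (Zb T (2 * T)) mz
    have hi1 : IntegrableOn (fun u => k (u / Real.log T) * Y750.OM.JB (Zb T (2 * T)) mz u) (Ioc 0 (ℓ * Real.log T)) :=
      ((by fun_prop : Continuous fun u => k (u / Real.log T) * Y750.OM.JB (Zb T (2 * T)) mz u).continuousOn.integrableOn_Icc).mono_set
        Ioc_subset_Icc_self
    have hi2 : IntegrableOn (fun u => k (u / Real.log T) * (∫ t in T..(2 * T), ‖SP (Zw T) u t‖ ^ 2))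
        (Ioc 0 (ℓ * Real.log T)) := by
      have := MS_ii hkc ℓ (Zw T) (Real.log T) (fun _ => 1) T (2 * T) (by linarith) continuousOn_const
      simpa using this
    have e3 : 4 * Real.sqrt Real.pi / (Real.log T ^ 2 * T) *
        (∫ u in Ioc 0 (ℓ * Real.log T), k (u / Real.log T) * (∫ t in T..(2 * T), ‖SP (Zw T) u t‖ ^ 2)) -
        4 * Real.sqrt Real.pi / (Real.log T * T) * (1 / Real.log T *
          ∫ u in Ioc 0 (ℓ * Real.log T), k (u / Real.log T) * Y750.OM.JB (Zb T (2 * T)) mz u) =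
        4 * Real.sqrt Real.pi / (Real.log T ^ 2 * T) * ∫ u in Ioc 0 (ℓ * Real.log T), k (u / Real.log T) *
          ((∫ t in T..(2 * T), ‖SP (Zw T) u t‖ ^ 2) - Y750.OM.JB (Zb T (2 * T)) mz u) := by
      have : (fun u => k (u / Real.log T) *
          ((∫ t in T..(2 * T), ‖SP (Zw T) u t‖ ^ 2) - Y750.OM.JB (Zb T (2 * T)) mz u)) = fun u =>
          k (u / Real.log T) * (∫ t in T..(2 * T), ‖SP (Zw T) u t‖ ^ 2) -
            k (u / Real.log T) * Y750.OM.JB (Zb T (2 * T)) mz u := by funext u; ring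
      rw [this, integral_sub hi2 hi1]
      field_simp
    rw [e1, e3, norm_mul, Real.norm_of_nonneg (by positivity)]
    have h4 : ‖∫ u in Ioc 0 (ℓ * Real.log T), k (u / Real.log T) *
          ((∫ t in T..(2 * T), ‖SP (Zw T) u t‖ ^ 2) - Y750.OM.JB (Zb T (2 * T)) mz u)‖ ≤
        B * (CJ * Real.log T ^ 2) * (ℓ * Real.log T) := by
      have := norm_setIntegral_le_of_norm_le_const (μ := volume) (s := Ioc 0 (ℓ * Real.log T))
        (f := fun u => k (u / Real.log T) *
          ((∫ t in T..(2 * T), ‖SP (Zw T) u t‖ ^ 2) - Y750.OM.JB (Zb T (2 * T)) mz u))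
        (C := B * (CJ * Real.log T ^ 2)) (by rw [Real.volume_Ioc]; exact ENNReal.ofReal_lt_top) (fun u _ => by
          rw [norm_mul, Real.norm_of_nonneg (h.nn _)]
          exact mul_le_mul (h.bd _) (hCJ T hT u) (norm_nonneg _) hB0)
      rwa [Real.volume_real_Ioc_of_le (by positivity), sub_zero] at this
    calc 4 * Real.sqrt Real.pi / (Real.log T ^ 2 * T) * ‖∫ u in Ioc 0 (ℓ * Real.log T), k (u / Real.log T) *
          ((∫ t in T..(2 * T), ‖SP (Zw T) u t‖ ^ 2) - Y750.OM.JB (Zb T (2 * T)) mz u)‖ ≤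
        4 * Real.sqrt Real.pi / (Real.log T ^ 2 * T) * (B * (CJ * Real.log T ^ 2) * (ℓ * Real.log T)) :=
          mul_le_mul_of_nonneg_left h4 (by positivity)
      _ = _ := by field_simp
  have := hlim.sub hdiff
  simp only [sub_sub_cancel, sub_zero] at this
  exact this

end Pool.Agent.L5helper12.PV
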