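import Pool.Agent.L5helper10.TV.Cen

/-! Local upper bound for the mean square of the error term below `log (1 / κ)`. -/

set_option autoImplicit false

open Filter Topology Set MeasureTheory H370

namespace Pool.Agent.L5helper12.PV

open Pool.Agent.L5helper10.TV

lemma exp_int (A B : ℝ) (hAB : A ≤ B) : ∫ v in Ioc A B, Real.exp v ≤ Real.exp B := by
  rw [← intervalIntegral.integral_of_le hAB, integral_exp]
  linarith [Real.exp_pos A]

lemma fk2_ioc (κ A B : ℝ) (hκ0 : 0 < κ) (hκ : κ ≤ 1) : IntegrableOn (fun v => fk κ v ^ 2) (Ioc A B) := by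
  have := fk_wt_int κ 1 0 B B hκ0 hκ zero_le_one le_rfl le_rfl
  simp only [zero_mul, add_zero, mul_one] at this
  exact this.mono_set (fun v hv => hv.2)

theorem loc_core (κ A B η : ℝ) (hκ0 : 0 < κ) (hκ : κ ≤ 1) (hAB : A ≤ B) (hη : 0 < η) :
    ∫ v in Ioc A B, fk κ v ^ 2 ≤
      (1 + η) * ∑ n ∈ Finset.Ioc 0 ⌊Real.exp (B + κ / 2)⌋₊, (if A - κ / 2 ≤ Real.log n then
        ArithmeticFunction.vonMangoldt n ^ 2 * (κ * (Real.exp (κ / 2) / n + 2 * κ)) else 0) +
      (1 + 1 / η) * (4 * κ ^ 2 * Real.exp B) := by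
  set N := ⌊Real.exp (B + κ / 2)⌋₊ with hN
  set T : ℕ → ℝ → ℝ := fun n v => if A - κ / 2 ≤ Real.log n then
    (Icc (Real.log n - κ / 2) (Real.log n + κ / 2)).indicator
    (fun _ => ArithmeticFunction.vonMangoldt n ^ 2 * (Real.exp (κ / 2) / n + 2 * κ)) v else 0 with hT
  have hη' : 0 ≤ 1 / η := by positivity
  have hTint : ∀ n, Integrable (T n) := by
    intro n
    rw [hT]
    by_cases h : A - κ / 2 ≤ Real.log n
    · simp only [if_pos h]
      rw [integrable_indicator_iff measurableSet_Icc]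
      exact continuous_const.continuousOn.integrableOn_Icc
    · simp only [if_neg h]
      exact integrable_zero _ _ _
  have hT0 : ∀ n v, 0 ≤ T n v := by
    intro n v
    rw [hT]
    simp only
    split_ifs with h
    · apply Set.indicator_nonneg
      intro _ _
      positivity
    · exact le_rfl
  have hTval : ∀ n, ∫ v, T n v = if A - κ / 2 ≤ Real.log n then
      ArithmeticFunction.vonMangoldt n ^ 2 * (κ * (Real.exp (κ / 2) / n + 2 * κ)) else 0 := by
    intro n
    rw [hT]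
    simp only
    split_ifs with h
    · rw [integral_indicator measurableSet_Icc, setIntegral_const, smul_eq_mul]
      have : volume.real (Icc (Real.log n - κ / 2) (Real.log n + κ / 2)) = κ := by
        rw [measureReal_def, Real.volume_Icc, ENNReal.toReal_ofReal (by linarith)]
        ring
      rw [this]
      ring
    · simp
  have hpt : ∀ v ∈ Ioc A B, fk κ v ^ 2 ≤ (1 + η) * ∑ n ∈ Finset.Ioc 0 N, T n v +
      (1 + 1 / η) * (4 * κ ^ 2 * Real.exp v) := by
    intro v hv
    refine (fk_sq_le κ v B η hκ0 hκ hv.2 hη).trans ?_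
    apply add_le_add_left
    apply mul_le_mul_of_nonneg_left _ (by linarith)
    apply Finset.sum_le_sum
    intro n hn
    rw [hT]
    simp only
    have hn0 : (0 : ℝ) < n := by exact_mod_cast (Finset.mem_Ioc.1 hn).1
    by_cases h : |Real.log n - v| ≤ κ / 2
    · rw [if_pos h]
      have h3 := abs_le.1 h
      rw [if_pos (by linarith [h3.1, hv.1]), Set.indicator_of_mem
        (show v ∈ Icc (Real.log n - κ / 2) (Real.log n + κ / 2) from ⟨by linarith [h3.2], by linarith [h3.1]⟩)]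
      have h4 : Real.exp (-v) ≤ Real.exp (κ / 2) / n := by
        rw [le_div_iff₀ hn0]
        calc Real.exp (-v) * n = Real.exp (-v) * Real.exp (Real.log n) := by rw [Real.exp_log hn0]
          _ = Real.exp (-v + Real.log n) := (Real.exp_add _ _).symm
          _ ≤ Real.exp (κ / 2) := Real.exp_le_exp.2 (by linarith [h3.2])
      apply mul_le_mul_of_nonneg_left _ (sq_nonneg _)
      linarith
    · rw [if_neg h]
      exact hT0 n v
  have hint1 : Integrable (fun v => ∑ n ∈ Finset.Ioc 0 N, T n v) := integrable_finsetSum _ fun n _ => hTint n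
  have hei : IntegrableOn (fun v => (1 + 1 / η) * (4 * κ ^ 2 * Real.exp v)) (Ioc A B) :=
    ((by fun_prop : Continuous fun v : ℝ => (1 + 1 / η) * (4 * κ ^ 2 * Real.exp v)).continuousOn.integrableOn_Icc.mono_set
      Ioc_subset_Icc_self)
  have hle : ∫ v in Ioc A B, fk κ v ^ 2 ≤ ∫ v in Ioc A B, ((1 + η) * ∑ n ∈ Finset.Ioc 0 N, T n v +
      (1 + 1 / η) * (4 * κ ^ 2 * Real.exp v)) := by
    apply setIntegral_mono_on (fk2_ioc κ A B hκ0 hκ) _ measurableSet_Ioc hpt
    exact (hint1.integrableOn.const_mul _).add hei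
  refine hle.trans ?_
  rw [integral_add (hint1.integrableOn.const_mul _) hei, integral_const_mul, integral_const_mul, integral_const_mul]
  apply add_le_add
  · apply mul_le_mul_of_nonneg_left _ (by linarith)
    calc ∫ v in Ioc A B, ∑ n ∈ Finset.Ioc 0 N, T n v ≤ ∫ v, ∑ n ∈ Finset.Ioc 0 N, T n v :=
          setIntegral_le_integral hint1 (Eventually.of_forall fun v => Finset.sum_nonneg fun n _ => hT0 n v)
      _ = ∑ n ∈ Finset.Ioc 0 N, ∫ v, T n v := integral_finsetSum _ fun n _ => hTint n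
      _ = _ := Finset.sum_congr rfl fun n _ => hTval n
  · apply mul_le_mul_of_nonneg_left _ (by linarith)
    exact mul_le_mul_of_nonneg_left (exp_int A B hAB) (by positivity)

/-- Mertens on a window -/
lemma mert_win (κ A B : ℝ) (hκ0 : 0 < κ) (hκ : κ ≤ 1) (hAB : A ≤ B) (hB : 0 ≤ B) :
    ∑ n ∈ Finset.Ioc 0 ⌊Real.exp (B + κ / 2)⌋₊, (if A - κ / 2 ≤ Real.log n then
      ArithmeticFunction.vonMangoldt n / n else 0) ≤ (B - A) + 10 := by
  set N := ⌊Real.exp (B + κ / 2)⌋₊ with hN
  have hN1 : 1 ≤ N := by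
    rw [hN, Nat.one_le_floor_iff]
    exact Real.one_le_exp (by linarith)
  have hN1' : (1 : ℝ) ≤ N := by exact_mod_cast hN1
  have hlogN : Real.log N ≤ B + κ / 2 := by
    rw [Real.log_le_iff_le_exp (by linarith)]
    exact Nat.floor_le (Real.exp_pos _).le
  have hIoc : Finset.Ioc 0 N = Finset.Icc 1 N := by ext; simp [Nat.succ_le_iff]
  have hup := nt_mertens_upper N hN1
  rw [← hIoc] at hup
  have hnn : ∀ n : ℕ, 0 ≤ ArithmeticFunction.vonMangoldt n / n := fun n =>
    div_nonneg ArithmeticFunction.vonMangoldt_nonneg (Nat.cast_nonneg n)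
  have hlog2 : Real.log 2 ≤ 1 := by linarith [Real.log_two_lt_d9]
  rcases lt_or_ge (Real.exp (A - κ / 2)) 2 with hA | hA
  · have hA' : A - κ / 2 ≤ 1 := by
      have := Real.log_lt_log (Real.exp_pos _) hA
      rw [Real.log_exp] at this
      linarith
    calc _ ≤ ∑ n ∈ Finset.Ioc 0 N, ArithmeticFunction.vonMangoldt n / n := by
          apply Finset.sum_le_sum
          intro n _
          split_ifs
          · exact le_rfl
          · exact hnn n
      _ ≤ _ := by linarith
  · set M := ⌊Real.exp (A - κ / 2) / 2⌋₊ + 0 with hM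
    have hM' : M = ⌊Real.exp (A - κ / 2) / 2⌋₊ := by rw [hM, add_zero]
    have hM1 : 1 ≤ M := by
      rw [hM', Nat.one_le_floor_iff]
      linarith
    have hMle : (M : ℝ) ≤ Real.exp (A - κ / 2) / 2 := by rw [hM']; exact Nat.floor_le (by positivity)
    have hMge : Real.exp (A - κ / 2) / 4 ≤ M := by
      have h1 := Nat.lt_floor_add_one (Real.exp (A - κ / 2) / 2)
      rw [← hM'] at h1
      have h2 : (1 : ℝ) ≤ M := by exact_mod_cast hM1
      linarith
    have hlogM : A - κ / 2 - 2 ≤ Real.log M := by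
      have h1 : Real.log (Real.exp (A - κ / 2) / 4) ≤ Real.log M := Real.log_le_log (by positivity) hMge
      rw [Real.log_div (by positivity) (by norm_num), Real.log_exp, show (4 : ℝ) = 2 ^ 2 by norm_num,
        Real.log_pow] at h1
      push_cast at h1
      linarith
    have hlow := nt_mertens_lower M hM1
    have hMN : M ≤ N := by
      have h1 : (M : ℝ) ≤ Real.exp (B + κ / 2) := by
        refine hMle.trans ?_
        have h2 : Real.exp (A - κ / 2) ≤ Real.exp (B + κ / 2) := Real.exp_le_exp.2 (by linarith)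
        have := Real.exp_pos (A - κ / 2)
        linarith
      exact Nat.le_floor h1
    have hsub : Finset.Icc 1 M ⊆ Finset.Ioc 0 N := by
      intro n hn
      obtain ⟨h1, h2⟩ := Finset.mem_Icc.1 hn
      exact Finset.mem_Ioc.2 ⟨h1, h2.trans hMN⟩
    have hsplit : ∑ n ∈ Finset.Ioc 0 N, (if A - κ / 2 ≤ Real.log n then
        ArithmeticFunction.vonMangoldt n / n else 0) + ∑ n ∈ Finset.Icc 1 M, ArithmeticFunction.vonMangoldt n / n ≤
        ∑ n ∈ Finset.Ioc 0 N, ArithmeticFunction.vonMangoldt n / n := by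
      have h1 : ∑ n ∈ Finset.Icc 1 M, ArithmeticFunction.vonMangoldt n / n =
          ∑ n ∈ Finset.Ioc 0 N, if n ∈ Finset.Icc 1 M then ArithmeticFunction.vonMangoldt n / n else 0 := by
        rw [Finset.sum_ite_mem, Finset.inter_eq_right.2 hsub]
      rw [h1, ← Finset.sum_add_distrib]
      apply Finset.sum_le_sum
      intro n hn
      by_cases h2 : n ∈ Finset.Icc 1 M
      · obtain ⟨h3, h4⟩ := Finset.mem_Icc.1 h2
        have h5 : ¬ (A - κ / 2 ≤ Real.log n) := by
          push Not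
          have hn0 : (0 : ℝ) < n := by exact_mod_cast h3
          have h6 : (n : ℝ) < Real.exp (A - κ / 2) := by
            have : (n : ℝ) ≤ M := by exact_mod_cast h4
            have := Real.exp_pos (A - κ / 2)
            linarith
          rw [← Real.log_exp (A - κ / 2)]
          exact Real.log_lt_log hn0 h6
        rw [if_neg h5, if_pos h2, zero_add]
      · rw [if_neg h2, add_zero]
        split_ifs
        · exact le_rfl
        · exact hnn n
    linarith

theorem loc_bd (κ A B η : ℝ) (hκ0 : 0 < κ) (hκ : κ ≤ 1) (hA : 0 ≤ A) (hAB : A ≤ B) (hη : 0 < η) (hBΛ : B ≤ La κ) :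
    ∫ v in Ioc A B, fk κ v ^ 2 ≤ (1 + η) * (κ * (B + 1) * (Real.exp (κ / 2) * ((B - A) + 10) + 24)) +
      (1 + 1 / η) * (4 * κ) := by
  have hB : 0 ≤ B := hA.trans hAB
  have h1 := loc_core κ A B η hκ0 hκ hAB hη
  have h4 : κ * Real.exp B ≤ 1 := by
    have : Real.exp B ≤ 1 / κ := by rw [← exp_La hκ0]; exact Real.exp_le_exp.2 hBΛ
    rw [le_div_iff₀ hκ0] at this
    linarith
  have h5 : Real.exp (κ / 2) ≤ 2 := le_trans (Real.exp_le_exp.2 (by linarith)) exp_half_le
  have h6 : κ * Real.exp (B + κ / 2) ≤ 2 := by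
    rw [Real.exp_add]
    have := Real.exp_pos B
    have := Real.exp_pos (κ / 2)
    nlinarith [mul_pos hκ0 (Real.exp_pos B)]
  set N := ⌊Real.exp (B + κ / 2)⌋₊ with hN
  have hN1 : 1 ≤ N := by
    rw [hN, Nat.one_le_floor_iff]
    exact Real.one_le_exp (by linarith)
  have hlogN : Real.log N ≤ B + κ / 2 := by
    rw [Real.log_le_iff_le_exp (by positivity)]
    exact Nat.floor_le (Real.exp_pos _).le
  have hIoc : Finset.Ioc 0 N = Finset.Icc 1 N := by ext; simp [Nat.succ_le_iff]
  have hmw := mert_win κ A B hκ0 hκ hAB hB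
  rw [← hN] at hmw
  have hpsi : ∑ n ∈ Finset.Ioc 0 N, ArithmeticFunction.vonMangoldt n ≤ 6 * Real.exp (B + κ / 2) := by
    have h7 : ∑ n ∈ Finset.Ioc 0 N, ArithmeticFunction.vonMangoldt n = Chebyshev.psi (Real.exp (B + κ / 2)) := by
      unfold Chebyshev.psi
      rfl
    rw [h7]
    refine (Chebyshev.psi_le_const_mul_self (Real.exp_pos _).le).trans ?_
    apply mul_le_mul_of_nonneg_right _ (Real.exp_pos _).le
    rw [show (4 : ℝ) = 2 ^ 2 by norm_num, Real.log_pow]
    have := Real.log_two_lt_d9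
    push_cast; linarith
  have hterm : ∀ n ∈ Finset.Ioc 0 N, (if A - κ / 2 ≤ Real.log n then
        ArithmeticFunction.vonMangoldt n ^ 2 * (κ * (Real.exp (κ / 2) / n + 2 * κ)) else 0) ≤
      κ * (B + 1) * Real.exp (κ / 2) * (if A - κ / 2 ≤ Real.log n then
        ArithmeticFunction.vonMangoldt n / n else 0) + 2 * κ ^ 2 * (B + 1) * ArithmeticFunction.vonMangoldt n := by
    intro n hn
    obtain ⟨hn1, hn2⟩ := Finset.mem_Ioc.1 hn
    have hn0 : (0 : ℝ) < n := by exact_mod_cast hn1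
    have a2 : ArithmeticFunction.vonMangoldt n ≤ B + 1 := by
      refine ArithmeticFunction.vonMangoldt_le_log.trans ((Real.log_le_log hn0 (show (n : ℝ) ≤ N by exact_mod_cast hn2)).trans ?_)
      linarith
    have a3 : 0 ≤ ArithmeticFunction.vonMangoldt n := ArithmeticFunction.vonMangoldt_nonneg
    split_ifs with h
    · have a4 : ArithmeticFunction.vonMangoldt n ^ 2 ≤ (B + 1) * ArithmeticFunction.vonMangoldt n := by nlinarith
      have a5 : 0 ≤ κ * (Real.exp (κ / 2) / n + 2 * κ) := by positivity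
      calc ArithmeticFunction.vonMangoldt n ^ 2 * (κ * (Real.exp (κ / 2) / n + 2 * κ)) ≤
            (B + 1) * ArithmeticFunction.vonMangoldt n * (κ * (Real.exp (κ / 2) / n + 2 * κ)) :=
            mul_le_mul_of_nonneg_right a4 a5
        _ = _ := by ring
    · have : 0 ≤ 2 * κ ^ 2 * (B + 1) * ArithmeticFunction.vonMangoldt n := by positivity
      linarith
  have hsum := Finset.sum_le_sum hterm
  rw [Finset.sum_add_distrib, ← Finset.mul_sum, ← Finset.mul_sum] at hsum
  have h7 : κ * (B + 1) * Real.exp (κ / 2) * (∑ n ∈ Finset.Ioc 0 N, (if A - κ / 2 ≤ Real.log n then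
        ArithmeticFunction.vonMangoldt n / n else 0)) ≤ κ * (B + 1) * Real.exp (κ / 2) * ((B - A) + 10) :=
    mul_le_mul_of_nonneg_left hmw (by positivity)
  have h8 : 2 * κ ^ 2 * (B + 1) * ∑ n ∈ Finset.Ioc 0 N, ArithmeticFunction.vonMangoldt n ≤ κ * (B + 1) * 24 := by
    calc _ ≤ 2 * κ ^ 2 * (B + 1) * (6 * Real.exp (B + κ / 2)) := mul_le_mul_of_nonneg_left hpsi (by positivity)
      _ = κ * (B + 1) * (12 * (κ * Real.exp (B + κ / 2))) := by ring
      _ ≤ κ * (B + 1) * (12 * 2) := by gcongr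
      _ = _ := by ring
  have h9 : 4 * κ ^ 2 * Real.exp B ≤ 4 * κ := by
    calc 4 * κ ^ 2 * Real.exp B = 4 * κ * (κ * Real.exp B) := by ring
      _ ≤ 4 * κ * 1 := by gcongr
      _ = 4 * κ := by ring
  refine h1.trans (add_le_add ?_ (mul_le_mul_of_nonneg_left h9 (by positivity)))
  apply mul_le_mul_of_nonneg_left _ (by linarith)
  refine hsum.trans ?_
  calc _ ≤ κ * (B + 1) * Real.exp (κ / 2) * ((B - A) + 10) + κ * (B + 1) * 24 := add_le_add h7 h8
    _ = _ := by ring

/-- local upper bound -/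
theorem loc_ev (a b ε : ℝ) (ha : 0 ≤ a) (hab : a ≤ b) (hb : b ≤ 1) (hε : 0 < ε) : ∀ᶠ κ in 𝓝[>] (0 : ℝ),
    ∫ v in Ioc (a * La κ) (b * La κ), fk κ v ^ 2 ≤ (b * (b - a) + ε) * (κ * La κ ^ 2) := by
  set η : ℝ := min 1 (ε / 8) with hη
  have hη0 : 0 < η := by rw [hη]; positivity
  have hη1 : η ≤ 1 := min_le_left _ _
  have hηε : η ≤ ε / 8 := min_le_right _ _
  have ev1 : ∀ᶠ κ in 𝓝[>] (0 : ℝ), Real.exp (κ / 2) ≤ 1 + η := by
    have h1 : Tendsto (fun κ : ℝ => Real.exp (κ / 2)) (𝓝[>] 0) (𝓝 1) := by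
      have : Tendsto (fun κ : ℝ => Real.exp (κ / 2)) (𝓝 0) (𝓝 (Real.exp (0 / 2))) := by
        apply Continuous.tendsto; fun_prop
      rw [show Real.exp (0 / 2) = 1 by simp] at this
      exact this.mono_left nhdsWithin_le_nhds
    exact h1.eventually_le_const (by linarith)
  set K := (800 + 8 / η) / ε with hK
  filter_upwards [ev1, le_one_ev2, La_ge 1, La_ge K, self_mem_nhdsWithin] with κ h1 hκ1 h2 h3 h4
  have hκ : 0 < κ := h4
  set L := La κ with hL
  have hbL : b * L ≤ L := by nlinarith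
  have hb0 : 0 ≤ b := ha.trans hab
  have h5 := loc_bd κ (a * L) (b * L) η hκ hκ1 (by positivity) (by gcongr) hη0 hbL
  refine h5.trans ?_
  have hba : 0 ≤ b - a := by linarith
  have k1 : (b * L + 1) * (Real.exp (κ / 2) * ((b * L - a * L) + 10) + 24) ≤
      (b * L + 1) * ((1 + η) * ((b - a) * L + 10) + 24) := by
    have h0 : 0 ≤ (b - a) * L := by positivity
    rw [← sub_mul]
    gcongr
  have k2 : (b * L + 1) * ((1 + η) * ((b - a) * L + 10) + 24) ≤ b * (b - a) * L ^ 2 + η * L ^ 2 + 100 * L := by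
    have e1 : (b * L + 1) * ((1 + η) * ((b - a) * L + 10) + 24) = b * (b - a) * L ^ 2 + η * (b * (b - a)) * L ^ 2 +
      (b * (10 * (1 + η) + 24) + (1 + η) * (b - a)) * L + (10 * (1 + η) + 24) := by ring
    rw [e1]
    have f1 : b * (b - a) ≤ 1 := by nlinarith
    have f2 : η * (b * (b - a)) * L ^ 2 ≤ η * 1 * L ^ 2 := by gcongr
    have f3 : (b * (10 * (1 + η) + 24) + (1 + η) * (b - a)) ≤ 46 := by nlinarith
    have f4 : (b * (10 * (1 + η) + 24) + (1 + η) * (b - a)) * L ≤ 46 * L := mul_le_mul_of_nonneg_right f3 (by linarith)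
    nlinarith
  have k3 : (1 + η) * (κ * (b * L + 1) * (Real.exp (κ / 2) * ((b * L - a * L) + 10) + 24)) ≤
      κ * (b * (b - a) * L ^ 2 + 3 * η * L ^ 2 + 200 * L) := by
    have f0 : 0 ≤ b * (b - a) * L ^ 2 + η * L ^ 2 + 100 * L := by positivity
    have f1 : b * (b - a) ≤ 1 := by nlinarith
    calc _ = κ * ((1 + η) * ((b * L + 1) * (Real.exp (κ / 2) * ((b * L - a * L) + 10) + 24))) := by ring
      _ ≤ κ * ((1 + η) * (b * (b - a) * L ^ 2 + η * L ^ 2 + 100 * L)) := by
          gcongr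
          exact k1.trans k2
      _ = κ * (b * (b - a) * L ^ 2 + η * (b * (b - a)) * L ^ 2 + (1 + η) * η * L ^ 2 + (1 + η) * (100 * L)) := by ring
      _ ≤ κ * (b * (b - a) * L ^ 2 + η * 1 * L ^ 2 + (1 + 1) * η * L ^ 2 + (1 + 1) * (100 * L)) := by gcongr
      _ = _ := by ring
  have k4 : (1 + 1 / η) * (4 * κ) ≤ κ * ((4 + 4 / η) * L) := by
    have : (1 + 1 / η) * (4 * κ) = κ * ((4 + 4 / η) * 1) := by ring
    rw [this]
    gcongr
  have k5 : (200 + (4 + 4 / η)) * L ≤ ε / 2 * L ^ 2 := by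
    rw [hK, div_le_iff₀ hε] at h3
    have : (200 + (4 + 4 / η)) ≤ ε / 2 * L := by
      have : 4 / η = 8 / η / 2 := by ring
      have h8 : 0 < 8 / η := by positivity
      linarith
    nlinarith
  have k6 : 3 * η * L ^ 2 ≤ ε / 2 * L ^ 2 := by
    apply mul_le_mul_of_nonneg_right _ (sq_nonneg _)
    linarith
  calc _ ≤ κ * (b * (b - a) * L ^ 2 + 3 * η * L ^ 2 + 200 * L) + κ * ((4 + 4 / η) * L) := add_le_add k3 k4
    _ = κ * (b * (b - a) * L ^ 2 + 3 * η * L ^ 2 + (200 + (4 + 4 / η)) * L) := by ring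
    _ ≤ κ * (b * (b - a) * L ^ 2 + ε / 2 * L ^ 2 + ε / 2 * L ^ 2) := by gcongr
    _ = _ := by ring

end Pool.Agent.L5helper12.PV
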