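import Pool.Agent.L5helper12.PV.Qup
import Pool.Agent.L5helper10.TV.Fin1

/-! Lower bound for the energies. -/

set_option autoImplicit false

open Filter Topology Set MeasureTheory H370

namespace Pool.Agent.L5helper12.PV

open Pool.Agent.L5helper10.TV

/-- the Fejér weight -/
noncomputable def kA (A : ℕ) (α : ℝ) : ℝ := max 0 (A - max α 0)

lemma kA_lip (A : ℕ) (x y : ℝ) : |kA A x - kA A y| ≤ |x - y| := by
  unfold kA
  have h1 : |max (A - max x 0) 0 - max (A - max y 0) 0| ≤ |(A - max x 0) - (A - max y 0)| :=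
    abs_max_sub_max_le_abs _ _ _
  have h2 : |max x 0 - max y 0| ≤ |x - y| := abs_max_sub_max_le_abs _ _ _
  rw [max_comm 0, max_comm 0]
  refine h1.trans (le_trans (le_of_eq ?_) h2)
  rw [show (A - max x 0) - (A - max y 0) = -(max x 0 - max y 0) by ring, abs_neg]

lemma kA_pos (A : ℕ) {α : ℝ} (h0 : 0 ≤ α) (h1 : α ≤ A) : kA A α = A - α := by
  unfold kA
  rw [max_eq_left h0, max_eq_right (by linarith)]

lemma kA_cont (A : ℕ) : Continuous (kA A) := by unfold kA; fun_prop

lemma kA_int (A : ℕ) (hA : 1 ≤ A) : ∫ α in (0 : ℝ)..A, kA A α * min α 1 = (A : ℝ) ^ 2 / 2 - A / 2 + 1 / 6 := by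
  have hA' : (1 : ℝ) ≤ A := by exact_mod_cast hA
  have hi : ∀ a b : ℝ, IntervalIntegrable (fun α => kA A α * min α 1) volume a b := fun a b => by
    have := kA_cont A
    exact (by fun_prop : Continuous fun α => kA A α * min α 1).intervalIntegrable a b
  rw [← intervalIntegral.integral_add_adjacent_intervals (b := (1 : ℝ)) (hi _ _) (hi _ _)]
  have e1 : ∫ α in (0 : ℝ)..1, kA A α * min α 1 = ∫ α in (0 : ℝ)..1, ((A : ℝ) * α - α ^ 2) := by
    apply intervalIntegral.integral_congr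
    intro α hα
    rw [uIcc_of_le zero_le_one] at hα
    simp only
    rw [kA_pos A hα.1 (by linarith [hα.2]), min_eq_left hα.2]
    ring
  have e2 : ∫ α in (1 : ℝ)..A, kA A α * min α 1 = ∫ α in (1 : ℝ)..A, ((A : ℝ) - α) := by
    apply intervalIntegral.integral_congr
    intro α hα
    rw [uIcc_of_le hA'] at hα
    simp only
    rw [kA_pos A (by linarith [hα.1]) hα.2, min_eq_right hα.1]
    ring
  rw [e1, e2, intervalIntegral.integral_sub ((by fun_prop : Continuous fun α : ℝ => (A : ℝ) * α).intervalIntegrable _ _)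
    ((by fun_prop : Continuous fun α : ℝ => α ^ 2).intervalIntegrable _ _),
    intervalIntegral.integral_sub (by simp) ((by fun_prop : Continuous fun α : ℝ => α).intervalIntegrable _ _)]
  have e3 : ∫ x in (0 : ℝ)..1, (A : ℝ) * x = A * (1 / 2) := by
    rw [intervalIntegral.integral_const_mul, integral_id]; norm_num
  rw [e3]
  simp only [integral_id, integral_pow, intervalIntegral.integral_const, smul_eq_mul]
  norm_num
  ring

lemma fejer_low (A : ℕ) (hA : 1 ≤ A) (a δ ε : ℝ) (N : ℕ) (ha : 0 < a) (hδ : 0 < δ) (hδ1 : δ ≤ 1) (hε : 0 < ε)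
    (hε1 : ε ≤ 1) : ∀ᶠ κ in 𝓝[>] (0 : ℝ),
    (A : ℝ) ^ 2 * (1 - ε) * (∑ j ∈ Finset.range N, δ * (Vj a δ ε j ^ 2 / Wj a δ j) / xj a δ (j + 1) ^ 2) *
      (κ * La κ ^ 2) ≤ 4 * Real.sqrt Real.pi * ∫ u in Ioc 0 (A * La κ), kA A (u / La κ) * EE κ a δ N u := by
  filter_upwards [lower_EE a δ ε N ha hδ hδ1 hε hε1, La_ge 1, self_mem_nhdsWithin] with κ h1 hL h3
  have hκ : 0 < κ := h3
  have hΛ0 : 0 < La κ := by linarith
  have h4 := h1 (Icc 0 (A * La κ)) measurableSet_Icc (A * La κ) (by positivity) le_rfl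
  rw [Real.volume_Icc, sub_zero, ENNReal.toReal_ofReal (by positivity)] at h4
  set Λ := La κ with hΛ
  have hEc := EE_cont κ a δ N
  have hE0 : ∀ u, 0 ≤ EE κ a δ N u := by
    intro u
    unfold EE
    refine Finset.sum_nonneg fun j _ => mul_nonneg (wj_nonneg κ a δ hδ j) (Ej_nonneg ?_ u)
    apply div_le_div_of_nonneg_right _ hκ.le
    rw [xj_succ]; linarith
  have h5 : ∫ u in Ioc 0 (A * Λ), GG (Icc 0 (A * Λ)) u * EE κ a δ N u ≤
      ∫ u in Ioc 0 (A * Λ), Λ * (kA A (u / Λ) * EE κ a δ N u) := by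
    have hkc := kA_cont A
    apply setIntegral_mono_on
    · exact GG_mul_intOn _ measurableSet_Icc (by rw [Real.volume_Icc]; exact ENNReal.ofReal_lt_top) _ _ _ (hEc.continuousOn.integrableOn_Icc.mono_set Ioc_subset_Icc_self)
    · exact ((by fun_prop : Continuous fun u => Λ * (kA A (u / Λ) * EE κ a δ N u)).continuousOn.integrableOn_Icc.mono_set
        Ioc_subset_Icc_self)
    · exact measurableSet_Ioc
    · intro u hu
      rw [← mul_assoc]
      apply mul_le_mul_of_nonneg_right _ (hE0 u)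
      refine (GG_Icc_le _ u).trans ?_
      rw [kA_pos A (by have := hu.1; positivity) (by rw [div_le_iff₀ hΛ0]; exact hu.2)]
      rw [max_eq_left (by linarith [hu.2])]
      apply le_of_eq
      field_simp
  rw [integral_const_mul] at h5
  have h6 := h4.trans (mul_le_mul_of_nonneg_left h5 (by positivity : 0 ≤ 4 * Real.sqrt Real.pi))
  have h7 : Λ * ((A : ℝ) ^ 2 * (1 - ε) * (∑ j ∈ Finset.range N, δ * (Vj a δ ε j ^ 2 / Wj a δ j) / xj a δ (j + 1) ^ 2) *
      (κ * Λ ^ 2)) ≤ Λ * (4 * Real.sqrt Real.pi * ∫ u in Ioc 0 (A * Λ), kA A (u / Λ) * EE κ a δ N u) := by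
    refine le_trans (le_of_eq ?_) (h6.trans (le_of_eq ?_))
    · ring
    · ring
  exact le_of_mul_le_mul_left h7 hΛ0

theorem Qlow (hU : UpperV) {k : ℝ → ℝ} {ℓ : ℕ} {C B : ℝ} (h : KW k ℓ C B) (ε : ℝ) (hε : 0 < ε) :
    ∃ a δ : ℝ, ∃ N : ℕ, 0 < a ∧ 0 < δ ∧ δ ≤ a / 2 ∧ ∀ᶠ κ in 𝓝[>] (0 : ℝ),
    (Real.pi * (k 0 + 2 * Jm k ℓ) - ε) * (κ * La κ ^ 2) ≤
      4 * Real.sqrt Real.pi * (∫ u in Ioc 0 (ℓ * La κ), k (u / La κ) * EE κ a δ N u) := by
  have hpi := Real.pi_gt_three
  have hpi4 := Real.pi_le_four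
  have hC := h.C0
  have hB := h.B0
  set B' : ℝ := B + 1 with hB'
  have hB'0 : 0 < B' := by rw [hB']; linarith
  obtain ⟨m, hm⟩ := exists_nat_gt (4 * B' / ε)
  set A : ℕ := ℓ + m + 1 with hA
  have hA1 : 1 ≤ A := by omega
  have hAr : (A : ℝ) = ℓ + m + 1 := by rw [hA]; push_cast; ring
  have hA1' : (1 : ℝ) ≤ A := by exact_mod_cast hA1
  set lam : ℝ := (A - ℓ) / B' with hlam
  have hm0 : (0 : ℝ) ≤ m := Nat.cast_nonneg m
  have hℓ0 : (0 : ℝ) ≤ ℓ := Nat.cast_nonneg ℓ
  have hlam0 : 0 < lam := by rw [hlam, hAr]; apply div_pos _ hB'0; linarith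
  have hlame : 4 ≤ ε * lam := by
    rw [hlam, hAr, mul_div_assoc', le_div_iff₀ hB'0]
    rw [div_lt_iff₀ hε] at hm
    nlinarith
  have hlamB : lam * B ≤ A - ℓ := by
    have : lam * B' = A - ℓ := by rw [hlam]; field_simp
    have h2 : lam * B ≤ lam * B' := mul_le_mul_of_nonneg_left (by linarith) hlam0.le
    linarith
  set ε1 : ℝ := 1 / (24 * (A : ℝ) ^ 2) with hε1
  have hε1p : 0 < ε1 := by rw [hε1]; positivity
  have hε1A : ε1 * (A : ℝ) ^ 2 = 1 / 24 := by rw [hε1]; field_simp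
  have hε11 : ε1 ≤ 1 := by
    rw [hε1, div_le_one (by positivity)]
    nlinarith
  obtain ⟨a, δ, ε2, N, ha, hδ, hδa, hδ1, hε2, hε2ε, hT1, hT2⟩ := num ε1 hε1p hε11
  refine ⟨a, δ, N, ha, hδ, hδa, ?_⟩
  have hk' : KW (fun α => kA A α - lam * k α) A (1 + lam * C) A :=
    { nn := by
        intro α
        rcases le_or_gt (ℓ : ℝ) α with h1 | h1
        · rw [h.supp α h1, mul_zero, sub_zero]
          exact le_max_left _ _
        · have h2 : lam * k α ≤ lam * B := mul_le_mul_of_nonneg_left (h.bd α) hlam0.le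
          have h3 : (A : ℝ) - max α 0 ≤ kA A α := le_max_right _ _
          have h4 : max α 0 ≤ ℓ := max_le h1.le hℓ0
          linarith
      lip := by
        intro x y
        have h1 := kA_lip A x y
        have h2 := mul_le_mul_of_nonneg_left (h.lip x y) hlam0.le
        have h3 : (kA A x - lam * k x) - (kA A y - lam * k y) = (kA A x - kA A y) - lam * (k x - k y) := by ring
        rw [h3]
        refine (abs_sub _ _).trans ?_
        rw [abs_mul lam, abs_of_pos hlam0]
        linarith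
      supp := by
        intro α hα
        have h1 : kA A α = 0 := by
          unfold kA
          apply max_eq_left
          have := le_max_left α 0
          linarith
        have h2 : (ℓ : ℝ) ≤ α := by linarith
        rw [h1, h.supp α h2]; ring
      bd := by
        intro α
        have h1 : kA A α ≤ A := max_le (by linarith) (by linarith [le_max_right α 0])
        have := mul_nonneg hlam0.le (h.nn α)
        linarith }
  filter_upwards [Qup hU hk' a δ N ha hδ hδa (1 / 3) (by norm_num), fejer_low A hA1 a δ ε2 N ha hδ hδ1 hε2 (by linarith),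
    La_ge 1, self_mem_nhdsWithin] with κ h1 h2 hL h3
  have hκ : 0 < κ := h3
  generalize La κ = Λ at *
  have hΛ0 : 0 < Λ := by linarith
  have hEc := EE_cont κ a δ N
  have hkc := h.cont
  have hkAc := kA_cont A
  -- additivity
  have hsplit : ∫ u in Ioc 0 (A * Λ), kA A (u / Λ) * EE κ a δ N u =
      (∫ u in Ioc 0 (A * Λ), (kA A (u / Λ) - lam * k (u / Λ)) * EE κ a δ N u) +
      lam * ∫ u in Ioc 0 (ℓ * Λ), k (u / Λ) * EE κ a δ N u := by
    have e1 : ∫ u in Ioc 0 (ℓ * Λ), k (u / Λ) * EE κ a δ N u = ∫ u in Ioc 0 (A * Λ), k (u / Λ) * EE κ a δ N u := by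
      symm
      apply setIntegral_eq_of_subset_of_forall_sdiff_eq_zero measurableSet_Ioc
      · apply Ioc_subset_Ioc_right
        apply mul_le_mul_of_nonneg_right _ hΛ0.le
        linarith
      · intro u hu
        have : ℓ * Λ < u := by
          by_contra hc
          exact hu.2 ⟨hu.1.1, not_lt.1 hc⟩
        rw [h.supp _ (by rw [le_div_iff₀ hΛ0]; exact this.le), zero_mul]
    rw [e1, ← integral_const_mul, ← integral_add]
    · congr 1
      funext u
      ring
    · exact ((by fun_prop : Continuous fun u => (kA A (u / Λ) - lam * k (u / Λ)) *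
        EE κ a δ N u).continuousOn.integrableOn_Icc.mono_set Ioc_subset_Icc_self)
    · exact ((by fun_prop : Continuous fun u => lam * (k (u / Λ) *
        EE κ a δ N u)).continuousOn.integrableOn_Icc.mono_set Ioc_subset_Icc_self)
  rw [hsplit] at h2
  -- the mass
  have hmass : Jm (fun α => kA A α - lam * k α) A = ((A : ℝ) ^ 2 / 2 - A / 2 + 1 / 6) - lam * Jm k ℓ := by
    unfold Jm
    have hi1 : ∀ a b : ℝ, IntervalIntegrable (fun α => kA A α * min α 1) volume a b := fun a b =>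
      (by fun_prop : Continuous fun α => kA A α * min α 1).intervalIntegrable a b
    have hi2 : ∀ a b : ℝ, IntervalIntegrable (fun α => k α * min α 1) volume a b := fun a b =>
      (by fun_prop : Continuous fun α => k α * min α 1).intervalIntegrable a b
    have e1 : ∫ α in (0 : ℝ)..A, (kA A α - lam * k α) * min α 1 = (∫ α in (0 : ℝ)..A, kA A α * min α 1) -
        lam * ∫ α in (0 : ℝ)..A, k α * min α 1 := by
      rw [← intervalIntegral.integral_const_mul, ← intervalIntegral.integral_sub (hi1 _ _) ((hi2 _ _).const_mul _)]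
      apply intervalIntegral.integral_congr
      intro α _
      simp only
      ring
    rw [e1, kA_int A hA1, ← intervalIntegral.integral_add_adjacent_intervals (b := (ℓ : ℝ)) (hi2 0 _) (hi2 _ A)]
    have e2 : ∫ α in (ℓ : ℝ)..A, k α * min α 1 = 0 := by
      apply intervalIntegral.integral_zero_ae
      refine Eventually.of_forall fun α hα => ?_
      rw [uIoc_of_le (by linarith)] at hα
      rw [h.supp α hα.1.le, zero_mul]
    rw [e2, add_zero]
  rw [hmass] at h1
  have hkA0 : kA A 0 = A := by rw [kA_pos A le_rfl (by linarith), sub_zero]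
  simp only [hkA0] at h1
  set I := ∫ u in Ioc 0 (ℓ * Λ), k (u / Λ) * EE κ a δ N u with hI
  set I' := ∫ u in Ioc 0 (A * Λ), (kA A (u / Λ) - lam * k (u / Λ)) * EE κ a δ N u with hI'
  set TL := ∑ j ∈ Finset.range N, δ * (Vj a δ ε2 j ^ 2 / Wj a δ j) / xj a δ (j + 1) ^ 2 with hTL
  have hκΛ : 0 ≤ κ * Λ ^ 2 := by positivity
  have hk0 := h.nn 0
  have hlk0 : lam * k 0 ≤ A := by
    have := mul_le_mul_of_nonneg_left (h.bd 0) hlam0.le
    linarith
  -- compare
  have g1 : TT a δ N * (A - lam * k 0) ≤ Real.pi * (1 + ε1) * (A - lam * k 0) :=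
    mul_le_mul_of_nonneg_right hT1 (by linarith)
  have g2 : Real.pi * (1 - 2 * ε1) ≤ (1 - ε2) * TL := by
    have : (1 - ε1) * (Real.pi * (1 - ε1)) ≤ (1 - ε2) * TL :=
      mul_le_mul (by linarith) hT2 (mul_nonneg (by linarith) (by linarith)) (by linarith)
    nlinarith [sq_nonneg ε1]
  have g3 : (A : ℝ) ^ 2 * (Real.pi * (1 - 2 * ε1)) ≤ (A : ℝ) ^ 2 * (1 - ε2) * TL := by
    have := mul_le_mul_of_nonneg_left g2 (sq_nonneg (A : ℝ))
    linarith
  have g4 : TT a δ N * (A - lam * k 0) + Real.pi * (2 * (((A : ℝ) ^ 2 / 2 - A / 2 + 1 / 6) - lam * Jm k ℓ)) + 1 / 3 +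
      lam * (Real.pi * (k 0 + 2 * Jm k ℓ) - ε) ≤ (A : ℝ) ^ 2 * (1 - ε2) * TL := by
    refine le_trans ?_ g3
    have g5 : ε1 * A ≤ 1 / 24 := by
      rw [← hε1A]
      apply mul_le_mul_of_nonneg_left _ hε1p.le
      nlinarith
    have g6 : Real.pi * (ε1 * (A - lam * k 0)) ≤ 4 * (1 / 24) := by
      apply mul_le_mul hpi4 _ _ (by norm_num)
      · have : ε1 * (lam * k 0) ≥ 0 := by positivity
        linarith
      · exact mul_nonneg hε1p.le (by linarith)
    have g7 : Real.pi * (2 * (ε1 * (A : ℝ) ^ 2)) ≤ 4 * (2 * (1 / 24)) := by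
      rw [hε1A]
      exact mul_le_mul_of_nonneg_right hpi4 (by norm_num)
    have g8 : Real.pi * (1 / 3) ≤ 4 * (1 / 3) := mul_le_mul_of_nonneg_right hpi4 (by norm_num)
    nlinarith
  have g9 := mul_le_mul_of_nonneg_right g4 hκΛ
  have g10 : lam * ((Real.pi * (k 0 + 2 * Jm k ℓ) - ε) * (κ * Λ ^ 2)) ≤ lam * (4 * Real.sqrt Real.pi * I) := by
    nlinarith
  exact le_of_mul_le_mul_left g10 hlam0

end Pool.Agent.L5helper12.PV
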