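import Pool.Agent.L5helper12.PV.En
import Pool.Agent.L5helper12.PV.Qlow

/-! The normalised mean square of the zero sum. -/

set_option autoImplicit false

open Filter Topology Set MeasureTheory H370

namespace Pool.Agent.L5helper12.PV

open Pool.Agent.L5helper10.TV hiding GG

/-- the weighted mean square in `u` -/
noncomputable def MS (k : ℝ → ℝ) (ℓ : ℕ) (P : Finset ℂ) (L t : ℝ) : ℝ :=
  ∫ u in Ioc 0 (ℓ * L), k (u / L) * ‖SP P u t‖ ^ 2

/-- the normalised density at height `y T` -/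
noncomputable def NU (k : ℝ → ℝ) (ℓ : ℕ) (T y : ℝ) : ℝ :=
  4 * Real.sqrt Real.pi / Real.log T ^ 2 * MS k ℓ (Zw T) (Real.log T) (y * T)

lemma SP_cont_c {X : Type*} [TopologicalSpace X] (P : Finset ℂ) (f g : X → ℝ) (hf : Continuous f) (hg : Continuous g) :
    Continuous (fun x => SP P (f x) (g x)) := by
  unfold SP Y750.OM.GG
  fun_prop

lemma MS_cont {k : ℝ → ℝ} (hk : Continuous k) (ℓ : ℕ) (P : Finset ℂ) (L : ℝ) : Continuous (MS k ℓ P L) := by
  have h1 : MS k ℓ P L = fun t => ∫ u in Icc 0 (ℓ * L), k (u / L) * ‖SP P u t‖ ^ 2 := by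
    funext t
    unfold MS
    rw [integral_Icc_eq_integral_Ioc]
  rw [h1]
  apply continuous_parametric_integral_of_continuous (f := fun t u => k (u / L) * ‖SP P u t‖ ^ 2) _ isCompact_Icc
  have h2 := SP_cont_c P (fun p : ℝ × ℝ => p.2) (fun p => p.1) continuous_snd continuous_fst
  exact (hk.comp (by fun_prop : Continuous fun p : ℝ × ℝ => p.2 / L)).mul (h2.norm.pow 2)

lemma MS_nonneg {k : ℝ → ℝ} (hk : ∀ α, 0 ≤ k α) (ℓ : ℕ) (P : Finset ℂ) (L t : ℝ) : 0 ≤ MS k ℓ P L t :=
  integral_nonneg fun u => mul_nonneg (hk _) (by positivity)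

lemma NU_cont {k : ℝ → ℝ} (hk : Continuous k) (ℓ : ℕ) (T : ℝ) : Continuous (NU k ℓ T) := by
  unfold NU
  exact continuous_const.mul ((MS_cont hk ℓ _ _).comp (by fun_prop))

lemma NU_nonneg {k : ℝ → ℝ} (hk : ∀ α, 0 ≤ k α) (ℓ : ℕ) (T y : ℝ) : 0 ≤ NU k ℓ T y :=
  mul_nonneg (by positivity) (MS_nonneg hk _ _ _ _)

lemma MS_fub {k : ℝ → ℝ} (hk : Continuous k) (ℓ : ℕ) (P : Finset ℂ) (L : ℝ) (φ : ℝ → ℝ) (t0 t1 : ℝ) (h : t0 ≤ t1)
    (hφ : ContinuousOn φ (Icc t0 t1)) :
    ∫ u in Ioc 0 (ℓ * L), k (u / L) * (∫ t in t0..t1, φ t * ‖SP P u t‖ ^ 2) = ∫ t in t0..t1, φ t * MS k ℓ P L t := by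
  have hint : Integrable (Function.uncurry fun u t => k (u / L) * (φ t * ‖SP P u t‖ ^ 2))
      ((volume.restrict (Ioc 0 (ℓ * L))).prod (volume.restrict (Ioc t0 t1))) := by
    rw [Measure.prod_restrict]
    have h1 : IntegrableOn (Function.uncurry fun u t => k (u / L) * (φ t * ‖SP P u t‖ ^ 2))
        (Icc 0 (ℓ * L) ×ˢ Icc t0 t1) (volume.prod volume) := by
      apply ContinuousOn.integrableOn_compact (isCompact_Icc.prod isCompact_Icc)
      have h2 := SP_cont_c P (fun p : ℝ × ℝ => p.1) (fun p => p.2) continuous_fst continuous_snd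
      apply ContinuousOn.mul
      · exact (hk.comp (by fun_prop : Continuous fun p : ℝ × ℝ => p.1 / L)).continuousOn
      · apply ContinuousOn.mul
        · exact hφ.comp continuous_snd.continuousOn fun p hp => hp.2
        · exact (h2.norm.pow 2).continuousOn
    exact h1.mono_set (Set.prod_mono Ioc_subset_Icc_self Ioc_subset_Icc_self)
  have h3 := integral_integral_swap hint
  simp only [intervalIntegral.integral_of_le h]
  calc ∫ u in Ioc 0 (ℓ * L), k (u / L) * (∫ t in Ioc t0 t1, φ t * ‖SP P u t‖ ^ 2) =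
      ∫ u in Ioc 0 (ℓ * L), ∫ t in Ioc t0 t1, k (u / L) * (φ t * ‖SP P u t‖ ^ 2) := by
        congr 1; funext u; rw [integral_const_mul]
    _ = ∫ t in Ioc t0 t1, ∫ u in Ioc 0 (ℓ * L), k (u / L) * (φ t * ‖SP P u t‖ ^ 2) := h3
    _ = _ := by
        congr 1; funext t
        unfold MS
        rw [← integral_const_mul]
        congr 1; funext u; ring

/-- change of variables -/
lemma NU_fub {k : ℝ → ℝ} (hk : Continuous k) (ℓ : ℕ) (T X a b c : ℝ) (hT : 4 ≤ T) (hX : 0 < X) (ha : 0 < a)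
    (hab : a ≤ b) :
    4 * Real.sqrt Real.pi * (∫ u in Ioc 0 (ℓ * Real.log T), k (u / Real.log T) *
      (∫ t in (a / (X / T))..(b / (X / T)), (qf (X / T) t - c) / t ^ 2 * ‖SP (Zw T) u t‖ ^ 2)) =
    Real.log T ^ 2 / T * ∫ y in (a / X)..(b / X), (qf X y - c) / y ^ 2 * NU k ℓ T y := by
  have hT0 : 0 < T := by linarith
  have hL : 0 < Real.log T := Real.log_pos (by linarith)
  have hκ : 0 < X / T := div_pos hX hT0
  have hq := qf_cont (X / T)
  have hab' : a / (X / T) ≤ b / (X / T) := div_le_div_of_nonneg_right hab hκ.le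
  rw [MS_fub hk ℓ (Zw T) (Real.log T) (fun t => (qf (X / T) t - c) / t ^ 2) _ _ hab' (by
    apply ContinuousOn.div (hq.sub continuous_const).continuousOn (continuous_pow 2).continuousOn
    intro t ht
    have : 0 < t := lt_of_lt_of_le (div_pos ha hκ) ht.1
    positivity)]
  have e1 : a / (X / T) = a / X * T := by field_simp
  have e2 : b / (X / T) = b / X * T := by field_simp
  rw [e1, e2, ← intervalIntegral.smul_integral_comp_mul_right (fun t => (qf (X / T) t - c) / t ^ 2 *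
    MS k ℓ (Zw T) (Real.log T) t) T, smul_eq_mul, ← intervalIntegral.integral_const_mul,
    ← intervalIntegral.integral_const_mul, ← intervalIntegral.integral_const_mul]
  apply intervalIntegral.integral_congr
  intro y _
  simp only
  have e3 : qf (X / T) (y * T) = qf X y := by
    unfold qf
    rw [show X / T * (y * T) = X * y by field_simp]
  rw [e3]
  unfold NU
  by_cases hy : y = 0
  · rw [hy]; simp
  · field_simp

end Pool.Agent.L5helper12.PV
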