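import Pool.Agent.L5helper12.PV.EnU
import Pool.Agent.L5helper12.PV.G

/-! The pointwise bounds of the transform of the density by the primes, uniform in the scale. -/

set_option autoImplicit false

open Filter Topology Set MeasureTheory H370

namespace Pool.Agent.L5helper12.PV

open Pool.Agent.L5helper10.TV hiding GG
open Pool.Agent.Y744 (mz mz_nonneg)

theorem Qup2U {k : ℝ → ℝ} {ℓ : ℕ} {C B : ℝ} (h : KW k ℓ C B) (a δ : ℝ) (N : ℕ) (ha : 0 < a) (hδ : 0 < δ)
    (hδa : δ ≤ a / 2) (ε : ℝ) (hε : 0 < ε) : ∃ c ε' : ℝ, 0 ≤ c ∧ c ≤ ε ∧ 0 < ε' ∧ ∀ᶠ κ in 𝓝[>] (0 : ℝ),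
    ∀ L : ℝ, 1 ≤ L → La κ ≤ (1 + ε') * L → L ≤ 2 * La κ →
    Integrable (fun v => fk κ v ^ 2 * (L * Kt k ℓ c (v / L))) →
    4 * Real.sqrt Real.pi * (∫ u in Ioc 0 (ℓ * L), k (u / L) * EE κ a δ N u) ≤
      (TT a δ N * k 0 + ε) * (κ * L ^ 2) +
      Real.pi * (1 + ε) * (2 * ∫ v, fk κ v ^ 2 * Kt k ℓ c (v / L)) := by
  have hpi := Real.pi_gt_three
  have hpi4 := Real.pi_le_four
  have hC := h.C0
  have hB := h.B0
  set τ := TT a δ N with hτ
  have hτ0 : 0 ≤ τ := TT_nonneg a δ N ha hδ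
  set ε1 : ℝ := min (1 / 2) (ε / (40 * (τ * B + 1))) with hε1
  have hε1p : 0 < ε1 := by rw [hε1]; positivity
  have hε1h : ε1 ≤ 1 / 2 := min_le_left _ _
  have hε1a : ε1 ≤ ε / (40 * (τ * B + 1)) := min_le_right _ _
  have hτB : 0 ≤ τ * B := by positivity
  have hε1e : ε1 * (τ * B + 1) ≤ ε / 40 := by
    have := hε1a
    rw [le_div_iff₀ (by positivity)] at this
    linarith
  have hε1b : 0 ≤ ε1 * (τ * B) := by positivity
  have hε1f : 4 * ε1 ≤ ε := by linarith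
  set η : ℝ := min (1 / 2) (ε / (8 * (2 * C + 1))) with hη
  have hη0 : 0 < η := by rw [hη]; positivity
  have hη1 : η ≤ 1 / 2 := min_le_left _ _
  have hηe : (2 * C + 1) * η ≤ ε / 8 := by
    have : η ≤ ε / (8 * (2 * C + 1)) := min_le_right _ _
    rw [le_div_iff₀ (by positivity)] at this
    nlinarith
  have hη2 : η ≤ ε / 8 := by nlinarith
  set ℓ' : ℝ := 2 * (ℓ + 2 + B + C) with hℓ'
  have hℓ0 : (0 : ℝ) ≤ ℓ := Nat.cast_nonneg ℓ
  have hℓ'1 : 1 ≤ ℓ' := by
    rw [hℓ']; linarith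
  obtain ⟨CE, hCE, hEE⟩ := EE_bd ℓ' a δ ε1 N hℓ'1 ha hδ hδa hε1p (by linarith)
  set θ : ℝ := min (1 / 2) (min (η / (16 * 108000 * ℓ' * CE)) (ε / (64 * (τ * C + 1)))) with hθ
  have hθ0 : 0 < θ := by rw [hθ]; positivity
  have hθh : θ ≤ 1 / 2 := min_le_left _ _
  have hθη : 108000 * ℓ' * CE * θ ≤ η / 16 := by
    have : θ ≤ η / (16 * 108000 * ℓ' * CE) := (min_le_right _ _).trans (min_le_left _ _)
    rw [le_div_iff₀ (by positivity)] at this
    linarith
  have hθe : 8 * (τ * C * θ) ≤ ε / 8 := by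
    have : θ ≤ ε / (64 * (τ * C + 1)) := (min_le_right _ _).trans (min_le_right _ _)
    rw [le_div_iff₀ (by positivity)] at this
    nlinarith
  have hup := star_upg_ev ℓ' η ε1 θ CE a δ N hℓ'1 hη0 hε1p hε1h hδ ha hCE hθ0 hθh hθη hEE
  set c : ℝ := (2 * C + 1) * η with hc
  have hc0 : 0 ≤ c := by positivity
  refine ⟨c, ε1, hc0, by linarith, hε1p, ?_⟩
  filter_upwards [hup, La_ge 1, La_ge (2 / η), self_mem_nhdsWithin] with κ h1 hL1 hL2 h3
  intro L hL1' hLa hLb hGi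
  have hκ : 0 < κ := h3
  have hL0 : 0 < L := by linarith
  have hk0B := h.bd 0
  have hk0 := h.nn 0
  have hkc := h.cont
  have hLa2 : La κ ≤ 2 * L := by
    have : ε1 * L ≤ 1 / 2 * L := mul_le_mul_of_nonneg_right hε1h hL0.le
    linarith
  have hηL : 1 ≤ η * L := by
    rw [div_le_iff₀ hη0] at hL2
    have : 2 ≤ (2 * L) * η := hL2.trans (mul_le_mul_of_nonneg_right hLa2 hη0.le)
    linarith
  generalize La κ = Λ at *
  have hΛ0 : 0 < Λ := by linarith
  have hCθ : C * θ ≤ C * (1 / 2) := mul_le_mul_of_nonneg_left hθh hC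
  have h4 := h1 (fun u => L * k (u / L)) ((by fun_prop : Continuous (fun u => L * k (u / L))).measurable)
    (fun u => mul_nonneg hL0.le (h.nn _)) (L * (k 0 + C * (2 * θ))) (by positivity)
    (by
      have e1 : k 0 + C * (2 * θ) ≤ B + C := by linarith
      calc L * (k 0 + C * (2 * θ)) ≤ (2 * Λ) * (B + C) := mul_le_mul hLb e1 (by positivity) (by positivity)
        _ = (2 * (B + C)) * Λ := by ring
        _ ≤ ℓ' * Λ := by
          apply mul_le_mul_of_nonneg_right _ hΛ0.le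
          rw [hℓ']; linarith)
    (fun u => by
      calc L * k (u / L) ≤ (2 * Λ) * B := mul_le_mul hLb (h.bd _) (h.nn _) (by positivity)
        _ = (2 * B) * Λ := by ring
        _ ≤ ℓ' * Λ := by
          apply mul_le_mul_of_nonneg_right _ hΛ0.le
          rw [hℓ']; linarith)
    (fun u hu => by
      apply mul_le_mul_of_nonneg_left _ hL0.le
      have h5 := (abs_le.1 (h.lip (u / L) 0)).2
      rw [sub_zero, abs_of_nonneg (by have := hu.1; positivity)] at h5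
      have h6 : u / L ≤ 2 * θ := by
        rw [div_le_iff₀ hL0]
        have := mul_le_mul_of_nonneg_left hLa2 hθ0.le
        linarith [hu.2]
      have := mul_le_mul_of_nonneg_left h6 hC
      linarith)
    (fun v => L * Kt k ℓ c (v / L))
    ((by have := Kt_cont h c; fun_prop : Continuous (fun v => L * Kt k ℓ c (v / L))).measurable)
    (fun v => mul_nonneg hL0.le (add_nonneg (h.nn _) (mul_nonneg hc0 (le_min zero_le_one (le_max_left _ _)))))
    (fun u v hu huv hg => by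
      have hku : k (u / L) ≠ 0 := fun h0 => hg (by rw [h0, mul_zero])
      have huℓ : u / L < ℓ := by
        by_contra hcon
        exact hku (h.supp _ (not_lt.1 hcon))
      have hd : |u / L - v / L| ≤ 2 * η := by
        rw [← sub_div, abs_div, abs_of_pos hL0, div_le_iff₀ hL0]
        have := mul_le_mul_of_nonneg_left hLa2 hη0.le
        linarith
      have h5 := (abs_le.1 (h.lip (u / L) (v / L))).2
      have h6 := mul_le_mul_of_nonneg_left hd hC
      have h7 := (abs_le.1 hd).1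
      have h8 : Kt k ℓ c (v / L) = k (v / L) + c := by
        unfold Kt
        rw [min_eq_left, mul_one]
        refine le_trans ?_ (le_max_right _ _)
        push_cast
        linarith
      rw [h8, hc]
      have h9 : L * (k (u / L)) ≤ L * (k (v / L) + 2 * C * η) := mul_le_mul_of_nonneg_left (by linarith) hL0.le
      linarith)
    hGi
  have hint : ∫ u in Ioc 0 (ℓ' * Λ), L * k (u / L) * EE κ a δ N u =
      L * ∫ u in Ioc 0 (ℓ * L), k (u / L) * EE κ a δ N u := by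
    rw [← integral_const_mul]
    have : ∫ u in Ioc 0 (ℓ' * Λ), L * k (u / L) * EE κ a δ N u =
        ∫ u in Ioc 0 (ℓ * L), L * k (u / L) * EE κ a δ N u := by
      apply setIntegral_eq_of_subset_of_forall_sdiff_eq_zero measurableSet_Ioc
      · apply Ioc_subset_Ioc_right
        calc (ℓ : ℝ) * L ≤ ℓ * (2 * Λ) := mul_le_mul_of_nonneg_left hLb hℓ0
          _ = (2 * ℓ) * Λ := by ring
          _ ≤ ℓ' * Λ := by
            apply mul_le_mul_of_nonneg_right _ hΛ0.le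
            rw [hℓ']; linarith
      · intro u hu
        have : ℓ * L < u := by
          by_contra hc
          exact hu.2 ⟨hu.1.1, not_lt.1 hc⟩
        rw [h.supp _ (by rw [le_div_iff₀ hL0]; exact this.le), mul_zero, zero_mul]
    rw [this]
    congr 1
    funext u
    ring
  rw [hint] at h4
  have hIL : ∫ v, fk κ v ^ 2 * (L * Kt k ℓ c (v / L)) = L * ∫ v, fk κ v ^ 2 * Kt k ℓ c (v / L) := by
    rw [← integral_const_mul]
    congr 1; funext v; ring
  rw [hIL] at h4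
  have hκΛ : 0 ≤ κ * L ^ 3 := by positivity
  have hG0 : 0 ≤ ∫ v, fk κ v ^ 2 * Kt k ℓ c (v / L) :=
    integral_nonneg fun v => mul_nonneg (sq_nonneg _)
      (add_nonneg (h.nn _) (mul_nonneg hc0 (le_min zero_le_one (le_max_left _ _))))
  generalize (∫ v, fk κ v ^ 2 * Kt k ℓ c (v / L)) = I at *
  have h6 : Real.pi * ((1 + ε1) ^ 2 + ε1) * (2 * (L * I)) ≤ Real.pi * (1 + ε) * (2 * (L * I)) := by
    have g1 : (1 + ε1) ^ 2 + ε1 ≤ 1 + ε := by nlinarith
    gcongr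
  have hΛ2 : Λ ^ 2 ≤ (1 + ε1) ^ 2 * L ^ 2 := by
    rw [← mul_pow]
    exact pow_le_pow_left₀ hΛ0.le hLa 2
  have hΛ3 : Λ ^ 3 ≤ (1 + ε1) ^ 3 * L ^ 3 := by
    rw [← mul_pow]
    exact pow_le_pow_left₀ hΛ0.le hLa 3
  have g13 : (1 + ε1) ^ 3 ≤ 1 + 5 * ε1 := by nlinarith [sq_nonneg ε1, mul_nonneg hε1p.le hε1p.le]
  have h7 : (1 + ε1) * τ * (κ * Λ ^ 2 * (L * (k 0 + C * (2 * θ)))) ≤
      (τ * k 0 + 5 * (ε1 * (τ * B)) + 8 * (τ * C * θ)) * (κ * L ^ 3) := by
    have g0 : (1 + ε1) * τ * (κ * Λ ^ 2 * (L * (k 0 + C * (2 * θ)))) ≤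
        (1 + ε1) * τ * (κ * ((1 + ε1) ^ 2 * L ^ 2) * (L * (k 0 + C * (2 * θ)))) := by
      gcongr
    have g1 : (1 + ε1) ^ 3 * (τ * (k 0 + C * (2 * θ))) ≤ τ * k 0 + 5 * (ε1 * (τ * B)) + 8 * (τ * C * θ) := by
      have g2 : ε1 * (τ * k 0) ≤ ε1 * (τ * B) := by gcongr
      have g3 : (1 + ε1) ^ 3 * (τ * (k 0 + C * (2 * θ))) ≤ (1 + 5 * ε1) * (τ * (k 0 + C * (2 * θ))) :=
        mul_le_mul_of_nonneg_right g13 (by positivity)
      have g4 : ε1 * (τ * C * θ) ≤ 1 / 2 * (τ * C * θ) := mul_le_mul_of_nonneg_right hε1h (by positivity)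
      have g5 : 0 ≤ τ * C * θ := by positivity
      have g6 : (1 + 5 * ε1) * (τ * (k 0 + C * (2 * θ))) = τ * k 0 + 5 * (ε1 * (τ * k 0)) + 2 * (τ * C * θ) +
          10 * (ε1 * (τ * C * θ)) := by ring
      linarith
    calc _ ≤ _ := g0
      _ = (1 + ε1) ^ 3 * (τ * (k 0 + C * (2 * θ))) * (κ * L ^ 3) := by ring
      _ ≤ _ := mul_le_mul_of_nonneg_right g1 hκΛ
  have h8 : η / 2 * (κ * Λ ^ 3) ≤ 2 * η * (κ * L ^ 3) := by
    have g0 : η / 2 * (κ * Λ ^ 3) ≤ η / 2 * (κ * (4 * L ^ 3)) := by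
      have : Λ ^ 3 ≤ 4 * L ^ 3 := hΛ3.trans (mul_le_mul_of_nonneg_right (by linarith) (by positivity))
      gcongr
    linarith
  have g4 : (τ * k 0 + 5 * (ε1 * (τ * B)) + 8 * (τ * C * θ)) + 2 * η ≤ τ * k 0 + ε := by
    linarith
  have g5 := mul_le_mul_of_nonneg_right g4 hκΛ
  have g6 : L * (4 * Real.sqrt Real.pi * (∫ u in Ioc 0 (ℓ * L), k (u / L) * EE κ a δ N u)) ≤
      L * ((τ * k 0 + ε) * (κ * L ^ 2) + Real.pi * (1 + ε) * (2 * I)) := by
    calc L * (4 * Real.sqrt Real.pi * ∫ u in Ioc 0 (ℓ * L), k (u / L) * EE κ a δ N u) =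
        4 * Real.sqrt Real.pi * (L * ∫ u in Ioc 0 (ℓ * L), k (u / L) * EE κ a δ N u) := by ring
      _ ≤ _ := h4
      _ ≤ _ := by linarith
  exact le_of_mul_le_mul_left g6 hL0

lemma log_unif (x1 x2 ε' : ℝ) (h1 : 0 < x1) (hε : 0 < ε') : ∀ᶠ T in atTop, ∀ x ∈ Icc x1 x2,
    1 ≤ Real.log T ∧ La (x / T) ≤ (1 + ε') * Real.log T ∧ Real.log T ≤ 2 * La (x / T) ∧
      (1 - ε') * Real.log T ≤ La (x / T) := by
  set D := max |Real.log x1| |Real.log x2| with hD
  have hD0 : 0 ≤ D := (abs_nonneg _).trans (le_max_left _ _)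
  filter_upwards [Real.tendsto_log_atTop.eventually_ge_atTop (max 1 (max (2 * D) (D / ε'))), eventually_gt_atTop 0]
    with T hT hT0 x hx
  have hL1 : 1 ≤ Real.log T := (le_max_left _ _).trans hT
  have hL2 : 2 * D ≤ Real.log T := ((le_max_left _ _).trans (le_max_right _ _)).trans hT
  have hL3 : D / ε' ≤ Real.log T := ((le_max_right _ _).trans (le_max_right _ _)).trans hT
  have hx0 : 0 < x := lt_of_lt_of_le h1 hx.1
  have hlx : |Real.log x| ≤ D := by
    have e1 := Real.log_le_log h1 hx.1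
    have e2 := Real.log_le_log hx0 hx.2
    rw [abs_le]
    constructor
    · have : |Real.log x1| ≤ D := le_max_left _ _
      linarith [(abs_le.1 this).1]
    · have : |Real.log x2| ≤ D := le_max_right _ _
      linarith [(abs_le.1 this).2]
  rw [div_le_iff₀ hε] at hL3
  have e1 := abs_le.1 hlx
  rw [La_kap x T hx0 hT0]
  refine ⟨hL1, by linarith, by linarith, by linarith⟩

theorem pup (RH : RiemannHypothesis) : PupStmt := by
  intro k ℓ C B h a δ N ha hδ hδa ε hε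
  have hpi := Real.pi_pos
  have hB0 := h.B0
  set M := TT a δ N * k 0 with hM
  have hM0 : 0 ≤ M := by
    have h1 := TT_nonneg a δ N ha hδ
    have h2 := h.nn 0
    positivity
  set η := min 1 (ε / (16 * (M + 1))) with hη
  have hη0 : 0 < η := by positivity
  have hη1 : η ≤ 1 := min_le_left _ _
  have hη3 : η ≤ ε / (16 * (M + 1)) := min_le_right _ _
  rw [le_div_iff₀ (by positivity)] at hη3
  have hηM : 0 ≤ η * M := by positivity
  have hη2 : η * M ≤ ε / 16 := by linarith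
  have hη4 : η ≤ ε / 16 := by linarith
  obtain ⟨CE, hCE0, hCE⟩ := EE_SPu RH a δ N ha hδ hδa η hη0
  obtain ⟨c, ε', hc0, hcε, hε', hQ⟩ := Qup2U h a δ N ha hδ hδa (ε / 16) (by positivity)
  refine ⟨c, hc0, by linarith, fun x1 x2 hx1 hx12 => ?_⟩
  filter_upwards [hCE x1 x2 hx1, liftU hQ x1 x2 hx1, liftU le_one_ev x1 x2 hx1, log_unif x1 x2 ε' hx1 hε',
    rem_ev (8 * CE * B * ℓ * x2 ^ 2) (ε / 4) (by positivity), eventually_ge_atTop 4] with T p1 p2 p2' p3 q5 q6 x hx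
  have hX : 0 < x := lt_of_lt_of_le hx1 hx.1
  have q1 := p1 x hx
  have hκ1 := p2' x hx
  obtain ⟨hL1, hLa, hLb, -⟩ := p3 x hx
  have hT0 : 0 < T := by linarith
  have hκ : 0 < x / T := div_pos hX hT0
  have hL : 0 < Real.log T := by linarith
  have hKc := Kt_cont h c
  have hGi : Integrable (fun v => fk (x / T) v ^ 2 * (Real.log T * Kt k ℓ c (v / Real.log T))) := by
    apply fkG_int (x / T) hκ.le hκ1 _ ((by fun_prop : Continuous fun v => Real.log T * Kt k ℓ c (v / Real.log T)).measurable)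
      (fun v => mul_nonneg hL.le (add_nonneg (h.nn _) (mul_nonneg hc0 (le_min zero_le_one (le_max_left _ _)))))
      (Real.log T * (B + c)) ((ℓ + 2) * Real.log T)
    · intro v
      apply mul_le_mul_of_nonneg_left _ hL.le
      unfold Kt
      have h3 : min 1 (max 0 (((ℓ + 2 : ℕ) : ℝ) - v / Real.log T)) ≤ 1 := min_le_left _ _
      have := mul_le_mul_of_nonneg_left h3 hc0
      linarith [h.bd (v / Real.log T)]
    · intro v hv
      have h3 : (ℓ : ℝ) + 2 < v / Real.log T := by rw [lt_div_iff₀ hL]; exact hv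
      unfold Kt
      rw [h.supp _ (by linarith), max_eq_left (by push_cast; linarith), min_eq_right zero_le_one]; ring
  have q2 := p2 x hx (Real.log T) hL1 hLa hLb hGi
  have hfub := NU_fub h.cont ℓ T x a (xj a δ N) (5 * δ) q6 hX ha (xj_ge a δ N hδ)
  have hab' : a / (x / T) ≤ xj a δ N / (x / T) := div_le_div_of_nonneg_right (xj_ge a δ N hδ) hκ.le
  have hkc := h.cont
  have hEc := EE_cont (x / T) a δ N
  have hci : ∀ f : ℝ → ℝ, Continuous f → IntegrableOn f (Ioc 0 (ℓ * Real.log T)) := fun f hf =>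
    hf.continuousOn.integrableOn_Icc.mono_set Ioc_subset_Icc_self
  have hii := MS_ii hkc ℓ (Zw T) (Real.log T) (fun t => (qf (x / T) t - 5 * δ) / t ^ 2) _ _ hab'
    (f_cont (x / T) (5 * δ) _ _ (div_pos ha hκ))
  have f1 : (1 - 2 * δ / a) * (∫ u in Ioc 0 (ℓ * Real.log T), k (u / Real.log T) *
      (∫ t in (a / (x / T))..(xj a δ N / (x / T)), (qf (x / T) t - 5 * δ) / t ^ 2 * ‖SP (Zw T) u t‖ ^ 2)) ≤
      (1 + η) * (∫ u in Ioc 0 (ℓ * Real.log T), k (u / Real.log T) * EE (x / T) a δ N u) +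
      CE * ((x / T) ^ 3 * Real.log T ^ 2) * (B * (ℓ * Real.log T)) := by
    have e1 : ∫ _u in Ioc 0 (ℓ * Real.log T), CE * ((x / T) ^ 3 * Real.log T ^ 2) * B =
        CE * ((x / T) ^ 3 * Real.log T ^ 2) * (B * (ℓ * Real.log T)) := by
      rw [setIntegral_const, Real.volume_real_Ioc_of_le (by positivity), smul_eq_mul]; ring
    rw [← e1, ← integral_const_mul, ← integral_const_mul, ← integral_add ((hci _ (by fun_prop)).const_mul _)
      (hci _ (by fun_prop))]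
    apply setIntegral_mono_on (hii.const_mul _) (hci _ (by fun_prop)) measurableSet_Ioc
    intro u hu
    have g1 := (q1 u).2
    have g2 := h.nn (u / Real.log T)
    have g3 := h.bd (u / Real.log T)
    have g4 := mul_le_mul_of_nonneg_left g1 g2
    have g5 : k (u / Real.log T) * (CE * ((x / T) ^ 3 * Real.log T ^ 2)) ≤ CE * ((x / T) ^ 3 * Real.log T ^ 2) * B := by
      rw [mul_comm]
      exact mul_le_mul_of_nonneg_left g3 (by positivity)
    linarith
  have hsq0 := Real.sqrt_nonneg Real.pi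
  have hsq2 := sqpi
  have hI0 : 0 ≤ ∫ v, fk (x / T) v ^ 2 * Kt k ℓ c (v / Real.log T) :=
    integral_nonneg fun v => mul_nonneg (sq_nonneg _)
      (add_nonneg (h.nn _) (mul_nonneg hc0 (le_min zero_le_one (le_max_left _ _))))
  generalize (∫ u in Ioc 0 (ℓ * Real.log T), k (u / Real.log T) *
      (∫ t in (a / (x / T))..(xj a δ N / (x / T)), (qf (x / T) t - 5 * δ) / t ^ 2 * ‖SP (Zw T) u t‖ ^ 2)) = K at *
  generalize (∫ u in Ioc 0 (ℓ * Real.log T), k (u / Real.log T) * EE (x / T) a δ N u) = E1 at *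
  generalize (∫ y in (a / x)..(xj a δ N / x), (qf x y - 5 * δ) / y ^ 2 * NU k ℓ T y) = Y at *
  generalize (∫ v, fk (x / T) v ^ 2 * Kt k ℓ c (v / Real.log T)) = I at *
  generalize Real.sqrt Real.pi = s at *
  generalize Real.log T = L at *
  -- combine
  have hL2T : 0 < L ^ 2 / T := by positivity
  rw [← mul_le_mul_iff_right₀ hL2T]
  have c1 : L ^ 2 / T * ((1 - 2 * δ / a) * Y) = 4 * s * ((1 - 2 * δ / a) * K) := by
    calc L ^ 2 / T * ((1 - 2 * δ / a) * Y) = (1 - 2 * δ / a) * (L ^ 2 / T * Y) := by ring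
      _ = (1 - 2 * δ / a) * (4 * s * K) := by rw [hfub]
      _ = _ := by ring
  rw [c1]
  have c2 : 4 * s * ((1 - 2 * δ / a) * K) ≤ 4 * s * ((1 + η) * E1 + CE * ((x / T) ^ 3 * L ^ 2) * (B * (ℓ * L))) :=
    mul_le_mul_of_nonneg_left f1 (by positivity)
  have c3 : 4 * s * ((1 + η) * E1) ≤ (1 + η) * ((M + ε / 16) * (x / T * L ^ 2) +
      Real.pi * (1 + ε / 16) * (2 * I)) := by
    have := mul_le_mul_of_nonneg_left q2 (by positivity : 0 ≤ 1 + η)
    linarith
  have c5 : 4 * s * (CE * ((x / T) ^ 3 * L ^ 2) * (B * (ℓ * L))) ≤ L ^ 2 / T * (x * (ε / 4)) := by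
    have d1 : 4 * s * (CE * ((x / T) ^ 3 * L ^ 2) * (B * (ℓ * L))) ≤
        4 * 2 * (CE * ((x / T) ^ 3 * L ^ 2) * (B * (ℓ * L))) := by gcongr
    have d2 : 4 * 2 * (CE * ((x / T) ^ 3 * L ^ 2) * (B * (ℓ * L))) =
        L ^ 2 / T * (x * ((8 * CE * B * ℓ * x ^ 2) * (L / T ^ 2))) := by field_simp; ring
    rw [d2] at d1
    refine d1.trans (mul_le_mul_of_nonneg_left (mul_le_mul_of_nonneg_left ?_ hX.le) hL2T.le)
    refine le_trans ?_ q5
    apply mul_le_mul_of_nonneg_right _ (by positivity)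
    have : x ^ 2 ≤ x2 ^ 2 := pow_le_pow_left₀ hX.le hx.2 2
    gcongr
  have c6 : (1 + η) * ((M + ε / 16) * (x / T * L ^ 2) + Real.pi * (1 + ε / 16) * (2 * I)) =
      L ^ 2 / T * (x * ((1 + η) * (M + ε / 16))) +
      L ^ 2 / T * (2 * Real.pi * ((1 + η) * (1 + ε / 16)) * (T / L ^ 2 * I)) := by field_simp
  have c7 : (1 + η) * (M + ε / 16) ≤ M + ε / 2 := by
    have d4 : η * ε ≤ ε := by nlinarith
    nlinarith
  have c7' : (1 + η) * (1 + ε / 16) ≤ 1 + ε := by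
    have d4 : η * ε ≤ ε := by nlinarith
    nlinarith
  have c8 : L ^ 2 / T * (x * ((1 + η) * (M + ε / 16))) ≤ L ^ 2 / T * (x * (M + ε / 2)) := by
    gcongr
  have c8' : L ^ 2 / T * (2 * Real.pi * ((1 + η) * (1 + ε / 16)) * (T / L ^ 2 * I)) ≤
      L ^ 2 / T * (2 * Real.pi * (1 + ε) * (T / L ^ 2 * I)) := by
    gcongr
  have c9 : L ^ 2 / T * (x * (M + ε) + 2 * Real.pi * (1 + ε) * (T / L ^ 2 * I)) =
      L ^ 2 / T * (x * (M + ε / 2)) + L ^ 2 / T * (x * (ε / 4)) + L ^ 2 / T * (x * (ε / 4)) +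
      L ^ 2 / T * (2 * Real.pi * (1 + ε) * (T / L ^ 2 * I)) := by ring
  have c10 : 0 ≤ L ^ 2 / T * (x * (ε / 4)) := by positivity
  linarith

theorem plow (RH : RiemannHypothesis) (A : ℕ) (hA : 1 ≤ A) (ε : ℝ) (hε : 0 < ε) :
    ∃ a b : ℝ, 0 < a ∧ a ≤ b ∧ ∀ x1 x2 : ℝ, 0 < x1 → x1 < x2 → ∀ᶠ T in atTop, ∀ x ∈ Icc x1 x2,
    x * (Real.pi * (A : ℝ) ^ 2 - ε) ≤ ∫ y in (a / x)..(b / x), (2 - 2 * Real.cos (x * y)) / y ^ 2 * NU (kA A) A T y := by
  have hpi := Real.pi_pos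
  have h := KW_kA A
  have hA0 : (0 : ℝ) ≤ A := Nat.cast_nonneg A
  set Q := Real.pi * (A : ℝ) ^ 2 with hQ
  have hQ0 : 0 ≤ Q := by positivity
  set η := min (1 / 4) (ε / (32 * (Q + 1))) with hη
  have hη0 : 0 < η := by positivity
  have hη1 : η ≤ 1 / 4 := min_le_left _ _
  have hη3 : η ≤ ε / (32 * (Q + 1)) := min_le_right _ _
  rw [le_div_iff₀ (by positivity)] at hη3
  have hηQ : 0 ≤ η * Q := by positivity
  have hη2 : η * Q ≤ ε / 32 := by linarith
  obtain ⟨a, δ, ε2, N, ha, hδ, hδa, hδ1, hε2, hε2ε, hT1, hT2⟩ := num η hη0 (by linarith)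
  obtain ⟨CE, hCE0, hCE⟩ := EE_SPu RH a δ N ha hδ hδa η hη0
  refine ⟨a, xj a δ N, ha, xj_ge a δ N hδ, fun x1 x2 hx1 hx12 => ?_⟩
  filter_upwards [hCE x1 x2 hx1, liftU (fejer_lowL A hA a δ ε2 N ha hδ hδ1 hε2 (by linarith)) x1 x2 hx1,
    log_unif x1 x2 η hx1 hη0,
    rem_ev (8 * CE * A * A * x2 ^ 2) (ε / 8) (by positivity), eventually_ge_atTop 4] with T p1 p2 p3 q5 q6 x hx
  have hX : 0 < x := lt_of_lt_of_le hx1 hx.1
  have q1 := p1 x hx
  obtain ⟨hL1, -, -, hLc⟩ := p3 x hx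
  have hT0 : 0 < T := by linarith
  have hκ : 0 < x / T := div_pos hX hT0
  have hL : 0 < Real.log T := by linarith
  have q2 := p2 x hx (Real.log T) hL
  have hfub := NU_fub h.cont A T x a (xj a δ N) 0 q6 hX ha (xj_ge a δ N hδ)
  have hab' : a / (x / T) ≤ xj a δ N / (x / T) := div_le_div_of_nonneg_right (xj_ge a δ N hδ) hκ.le
  have hkc := h.cont
  have hEc := EE_cont (x / T) a δ N
  have hci : ∀ f : ℝ → ℝ, Continuous f → IntegrableOn f (Ioc 0 (A * Real.log T)) := fun f hf =>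
    hf.continuousOn.integrableOn_Icc.mono_set Ioc_subset_Icc_self
  have hii := MS_ii hkc A (Zw T) (Real.log T) (fun t => (qf (x / T) t - 0) / t ^ 2) _ _ hab'
    (f_cont (x / T) 0 _ _ (div_pos ha hκ))
  simp only [sub_zero] at hfub hii
  by_cases hcase : Q - ε ≤ 0
  · have h1 : x * (Q - ε) ≤ 0 := mul_nonpos_of_nonneg_of_nonpos hX.le hcase
    refine h1.trans ?_
    apply intervalIntegral.integral_nonneg (div_le_div_of_nonneg_right (xj_ge a δ N hδ) hX.le)
    intro y _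
    exact mul_nonneg (div_nonneg (qf_nonneg _ _) (sq_nonneg _)) (NU_nonneg h.nn _ _ _)
  push Not at hcase
  have f1 : (∫ u in Ioc 0 (A * Real.log T), kA A (u / Real.log T) * EE (x / T) a δ N u) ≤
      (1 + η) * (∫ u in Ioc 0 (A * Real.log T), kA A (u / Real.log T) *
      (∫ t in (a / (x / T))..(xj a δ N / (x / T)), qf (x / T) t / t ^ 2 * ‖SP (Zw T) u t‖ ^ 2)) +
      CE * ((x / T) ^ 3 * Real.log T ^ 2) * (A * (A * Real.log T)) := by
    have e1 : ∫ _u in Ioc 0 (A * Real.log T), CE * ((x / T) ^ 3 * Real.log T ^ 2) * A =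
        CE * ((x / T) ^ 3 * Real.log T ^ 2) * (A * (A * Real.log T)) := by
      rw [setIntegral_const, Real.volume_real_Ioc_of_le (by positivity), smul_eq_mul]; ring
    rw [← e1, ← integral_const_mul, ← integral_add (hii.const_mul _)
      (hci _ (by fun_prop))]
    apply setIntegral_mono_on (hci _ (by fun_prop)) ((hii.const_mul _).add (hci _ (by fun_prop))) measurableSet_Ioc
    intro u hu
    have g1 := (q1 u).1
    have g2 := h.nn (u / Real.log T)
    have g3 := h.bd (u / Real.log T)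
    have g4 := mul_le_mul_of_nonneg_left g1 g2
    have g5 : kA A (u / Real.log T) * (CE * ((x / T) ^ 3 * Real.log T ^ 2)) ≤ CE * ((x / T) ^ 3 * Real.log T ^ 2) * A := by
      rw [mul_comm]
      exact mul_le_mul_of_nonneg_left g3 (by positivity)
    simp only [Pi.add_apply]
    linarith
  have hsq0 := Real.sqrt_nonneg Real.pi
  have hsq2 := sqpi
  change x * (Q - ε) ≤ ∫ y in (a / x)..(xj a δ N / x), qf x y / y ^ 2 * NU (kA A) A T y
  generalize (∫ u in Ioc 0 (A * Real.log T), kA A (u / Real.log T) *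
      (∫ t in (a / (x / T))..(xj a δ N / (x / T)), qf (x / T) t / t ^ 2 * ‖SP (Zw T) u t‖ ^ 2)) = K at *
  generalize (∫ u in Ioc 0 (A * Real.log T), kA A (u / Real.log T) * EE (x / T) a δ N u) = E1 at *
  generalize (∫ y in (a / x)..(xj a δ N / x), qf x y / y ^ 2 * NU (kA A) A T y) = Y at *
  generalize Real.sqrt Real.pi = s at *
  generalize La (x / T) = Λ at *
  generalize Real.log T = L at *
  set TL := ∑ j ∈ Finset.range N, δ * (Vj a δ ε2 j ^ 2 / Wj a δ j) / xj a δ (j + 1) ^ 2 with hTL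
  have hL2T : 0 < L ^ 2 / T := by positivity
  have g2 : Real.pi * (1 - 2 * η) ≤ (1 - ε2) * TL := by
    have : (1 - η) * (Real.pi * (1 - η)) ≤ (1 - ε2) * TL :=
      mul_le_mul (by linarith) hT2 (mul_nonneg hpi.le (by linarith)) (by linarith)
    have h5' : 0 ≤ Real.pi * η ^ 2 := by positivity
    linarith
  have c1 : Q * (1 - 2 * η) * (1 - η) * (x / T * L ^ 2) ≤ 4 * s * E1 := by
    refine le_trans ?_ q2
    have d1 : (A : ℝ) ^ 2 * (Real.pi * (1 - 2 * η)) ≤ (A : ℝ) ^ 2 * ((1 - ε2) * TL) :=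
      mul_le_mul_of_nonneg_left g2 (sq_nonneg _)
    have d2 : x / T * (L * ((1 - η) * L)) ≤ x / T * (L * Λ) := by gcongr
    have d3 : 0 ≤ (A : ℝ) ^ 2 * (Real.pi * (1 - 2 * η)) := by
      have : 0 ≤ 1 - 2 * η := by linarith
      positivity
    have d4 : 0 ≤ x / T * (L * ((1 - η) * L)) := by
      have : 0 ≤ 1 - η := by linarith
      positivity
    calc Q * (1 - 2 * η) * (1 - η) * (x / T * L ^ 2) =
        ((A : ℝ) ^ 2 * (Real.pi * (1 - 2 * η))) * (x / T * (L * ((1 - η) * L))) := by rw [hQ]; ring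
      _ ≤ ((A : ℝ) ^ 2 * ((1 - ε2) * TL)) * (x / T * (L * Λ)) := mul_le_mul d1 d2 d4 (d3.trans d1)
      _ = _ := by ring
  have c3 : 4 * s * E1 ≤ (1 + η) * (L ^ 2 / T * Y) + L ^ 2 / T * (x * (ε / 8)) := by
    have d0 : 4 * s * E1 ≤ 4 * s * ((1 + η) * K + CE * ((x / T) ^ 3 * L ^ 2) * (A * (A * L))) := by gcongr
    have d1 : 4 * s * (CE * ((x / T) ^ 3 * L ^ 2) * (A * (A * L))) ≤
        4 * 2 * (CE * ((x / T) ^ 3 * L ^ 2) * (A * (A * L))) := by gcongr
    have d2 : 4 * 2 * (CE * ((x / T) ^ 3 * L ^ 2) * (A * (A * L))) =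
        L ^ 2 / T * (x * ((8 * CE * A * A * x ^ 2) * (L / T ^ 2))) := by field_simp; ring
    have d3 : L ^ 2 / T * (x * ((8 * CE * A * A * x ^ 2) * (L / T ^ 2))) ≤ L ^ 2 / T * (x * (ε / 8)) := by
      refine mul_le_mul_of_nonneg_left (mul_le_mul_of_nonneg_left ?_ hX.le) hL2T.le
      refine le_trans ?_ q5
      apply mul_le_mul_of_nonneg_right _ (by positivity)
      have : x ^ 2 ≤ x2 ^ 2 := pow_le_pow_left₀ hX.le hx.2 2
      gcongr
    have d4 : 4 * s * ((1 + η) * K) = (1 + η) * (L ^ 2 / T * Y) := by rw [← hfub]; ring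
    linarith
  have c4 : Q * (1 - 2 * η) * (1 - η) * (x / T * L ^ 2) = L ^ 2 / T * (x * (Q * (1 - 2 * η) * (1 - η))) := by
    field_simp
  have c6 : L ^ 2 / T * (x * (Q * (1 - 2 * η) * (1 - η))) ≤ L ^ 2 / T * ((1 + η) * Y + x * (ε / 8)) := by
    linarith
  have c7 : x * (Q * (1 - 2 * η) * (1 - η)) ≤ (1 + η) * Y + x * (ε / 8) := le_of_mul_le_mul_left c6 hL2T
  have c8 : (1 + η) * (Q - ε) ≤ Q * (1 - 2 * η) * (1 - η) - ε / 8 := by
    have d1 : 0 ≤ η * η * Q := by positivity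
    have d2 : 0 ≤ η * ε := by positivity
    nlinarith
  have c9 : (1 + η) * (x * (Q - ε)) ≤ (1 + η) * Y := by
    have d1 := mul_le_mul_of_nonneg_left c8 hX.le
    linarith
  exact le_of_mul_le_mul_left c9 (by positivity)

end Pool.Agent.L5helper12.PV
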