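import Pool.Agent.L5helper12.PV.NUd

/-! Upper and lower bounds for the transform of the density. -/

set_option autoImplicit false

open Filter Topology Set MeasureTheory H370

namespace Pool.Agent.L5helper12.PV

open Pool.Agent.L5helper10.TV hiding GG

lemma KW_kA (A : ℕ) : KW (kA A) A 1 A where
  nn := fun α => le_max_left _ _
  lip := fun x y => by rw [one_mul]; exact kA_lip A x y
  supp := fun α hα => by
    unfold kA
    apply max_eq_left
    have := le_max_left α 0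
    linarith
  bd := fun α => max_le (Nat.cast_nonneg A) (by linarith [le_max_right α 0])

lemma EE_nonneg (κ a δ : ℝ) (N : ℕ) (hκ : 0 < κ) (hδ : 0 < δ) (u : ℝ) : 0 ≤ EE κ a δ N u := by
  unfold EE
  refine Finset.sum_nonneg fun j _ => mul_nonneg (wj_nonneg κ a δ hδ j) (Ej_nonneg ?_ u)
  apply div_le_div_of_nonneg_right _ hκ.le
  rw [xj_succ]; linarith

lemma ratio_ev (X : ℝ) (hX : 0 < X) (ε : ℝ) (hε : 0 < ε) : ∀ᶠ T in atTop,
    |La (X / T) ^ 2 - Real.log T ^ 2| ≤ ε * Real.log T ^ 2 := by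
  set c := |Real.log X| with hc
  have hc0 : 0 ≤ c := abs_nonneg _
  filter_upwards [Real.tendsto_log_atTop.eventually_ge_atTop (max 1 (max c (3 * c / ε))), eventually_gt_atTop 0]
    with T hT hT0
  have h1 : 1 ≤ Real.log T := (le_max_left _ _).trans hT
  have h2 : c ≤ Real.log T := ((le_max_left _ _).trans (le_max_right _ _)).trans hT
  have h3 : 3 * c / ε ≤ Real.log T := ((le_max_right _ _).trans (le_max_right _ _)).trans hT
  rw [La_kap X T hX hT0]
  rw [div_le_iff₀ hε] at h3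
  have h4 : (Real.log T - Real.log X) ^ 2 - Real.log T ^ 2 = -Real.log X * (2 * Real.log T - Real.log X) := by ring
  rw [h4, abs_mul, abs_neg, ← hc]
  have h5 : |2 * Real.log T - Real.log X| ≤ 3 * Real.log T := by
    refine (abs_sub _ _).trans ?_
    rw [abs_of_nonneg (by linarith)]
    linarith
  calc c * |2 * Real.log T - Real.log X| ≤ c * (3 * Real.log T) := mul_le_mul_of_nonneg_left h5 hc0
    _ = 3 * c * Real.log T := by ring
    _ ≤ Real.log T * ε * Real.log T := mul_le_mul_of_nonneg_right h3 (by linarith)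
    _ = _ := by ring

theorem QL (hU : UpperV) {k : ℝ → ℝ} {ℓ : ℕ} {C B : ℝ} (h : KW k ℓ C B) (X a δ : ℝ) (N : ℕ) (hX : 0 < X) (ha : 0 < a)
    (hδ : 0 < δ) (hδa : δ ≤ a / 2) (ε : ℝ) (hε : 0 < ε) : ∀ᶠ T in atTop,
    |(∫ u in Ioc 0 (ℓ * Real.log T), k (u / Real.log T) * EE (X / T) a δ N u) -
      ∫ u in Ioc 0 (ℓ * La (X / T)), k (u / La (X / T)) * EE (X / T) a δ N u| ≤ ε * (X / T * Real.log T ^ 2) := by
  have hC := h.C0
  have hpi := Real.pi_gt_three
  set k2 := kA (ℓ + 2) with hk2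
  set C2 : ℝ := TT a δ N * k2 0 + Real.pi * (2 * Jm k2 (ℓ + 2)) + 1 with hC2
  have hC20 : 0 ≤ C2 := by
    have h1 := TT_nonneg a δ N ha hδ
    have h2 := (KW_kA (ℓ + 2)).nn 0
    have h3 := Jm_nonneg (KW_kA (ℓ + 2))
    positivity
  set c := |Real.log X| with hc
  have hc0 : 0 ≤ c := abs_nonneg _
  have hQ := (kap_tendsto X hX).eventually (Qup hU (KW_kA (ℓ + 2)) a δ N ha hδ hδa 1 one_pos)
  have hκ1 := (kap_tendsto X hX).eventually self_mem_nhdsWithin
  filter_upwards [hQ, hκ1, ratio_ev X hX 1 one_pos, eventually_gt_atTop 0,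
    Real.tendsto_log_atTop.eventually_ge_atTop (max 1 (max (2 * (ℓ + 1) * c) (2 * C * (ℓ + 1) * c * C2 / ε)))]
    with T q1 q2 q3 hT0 hT
  have hκ : 0 < X / T := q2
  have h1 : 1 ≤ Real.log T := (le_max_left _ _).trans hT
  have h2 : 2 * (ℓ + 1) * c ≤ Real.log T := ((le_max_left _ _).trans (le_max_right _ _)).trans hT
  have h3 : 2 * C * (ℓ + 1) * c * C2 / ε ≤ Real.log T := ((le_max_right _ _).trans (le_max_right _ _)).trans hT
  rw [div_le_iff₀ hε] at h3
  have hLa := La_kap X T hX hT0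
  have hℓ0 : (0 : ℝ) ≤ ℓ := Nat.cast_nonneg ℓ
  have hlogX : |Real.log X| = c := hc.symm
  have hΛ1 : Real.log T - c ≤ La (X / T) := by rw [hLa]; linarith [le_abs_self (Real.log X)]
  have hΛ2 : La (X / T) ≤ Real.log T + c := by rw [hLa]; linarith [neg_abs_le (Real.log X)]
  have hcl : |La (X / T) - Real.log T| ≤ c := by rw [abs_le]; constructor <;> linarith
  generalize La (X / T) = Λ at *
  generalize Real.log T = L at *
  generalize X / T = κ at *
  have hc1 : c ≤ L / 2 := by nlinarith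
  have hΛ0 : 0 < Λ := by linarith
  have hL0 : 0 < L := by linarith
  have hM0 : ℓ * L ≤ (ℓ + 1) * Λ := by nlinarith
  have hEc := EE_cont κ a δ N
  have hE0 := EE_nonneg κ a δ N hκ hδ
  have hkc := h.cont
  have hext : ∀ s : ℝ, 0 < s → ℓ * s ≤ (ℓ + 1) * Λ → ∫ u in Ioc 0 (ℓ * s), k (u / s) * EE κ a δ N u =
      ∫ u in Ioc 0 ((ℓ + 1) * Λ), k (u / s) * EE κ a δ N u := by
    intro s hs hsM
    symm
    apply setIntegral_eq_of_subset_of_forall_sdiff_eq_zero measurableSet_Ioc (Ioc_subset_Ioc_right hsM)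
    intro u hu
    have : ℓ * s < u := by
      by_contra hc
      exact hu.2 ⟨hu.1.1, not_lt.1 hc⟩
    rw [h.supp _ (by rw [le_div_iff₀ hs]; exact this.le), zero_mul]
  rw [hext L hL0 hM0, hext Λ hΛ0 (by nlinarith)]
  have hci : ∀ f : ℝ → ℝ, Continuous f → IntegrableOn f (Ioc 0 ((ℓ + 1) * Λ)) := fun f hf =>
    hf.continuousOn.integrableOn_Icc.mono_set Ioc_subset_Icc_self
  rw [← integral_sub (hci _ (by fun_prop)) (hci _ (by fun_prop))]
  have hbd : ∀ u ∈ Ioc 0 ((ℓ + 1) * Λ), ‖k (u / L) * EE κ a δ N u - k (u / Λ) * EE κ a δ N u‖ ≤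
      C * (ℓ + 1) * c / L * EE κ a δ N u := by
    intro u hu
    rw [← sub_mul, norm_mul, Real.norm_of_nonneg (hE0 u)]
    apply mul_le_mul_of_nonneg_right _ (hE0 u)
    rw [Real.norm_eq_abs]
    refine (h.lip _ _).trans ?_
    rw [mul_assoc, mul_div_assoc]
    apply mul_le_mul_of_nonneg_left _ hC
    have e1 : u / L - u / Λ = u / Λ * ((Λ - L) / L) := by field_simp
    have hu0 : 0 ≤ u / Λ := by have := hu.1; positivity
    rw [e1, abs_mul, abs_of_nonneg hu0, abs_div (Λ - L) L, abs_of_pos hL0, ← mul_div_assoc]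
    apply div_le_div_of_nonneg_right _ hL0.le
    apply mul_le_mul _ hcl (abs_nonneg _) (by positivity)
    rw [div_le_iff₀ hΛ0]; exact hu.2
  have h6 : ‖∫ u in Ioc 0 ((ℓ + 1) * Λ), (k (u / L) * EE κ a δ N u - k (u / Λ) * EE κ a δ N u)‖ ≤
      ∫ u in Ioc 0 ((ℓ + 1) * Λ), C * (ℓ + 1) * c / L * EE κ a δ N u := by
    apply norm_integral_le_of_norm_le (hci _ (by fun_prop))
    exact ae_restrict_of_forall_mem measurableSet_Ioc hbd
  rw [integral_const_mul, Real.norm_eq_abs] at h6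
  refine h6.trans ?_
  -- a priori
  have hkA : Continuous k2 := kA_cont (ℓ + 2)
  have h7 : ∫ u in Ioc 0 ((ℓ + 1) * Λ), EE κ a δ N u ≤
      ∫ u in Ioc 0 (((ℓ + 2 : ℕ) : ℝ) * Λ), k2 (u / Λ) * EE κ a δ N u := by
    have e1 : ∫ u in Ioc 0 ((ℓ + 1) * Λ), EE κ a δ N u ≤ ∫ u in Ioc 0 ((ℓ + 1) * Λ), k2 (u / Λ) * EE κ a δ N u := by
      apply setIntegral_mono_on (hci _ hEc) (hci _ (by fun_prop)) measurableSet_Ioc
      intro u hu
      have h8 : u / Λ ≤ ℓ + 1 := by rw [div_le_iff₀ hΛ0]; exact hu.2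
      have h9 : 0 ≤ u / Λ := by have := hu.1; positivity
      have h10 : 1 ≤ k2 (u / Λ) := by
        rw [hk2, kA_pos _ h9 (by push_cast; linarith)]
        push_cast; linarith
      have := mul_le_mul_of_nonneg_right h10 (hE0 u)
      linarith
    refine e1.trans ?_
    apply setIntegral_mono_set
    · exact ((by fun_prop : Continuous fun u => k2 (u / Λ) * EE κ a δ N u).continuousOn.integrableOn_Icc.mono_set
        Ioc_subset_Icc_self)
    · exact Eventually.of_forall fun u => mul_nonneg ((KW_kA (ℓ + 2)).nn _) (hE0 u)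
    · have hsub : Ioc 0 ((ℓ + 1) * Λ) ⊆ Ioc 0 (((ℓ + 2 : ℕ) : ℝ) * Λ) := by
        apply Ioc_subset_Ioc_right
        apply mul_le_mul_of_nonneg_right _ hΛ0.le
        push_cast; linarith
      exact LE.le.eventuallyLE hsub
  have hI0 : 0 ≤ ∫ u in Ioc 0 (((ℓ + 2 : ℕ) : ℝ) * Λ), k2 (u / Λ) * EE κ a δ N u :=
    integral_nonneg fun u => mul_nonneg ((KW_kA (ℓ + 2)).nn _) (hE0 u)
  have hsq : 1 ≤ Real.sqrt Real.pi := by
    rw [Real.one_le_sqrt]; linarith
  have h8 : ∫ u in Ioc 0 ((ℓ + 1) * Λ), EE κ a δ N u ≤ C2 * (κ * (2 * L ^ 2)) := by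
    refine h7.trans ?_
    have h9 : Λ ^ 2 ≤ 2 * L ^ 2 := by linarith [(abs_le.1 q3).2]
    have h10 : C2 * (κ * Λ ^ 2) ≤ C2 * (κ * (2 * L ^ 2)) := by gcongr
    refine le_trans ?_ (q1.trans h10)
    nlinarith
  calc C * (ℓ + 1) * c / L * ∫ u in Ioc 0 ((ℓ + 1) * Λ), EE κ a δ N u ≤
        C * (ℓ + 1) * c / L * (C2 * (κ * (2 * L ^ 2))) := mul_le_mul_of_nonneg_left h8 (by positivity)
    _ = (2 * C * (ℓ + 1) * c * C2) * (κ * L) := by field_simp
    _ ≤ (L * ε) * (κ * L) := mul_le_mul_of_nonneg_right h3 (by positivity)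
    _ = _ := by ring

end Pool.Agent.L5helper12.PV
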