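import Pool.Agent.L5helper12.PV.JBC

/-! The pair sum over a dyadic block for every test function. -/

set_option autoImplicit false

open Filter Topology Set MeasureTheory H370

namespace Pool.Agent.L5helper12.PV

open Pool.Agent.L5helper10.TV hiding GG
open Pool.Agent.L5helper12.TW
open Pool.Agent.Results.MP_103a5c_nt.BohrSetPairs
open Pool.Agent.Y744 (mz mz_nonneg Zb mem_Zb QS Xf Xf_pos Q2)

/-- the limit of the density -/
def DL : Prop := ∀ (k : ℝ → ℝ) (ℓ : ℕ) (C B : ℝ), KW k ℓ C B →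
  Tendsto (fun T => ∫ y in (1 : ℝ)..2, NU k ℓ T y) atTop (𝓝 (k 0 + 2 * Jm k ℓ))

/-- the value of the main term -/
noncomputable def mg (R : ℝ → ℝ) (M : ℕ) : ℝ := R 0 + 2 * ∫ α in (0 : ℝ)..M, R α * min α 1

lemma max_lip (a b : ℝ) : |max a 0 - max b 0| ≤ |a - b| := abs_max_sub_max_le_abs a b 0

lemma KW_pos {R : ℝ → ℝ} {κ : ℝ} {f : ℝ → ℝ} (h : T4 R κ f) (M : ℕ) (hM : κ ≤ M) :
    ∃ C B : ℝ, KW (fun α => max (R α) 0) M C B ∧ KW (fun α => max (-R α) 0) M C B := by
  obtain ⟨K, hK⟩ := h.lip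
  obtain ⟨B, hB0, hB⟩ := h.bound
  refine ⟨K, B, ?_, ?_⟩
  · refine ⟨fun α => le_max_right _ _, fun x y => (max_lip _ _).trans (hK x y), fun α hα => ?_, fun α => ?_⟩
    · rw [h.supp α ((hM.trans hα).trans (le_abs_self α)), max_self]
    · exact max_le ((le_abs_self _).trans (hB α)) hB0.le
  · refine ⟨fun α => le_max_right _ _, fun x y => (max_lip _ _).trans ?_, fun α hα => ?_, fun α => ?_⟩
    · rw [neg_sub_neg, abs_sub_comm]
      exact hK x y
    · rw [h.supp α ((hM.trans hα).trans (le_abs_self α)), neg_zero, max_self]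
    · exact max_le ((neg_le_abs _).trans (hB α)) hB0.le

theorem JB_limR (hDL : DL) {R : ℝ → ℝ} {κ : ℝ} {f : ℝ → ℝ} (h : T4 R κ f) (M : ℕ) (hM : κ ≤ M) :
    Tendsto (fun T => 4 * Real.sqrt Real.pi / (Real.log T * T) *
      ∫ α in (0 : ℝ)..M, R α * Y750.OM.JB (Zb T (2 * T)) mz (α * Real.log T)) atTop (𝓝 (mg R M)) := by
  obtain ⟨C, B, h1, h2⟩ := KW_pos h M hM
  have t1 := JB_lim h1 _ (hDL _ M C B h1)
  have t2 := JB_lim h2 _ (hDL _ M C B h2)
  have t3 := t1.sub t2
  have hRc := h.cont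
  have hsp : ∀ x : ℝ, max x 0 - max (-x) 0 = x := by
    intro x
    rcases le_total 0 x with hx | hx
    · rw [max_eq_left hx, max_eq_right (by linarith)]; ring
    · rw [max_eq_right hx, max_eq_left (by linarith)]; ring
  have e1 : (max (R 0) 0 + 2 * Jm (fun α => max (R α) 0) M) - (max (-R 0) 0 + 2 * Jm (fun α => max (-R α) 0) M) =
      mg R M := by
    unfold mg Jm
    have e2 : ∫ α in (0 : ℝ)..M, R α * min α 1 = (∫ α in (0 : ℝ)..M, max (R α) 0 * min α 1) -
        ∫ α in (0 : ℝ)..M, max (-R α) 0 * min α 1 := by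
      rw [← intervalIntegral.integral_sub ((by fun_prop : Continuous fun α => max (R α) 0 * min α 1).intervalIntegrable _ _)
        ((by fun_prop : Continuous fun α => max (-R α) 0 * min α 1).intervalIntegrable _ _)]
      apply intervalIntegral.integral_congr
      intro α _
      simp only
      rw [← sub_mul, hsp]
    rw [e2]
    have := hsp (R 0)
    linarith
  rw [e1] at t3
  refine t3.congr fun T => ?_
  have hJc := Y750.OM.JB_cont (Zb T (2 * T)) mz
  rw [← mul_sub, ← intervalIntegral.integral_sub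
    ((by fun_prop : Continuous fun α => max (R α) 0 * Y750.OM.JB (Zb T (2 * T)) mz (α * Real.log T)).intervalIntegrable _ _)
    ((by fun_prop : Continuous fun α => max (-R α) 0 * Y750.OM.JB (Zb T (2 * T)) mz (α * Real.log T)).intervalIntegrable _ _)]
  congr 1
  apply intervalIntegral.integral_congr
  intro α _
  simp only
  rw [← sub_mul, hsp]

lemma JB_even (S : Finset ℂ) (m : ℂ → ℝ) (u : ℝ) : Y750.OM.JB S m (-u) = Y750.OM.JB S m u := by
  rw [Y750.OM.JB_eq, Y750.OM.JB_eq]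
  congr 1
  refine Finset.sum_congr rfl fun s _ => Finset.sum_congr rfl fun s' _ => ?_
  rw [neg_mul, Real.cos_neg]

lemma JB_sym {R : ℝ → ℝ} {κ : ℝ} {f : ℝ → ℝ} (h : T4 R κ f) (M : ℕ) (hM : κ ≤ M) (S : Finset ℂ) (L : ℝ) :
    ∫ α in (-κ)..κ, R α * Y750.OM.JB S mz (α * L) = 2 * ∫ α in (0 : ℝ)..M, R α * Y750.OM.JB S mz (α * L) := by
  have hRc := h.cont
  have hJc := Y750.OM.JB_cont S mz
  have hc : Continuous fun α => R α * Y750.OM.JB S mz (α * L) := by fun_prop
  rw [← intervalIntegral.integral_add_adjacent_intervals (hc.intervalIntegrable (-κ) 0) (hc.intervalIntegrable 0 κ)]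
  have e1 : ∫ α in (-κ)..0, R α * Y750.OM.JB S mz (α * L) = ∫ α in (0 : ℝ)..κ, R α * Y750.OM.JB S mz (α * L) := by
    have := intervalIntegral.integral_comp_neg (a := 0) (b := κ) (fun α => R α * Y750.OM.JB S mz (α * L))
    rw [neg_zero] at this
    rw [← this]
    apply intervalIntegral.integral_congr
    intro α _
    simp only
    rw [h.evenR, neg_mul, JB_even]
  have e2 : ∫ α in κ..M, R α * Y750.OM.JB S mz (α * L) = 0 := by
    have : ∫ α in κ..M, R α * Y750.OM.JB S mz (α * L) = ∫ _α in κ..M, (0 : ℝ) := by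
      apply intervalIntegral.integral_congr
      intro α hα
      rw [uIcc_of_le hM] at hα
      simp only
      rw [h.supp α (hα.1.trans (le_abs_self α)), zero_mul]
    rw [this, intervalIntegral.integral_zero]
  rw [e1, ← intervalIntegral.integral_add_adjacent_intervals (a := 0) (b := κ) (c := M) (hc.intervalIntegrable 0 κ)
    (hc.intervalIntegrable κ M), e2]
  ring

theorem QS_lim (hDL : DL) {R : ℝ → ℝ} {κ : ℝ} {f : ℝ → ℝ} (h : T4 R κ f) (M : ℕ) (hM : κ ≤ M) :
    Tendsto (fun V => QS (Zb V (2 * V)) (Zb V (2 * V)) mz (fun s => s.im) f (Real.log V) / Xf V) atTop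
      (𝓝 (mg R M)) := by
  have hpi := Real.pi_pos
  obtain ⟨D, hD, hf⟩ := h.decay
  obtain ⟨C, B0, V0, hC, hB0, hV0, hblk, -⟩ := PP_bd
  have t1 := JB_limR hDL h M hM
  have hdiff : Tendsto (fun V => (4 * Real.sqrt Real.pi / (Real.log V * V) *
      ∫ α in (0 : ℝ)..M, R α * Y750.OM.JB (Zb V (2 * V)) mz (α * Real.log V)) -
      QS (Zb V (2 * V)) (Zb V (2 * V)) mz (fun s => s.im) f (Real.log V) / Xf V) atTop (𝓝 0) := by
    have hz : Tendsto (fun V : ℝ => Real.pi ^ 2 * D * 3200 * C * (2 * Real.pi) * ((Real.log V)⁻¹ ^ 2)) atTop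
        (𝓝 (Real.pi ^ 2 * D * 3200 * C * (2 * Real.pi) * (0 ^ 2))) := by
      apply Tendsto.const_mul
      exact (tendsto_inv_atTop_zero.comp Real.tendsto_log_atTop).pow 2
    norm_num at hz
    apply squeeze_zero_norm' _ hz
    filter_upwards [eventually_ge_atTop V0] with V hV
    have hV20 : 20 ≤ V := hV0.trans hV
    have hV0' : 0 < V := by linarith
    have hL : 0 < Real.log V := Real.log_pos (by linarith)
    have hX := Xf_pos (V := V) (by linarith)
    have g1 := gauss_rem hD hf (Zb V (2 * V)) hL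
    rw [← JB_int h (Zb V (2 * V)) (Real.log V), JB_sym h M hM] at g1
    have g2 : 4 * Real.sqrt Real.pi / (Real.log V * V) *
      (∫ α in (0 : ℝ)..M, R α * Y750.OM.JB (Zb V (2 * V)) mz (α * Real.log V)) =
      (1 / Real.sqrt Real.pi * (2 * ∫ α in (0 : ℝ)..M, R α * Y750.OM.JB (Zb V (2 * V)) mz (α * Real.log V))) / Xf V := by
      unfold Xf
      have hsq : Real.sqrt Real.pi ≠ 0 := (Real.sqrt_pos.2 hpi).ne'
      have hsq2 : Real.sqrt Real.pi ^ 2 = Real.pi := Real.sq_sqrt hpi.le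
      generalize (∫ α in (0 : ℝ)..M, R α * Y750.OM.JB (Zb V (2 * V)) mz (α * Real.log V)) = I
      generalize Real.sqrt Real.pi = s at *
      rw [← hsq2]
      field_simp
      ring
    rw [g2, ← sub_div, norm_div, Real.norm_of_nonneg hX.le, div_le_iff₀ hX]
    refine g1.trans ?_
    have g3 := hblk V hV
    calc Real.pi ^ 2 * D / Real.log V ^ 2 * (3200 * TH803TW.PP1 (Zb V (2 * V)) mz (fun s => s.im) (Real.log V)) ≤
        Real.pi ^ 2 * D / Real.log V ^ 2 * (3200 * (C * (V * Real.log V))) := by gcongr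
      _ = Real.pi ^ 2 * D * 3200 * C * (2 * Real.pi) * (Real.log V ^ 2)⁻¹ * Xf V := by
        unfold Xf
        field_simp
  have := t1.sub hdiff
  simp only [sub_sub_cancel, sub_zero] at this
  exact this

theorem Q2_lim (hDL : DL) {R : ℝ → ℝ} {κ : ℝ} {f : ℝ → ℝ} (h : T4 R κ f) (M : ℕ) (hM : κ ≤ M) :
    Tendsto (fun T => Q2 f T (Real.log T) / Xf T) atTop (𝓝 (mg R M)) := by
  apply mont_limc le_rfl h
  intro J
  apply (QS_lim hDL h M hM).mono_left
  exact tendsto_id.atTop_div_const (by positivity)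

end Pool.Agent.L5helper12.PV
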