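import Pool.Agent.L5helper12.PV.Wt
import Pool.Agent.L5helper12.PV.Up

/-! Upper bound for the energies from the upper half of the variance asymptotics. -/

set_option autoImplicit false

open Filter Topology Set MeasureTheory H370

namespace Pool.Agent.L5helper12.PV

open Pool.Agent.L5helper10.TV

/-- the test weights -/
structure KW (k : ℝ → ℝ) (ℓ : ℕ) (C B : ℝ) : Prop where
  nn : ∀ α, 0 ≤ k α
  lip : ∀ x y, |k x - k y| ≤ C * |x - y|
  supp : ∀ α, (ℓ : ℝ) ≤ α → k α = 0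
  bd : ∀ α, k α ≤ B

lemma KW.C0 {k : ℝ → ℝ} {ℓ : ℕ} {C B : ℝ} (h : KW k ℓ C B) : 0 ≤ C := by
  have := (abs_nonneg _).trans (h.lip 1 0)
  simpa using this

lemma KW.B0 {k : ℝ → ℝ} {ℓ : ℕ} {C B : ℝ} (h : KW k ℓ C B) : 0 ≤ B := (h.nn 0).trans (h.bd 0)

lemma KW.cont {k : ℝ → ℝ} {ℓ : ℕ} {C B : ℝ} (h : KW k ℓ C B) : Continuous k := by
  have : LipschitzWith ⟨C, h.C0⟩ k := LipschitzWith.of_dist_le_mul fun x y => by
    rw [Real.dist_eq, Real.dist_eq]; exact h.lip x y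
  exact this.continuous

/-- the mass of the limit law -/
noncomputable def Jm (k : ℝ → ℝ) (ℓ : ℕ) : ℝ := ∫ α in (0 : ℝ)..ℓ, k α * min α 1

lemma Jm_nonneg {k : ℝ → ℝ} {ℓ : ℕ} {C B : ℝ} (h : KW k ℓ C B) : 0 ≤ Jm k ℓ :=
  intervalIntegral.integral_nonneg (Nat.cast_nonneg ℓ) fun α hα =>
    mul_nonneg (h.nn α) (le_min hα.1 zero_le_one)

/-- the majorant -/
noncomputable def Kt (k : ℝ → ℝ) (ℓ : ℕ) (c : ℝ) (β : ℝ) : ℝ := k β + c * min 1 (max 0 ((ℓ + 2 : ℕ) - β))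

lemma Kt_cont {k : ℝ → ℝ} {ℓ : ℕ} {C B : ℝ} (h : KW k ℓ C B) (c : ℝ) : Continuous (Kt k ℓ c) := by
  unfold Kt
  have := h.cont
  fun_prop

lemma Kt_int {k : ℝ → ℝ} {ℓ : ℕ} {C B : ℝ} (h : KW k ℓ C B) (c : ℝ) (hc : 0 ≤ c) :
    ∫ α in (0 : ℝ)..((ℓ + 2 : ℕ) : ℝ), Kt k ℓ c α * min α 1 ≤ Jm k ℓ + c * (ℓ + 2) := by
  have hk := h.cont
  have hi1 : ∀ a b : ℝ, IntervalIntegrable (fun α => k α * min α 1) volume a b := fun a b =>
    (by fun_prop : Continuous fun α => k α * min α 1).intervalIntegrable a b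
  have hi2 : ∀ a b : ℝ, IntervalIntegrable (fun _ : ℝ => c) volume a b := fun a b => by simp
  have hi3 : ∀ a b : ℝ, IntervalIntegrable (fun α => Kt k ℓ c α * min α 1) volume a b := fun a b => by
    have := Kt_cont h c
    exact (by fun_prop : Continuous fun α => Kt k ℓ c α * min α 1).intervalIntegrable a b
  have e1 : ∫ α in (0 : ℝ)..((ℓ + 2 : ℕ) : ℝ), Kt k ℓ c α * min α 1 ≤
      ∫ α in (0 : ℝ)..((ℓ + 2 : ℕ) : ℝ), (k α * min α 1 + c) := by
    apply intervalIntegral.integral_mono_on (by positivity) (hi3 _ _) ((hi1 _ _).add (hi2 _ _))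
    intro α hα
    show Kt k ℓ c α * min α 1 ≤ k α * min α 1 + c
    unfold Kt
    have h1 : 0 ≤ min α 1 := le_min hα.1 zero_le_one
    have h2 : min α 1 ≤ 1 := min_le_right _ _
    have h3 : 0 ≤ min 1 (max 0 (((ℓ + 2 : ℕ) : ℝ) - α)) := le_min zero_le_one (le_max_left _ _)
    have h4 : min 1 (max 0 (((ℓ + 2 : ℕ) : ℝ) - α)) ≤ 1 := min_le_left _ _
    have h5 : c * min 1 (max 0 (((ℓ + 2 : ℕ) : ℝ) - α)) * min α 1 ≤ c * 1 * 1 := by gcongr
    linarith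
  refine e1.trans ?_
  rw [intervalIntegral.integral_add (hi1 _ _) (hi2 _ _),
    intervalIntegral.integral_const, smul_eq_mul, ← intervalIntegral.integral_add_adjacent_intervals
      (b := (ℓ : ℝ)) (hi1 _ _) (hi1 _ _)]
  have e2 : ∫ α in (ℓ : ℝ)..((ℓ + 2 : ℕ) : ℝ), k α * min α 1 = 0 := by
    apply intervalIntegral.integral_zero_ae
    refine Eventually.of_forall fun α hα => ?_
    rw [uIoc_of_le (by push_cast; linarith)] at hα
    rw [h.supp α hα.1.le, zero_mul]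
  rw [e2]
  unfold Jm
  push_cast
  linarith

lemma TT_nonneg (a δ : ℝ) (N : ℕ) (ha : 0 < a) (hδ : 0 < δ) : 0 ≤ TT a δ N := by
  unfold TT
  exact Finset.sum_nonneg fun j _ => by
    have := Wj_pos (a := a) hδ j
    have := xj_pos ha hδ (j + 1)
    positivity

theorem Qup (hU : UpperV) {k : ℝ → ℝ} {ℓ : ℕ} {C B : ℝ} (h : KW k ℓ C B) (a δ : ℝ) (N : ℕ) (ha : 0 < a) (hδ : 0 < δ)
    (hδa : δ ≤ a / 2) (ε : ℝ) (hε : 0 < ε) : ∀ᶠ κ in 𝓝[>] (0 : ℝ),
    4 * Real.sqrt Real.pi * (∫ u in Ioc 0 (ℓ * La κ), k (u / La κ) * EE κ a δ N u) ≤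
      (TT a δ N * k 0 + Real.pi * (2 * Jm k ℓ) + ε) * (κ * La κ ^ 2) := by
  have hpi := Real.pi_gt_three
  have hpi4 := Real.pi_le_four
  have hC := h.C0
  have hB := h.B0
  have hJ := Jm_nonneg h
  set τ := TT a δ N with hτ
  have hτ0 : 0 ≤ τ := TT_nonneg a δ N ha hδ
  set ε1 : ℝ := min (1 / 2) (ε / (8 * (τ * B + 32 * Jm k ℓ + 1))) with hε1
  have hε1p : 0 < ε1 := by rw [hε1]; positivity
  have hε1h : ε1 ≤ 1 / 2 := min_le_left _ _
  have hε1e : ε1 * (τ * B + 32 * Jm k ℓ) ≤ ε / 8 := by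
    have : ε1 ≤ ε / (8 * (τ * B + 32 * Jm k ℓ + 1)) := min_le_right _ _
    rw [le_div_iff₀ (by positivity)] at this
    nlinarith
  set η : ℝ := min 1 (ε / (8 * (24 * (C + 1) * (ℓ + 2) + 1))) with hη
  have hη0 : 0 < η := by rw [hη]; positivity
  have hη1 : η ≤ 1 := min_le_left _ _
  have hηe : 24 * ((C + 1) * η * (ℓ + 2)) + η / 2 ≤ ε / 8 := by
    have : η ≤ ε / (8 * (24 * (C + 1) * (ℓ + 2) + 1)) := min_le_right _ _
    rw [le_div_iff₀ (by positivity)] at this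
    nlinarith
  set ℓ' : ℝ := ℓ + 2 + B + C with hℓ'
  have hℓ'1 : 1 ≤ ℓ' := by
    have : (0 : ℝ) ≤ ℓ := Nat.cast_nonneg ℓ
    rw [hℓ']; linarith
  obtain ⟨CE, hCE, hEE⟩ := EE_bd ℓ' a δ ε1 N hℓ'1 ha hδ hδa hε1p (by linarith)
  set θ : ℝ := min (1 / 2) (min (η / (16 * 108000 * ℓ' * CE)) (ε / (8 * (2 * τ * C + 1)))) with hθ
  have hθ0 : 0 < θ := by rw [hθ]; positivity
  have hθh : θ ≤ 1 / 2 := min_le_left _ _
  have hθη : 108000 * ℓ' * CE * θ ≤ η / 16 := by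
    have : θ ≤ η / (16 * 108000 * ℓ' * CE) := (min_le_right _ _).trans (min_le_left _ _)
    rw [le_div_iff₀ (by positivity)] at this
    linarith
  have hθe : 2 * τ * C * θ ≤ ε / 8 := by
    have : θ ≤ ε / (8 * (2 * τ * C + 1)) := (min_le_right _ _).trans (min_le_right _ _)
    rw [le_div_iff₀ (by positivity)] at this
    nlinarith
  have hup := star_upg_ev ℓ' η ε1 θ CE a δ N hℓ'1 hη0 hε1p hε1h hδ ha hCE hθ0 hθh hθη hEE
  set c : ℝ := (C + 1) * η with hc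
  have hc0 : 0 ≤ c := by positivity
  have hw := wt_upper hU (Kt k ℓ c) (Kt_cont h c) (fun α => add_nonneg (h.nn α) (mul_nonneg hc0 (le_min zero_le_one
    (le_max_left _ _)))) (ℓ + 2) (by omega) (fun α hα => by
      unfold Kt
      rw [h.supp α (by push_cast at hα; linarith), max_eq_left (by linarith), min_eq_right zero_le_one]; ring) (B + c)
      (fun α => by
        unfold Kt
        have h3 : min 1 (max 0 (((ℓ + 2 : ℕ) : ℝ) - α)) ≤ 1 := min_le_left _ _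
        have := mul_le_mul_of_nonneg_left h3 hc0
        linarith [h.bd α]) (ε / 192) (by positivity)
  filter_upwards [hup, hw, La_ge 1, La_ge (1 / η), self_mem_nhdsWithin] with κ h1 h2 hL1 hL2 h3
  have hκ : 0 < κ := h3
  obtain ⟨hGi, h2⟩ := h2
  generalize La κ = Λ at *
  have hΛ0 : 0 < Λ := by linarith
  have hηΛ : 1 ≤ η * Λ := by
    rw [div_le_iff₀ hη0] at hL2
    linarith
  have hkc := h.cont
  have hk0B := h.bd 0
  have hk0 := h.nn 0
  have h4 := h1 (fun u => Λ * k (u / Λ)) ((by fun_prop : Continuous (fun u => Λ * k (u / Λ))).measurable)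
    (fun u => mul_nonneg hΛ0.le (h.nn _)) (Λ * (k 0 + C * θ)) (by positivity)
    (by
      have hℓ0 : (0 : ℝ) ≤ ℓ := Nat.cast_nonneg ℓ
      have : k 0 + C * θ ≤ ℓ' := by rw [hℓ']; nlinarith
      nlinarith)
    (fun u => by
      have hℓ0 : (0 : ℝ) ≤ ℓ := Nat.cast_nonneg ℓ
      have : k (u / Λ) ≤ ℓ' := by rw [hℓ']; linarith [h.bd (u / Λ)]
      nlinarith)
    (fun u hu => by
      apply mul_le_mul_of_nonneg_left _ hΛ0.le
      have h5 := (abs_le.1 (h.lip (u / Λ) 0)).2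
      rw [sub_zero, abs_of_nonneg (by have := hu.1; positivity)] at h5
      have h6 : u / Λ ≤ θ := by rw [div_le_iff₀ hΛ0]; exact hu.2
      have := mul_le_mul_of_nonneg_left h6 hC
      linarith)
    (fun v => Λ * Kt k ℓ c (v / Λ))
    ((by have := Kt_cont h c; fun_prop : Continuous (fun v => Λ * Kt k ℓ c (v / Λ))).measurable)
    (fun v => mul_nonneg hΛ0.le (add_nonneg (h.nn _) (mul_nonneg hc0 (le_min zero_le_one (le_max_left _ _)))))
    (fun u v hu huv hg => by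
      have hku : k (u / Λ) ≠ 0 := fun h0 => hg (by rw [h0, mul_zero])
      have huℓ : u / Λ < ℓ := by
        by_contra hcon
        exact hku (h.supp _ (not_lt.1 hcon))
      have hd : |u / Λ - v / Λ| ≤ η := by
        rw [← sub_div, abs_div, abs_of_pos hΛ0, div_le_iff₀ hΛ0]
        exact huv
      have h5 := (abs_le.1 (h.lip (u / Λ) (v / Λ))).2
      have h6 := mul_le_mul_of_nonneg_left hd hC
      have h7 := (abs_le.1 hd).1
      have h8 : Kt k ℓ c (v / Λ) = k (v / Λ) + c := by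
        unfold Kt
        rw [min_eq_left, mul_one]
        refine le_trans ?_ (le_max_right _ _)
        push_cast
        linarith
      rw [h8, hc]
      nlinarith)
    hGi
  have hint : ∫ u in Ioc 0 (ℓ' * Λ), Λ * k (u / Λ) * EE κ a δ N u =
      Λ * ∫ u in Ioc 0 (ℓ * Λ), k (u / Λ) * EE κ a δ N u := by
    rw [← integral_const_mul]
    have : ∫ u in Ioc 0 (ℓ' * Λ), Λ * k (u / Λ) * EE κ a δ N u =
        ∫ u in Ioc 0 (ℓ * Λ), Λ * k (u / Λ) * EE κ a δ N u := by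
      apply setIntegral_eq_of_subset_of_forall_sdiff_eq_zero measurableSet_Ioc
      · apply Ioc_subset_Ioc_right
        apply mul_le_mul_of_nonneg_right _ hΛ0.le
        rw [hℓ']; linarith
      · intro u hu
        have : ℓ * Λ < u := by
          by_contra hc
          exact hu.2 ⟨hu.1.1, not_lt.1 hc⟩
        rw [h.supp _ (by rw [le_div_iff₀ hΛ0]; exact this.le), mul_zero, zero_mul]
    rw [this]
    congr 1
    funext u
    ring
  rw [hint] at h4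
  have hKt := Kt_int h c hc0
  have h5 : 2 * ∫ v, fk κ v ^ 2 * (Λ * Kt k ℓ c (v / Λ)) ≤
      2 * ((Jm k ℓ + c * (ℓ + 2) + ε / 192) * (κ * Λ ^ 3)) := by
    have hκΛ : 0 ≤ κ * Λ ^ 3 := by positivity
    have := mul_le_mul_of_nonneg_right (add_le_add_left hKt (ε / 192)) hκΛ
    linarith
  have h6 : Real.pi * ((1 + ε1) ^ 2 + ε1) * (2 * ∫ v, fk κ v ^ 2 * (Λ * Kt k ℓ c (v / Λ))) ≤
      (Real.pi * (2 * Jm k ℓ) + 32 * ε1 * Jm k ℓ + 24 * (c * (ℓ + 2) + ε / 192)) * (κ * Λ ^ 3) := by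
    have hx : 0 ≤ c * (ℓ + 2) + ε / 192 := by positivity
    have hκΛ : 0 ≤ κ * Λ ^ 3 := by positivity
    have g1 : (1 + ε1) ^ 2 + ε1 ≤ 1 + 4 * ε1 := by nlinarith
    calc _ ≤ Real.pi * ((1 + ε1) ^ 2 + ε1) * (2 * ((Jm k ℓ + c * (ℓ + 2) + ε / 192) * (κ * Λ ^ 3))) :=
          mul_le_mul_of_nonneg_left h5 (by positivity)
      _ ≤ Real.pi * (1 + 4 * ε1) * (2 * ((Jm k ℓ + c * (ℓ + 2) + ε / 192) * (κ * Λ ^ 3))) := by gcongr
      _ = (Real.pi * (2 * Jm k ℓ) + Real.pi * (8 * ε1 * Jm k ℓ) +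
            Real.pi * (2 * (1 + 4 * ε1)) * (c * (ℓ + 2) + ε / 192)) * (κ * Λ ^ 3) := by ring
      _ ≤ (Real.pi * (2 * Jm k ℓ) + 4 * (8 * ε1 * Jm k ℓ) +
            4 * (2 * 3) * (c * (ℓ + 2) + ε / 192)) * (κ * Λ ^ 3) := by
          have g2 : 1 + 4 * ε1 ≤ 3 := by linarith
          gcongr
      _ = _ := by ring
  have h7 : (1 + ε1) * τ * (κ * Λ ^ 2 * (Λ * (k 0 + C * θ))) ≤
      (τ * k 0 + ε1 * (τ * B) + 2 * τ * C * θ) * (κ * Λ ^ 3) := by
    have hκΛ : 0 ≤ κ * Λ ^ 3 := by positivity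
    have g1 : (1 + ε1) * τ * (k 0 + C * θ) ≤ τ * k 0 + ε1 * (τ * B) + 2 * τ * C * θ := by
      have g2 : ε1 * (τ * k 0) ≤ ε1 * (τ * B) := by gcongr
      have g3 : (1 + ε1) * (τ * C * θ) ≤ 2 * (τ * C * θ) := by
        apply mul_le_mul_of_nonneg_right (by linarith) (by positivity)
      linarith
    calc _ = (1 + ε1) * τ * (k 0 + C * θ) * (κ * Λ ^ 3) := by ring
      _ ≤ _ := mul_le_mul_of_nonneg_right g1 hκΛ
  have h8 : 4 * Real.sqrt Real.pi * (Λ * ∫ u in Ioc 0 (ℓ * Λ), k (u / Λ) * EE κ a δ N u) ≤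
      (τ * k 0 + Real.pi * (2 * Jm k ℓ) + ε) * (κ * Λ ^ 3) := by
    refine h4.trans ?_
    have hκΛ : 0 ≤ κ * Λ ^ 3 := by positivity
    have g4 : (τ * k 0 + ε1 * (τ * B) + 2 * τ * C * θ) +
        (Real.pi * (2 * Jm k ℓ) + 32 * ε1 * Jm k ℓ + 24 * (c * (ℓ + 2) + ε / 192)) + η / 2 ≤
        τ * k 0 + Real.pi * (2 * Jm k ℓ) + ε := by
      rw [hc]
      linarith
    have := mul_le_mul_of_nonneg_right g4 hκΛ
    linarith
  have h9 : Λ * (4 * Real.sqrt Real.pi * ∫ u in Ioc 0 (ℓ * Λ), k (u / Λ) * EE κ a δ N u) ≤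
      Λ * ((τ * k 0 + Real.pi * (2 * Jm k ℓ) + ε) * (κ * Λ ^ 2)) := by
    calc _ = 4 * Real.sqrt Real.pi * (Λ * ∫ u in Ioc 0 (ℓ * Λ), k (u / Λ) * EE κ a δ N u) := by ring
      _ ≤ _ := h8
      _ = _ := by ring
  exact le_of_mul_le_mul_left h9 hΛ0

end Pool.Agent.L5helper12.PV
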