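import Pool.Agent.L5helper10.TV.Eb2
import Pool.Agent.Y744.PCR.NTb
import Pool.Agent.Y750.OM.GSum

/-! The zero sum on the Riemann hypothesis. -/

set_option autoImplicit false

open Filter Topology Set MeasureTheory H370 Complex

namespace Pool.Agent.L5helper12.PV

open Pool.Agent.L5helper10.TV hiding GG
open Pool.Agent.Y744 (mz mz_nonneg)

/-- the zeros with ordinate in `(4, T ^ 2]` -/
noncomputable def Zw (T : ℝ) : Finset ℂ := Zf riemannZeta 4 (T ^ 2)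

/-- the zero sum over a finite set -/
noncomputable def SP (P : Finset ℂ) (u t : ℝ) : ℂ :=
  Y750.OM.GG P (fun s => (mz s : ℂ)) (fun s => (s.im : ℂ)) u t

/-- the local mass -/
noncomputable def Lg (P : Finset ℂ) (t : ℝ) : ℝ := ∑ s ∈ P, mz s * Real.exp (-(s.im - t) ^ 2 / 4)

lemma mem_Zw {T : ℝ} {s : ℂ} : s ∈ Zw T ↔ s ∈ zset riemannZeta 4 (T ^ 2) := mem_Zf good_zeta (by norm_num)

lemma local_sum4 : ∃ C : ℝ, 0 < C ∧ ∀ T : ℝ, 4 ≤ T →
    ∀ t : ℝ, ∀ w : ℤ → ℝ, (∀ k, 0 ≤ w k) → ∀ g : ℂ → ℝ,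
      (∀ s ∈ Zw T, g s ≤ w ⌊s.im - t⌋) →
      ∑ s ∈ Zw T, mz s * g s ≤ C * Real.log T * ∑ k ∈ (Zw T).image (fun s => ⌊s.im - t⌋), w k := by
  classical
  obtain ⟨C, hC, hcount⟩ := zcount good_zeta
  refine ⟨3 * C, by positivity, fun T hT t w hw g hg => ?_⟩
  rw [← Finset.sum_fiberwise_of_maps_to (s := Zw T)
    (t := (Zw T).image (fun s => ⌊s.im - t⌋)) (g := fun s => ⌊s.im - t⌋)
    (fun s hs => Finset.mem_image_of_mem _ hs), Finset.mul_sum]
  refine Finset.sum_le_sum fun k hk => ?_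
  obtain ⟨s0, hs0, hk0⟩ := Finset.mem_image.mp hk
  have hs0' := mem_Zw.mp hs0
  set t' : ℝ := t + k + 1 / 2 with ht'
  have hkl : (k : ℝ) ≤ s0.im - t := by rw [← hk0]; exact Int.floor_le _
  have hku : s0.im - t < k + 1 := by rw [← hk0]; exact Int.lt_floor_add_one _
  have ht1 : 3.5 ≤ t' := by
    rw [ht']; have := hs0'.2.2.1; norm_num; linarith
  have ht2 : t' ≤ T ^ 2 + 1 := by
    rw [ht']; have := hs0'.2.2.2.1; linarith
  have h1 : ∑ s ∈ (Zw T).filter (fun s => ⌊s.im - t⌋ = k), mz s ≤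
      (NN riemannZeta (t' - 1) (t' + 1) : ℝ) := by
    have ht3 : 1 ≤ t' - 1 := by linarith
    rw [NN_eq good_zeta ht3, Nat.cast_sum]
    refine Finset.sum_le_sum_of_subset_of_nonneg ?_ fun _ _ _ => Nat.cast_nonneg _
    intro s hs
    rw [Finset.mem_filter] at hs
    rw [mem_Zf good_zeta ht3]
    have hs' := mem_Zw.mp hs.1
    have e1 : (k : ℝ) ≤ s.im - t := by rw [← hs.2]; exact Int.floor_le _
    have e2 : s.im - t < k + 1 := by rw [← hs.2]; exact Int.lt_floor_add_one _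
    exact ⟨hs'.1, hs'.2.1, by rw [ht']; linarith, by rw [ht']; linarith, hs'.2.2.2.2⟩
  have h2 : (NN riemannZeta (t' - 1) (t' + 1) : ℝ) ≤ 3 * C * Real.log T := by
    refine (hcount t' (by linarith)).trans ?_
    have h3 : Real.log t' ≤ 3 * Real.log T := by
      have : Real.log (T ^ 3) = 3 * Real.log T := by
        rw [Real.log_pow]; norm_num
      rw [← this]
      apply Real.log_le_log (by linarith)
      nlinarith [sq_nonneg T]
    nlinarith
  calc ∑ s ∈ (Zw T).filter (fun s => ⌊s.im - t⌋ = k), mz s * g s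
      ≤ ∑ s ∈ (Zw T).filter (fun s => ⌊s.im - t⌋ = k), mz s * w k := by
        refine Finset.sum_le_sum fun s hs => ?_
        rw [Finset.mem_filter] at hs
        have := hg s hs.1
        rw [hs.2] at this
        exact mul_le_mul_of_nonneg_left this (mz_nonneg s)
    _ = (∑ s ∈ (Zw T).filter (fun s => ⌊s.im - t⌋ = k), mz s) * w k := by
        rw [Finset.sum_mul]
    _ ≤ (3 * C * Real.log T) * w k := by
        have := hw k
        gcongr
        exact h1.trans h2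

lemma exp_floor4 (x : ℝ) : Real.exp (-x ^ 2 / 4) ≤ Real.exp 2 * Real.exp (-|((⌊x⌋ : ℤ) : ℝ)|) := by
  rw [← Real.exp_add]
  apply Real.exp_le_exp.mpr
  have h1 := Int.floor_le x
  have h2 := Int.lt_floor_add_one x
  have h3 : |((⌊x⌋ : ℤ) : ℝ)| ≤ |x| + 1 := by
    rw [abs_le]
    constructor
    · have := neg_abs_le x; linarith
    · have := le_abs_self x; linarith
  have h4 : |x| ≤ x ^ 2 / 4 + 1 := by
    have : x ^ 2 = |x| ^ 2 := (sq_abs x).symm
    rw [this]; nlinarith [sq_nonneg (|x| - 2)]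
  linarith

lemma Lg_le : ∃ C : ℝ, 0 < C ∧ ∀ T : ℝ, 4 ≤ T → ∀ t : ℝ, Lg (Zw T) t ≤ C * Real.log T := by
  obtain ⟨C, hC, h⟩ := local_sum4
  set S := ∑' k : ℤ, Real.exp (-|(k : ℝ)|) with hS
  have hS0 : 0 < S := summable_exp_abs.tsum_pos (fun k => (Real.exp_pos _).le) 0 (Real.exp_pos _)
  refine ⟨C * (Real.exp 2 * S), by positivity, fun T hT t => ?_⟩
  have h1 := h T hT t (fun k => Real.exp 2 * Real.exp (-|(k : ℝ)|))
    (fun k => by positivity) (fun s => Real.exp (-(s.im - t) ^ 2 / 4))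
    (fun s _ => exp_floor4 _)
  refine h1.trans ?_
  have hlog : 0 ≤ Real.log T := Real.log_nonneg (by linarith)
  rw [← Finset.mul_sum]
  have h2 : ∑ k ∈ (Zw T).image (fun s => ⌊s.im - t⌋), Real.exp (-|(k : ℝ)|) ≤ S :=
    summable_exp_abs.sum_le_tsum _ (fun k _ => (Real.exp_pos _).le)
  calc C * Real.log T * (Real.exp 2 * ∑ k ∈ (Zw T).image (fun s => ⌊s.im - t⌋), Real.exp (-|(k : ℝ)|)) ≤
      C * Real.log T * (Real.exp 2 * S) := by gcongr
    _ = _ := by ring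

lemma term_norm (s : ℂ) (u t : ℝ) : ‖(mz s : ℂ) * (cexp (I * u * (s.im : ℂ)) * cexp (-((s.im : ℂ) - t) ^ 2 / 2))‖ =
    mz s * Real.exp (-(s.im - t) ^ 2 / 2) := by
  rw [norm_mul, norm_mul, Complex.norm_real, Real.norm_of_nonneg (mz_nonneg s), Complex.norm_exp, Complex.norm_exp]
  have e1 : (I * u * (s.im : ℂ)).re = 0 := by simp
  have e2 : (-((s.im : ℂ) - t) ^ 2 / 2).re = -(s.im - t) ^ 2 / 2 := by
    rw [show (-((s.im : ℂ) - t) ^ 2 / 2) = ((-(s.im - t) ^ 2 / 2 : ℝ) : ℂ) by push_cast; ring, Complex.ofReal_re]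
  rw [e1, e2, Real.exp_zero, one_mul]

lemma exp_half_quarter (x : ℝ) : Real.exp (-x ^ 2 / 2) ≤ Real.exp (-x ^ 2 / 4) :=
  Real.exp_le_exp.2 (by nlinarith [sq_nonneg x])

lemma SP_le (P : Finset ℂ) (u t : ℝ) : ‖SP P u t‖ ≤ Lg P t := by
  unfold SP Y750.OM.GG Lg
  refine (norm_sum_le _ _).trans (Finset.sum_le_sum fun s _ => ?_)
  rw [term_norm]
  exact mul_le_mul_of_nonneg_left (exp_half_quarter _) (mz_nonneg s)

lemma SP_cont (P : Finset ℂ) : Continuous (fun p : ℝ × ℝ => SP P p.1 p.2) := by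
  unfold SP Y750.OM.GG
  fun_prop

lemma Lg_mono {P Q : Finset ℂ} (h : P ⊆ Q) (t : ℝ) : Lg P t ≤ Lg Q t :=
  Finset.sum_le_sum_of_subset_of_nonneg h fun s _ _ => mul_nonneg (mz_nonneg s) (Real.exp_pos _).le

lemma hh_rh (s : ℂ) (hs : s.re = 1 / 2) (u t : ℝ) :
    hh u t s = cexp (I * u * (s.im : ℂ)) * cexp (-((s.im : ℂ) - t) ^ 2 / 2) := by
  unfold hh
  have e : s - 1 / 2 = I * (s.im : ℂ) := by
    apply Complex.ext
    · simp [hs]
    · simp
  rw [e]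
  congr 1
  · congr 1; ring
  · congr 1
    have : (I * (s.im : ℂ) - I * t) ^ 2 = I ^ 2 * ((s.im : ℂ) - t) ^ 2 := by ring
    rw [this, Complex.I_sq]; ring

lemma wt_rh (κ : ℝ) (s : ℂ) (hs : s.re = 1 / 2) :
    wt κ s = ((2 * Real.cosh (κ / 2) - 2 * Real.cos (κ * s.im) : ℝ) : ℂ) := by
  unfold wt
  have e : s - 1 / 2 = I * (s.im : ℂ) := by
    apply Complex.ext
    · simp [hs]
    · simp
  rw [e]
  have e2 : cexp (κ * (I * (s.im : ℂ))) + cexp (-(κ * (I * (s.im : ℂ)))) = ((2 * Real.cos (κ * s.im) : ℝ) : ℂ) := by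
    push_cast
    rw [Complex.cos]
    rw [show (κ : ℂ) * (I * (s.im : ℂ)) = (κ : ℂ) * (s.im : ℂ) * I by ring,
      show -((κ : ℂ) * (s.im : ℂ) * I) = -((κ : ℂ) * (s.im : ℂ)) * I by ring]
    ring
  push_cast at e2 ⊢
  linear_combination -e2

lemma cosh_sq (κ : ℝ) (hκ0 : 0 ≤ κ) (hκ : κ ≤ 1) : 2 * Real.cosh (κ / 2) - 2 ≤ κ := by
  have h1 := Real.cosh_le_exp_half_sq (κ / 2)
  have h2 : Real.exp ((κ / 2) ^ 2 / 2) ≤ 1 + 2 * ((κ / 2) ^ 2 / 2) := by
    have h3 : |(κ / 2) ^ 2 / 2| ≤ 1 := by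
      rw [abs_of_nonneg (by positivity)]
      nlinarith
    have h4 := Real.abs_exp_sub_one_le h3
    rw [abs_of_nonneg (by positivity : (0 : ℝ) ≤ (κ / 2) ^ 2 / 2)] at h4
    have := (abs_le.1 h4).2
    linarith
  nlinarith

/-- comparison of the weights -/
lemma wt_diff (κ : ℝ) (hκ0 : 0 ≤ κ) (hκ : κ ≤ 1) (s : ℂ) (hs : s.re = 1 / 2) (t : ℝ) :
    ‖wt κ s - ((2 - 2 * Real.cos (κ * t) : ℝ) : ℂ)‖ ≤ 2 * κ * (1 + |s.im - t|) := by
  rw [wt_rh κ s hs, ← Complex.ofReal_sub, Complex.norm_real, Real.norm_eq_abs]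
  have h1 := cosh_sq κ hκ0 hκ
  have h1' := Real.one_le_cosh (κ / 2)
  have h2 : |Real.cos (κ * s.im) - Real.cos (κ * t)| ≤ κ * |s.im - t| := by
    have h3 := Real.cos_sub_cos (κ * s.im) (κ * t)
    have h4 := Real.abs_sin_le_one ((κ * s.im + κ * t) / 2)
    have h5 : |Real.sin ((κ * s.im - κ * t) / 2)| ≤ |(κ * s.im - κ * t) / 2| := Real.abs_sin_le_abs
    rw [h3, abs_mul, abs_mul, abs_neg, abs_of_pos (by norm_num : (0 : ℝ) < 2)]
    rw [abs_div, abs_of_pos (by norm_num : (0 : ℝ) < 2), ← mul_sub, abs_mul, abs_of_nonneg hκ0] at h5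
    have h6 := abs_nonneg (Real.sin ((κ * s.im - κ * t) / 2))
    rw [← mul_sub] at h6 ⊢
    nlinarith
  have e : (2 * Real.cosh (κ / 2) - 2 * Real.cos (κ * s.im)) - (2 - 2 * Real.cos (κ * t)) =
      (2 * Real.cosh (κ / 2) - 2) - 2 * (Real.cos (κ * s.im) - Real.cos (κ * t)) := by ring
  rw [e]
  refine (abs_sub _ _).trans ?_
  rw [abs_of_nonneg (by linarith), abs_mul, abs_of_pos (by norm_num : (0 : ℝ) < 2)]
  nlinarith [abs_nonneg (s.im - t)]

lemma one_add_exp (w : ℝ) : (1 + |w|) * Real.exp (-w ^ 2 / 2) ≤ 2 * Real.exp (-w ^ 2 / 4) := by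
  have h1 : Real.exp (-w ^ 2 / 2) = Real.exp (-w ^ 2 / 4) * Real.exp (-w ^ 2 / 4) := by
    rw [← Real.exp_add]; congr 1; ring
  rw [h1, ← mul_assoc]
  apply mul_le_mul_of_nonneg_right _ (Real.exp_pos _).le
  have h2 : (1 + |w|) ≤ 2 * Real.exp (w ^ 2 / 4) := by
    have h3 := Real.add_one_le_exp (w ^ 2 / 4)
    have h4 : |w| ≤ w ^ 2 / 2 + 1 / 2 := by
      have : w ^ 2 = |w| ^ 2 := (sq_abs w).symm
      rw [this]; nlinarith [sq_nonneg (|w| - 1)]
    linarith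
  calc (1 + |w|) * Real.exp (-w ^ 2 / 4) ≤ 2 * Real.exp (w ^ 2 / 4) * Real.exp (-w ^ 2 / 4) :=
        mul_le_mul_of_nonneg_right h2 (Real.exp_pos _).le
    _ = 2 := by
        rw [mul_assoc, ← Real.exp_add, show w ^ 2 / 4 + -w ^ 2 / 4 = 0 by ring, Real.exp_zero, mul_one]

/-- the block sum against the full sum -/
lemma FB_SP (RH : RiemannHypothesis) (κ x y T t u : ℝ) (hκ0 : 0 < κ) (hκ : κ ≤ 1) (h4 : 4 ≤ x / κ - La κ)
    (hT : y / κ + La κ ≤ T ^ 2) (hxt : x / κ ≤ t) (hty : t ≤ y / κ) (hL : 0 ≤ La κ)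
    (hexp : Real.exp (-La κ ^ 2 / 4) ≤ κ) :
    ‖FB κ x y u t - ((2 - 2 * Real.cos (κ * t) : ℝ) : ℂ) * SP (Zw T) u t‖ ≤ 8 * κ * Lg (Zw T) t := by
  classical
  have h1 : 1 ≤ x / κ - La κ := by linarith
  have hsub : PB κ x y ⊆ Zw T := by
    intro s hs
    unfold PB at hs
    rw [mem_Zf good_zeta h1] at hs
    rw [mem_Zw]
    exact ⟨hs.1, hs.2.1, by linarith [hs.2.2.1], by linarith [hs.2.2.2.1], hs.2.2.2.2⟩
  have hre : ∀ s ∈ Zw T, s.re = 1 / 2 := fun s hs =>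
    A2.rh_line RH (mem_Zw.1 hs)
  have e1 : FB κ x y u t = ∑ s ∈ Zw T, if s ∈ PB κ x y then
      wt κ s * ((mz s : ℂ) * (cexp (I * u * (s.im : ℂ)) * cexp (-((s.im : ℂ) - t) ^ 2 / 2))) else 0 := by
    rw [Finset.sum_ite_mem, Finset.inter_eq_right.2 hsub]
    unfold FB FF
    apply Finset.sum_congr rfl
    intro s hs
    rw [hh_rh s (hre s (hsub hs))]
    unfold cF mz
    push_cast
    ring
  have e2 : ((2 - 2 * Real.cos (κ * t) : ℝ) : ℂ) * SP (Zw T) u t = ∑ s ∈ Zw T, ((2 - 2 * Real.cos (κ * t) : ℝ) : ℂ) *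
      ((mz s : ℂ) * (cexp (I * u * (s.im : ℂ)) * cexp (-((s.im : ℂ) - t) ^ 2 / 2))) := by
    unfold SP Y750.OM.GG
    rw [Finset.mul_sum]
  rw [e1, e2, ← Finset.sum_sub_distrib]
  refine (norm_sum_le _ _).trans ?_
  unfold Lg
  rw [Finset.mul_sum]
  apply Finset.sum_le_sum
  intro s hs
  have hm := mz_nonneg s
  by_cases hP : s ∈ PB κ x y
  · rw [if_pos hP, ← sub_mul, norm_mul, term_norm]
    have h5 := wt_diff κ hκ0.le hκ s (hre s hs) t
    have h6 := one_add_exp (s.im - t)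
    calc ‖wt κ s - ((2 - 2 * Real.cos (κ * t) : ℝ) : ℂ)‖ * (mz s * Real.exp (-(s.im - t) ^ 2 / 2)) ≤
          2 * κ * (1 + |s.im - t|) * (mz s * Real.exp (-(s.im - t) ^ 2 / 2)) :=
          mul_le_mul_of_nonneg_right h5 (by positivity)
      _ = 2 * κ * mz s * ((1 + |s.im - t|) * Real.exp (-(s.im - t) ^ 2 / 2)) := by ring
      _ ≤ 2 * κ * mz s * (2 * Real.exp (-(s.im - t) ^ 2 / 4)) := mul_le_mul_of_nonneg_left h6 (by positivity)
      _ ≤ 8 * κ * (mz s * Real.exp (-(s.im - t) ^ 2 / 4)) := by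
          have : 0 ≤ κ * (mz s * Real.exp (-(s.im - t) ^ 2 / 4)) := by positivity
          linarith
  · rw [if_neg hP, zero_sub, norm_neg, norm_mul, term_norm, Complex.norm_real, Real.norm_eq_abs]
    have hq : |2 - 2 * Real.cos (κ * t)| ≤ 4 := by
      rw [abs_le]
      constructor <;> linarith [Real.neg_one_le_cos (κ * t), Real.cos_le_one (κ * t)]
    have hfar : La κ ≤ |s.im - t| := by
      by_contra hc
      push Not at hc
      rw [abs_lt] at hc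
      apply hP
      unfold PB
      rw [mem_Zf good_zeta h1]
      have hs' := mem_Zw.1 hs
      exact ⟨hs'.1, hs'.2.1, by linarith [hc.1], by linarith [hc.2], hs'.2.2.2.2⟩
    have h7 : Real.exp (-(s.im - t) ^ 2 / 2) ≤ κ * Real.exp (-(s.im - t) ^ 2 / 4) := by
      have h8 : Real.exp (-(s.im - t) ^ 2 / 2) = Real.exp (-(s.im - t) ^ 2 / 4) * Real.exp (-(s.im - t) ^ 2 / 4) := by
        rw [← Real.exp_add]; congr 1; ring
      rw [h8]
      apply mul_le_mul_of_nonneg_right _ (Real.exp_pos _).le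
      refine le_trans (Real.exp_le_exp.2 ?_) hexp
      have : La κ ^ 2 ≤ (s.im - t) ^ 2 := by
        rw [← sq_abs (s.im - t)]
        exact pow_le_pow_left₀ hL hfar 2
      linarith
    calc |2 - 2 * Real.cos (κ * t)| * (mz s * Real.exp (-(s.im - t) ^ 2 / 2)) ≤
          4 * (mz s * (κ * Real.exp (-(s.im - t) ^ 2 / 4))) := by gcongr
      _ ≤ 8 * κ * (mz s * Real.exp (-(s.im - t) ^ 2 / 4)) := by
          have : 0 ≤ κ * (mz s * Real.exp (-(s.im - t) ^ 2 / 4)) := by positivity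
          linarith

end Pool.Agent.L5helper12.PV
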