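import Pool.Agent.L5helper12.PV.A

/-! Statements for the version with the mean square over intervals of fixed length. -/

set_option autoImplicit false

open Filter Topology Set MeasureTheory H370

namespace Pool.Agent.L5helper12.PV

open Pool.Agent.L5helper10.TV hiding GG

/-- the upper half of Q1 of MP_2a816b -/
def UpperR : Prop := ∀ a b ε : ℝ, 1 ≤ a → a < b → 0 < ε → ∀ᶠ T in atTop, ∫ α in a..b, RT T α ≤ b - a + ε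

/-- the averaged bound on the side of the primes (helper66, `avg_prime`) -/
def AvgStmt : Prop := ∀ (K : ℝ → ℝ), Continuous K → (∀ α, 0 ≤ K α) → ∀ ℓ : ℕ, 1 ≤ ℓ → (∀ α, (ℓ : ℝ) ≤ α → K α = 0) →
  ∀ B : ℝ, (∀ α, K α ≤ B) → ∀ X Q ε : ℝ, 0 < X → X < Q → 0 < ε → ∀ᶠ T in atTop,
  ∫⁻ κ in Ioo (X / T) (Q / T), ENNReal.ofReal (κ⁻¹ ^ 3 * ∫ v, fk κ v ^ 2 * K (v / Real.log T)) ≤
    ENNReal.ofReal (T * Real.log T ^ 2 * ((1 / X) * ((∫ α in (0 : ℝ)..ℓ, K α * min α 1) + ε)))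

/-- the pointwise bound of the transform of the density by the primes (helper12, `Pup`) -/
def PupStmt : Prop := ∀ (k : ℝ → ℝ) (ℓ : ℕ) (C B : ℝ), KW k ℓ C B → ∀ (a δ : ℝ) (N : ℕ), 0 < a → 0 < δ → δ ≤ a / 2 →
  ∀ ε : ℝ, 0 < ε → ∃ c : ℝ, 0 ≤ c ∧ c ≤ ε ∧ ∀ x1 x2 : ℝ, 0 < x1 → x1 < x2 → ∀ᶠ T in atTop, ∀ x ∈ Icc x1 x2,
  (1 - 2 * δ / a) * (∫ y in (a / x)..(xj a δ N / x), (qf x y - 5 * δ) / y ^ 2 * NU k ℓ T y) ≤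
    x * (TT a δ N * k 0 + ε) + 2 * Real.pi * (1 + ε) * (T / Real.log T ^ 2 *
      ∫ v, fk (x / T) v ^ 2 * Kt k ℓ c (v / Real.log T))

/-- the averaged bound of the transform of the density -/
def TupStmt : Prop := ∀ (k : ℝ → ℝ) (ℓ : ℕ) (C B : ℝ), KW k ℓ C B → ∀ X Q : ℝ, 0 < X → X < Q → ∀ y0 y1 : ℝ,
  0 < y0 → y0 ≤ y1 → ∀ ε : ℝ, 0 < ε → ∀ᶠ T in atTop,
  ∫ x in X..Q, (x⁻¹) ^ 3 * ∫ y in y0..y1, (2 - 2 * Real.cos (x * y)) / y ^ 2 * NU k ℓ T y ≤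
    (1 / X) * (Real.pi * (k 0 + 2 * Jm k ℓ) + ε)

end Pool.Agent.L5helper12.PV
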