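import Pool.Agent.L5helper10.TV.Fin1

/-! The upper half of the mean square asymptotics implies the lower half on average. -/

set_option autoImplicit false

open Filter Topology Set MeasureTheory
open Pool.Agent.L5helper10.TV

namespace Pool.Agent.L5helper12.PV

lemma RT_ii (T : ℝ) (hT : 1 < T) (a b : ℝ) (ha : 1 ≤ a) (hab : a ≤ b) : IntervalIntegrable (RT T) volume a b := by
  rw [intervalIntegrable_iff_integrableOn_Ioc_of_le hab]
  refine Integrable.of_bound (RT_meas T hT a b (by linarith)) (81 * (T ^ b) ^ 2 / Real.log T) ?_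
  refine ae_restrict_of_forall_mem measurableSet_Ioc fun α hα => ?_
  rw [Real.norm_of_nonneg (RT_nonneg T α hT (by linarith [hα.1]))]
  exact RT_bd T α b hT (by linarith [hα.1]) hα.2

lemma RT_lin_ii (T : ℝ) (hT : 1 < T) (a b c : ℝ) (ha : 1 ≤ a) (hab : a ≤ b) :
    IntervalIntegrable (fun α => (c - α) * RT T α) volume a b := by
  apply (RT_ii T hT a b ha hab).continuousOn_mul
  fun_prop

/-- upper bound for the linear weight from the upper bounds for intervals -/
lemma lin_upper (F : Filter ℝ) (hF : F ≤ atTop) (ℓ : ℝ)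
    (hU : ∀ a b ε : ℝ, 1 ≤ a → a ≤ b → b ≤ ℓ → 0 < ε → ∀ᶠ T in F, ∫ α in a..b, RT T α ≤ b - a + ε)
    (a c : ℝ) (ha : 1 ≤ a) (hac : a ≤ c) (hc : c ≤ ℓ) (ε : ℝ) (hε : 0 < ε) :
    ∀ᶠ T in F, ∫ α in a..c, (c - α) * RT T α ≤ (c - a) ^ 2 / 2 + ε := by
  obtain ⟨N, hN⟩ := exists_nat_gt ((c - a) ^ 2 / ε + 1)
  have hN0 : (0 : ℝ) < N := by
    have : 0 ≤ (c - a) ^ 2 / ε := by positivity
    linarith
  set h : ℝ := (c - a) / N with hh
  have hh0 : 0 ≤ h := div_nonneg (by linarith) hN0.le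
  have hNh : N * h = c - a := by rw [hh]; field_simp
  set p : ℕ → ℝ := fun i => a + i * h with hp
  have hpi : ∀ i : ℕ, p (i + 1) = p i + h := by intro i; simp only [hp]; push_cast; ring
  have hple : ∀ i : ℕ, i ≤ N → p i ≤ c := by
    intro i hi
    have : (i : ℝ) * h ≤ N * h := mul_le_mul_of_nonneg_right (by exact_mod_cast hi) hh0
    simp only [hp]; linarith
  have hpa : ∀ i : ℕ, a ≤ p i := by
    intro i
    have : 0 ≤ (i : ℝ) * h := by positivity
    simp only [hp]; linarith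
  set ε' : ℝ := ε / (2 * (N + 1) * (c - a + 1)) with hε'
  have hca : 0 < c - a + 1 := by linarith
  have hε'0 : 0 < ε' := by rw [hε']; positivity
  have hall : ∀ᶠ T in F, ∀ i ∈ Finset.range N, ∫ α in (p i)..(p (i + 1)), RT T α ≤ p (i + 1) - p i + ε' := by
    rw [Filter.eventually_all_finset]
    intro i hi
    have hiN := Finset.mem_range.1 hi
    exact hU (p i) (p (i + 1)) ε' (ha.trans (hpa i)) (by rw [hpi]; linarith) ((hple (i + 1) hiN).trans hc) hε'0
  filter_upwards [hall, hF (eventually_gt_atTop 1)] with T hT1 hT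
  have hsplit : ∫ α in a..c, (c - α) * RT T α = ∑ i ∈ Finset.range N, ∫ α in (p i)..(p (i + 1)), (c - α) * RT T α := by
    have h0 : p 0 = a := by simp [hp]
    have hNc : p N = c := by simp only [hp]; linarith
    rw [intervalIntegral.sum_integral_adjacent_intervals, h0, hNc]
    intro k hk
    exact RT_lin_ii T hT _ _ _ (ha.trans (hpa k)) (by rw [hpi]; linarith)
  rw [hsplit]
  have hterm : ∀ i ∈ Finset.range N, ∫ α in (p i)..(p (i + 1)), (c - α) * RT T α ≤ (N - i) * (h * (h + ε')) := by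
    intro i hi
    have hiN := Finset.mem_range.1 hi
    have h1 : ∫ α in (p i)..(p (i + 1)), (c - α) * RT T α ≤ ∫ α in (p i)..(p (i + 1)), (c - p i) * RT T α := by
      apply intervalIntegral.integral_mono_on (by rw [hpi]; linarith)
        (RT_lin_ii T hT _ _ _ (ha.trans (hpa i)) (by rw [hpi]; linarith))
        ((RT_ii T hT _ _ (ha.trans (hpa i)) (by rw [hpi]; linarith)).const_mul _)
      intro α hα
      apply mul_le_mul_of_nonneg_right _ (RT_nonneg T α hT (by linarith [hα.1, hpa i]))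
      linarith [hα.1]
    rw [intervalIntegral.integral_const_mul] at h1
    have h2 := hT1 i hi
    have h3 : c - p i = (N - i) * h := by simp only [hp]; linarith
    have h4 : 0 ≤ c - p i := by linarith [hple i hiN.le]
    have h5 := mul_le_mul_of_nonneg_left h2 h4
    rw [hpi, h3] at h5
    rw [h3, hpi] at h1
    rw [hpi]
    calc _ ≤ _ := h1
      _ ≤ _ := h5
      _ = _ := by ring
  have hgauss : ∑ i ∈ Finset.range N, ((N : ℝ) - i) = N * (N + 1) / 2 := by
    have h1 : ∀ n : ℕ, ∑ i ∈ Finset.range n, (i : ℝ) = n * (n - 1) / 2 := by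
      intro n
      induction n with
      | zero => simp
      | succ n ih => rw [Finset.sum_range_succ, ih]; push_cast; ring
    rw [Finset.sum_sub_distrib, h1]
    simp; ring
  calc ∑ i ∈ Finset.range N, ∫ α in (p i)..(p (i + 1)), (c - α) * RT T α
      ≤ ∑ i ∈ Finset.range N, ((N : ℝ) - i) * (h * (h + ε')) := Finset.sum_le_sum hterm
    _ = N * (N + 1) / 2 * (h * (h + ε')) := by rw [← Finset.sum_mul, hgauss]
    _ = (c - a) ^ 2 / 2 + (c - a) ^ 2 / (2 * N) + (N + 1) * (c - a) / 2 * ε' := by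
        rw [hh]; field_simp
    _ ≤ (c - a) ^ 2 / 2 + ε := by
        have e1 : (c - a) ^ 2 / (2 * N) ≤ ε / 2 := by
          rw [div_le_iff₀ (by positivity)]
          have : (c - a) ^ 2 / ε < N := by linarith
          rw [div_lt_iff₀ hε] at this
          nlinarith
        have e2 : (N + 1) * (c - a) / 2 * ε' ≤ ε / 2 := by
          have : (N + 1) * (c - a) / 2 * ε' ≤ (N + 1) * (c - a + 1) / 2 * ε' := by
            apply mul_le_mul_of_nonneg_right _ hε'0.le
            have : (0 : ℝ) ≤ N + 1 := by positivity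
            nlinarith
          refine this.trans ?_
          rw [hε']
          have : (N + 1) * (c - a + 1) / 2 * (ε / (2 * (N + 1) * (c - a + 1))) = ε / 4 := by
            field_simp; ring
          rw [this]; linarith
        linarith

theorem upper_half (F : Filter ℝ) (hF : F ≤ atTop) (ℓ : ℝ)
    (hU : ∀ a b ε : ℝ, 1 ≤ a → a ≤ b → b ≤ ℓ → 0 < ε → ∀ᶠ T in F, ∫ α in a..b, RT T α ≤ b - a + ε)
    (b : ℝ) (hb : 1 ≤ b) (hbℓ : b < ℓ) (ε : ℝ) (hε : 0 < ε) :
    ∀ᶠ T in F, b - 1 - 1 / (6 * (ℓ - b)) - ε ≤ ∫ α in (1 : ℝ)..b, RT T α := by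
  have hd : 0 < ℓ - b := by linarith
  set ε' : ℝ := ε * (ℓ - b) / 3 with hε'
  have hε'0 : 0 < ε' := by rw [hε']; positivity
  filter_upwards [hF (long_avg ℓ ε' (by linarith) hε'0), lin_upper F hF ℓ hU 1 b le_rfl hb hbℓ.le ε' hε'0,
    lin_upper F hF ℓ hU b ℓ hb hbℓ.le le_rfl ε' hε'0, hF (eventually_gt_atTop 1)] with T h1 h2 h3 hT
  have e1 : ∫ α in (1 : ℝ)..ℓ, (ℓ - α) * RT T α = (∫ α in (1 : ℝ)..b, (ℓ - α) * RT T α) +
      ∫ α in b..ℓ, (ℓ - α) * RT T α := by
    rw [intervalIntegral.integral_add_adjacent_intervals (RT_lin_ii T hT _ _ _ le_rfl hb)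
      (RT_lin_ii T hT _ _ _ hb hbℓ.le)]
  have e2 : ∫ α in (1 : ℝ)..b, (ℓ - α) * RT T α = (ℓ - b) * (∫ α in (1 : ℝ)..b, RT T α) +
      ∫ α in (1 : ℝ)..b, (b - α) * RT T α := by
    rw [← intervalIntegral.integral_const_mul, ← intervalIntegral.integral_add
      ((RT_ii T hT _ _ le_rfl hb).const_mul _) (RT_lin_ii T hT _ _ _ le_rfl hb)]
    apply intervalIntegral.integral_congr
    intro α _
    simp only
    ring
  rw [e1, e2] at h1
  have h4 : (ℓ - b) * (b - 1 - 1 / (6 * (ℓ - b)) - ε) ≤ (ℓ - b) * ∫ α in (1 : ℝ)..b, RT T α := by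
    have e3 : (ℓ - b) * (b - 1 - 1 / (6 * (ℓ - b)) - ε) = (ℓ - b) * (b - 1) - 1 / 6 - 3 * ε' := by
      rw [hε']; field_simp
    rw [e3]
    nlinarith
  exact le_of_mul_le_mul_left h4 hd

/-- from pointwise upper bounds: the mean of `|R - 1|` -/
theorem upper_half_abs (F : Filter ℝ) (hF : F ≤ atTop) (ℓ : ℝ)
    (hU : ∀ ε : ℝ, 0 < ε → ∀ᶠ T in F, ∀ α ∈ Icc (1 : ℝ) ℓ, RT T α ≤ 1 + ε)
    (b : ℝ) (hb : 1 ≤ b) (hbℓ : b < ℓ) (ε : ℝ) (hε : 0 < ε) :
    ∀ᶠ T in F, ∫ α in (1 : ℝ)..b, |RT T α - 1| ≤ 1 / (6 * (ℓ - b)) + ε := by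
  have hU' : ∀ a b ε : ℝ, 1 ≤ a → a ≤ b → b ≤ ℓ → 0 < ε → ∀ᶠ T in F, ∫ α in a..b, RT T α ≤ b - a + ε := by
    intro a b ε ha hab hbl hε
    have hba : 0 < b - a + 1 := by linarith
    filter_upwards [hU (ε / (b - a + 1)) (by positivity), hF (eventually_gt_atTop 1)] with T h1 hT
    have h2 : ∫ α in a..b, RT T α ≤ ∫ _ in a..b, (1 + ε / (b - a + 1)) := by
      apply intervalIntegral.integral_mono_on hab (RT_ii T hT a b ha hab) (by simp)
      intro α hα
      exact h1 α ⟨by linarith [hα.1], by linarith [hα.2]⟩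
    rw [intervalIntegral.integral_const, smul_eq_mul] at h2
    refine h2.trans ?_
    have : (b - a) * (ε / (b - a + 1)) ≤ ε := by
      rw [mul_div_assoc', div_le_iff₀ hba]
      nlinarith
    linarith
  have hb1 : 0 < 4 * b := by linarith
  filter_upwards [upper_half F hF ℓ hU' b hb hbℓ (ε / 2) (by linarith), hU (ε / (4 * b)) (by positivity),
    hF (eventually_gt_atTop 1)] with T h1 h2 hT
  have h3 : ∫ α in (1 : ℝ)..b, |RT T α - 1| ≤ ∫ α in (1 : ℝ)..b, ((1 + 2 * (ε / (4 * b))) - RT T α) := by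
    apply intervalIntegral.integral_mono_on hb
    · exact ((RT_ii T hT 1 b le_rfl hb).sub (by simp)).abs
    · exact (by simp : IntervalIntegrable (fun _ : ℝ => (1 + 2 * (ε / (4 * b)))) volume 1 b).sub (RT_ii T hT 1 b le_rfl hb)
    · intro α hα
      have h4 := h2 α ⟨hα.1, by linarith [hα.2]⟩
      have : 0 < ε / (4 * b) := by positivity
      rw [abs_le]
      constructor <;> linarith
  rw [intervalIntegral.integral_sub (by simp) (RT_ii T hT 1 b le_rfl hb), intervalIntegral.integral_const,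
    smul_eq_mul] at h3
  have h5 : (b - 1) * (2 * (ε / (4 * b))) ≤ ε / 2 := by
    have : (b - 1) * (2 * (ε / (4 * b))) ≤ b * (2 * (ε / (4 * b))) :=
      mul_le_mul_of_nonneg_right (by linarith) (by positivity)
    refine this.trans (le_of_eq ?_)
    field_simp
    ring
  linarith

end Pool.Agent.L5helper12.PV
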