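import Pool.Agent.L5helper12.PV.PupN
import Pool.Agent.L5helper12.PV.Asm

/-! The assembly for the version with the mean square over intervals of fixed length. -/

set_option autoImplicit false

open Filter Topology Set MeasureTheory H370

namespace Pool.Agent.L5helper12.PV

open Pool.Agent.L5helper10.TV hiding GG
open Pool.Agent.Results.MP_103a5c_nt.BohrSetPairs
open Pool.Agent.L5helper12.TW (T4_fav Mont)
open Pool.Agent.Y744 (mz mz_nonneg Aa AG)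

/-- from averages over windows in the scale to every scale -/
def WinStmt : Prop := ∀ (ν : ℝ → ℝ → ℝ) (ρ : ℝ), 0 ≤ ρ → ∀ (νA ν' : ℕ → ℝ → ℝ → ℝ) (lam : ℕ → ℝ) (A1 : ℕ),
  (∀ T, Continuous (ν T)) → (∀ T y, 0 ≤ ν T y) → (∀ A T, Continuous (ν' A T)) → (∀ A, A1 ≤ A → ∀ T y, 0 ≤ ν' A T y) →
  Tendsto lam atTop atTop → (∀ A T y, νA A T y = ν' A T y + lam A * ν T y) →
  (∀ X Q : ℝ, 0 < X → X < Q → ∀ y0 y1 : ℝ, 0 < y0 → y0 ≤ y1 → ∀ ε : ℝ, 0 < ε → ∀ᶠ T in atTop,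
    ∫ x in X..Q, (x⁻¹) ^ 3 * ∫ y in y0..y1, (2 - 2 * Real.cos (x * y)) / y ^ 2 * ν T y ≤ (1 / X) * (Real.pi * ρ + ε)) →
  (∀ A, A1 ≤ A → ∀ X Q : ℝ, 0 < X → X < Q → ∀ y0 y1 : ℝ, 0 < y0 → y0 ≤ y1 → ∀ ε : ℝ, 0 < ε → ∀ᶠ T in atTop,
    ∫ x in X..Q, (x⁻¹) ^ 3 * ∫ y in y0..y1, (2 - 2 * Real.cos (x * y)) / y ^ 2 * ν' A T y ≤
      (1 / X) * (Real.pi * ((A : ℝ) ^ 2 + 1 / 3 - lam A * ρ) + ε)) →
  (∀ A, A1 ≤ A → ∀ ε : ℝ, 0 < ε → ∃ a b : ℝ, 0 < a ∧ a ≤ b ∧ ∀ x1 x2 : ℝ, 0 < x1 → x1 < x2 → ∀ᶠ T in atTop,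
    ∀ x ∈ Icc x1 x2, x * (Real.pi * (A : ℝ) ^ 2 - ε) ≤
      ∫ y in (a / x)..(b / x), (2 - 2 * Real.cos (x * y)) / y ^ 2 * νA A T y) →
  (∃ C0 : ℝ, 0 ≤ C0 ∧ ∀ V : ℝ, 0 < V → ∀ᶠ T in atTop, ∫ y in V..(2 * V), ν T y ≤ C0 * V) ∧
  (∀ X : ℝ, 0 < X → ∀ y0 y1 : ℝ, 0 < y0 → y0 ≤ y1 → ∀ ε : ℝ, 0 < ε → ∀ᶠ T in atTop,
    ∫ y in y0..y1, (2 - 2 * Real.cos (X * y)) / y ^ 2 * ν T y ≤ X * (Real.pi * ρ + ε)) ∧
  (∀ ε : ℝ, 0 < ε → ∃ a b : ℝ, 0 < a ∧ a ≤ b ∧ ∀ X : ℝ, 0 < X → ∀ᶠ T in atTop,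
    X * (Real.pi * ρ - ε) ≤ ∫ y in (a / X)..(b / X), (2 - 2 * Real.cos (X * y)) / y ^ 2 * ν T y)

lemma KW_sub {k : ℝ → ℝ} {ℓ : ℕ} {C B : ℝ} (h : KW k ℓ C B) (A : ℕ) (lam : ℝ) (hA : ℓ ≤ A) (hl0 : 0 ≤ lam)
    (hlamB : lam * B ≤ A - ℓ) : KW (fun α => kA A α - lam * k α) A (1 + lam * C) A := by
  have hℓ0 : (0 : ℝ) ≤ ℓ := Nat.cast_nonneg ℓ
  have hAℓ : (ℓ : ℝ) ≤ A := by exact_mod_cast hA
  exact
    { nn := by
        intro α
        rcases le_or_gt (ℓ : ℝ) α with h1 | h1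
        · rw [h.supp α h1, mul_zero, sub_zero]
          exact le_max_left _ _
        · have h2 : lam * k α ≤ lam * B := mul_le_mul_of_nonneg_left (h.bd α) hl0
          have h3 : (A : ℝ) - max α 0 ≤ kA A α := le_max_right _ _
          have h4 : max α 0 ≤ ℓ := max_le h1.le hℓ0
          linarith
      lip := by
        intro x y
        have h1 := kA_lip A x y
        have h2 := mul_le_mul_of_nonneg_left (h.lip x y) hl0
        have h3 : (kA A x - lam * k x) - (kA A y - lam * k y) = (kA A x - kA A y) - lam * (k x - k y) := by ring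
        rw [h3]
        refine (abs_sub _ _).trans ?_
        rw [abs_mul lam, abs_of_nonneg hl0]
        linarith
      supp := by
        intro α hα
        have h1 : kA A α = 0 := by
          unfold kA
          apply max_eq_left
          have := le_max_left α 0
          linarith
        have h2 : (ℓ : ℝ) ≤ α := by linarith
        rw [h1, h.supp α h2]; ring
      bd := by
        intro α
        have h1 : kA A α ≤ A := max_le (by linarith) (by linarith [le_max_right α 0])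
        have := mul_nonneg hl0 (h.nn α)
        linarith }

lemma Jm_sub {k : ℝ → ℝ} {ℓ : ℕ} {C B : ℝ} (h : KW k ℓ C B) (A : ℕ) (lam : ℝ) (hA : ℓ ≤ A) (hA1 : 1 ≤ A) :
    Jm (fun α => kA A α - lam * k α) A = ((A : ℝ) ^ 2 / 2 - A / 2 + 1 / 6) - lam * Jm k ℓ := by
  have hAℓ : (ℓ : ℝ) ≤ A := by exact_mod_cast hA
  have hkc := h.cont
  have hkAc := kA_cont A
  unfold Jm
  have hi1 : ∀ a b : ℝ, IntervalIntegrable (fun α => kA A α * min α 1) volume a b := fun a b =>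
    (by fun_prop : Continuous fun α => kA A α * min α 1).intervalIntegrable a b
  have hi2 : ∀ a b : ℝ, IntervalIntegrable (fun α => k α * min α 1) volume a b := fun a b =>
    (by fun_prop : Continuous fun α => k α * min α 1).intervalIntegrable a b
  have e1 : ∫ α in (0 : ℝ)..A, (kA A α - lam * k α) * min α 1 = (∫ α in (0 : ℝ)..A, kA A α * min α 1) -
      lam * ∫ α in (0 : ℝ)..A, k α * min α 1 := by
    rw [← intervalIntegral.integral_const_mul, ← intervalIntegral.integral_sub (hi1 _ _) ((hi2 _ _).const_mul _)]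
    apply intervalIntegral.integral_congr
    intro α _
    simp only
    ring
  rw [e1, kA_int A hA1, ← intervalIntegral.integral_add_adjacent_intervals (b := (ℓ : ℝ)) (hi2 0 _) (hi2 _ A)]
  have e2 : ∫ α in (ℓ : ℝ)..A, k α * min α 1 = 0 := by
    apply intervalIntegral.integral_zero_ae
    refine Eventually.of_forall fun α hα => ?_
    rw [uIoc_of_le (by linarith)] at hα
    rw [h.supp α hα.1.le, zero_mul]
  rw [e2, add_zero]

lemma NU_sub {k : ℝ → ℝ} {ℓ : ℕ} {C B : ℝ} (h : KW k ℓ C B) (A : ℕ) (lam : ℝ) (hA : ℓ ≤ A) (T y : ℝ) :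
    NU (fun α => kA A α - lam * k α) A T y = NU (kA A) A T y - lam * NU k ℓ T y := by
  have hAℓ : (ℓ : ℝ) ≤ A := by exact_mod_cast hA
  have hℓ0 : (0 : ℝ) ≤ ℓ := Nat.cast_nonneg ℓ
  have hkc := h.cont
  have hkAc := kA_cont A
  unfold NU MS
  generalize Real.log T = L
  have hSc := SP_cont_c (Zw T) (fun u : ℝ => u) (fun _ => y * T) continuous_id continuous_const
  have e1 : ∫ u in Ioc 0 (ℓ * L), k (u / L) * ‖SP (Zw T) u (y * T)‖ ^ 2 =
      ∫ u in Ioc 0 (A * L), k (u / L) * ‖SP (Zw T) u (y * T)‖ ^ 2 := by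
    rcases le_or_gt L 0 with hL | hL
    · have h1 : (ℓ : ℝ) * L ≤ 0 := mul_nonpos_of_nonneg_of_nonpos hℓ0 hL
      have h2 : (A : ℝ) * L ≤ 0 := mul_nonpos_of_nonneg_of_nonpos (by linarith) hL
      rw [Ioc_eq_empty (not_lt.2 h1), Ioc_eq_empty (not_lt.2 h2)]
    · symm
      apply setIntegral_eq_of_subset_of_forall_sdiff_eq_zero measurableSet_Ioc
      · apply Ioc_subset_Ioc_right
        apply mul_le_mul_of_nonneg_right _ hL.le
        linarith
      · intro u hu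
        have : ℓ * L < u := by
          by_contra hc
          exact hu.2 ⟨hu.1.1, not_lt.1 hc⟩
        rw [h.supp _ (by rw [le_div_iff₀ hL]; exact this.le), zero_mul]
  rw [e1]
  have e2 : ∫ u in Ioc 0 (A * L), (kA A (u / L) - lam * k (u / L)) * ‖SP (Zw T) u (y * T)‖ ^ 2 =
      (∫ u in Ioc 0 (A * L), kA A (u / L) * ‖SP (Zw T) u (y * T)‖ ^ 2) -
      lam * ∫ u in Ioc 0 (A * L), k (u / L) * ‖SP (Zw T) u (y * T)‖ ^ 2 := by
    rw [← integral_const_mul, ← integral_sub]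
    · congr 1
      funext u
      ring
    · exact ((by fun_prop : Continuous fun u => kA A (u / L) *
        ‖SP (Zw T) u (y * T)‖ ^ 2).continuousOn.integrableOn_Icc.mono_set Ioc_subset_Icc_self)
    · exact ((by fun_prop : Continuous fun u => lam * (k (u / L) *
        ‖SP (Zw T) u (y * T)‖ ^ 2)).continuousOn.integrableOn_Icc.mono_set Ioc_subset_Icc_self)
  rw [e2]
  ring

theorem DL_of_R (RH : RiemannHypothesis) (tb : TauberStmt) (win : WinStmt) (hT : TupStmt) : DL := by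
  intro k ℓ C B h
  have hB := h.B0
  have hρ : 0 ≤ k 0 + 2 * Jm k ℓ := by
    have := h.nn 0
    have := Jm_nonneg h
    positivity
  have hB1 : 0 < B + 1 := by linarith
  have hlam : Tendsto (fun A : ℕ => ((A : ℝ) - ℓ) / (B + 1)) atTop atTop :=
    (tendsto_atTop_add_const_right _ _ tendsto_natCast_atTop_atTop).atTop_div_const hB1
  have hNUc := NU_cont h.cont ℓ
  have hl0 : ∀ A : ℕ, ℓ + 1 ≤ A → 0 ≤ ((A : ℝ) - ℓ) / (B + 1) := by
    intro A hA
    have : (ℓ : ℝ) + 1 ≤ A := by exact_mod_cast hA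
    apply div_nonneg _ hB1.le
    linarith
  have hlB : ∀ A : ℕ, ℓ + 1 ≤ A → ((A : ℝ) - ℓ) / (B + 1) * B ≤ A - ℓ := by
    intro A hA
    have : (ℓ : ℝ) + 1 ≤ A := by exact_mod_cast hA
    rw [div_mul_eq_mul_div, div_le_iff₀ hB1]
    nlinarith
  obtain ⟨⟨C0, hC0, hA0⟩, hup, hlow⟩ := win (NU k ℓ) (k 0 + 2 * Jm k ℓ) hρ (fun A => NU (kA A) A)
    (fun A T y => NU (kA A) A T y - ((A : ℝ) - ℓ) / (B + 1) * NU k ℓ T y) (fun A : ℕ => ((A : ℝ) - ℓ) / (B + 1)) (ℓ + 1)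
    (NU_cont h.cont ℓ) (NU_nonneg h.nn ℓ)
    (fun A T => (NU_cont (kA_cont A) A T).sub (continuous_const.mul (hNUc T)))
    (fun A hA T y => by
      rw [← NU_sub h A _ (by omega)]
      exact NU_nonneg (KW_sub h A _ (by omega) (hl0 A hA) (hlB A hA)).nn _ _ _)
    hlam (fun A T y => by ring) (fun X Q hX hXQ y0 y1 hy0 hy ε hε => hT k ℓ C B h X Q hX hXQ y0 y1 hy0 hy ε hε)
    (fun A hA X Q hX hXQ y0 y1 hy0 hy ε hε => by
      have h1 := hT _ A _ _ (KW_sub h A _ (by omega) (hl0 A hA) (hlB A hA)) X Q hX hXQ y0 y1 hy0 hy ε hε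
      filter_upwards [h1] with T h2
      rw [Jm_sub h A _ (by omega) (by omega)] at h2
      simp only [NU_sub h A _ (by omega : ℓ ≤ A)] at h2
      refine h2.trans (le_of_eq ?_)
      have hkA0 : kA A 0 = A := by rw [kA_pos A le_rfl (Nat.cast_nonneg A), sub_zero]
      simp only [hkA0]
      ring)
    (fun A hA ε hε => plow RH A (by omega) ε hε)
  exact tb (NU k ℓ) _ C0 hρ hC0 (NU_cont h.cont ℓ) (NU_nonneg h.nn ℓ) hA0 hup hlow

theorem Aa_lim_R (RH : RiemannHypothesis) (tb : TauberStmt) (win : WinStmt) (hT : TupStmt) (ag : AGallStmt)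
    (aa : AaAllStmt) (x : ℝ) : Tendsto (fun T => Aa T x) atTop (𝓝 (AG x)) :=
  aa atTop le_rfl (fun κ hκ => Mont_of (DL_of_R RH tb win hT) ag κ hκ) x

end Pool.Agent.L5helper12.PV
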