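import Pool.Agent.L5helper12.PV.Vlow
import Pool.Agent.L5helper12.PV.Chg

/-! The asymptotic formula for the variance. -/

set_option autoImplicit false

open Filter Topology Set MeasureTheory

namespace Pool.Agent.L5helper12.PV

open Pool.Agent.L5helper10.TV

/-- trapezoid -/
noncomputable def tz (a b η α : ℝ) : ℝ := max 0 (min 1 (min ((α - a) / η) ((b - α) / η)))

lemma tz_KW (a b η : ℝ) (hη : 0 < η) (ℓ : ℕ) (hb : b ≤ ℓ) : KW (tz a b η) ℓ (1 / η) 1 where
  nn := fun α => le_max_left _ _
  lip := by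
    intro x y
    unfold tz
    refine (abs_max_sub_max_le_max _ _ _ _).trans ?_
    rw [sub_self, abs_zero]
    apply max_le (by positivity)
    refine (abs_min_sub_min_le_max _ _ _ _).trans ?_
    rw [sub_self, abs_zero]
    apply max_le (by positivity)
    refine (abs_min_sub_min_le_max _ _ _ _).trans ?_
    apply max_le
    · rw [← sub_div, abs_div, abs_of_pos hη, sub_sub_sub_cancel_right, one_div, inv_mul_eq_div]
    · rw [← sub_div, abs_div, abs_of_pos hη, sub_sub_sub_cancel_left, abs_sub_comm, one_div, inv_mul_eq_div]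
  supp := by
    intro α hα
    unfold tz
    apply max_eq_left
    refine (min_le_right _ _).trans ((min_le_right _ _).trans ?_)
    apply div_nonpos_of_nonpos_of_nonneg (by linarith) hη.le
  bd := fun α => max_le zero_le_one (min_le_left _ _)

lemma tz_zero (a b η α : ℝ) (hη : 0 < η) (h : α ≤ a ∨ b ≤ α) : tz a b η α = 0 := by
  unfold tz
  apply max_eq_left
  rcases h with h | h
  · refine (min_le_right _ _).trans ((min_le_left _ _).trans ?_)
    apply div_nonpos_of_nonpos_of_nonneg (by linarith) hη.le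
  · refine (min_le_right _ _).trans ((min_le_right _ _).trans ?_)
    apply div_nonpos_of_nonpos_of_nonneg (by linarith) hη.le

lemma tz_one (a b η α : ℝ) (hη : 0 < η) (h1 : a + η ≤ α) (h2 : α ≤ b - η) : tz a b η α = 1 := by
  unfold tz
  rw [min_eq_left, max_eq_right zero_le_one]
  apply le_min
  · rw [le_div_iff₀ hη]; linarith
  · rw [le_div_iff₀ hη]; linarith

lemma tz_Jm (a b η : ℝ) (ha : 1 ≤ a) (hη : 0 < η) (hab : a + 2 * η ≤ b) (ℓ : ℕ) (hb : b ≤ ℓ) :
    b - a - 2 * η ≤ Jm (tz a b η) ℓ := by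
  unfold Jm
  have hc : Continuous fun α => tz a b η α * min α 1 := by unfold tz; fun_prop
  have h1 : ∫ α in (a + η)..(b - η), tz a b η α * min α 1 ≤ ∫ α in (0 : ℝ)..ℓ, tz a b η α * min α 1 := by
    apply intervalIntegral.integral_mono_interval (by linarith) (by linarith) (by linarith)
    · rw [EventuallyLE, ae_restrict_iff' measurableSet_Ioc]
      refine Eventually.of_forall fun α hα => ?_
      exact mul_nonneg (le_max_left _ _) (le_min hα.1.le zero_le_one)
    · exact hc.intervalIntegrable _ _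
  refine le_trans ?_ h1
  have h2 : ∫ α in (a + η)..(b - η), tz a b η α * min α 1 = ∫ _α in (a + η)..(b - η), (1 : ℝ) := by
    apply intervalIntegral.integral_congr
    intro α hα
    rw [uIcc_of_le (by linarith)] at hα
    simp only
    rw [tz_one a b η α hη hα.1 hα.2, min_eq_right (by linarith [hα.1]), one_mul]
  rw [h2, intervalIntegral.integral_const, smul_eq_mul, mul_one]
  linarith

theorem V_lower (hU : UpperV) (a b ε : ℝ) (ha : 1 ≤ a) (hab : a < b) (hε : 0 < ε) : ∀ᶠ κ in 𝓝[>] (0 : ℝ),
    (b - a - ε) * (κ * La κ ^ 2) ≤ ∫ v in (a * La κ)..(b * La κ), fk κ v ^ 2 := by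
  set η := min ((b - a) / 2) (ε / 4) with hη
  have hη0 : 0 < η := by
    have : 0 < b - a := by linarith
    positivity
  have hη1 : η ≤ (b - a) / 2 := min_le_left _ _
  have hη2 : η ≤ ε / 4 := min_le_right _ _
  have hKW := tz_KW a b η hη0 ⌈b⌉₊ (Nat.le_ceil _)
  have hJ := tz_Jm a b η ha hη0 (by linarith) ⌈b⌉₊ (Nat.le_ceil _)
  filter_upwards [bump_low hU hKW (ε / 2) (by positivity), La_ge 1, self_mem_nhdsWithin,
    eventually_nhdsWithin_of_eventually_nhds (eventually_le_nhds (zero_lt_one' ℝ))] with κ h1 hL hκ0 hκ1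
  have hκ : 0 < κ := hκ0
  have hΛ0 : 0 < La κ := by linarith
  have h2 : (b - a - ε) * (κ * La κ ^ 2) ≤ (Jm (tz a b η) ⌈b⌉₊ - ε / 2) * (κ * La κ ^ 2) := by
    apply mul_le_mul_of_nonneg_right _ (by positivity)
    linarith
  refine h2.trans (h1.trans ?_)
  have hle : a * La κ ≤ b * La κ := mul_le_mul_of_nonneg_right hab.le hΛ0.le
  rw [intervalIntegral.integral_of_le hle, ← integral_indicator measurableSet_Ioc]
  apply integral_mono_of_nonneg
  · exact Eventually.of_forall fun v => mul_nonneg (sq_nonneg _) (le_max_left _ _)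
  · exact (fk2_ioc κ _ _ hκ hκ1).integrable_indicator measurableSet_Ioc
  · refine Eventually.of_forall fun v => ?_
    show fk κ v ^ 2 * tz a b η (v / La κ) ≤ (Ioc (a * La κ) (b * La κ)).indicator (fun v => fk κ v ^ 2) v
    by_cases hv : v ∈ Ioc (a * La κ) (b * La κ)
    · rw [Set.indicator_of_mem hv]
      exact mul_le_of_le_one_right (sq_nonneg _) (hKW.bd _)
    · rw [Set.indicator_of_notMem hv, tz_zero a b η _ hη0, mul_zero]
      rw [Set.mem_Ioc, not_and_or, not_lt, not_le] at hv
      rcases hv with h | h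
      · left; rw [div_le_iff₀ hΛ0]; exact h
      · right; rw [le_div_iff₀ hΛ0]; exact h.le

theorem T_lower (hU : UpperV) (a b ε : ℝ) (ha : 1 ≤ a) (hab : a < b) (hε : 0 < ε) : ∀ᶠ T in atTop,
    (b - a - ε) * (Real.log T ^ 2 / T) ≤ ∫ x in (T ^ a)..(T ^ b), gT T x := by
  by_cases hneg : b - a - ε ≤ 0
  · filter_upwards [eventually_gt_atTop 1] with T hT
    have h1 : (b - a - ε) * (Real.log T ^ 2 / T) ≤ 0 :=
      mul_nonpos_of_nonpos_of_nonneg hneg (by positivity)
    refine h1.trans (intervalIntegral.integral_nonneg ?_ fun x _ => gT_nonneg T x)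
    exact Real.rpow_le_rpow_of_exponent_le hT.le hab.le
  push Not at hneg
  set η := min ((b - a) / 4) (ε / 8) with hη
  have hη0 : 0 < η := by
    have : 0 < b - a := by linarith
    positivity
  have hη1 : η ≤ (b - a) / 4 := min_le_left _ _
  have hη2 : η ≤ ε / 8 := min_le_right _ _
  have hlog : Tendsto (fun T : ℝ => Real.log (1 + 1 / T)) atTop (𝓝[>] 0) := by
    apply tendsto_nhdsWithin_of_tendsto_nhds_of_eventually_within
    · have h1 : Tendsto (fun T : ℝ => 1 + 1 / T) atTop (𝓝 (1 + 0)) :=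
        tendsto_const_nhds.add (tendsto_const_nhds.div_atTop tendsto_id)
      rw [add_zero] at h1
      have h2 := (Real.continuousAt_log one_ne_zero).tendsto.comp h1
      rw [Real.log_one] at h2
      exact h2
    · filter_upwards [eventually_gt_atTop 0] with T hT
      apply Real.log_pos
      have : 0 < 1 / T := by positivity
      linarith
  filter_upwards [hlog.eventually (V_lower hU (a + η) (b - η) (ε / 4) (by linarith) (by linarith) (by positivity)),
    eventually_ge_atTop (max 2 (2 * (b - a) / ε + 2)),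
    Real.tendsto_log_atTop.eventually_ge_atTop (max 1 (b / η + 1))] with T h1 hT hlT
  have hT2 : 2 ≤ T := (le_max_left _ _).trans hT
  have hT3 : 2 * (b - a) / ε + 2 ≤ T := (le_max_right _ _).trans hT
  have hl1 : 1 ≤ Real.log T := (le_max_left _ _).trans hlT
  have hl2 : b / η + 1 ≤ Real.log T := (le_max_right _ _).trans hlT
  have hT0 : 0 < T := by linarith
  set κ := Real.log (1 + 1 / T) with hκd
  have h1T : 0 < 1 / T := by positivity
  have hκ0 : 0 < κ := Real.log_pos (by linarith)
  have hκT : κ ≤ 1 / T := by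
    have := Real.log_le_sub_one_of_pos (by linarith : 0 < 1 + 1 / T)
    linarith
  have h1T2 : 1 / T ≤ 1 / 2 := by
    apply one_div_le_one_div_of_le (by norm_num) hT2
  have hκ1 : κ ≤ 1 := by linarith
  have hexp : Real.exp κ = 1 + 1 / T := Real.exp_log (by linarith)
  have hκlow : 1 / T - 1 / T * (1 / T) ≤ κ := by
    have h2 := Real.one_sub_inv_le_log_of_pos (by linarith : 0 < 1 + 1 / T)
    refine le_trans ?_ h2
    have h3 : 1 - (1 + 1 / T)⁻¹ = (1 / T) / (1 + 1 / T) := by field_simp; ring
    rw [h3, le_div_iff₀ (by positivity)]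
    have h4 : 0 < (1 / T) ^ 3 := by positivity
    nlinarith
  have hLa1 : Real.log T ≤ La κ := by
    unfold La
    have := Real.log_le_log hκ0 hκT
    rw [one_div, Real.log_inv] at this
    linarith
  have hLa2 : La κ ≤ Real.log T + 1 := by
    unfold La
    have h5 : 1 / T * (1 / 2) ≤ κ := by
      refine le_trans ?_ hκlow
      nlinarith
    have h6 := Real.log_le_log (by positivity) h5
    rw [Real.log_mul (by positivity) (by norm_num), one_div, Real.log_inv, one_div, Real.log_inv] at h6
    have := Real.log_two_lt_d9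
    linarith
  have hab' : a + η ≤ b - η := by linarith
  have hΛ0 : 0 < La κ := by linarith
  obtain ⟨-, hch⟩ := V_change T κ ((a + η) * La κ) ((b - η) * La κ) hκ0 hκ1 hexp
    (mul_le_mul_of_nonneg_right hab' hΛ0.le)
  rw [hch] at h1
  have b1 : T ^ a ≤ Real.exp ((a + η) * La κ - κ / 2) := by
    rw [Real.rpow_def_of_pos hT0]
    apply Real.exp_le_exp.2
    have e1 : a * Real.log T ≤ a * La κ := mul_le_mul_of_nonneg_left hLa1 (by linarith)
    have e2 : 1 ≤ η * La κ := by
      have e3 : b / η ≤ La κ := by linarith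
      rw [div_le_iff₀ hη0] at e3
      nlinarith
    linarith
  have b2 : Real.exp ((b - η) * La κ - κ / 2) ≤ T ^ b := by
    rw [Real.rpow_def_of_pos hT0]
    apply Real.exp_le_exp.2
    have e1 : (b - η) * La κ ≤ (b - η) * (Real.log T + 1) := mul_le_mul_of_nonneg_left hLa2 (by linarith)
    have e2 : b / η ≤ Real.log T := by linarith
    rw [div_le_iff₀ hη0] at e2
    linarith
  have b3 : Real.exp ((a + η) * La κ - κ / 2) ≤ Real.exp ((b - η) * La κ - κ / 2) := by
    apply Real.exp_le_exp.2
    nlinarith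
  have hint : IntervalIntegrable (gT T) volume (T ^ a) (T ^ b) := by
    rw [intervalIntegrable_iff_integrableOn_Ioc_of_le (b1.trans (b3.trans b2))]
    have hle : a * Real.log T + κ / 2 ≤ b * Real.log T + κ / 2 := by
      have : a * Real.log T ≤ b * Real.log T := mul_le_mul_of_nonneg_right (by linarith) (by linarith)
      linarith
    have h2 := (V_change T κ (a * Real.log T + κ / 2) (b * Real.log T + κ / 2) hκ0 hκ1 hexp hle).1
    rw [add_sub_cancel_right, add_sub_cancel_right] at h2
    rw [Real.rpow_def_of_pos hT0, Real.rpow_def_of_pos hT0, mul_comm (Real.log T), mul_comm (Real.log T)]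
    exact h2
  have b4 : ∫ x in (Real.exp ((a + η) * La κ - κ / 2))..(Real.exp ((b - η) * La κ - κ / 2)), gT T x ≤
      ∫ x in (T ^ a)..(T ^ b), gT T x := by
    apply intervalIntegral.integral_mono_interval b1 b3 b2
    · exact Eventually.of_forall fun x => gT_nonneg T x
    · exact hint
  have b5 : 0 ≤ ∫ x in (Real.exp ((a + η) * La κ - κ / 2))..(Real.exp ((b - η) * La κ - κ / 2)), gT T x :=
    intervalIntegral.integral_nonneg b3 fun x _ => gT_nonneg T x
  have b6 : Real.exp (-(κ / 2)) ≤ 1 := by rw [Real.exp_le_one_iff]; linarith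
  have b7 : Real.log T ^ 2 / T * (1 - 1 / T) ≤ κ * La κ ^ 2 := by
    have e1 : Real.log T ^ 2 ≤ La κ ^ 2 := pow_le_pow_left₀ (by linarith) hLa1 2
    have e2 : Real.log T ^ 2 / T * (1 - 1 / T) = (1 / T - 1 / T * (1 / T)) * Real.log T ^ 2 := by ring
    rw [e2]
    apply mul_le_mul hκlow e1 (by positivity) hκ0.le
  have b8 : (b - a - ε) ≤ (b - η - (a + η) - ε / 4) * (1 - 1 / T) := by
    have e1 : (b - a) * (1 / T) ≤ ε / 2 := by
      rw [mul_one_div, div_le_iff₀ hT0]
      have : 2 * (b - a) / ε ≤ T := by linarith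
      rw [div_le_iff₀ hε] at this
      linarith
    have e2 : 0 ≤ (η + η + ε / 4) * (1 / T) := by positivity
    have e3 : (b - η - (a + η) - ε / 4) * (1 - 1 / T) =
        (b - a) - (η + η + ε / 4) - (b - a) * (1 / T) + (η + η + ε / 4) * (1 / T) := by ring
    rw [e3]
    linarith
  calc (b - a - ε) * (Real.log T ^ 2 / T) ≤ (b - η - (a + η) - ε / 4) * (1 - 1 / T) * (Real.log T ^ 2 / T) :=
        mul_le_mul_of_nonneg_right b8 (by positivity)
    _ = (b - η - (a + η) - ε / 4) * (Real.log T ^ 2 / T * (1 - 1 / T)) := by ring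
    _ ≤ (b - η - (a + η) - ε / 4) * (κ * La κ ^ 2) := mul_le_mul_of_nonneg_left b7 (by linarith)
    _ ≤ _ := h1
    _ ≤ 1 * ∫ x in (Real.exp ((a + η) * La κ - κ / 2))..(Real.exp ((b - η) * La κ - κ / 2)), gT T x :=
        mul_le_mul_of_nonneg_right b6 b5
    _ ≤ _ := by rw [one_mul]; exact b4

theorem T_asymp (h : UpperT) (a b : ℝ) (ha : 1 ≤ a) (hab : a < b) :
    Tendsto (fun T => (∫ x in (T ^ a)..(T ^ b), gT T x) / (Real.log T ^ 2 / T)) atTop (𝓝 (b - a)) := by
  have hU := UpperV_of_T h
  rw [Metric.tendsto_nhds]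
  intro ε hε
  filter_upwards [h a b (ε / 2) ha hab (by positivity), T_lower hU a b (ε / 2) ha hab (by positivity),
    eventually_gt_atTop 1] with T h1 h2 hT
  have hL : 0 < Real.log T := Real.log_pos hT
  have hp : 0 < Real.log T ^ 2 / T := by positivity
  rw [Real.dist_eq, abs_lt]
  constructor
  · rw [lt_sub_iff_add_lt, lt_div_iff₀ hp]
    nlinarith
  · rw [sub_lt_iff_lt_add, div_lt_iff₀ hp]
    nlinarith

end Pool.Agent.L5helper12.PV
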