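import Pool.Agent.L5helper30.PVTau

/-! From averages over windows in the scale to every scale. -/

set_option autoImplicit false

open Filter Topology Set MeasureTheory

namespace Pool.Agent.L5helper12.PV.Win

open Pool.Agent.L5helper30.PVTau (w w_nonneg w_le_four w_le_sq w_cont ii layers layers_sq split3)

lemma w_lip (x x' y : ℝ) (hy : 0 < y) : |w x y - w x' y| ≤ 2 * |x - x'| / y := by
  unfold w
  have e : (2 - 2 * Real.cos (x * y)) / y ^ 2 - (2 - 2 * Real.cos (x' * y)) / y ^ 2 =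
      -2 / y ^ 2 * (Real.cos (x * y) - Real.cos (x' * y)) := by ring
  rw [e, abs_mul]
  have h1 := Real.abs_cos_sub_cos_le (x * y) (x' * y)
  rw [← sub_mul, abs_mul, abs_of_pos hy] at h1
  have h2 : |(-2 : ℝ) / y ^ 2| = 2 / y ^ 2 := by
    rw [abs_div, abs_neg, abs_two, abs_of_pos (by positivity)]
  rw [h2]
  calc 2 / y ^ 2 * |Real.cos (x * y) - Real.cos (x' * y)| ≤ 2 / y ^ 2 * (|x - x'| * y) :=
        mul_le_mul_of_nonneg_left h1 (by positivity)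
    _ = 2 * |x - x'| / y := by field_simp

/-- the transform over a fixed range -/
noncomputable def Hf (f : ℝ → ℝ) (y0 y1 x : ℝ) : ℝ := ∫ y in y0..y1, w x y * f y

section
variable {f : ℝ → ℝ} (hf : Continuous f) (h0 : ∀ y, 0 ≤ f y)

include hf in
lemma wf_cont (x : ℝ) : ContinuousOn (fun y => w x y * f y) (Ioi 0) := (w_cont x).mul hf.continuousOn

include h0 in
lemma Hf_nonneg {y0 y1 : ℝ} (hy : y0 ≤ y1) (x : ℝ) : 0 ≤ Hf f y0 y1 x :=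
  intervalIntegral.integral_nonneg hy fun y _ => mul_nonneg (w_nonneg x y) (h0 y)

include hf h0 in
lemma Hf_mono {y0 y1 z0 z1 : ℝ} (hz : 0 < z0) (h1 : z0 ≤ y0) (h2 : y0 ≤ y1) (h3 : y1 ≤ z1) (x : ℝ) :
    Hf f y0 y1 x ≤ Hf f z0 z1 x := by
  have hy0 : 0 < y0 := by linarith
  have hy1 : 0 < y1 := by linarith
  have hz1 : 0 < z1 := by linarith
  unfold Hf
  rw [split3 (wf_cont hf x) hz hy0 hy1 hz1]
  have g1 : 0 ≤ ∫ y in z0..y0, w x y * f y :=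
    intervalIntegral.integral_nonneg h1 fun y _ => mul_nonneg (w_nonneg x y) (h0 y)
  have g2 : 0 ≤ ∫ y in y1..z1, w x y * f y :=
    intervalIntegral.integral_nonneg h3 fun y _ => mul_nonneg (w_nonneg x y) (h0 y)
  linarith

include hf h0 in
lemma Hf_lip {y0 y1 : ℝ} (hy0 : 0 < y0) (hy : y0 ≤ y1) (x x' : ℝ) :
    |Hf f y0 y1 x - Hf f y0 y1 x'| ≤ 2 * |x - x'| / y0 * ∫ y in y0..y1, f y := by
  have hy1 : 0 < y1 := by linarith
  unfold Hf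
  rw [← intervalIntegral.integral_sub (ii (wf_cont hf x) hy0 hy1) (ii (wf_cont hf x') hy0 hy1),
    ← intervalIntegral.integral_const_mul]
  rw [← Real.norm_eq_abs]
  refine (intervalIntegral.norm_integral_le_integral_norm hy).trans ?_
  have hc : ContinuousOn (fun y => ‖w x y * f y - w x' y * f y‖) (Ioi 0) :=
    ((wf_cont hf x).sub (wf_cont hf x')).norm
  apply intervalIntegral.integral_mono_on hy (ii hc hy0 hy1) ((continuous_const.mul hf).intervalIntegrable _ _)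
  intro y hy'
  have hyp : 0 < y := by linarith [hy'.1]
  rw [← sub_mul, norm_mul, Real.norm_eq_abs, Real.norm_of_nonneg (h0 y)]
  apply mul_le_mul_of_nonneg_right _ (h0 y)
  refine (w_lip x x' y hyp).trans ?_
  exact div_le_div_of_nonneg_left (by positivity) hy0 hy'.1

include hf h0 in
lemma Hf_cont {y0 y1 : ℝ} (hy0 : 0 < y0) (hy : y0 ≤ y1) : Continuous (Hf f y0 y1) := by
  set M := 2 / y0 * ∫ y in y0..y1, f y with hM
  have hM0 : 0 ≤ M := mul_nonneg (by positivity) (intervalIntegral.integral_nonneg hy fun y _ => h0 y)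
  have : LipschitzWith M.toNNReal (Hf f y0 y1) := by
    apply LipschitzWith.of_dist_le_mul
    intro x x'
    rw [Real.dist_eq, Real.dist_eq, Real.coe_toNNReal _ hM0]
    refine (Hf_lip hf h0 hy0 hy x x').trans (le_of_eq ?_)
    rw [hM]; ring
  exact this.continuous

include hf h0 in
lemma Wi {y0 y1 : ℝ} (hy0 : 0 < y0) (hy : y0 ≤ y1) {a b : ℝ} (ha : 0 < a) (hb : 0 < b) :
    IntervalIntegrable (fun x => (x⁻¹) ^ 3 * Hf f y0 y1 x) volume a b := by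
  have : ContinuousOn (fun x : ℝ => (x⁻¹) ^ 3 * Hf f y0 y1 x) (Ioi 0) := by
    apply ContinuousOn.mul _ (Hf_cont hf h0 hy0 hy).continuousOn
    apply ContinuousOn.pow
    exact continuousOn_inv₀.mono fun x hx => ne_of_gt hx
  exact ii this ha hb

end

lemma Hf_split {f g h : ℝ → ℝ} (lam : ℝ) (hg : Continuous g) (hh : Continuous h) (e : ∀ y, f y = g y + lam * h y)
    {y0 y1 : ℝ} (hy0 : 0 < y0) (hy1 : 0 < y1) (x : ℝ) : Hf f y0 y1 x = Hf g y0 y1 x + lam * Hf h y0 y1 x := by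
  unfold Hf
  rw [← intervalIntegral.integral_const_mul, ← intervalIntegral.integral_add (ii (wf_cont hg x) hy0 hy1)
    ((ii (wf_cont hh x) hy0 hy1).const_mul lam)]
  congr 1
  funext y
  rw [e]; ring

lemma int_inv_sq {X Q : ℝ} (hX : 0 < X) (hQ : X ≤ Q) : ∫ x in X..Q, (x⁻¹) ^ 2 = X⁻¹ - Q⁻¹ := by
  have h : ∀ x ∈ uIcc X Q, HasDerivAt (fun x : ℝ => -x⁻¹) ((x⁻¹) ^ 2) x := by
    intro x hx
    rw [uIcc_of_le hQ] at hx
    have hx0 : x ≠ 0 := by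
      have := hx.1
      intro h
      rw [h] at this
      linarith
    have := (hasDerivAt_inv hx0).neg
    rw [neg_neg] at this
    rwa [inv_pow]
  rw [intervalIntegral.integral_eq_sub_of_hasDerivAt h]
  · ring
  · have : ContinuousOn (fun x : ℝ => (x⁻¹) ^ 2) (Ioi 0) :=
      (continuousOn_inv₀.mono fun x hx => ne_of_gt hx).pow 2
    exact ii this hX (by linarith)

theorem A0_of (ν : ℝ → ℝ → ℝ) (ρ : ℝ) (hρ : 0 ≤ ρ) (hc : ∀ T, Continuous (ν T)) (h0 : ∀ T y, 0 ≤ ν T y)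
    (Tup : ∀ X Q : ℝ, 0 < X → X < Q → ∀ y0 y1 : ℝ, 0 < y0 → y0 ≤ y1 → ∀ ε : ℝ, 0 < ε → ∀ᶠ T in atTop,
      ∫ x in X..Q, (x⁻¹) ^ 3 * Hf (ν T) y0 y1 x ≤ (1 / X) * (Real.pi * ρ + ε)) :
    ∃ C0 : ℝ, 0 ≤ C0 ∧ ∀ V : ℝ, 0 < V → ∀ᶠ T in atTop, ∫ y in V..(2 * V), ν T y ≤ C0 * V := by
  have hpi := Real.pi_pos
  refine ⟨31 * (Real.pi * ρ + 1), by positivity, fun V hV => ?_⟩
  have hXQ : 1 / V < 3 / 2 / V := div_lt_div_of_pos_right (by norm_num) hV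
  have hVV : V ≤ 2 * V := by linarith
  filter_upwards [Tup (1 / V) (3 / 2 / V) (by positivity) hXQ V (2 * V) hV hVV 1 one_pos] with T h1
  have h2 : ∫ x in (1 / V)..(3 / 2 / V), (8 / 27 * V ^ 3) * ((2 / (9 * V ^ 2)) * ∫ y in V..(2 * V), ν T y) ≤
      ∫ x in (1 / V)..(3 / 2 / V), (x⁻¹) ^ 3 * Hf (ν T) V (2 * V) x := by
    apply intervalIntegral.integral_mono_on hXQ.le (by simp) (Wi (hc T) (h0 T) hV hVV (by positivity) (by positivity))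
    intro x hx
    have hx0 : 0 < x := lt_of_lt_of_le (by positivity) hx.1
    have hI0 : 0 ≤ ∫ y in V..(2 * V), ν T y := intervalIntegral.integral_nonneg hVV fun y _ => h0 T y
    have g1 : 8 / 27 * V ^ 3 ≤ (x⁻¹) ^ 3 := by
      have e1 : 8 / 27 * V ^ 3 = (2 / 3 * V) ^ 3 := by ring
      rw [e1]
      apply pow_le_pow_left₀ (by positivity)
      have := inv_anti₀ hx0 hx.2
      rw [show (3 / 2 / V)⁻¹ = 2 / 3 * V by field_simp] at this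
      exact this
    have g2 : (2 / (9 * V ^ 2)) * ∫ y in V..(2 * V), ν T y ≤ Hf (ν T) V (2 * V) x := by
      unfold Hf
      rw [← intervalIntegral.integral_const_mul]
      apply intervalIntegral.integral_mono_on hVV ((continuous_const.mul (hc T)).intervalIntegrable _ _)
        (ii (wf_cont (hc T) x) hV (by positivity))
      intro y hy
      have hy0 : 0 < y := lt_of_lt_of_le hV hy.1
      apply mul_le_mul_of_nonneg_right _ (h0 T y)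
      have k1 : 1 ≤ x * y := by
        have : 1 / V * V ≤ x * y := mul_le_mul hx.1 hy.1 hV.le hx0.le
        rwa [one_div, inv_mul_cancel₀ hV.ne'] at this
      have k2 : x * y ≤ 3 := by
        have : x * y ≤ 3 / 2 / V * (2 * V) := mul_le_mul hx.2 hy.2 hy0.le (by positivity)
        have e : 3 / 2 / V * (2 * V) = 3 := by field_simp
        linarith
      have k3 : Real.cos (x * y) ≤ Real.cos 1 := by
        apply Real.cos_le_cos_of_nonneg_of_le_pi zero_le_one _ k1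
        linarith [Real.pi_gt_three]
      have k4 := Real.cos_one_le
      unfold w
      rw [div_le_div_iff₀ (by positivity) (by positivity)]
      have k5 : y ^ 2 ≤ (2 * V) ^ 2 := pow_le_pow_left₀ hy0.le hy.2 2
      have k6 : 8 / 9 * (9 * V ^ 2) ≤ (2 - 2 * Real.cos (x * y)) * (9 * V ^ 2) :=
        mul_le_mul_of_nonneg_right (by linarith) (by positivity)
      nlinarith
    exact mul_le_mul g1 g2 (by positivity) (by positivity)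
  rw [intervalIntegral.integral_const, smul_eq_mul] at h2
  have h3 := h2.trans h1
  generalize (∫ y in V..(2 * V), ν T y) = I at *
  have e1 : (3 / 2 / V - 1 / V) * (8 / 27 * V ^ 3 * (2 / (9 * V ^ 2) * I)) = 8 / 243 * I := by
    field_simp
    ring
  rw [e1] at h3
  have e2 : 1 / (1 / V) * (Real.pi * ρ + 1) = V * (Real.pi * ρ + 1) := by rw [one_div_one_div]
  rw [e2] at h3
  have : 0 ≤ V * (Real.pi * ρ + 1) := by positivity
  linarith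

/-- the averaged lower bound -/
theorem TL (ν : ℝ → ℝ → ℝ) (ρ : ℝ) (νA ν' : ℕ → ℝ → ℝ → ℝ) (lam : ℕ → ℝ) (A1 : ℕ)
    (hc : ∀ T, Continuous (ν T)) (h0 : ∀ T y, 0 ≤ ν T y) (hc' : ∀ A T, Continuous (ν' A T))
    (h0' : ∀ A, A1 ≤ A → ∀ T y, 0 ≤ ν' A T y)
    (hlam : Tendsto lam atTop atTop) (hsplit : ∀ A T y, νA A T y = ν' A T y + lam A * ν T y)
    (Tup' : ∀ A, A1 ≤ A → ∀ X Q : ℝ, 0 < X → X < Q → ∀ y0 y1 : ℝ, 0 < y0 → y0 ≤ y1 → ∀ ε : ℝ, 0 < ε →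
      ∀ᶠ T in atTop, ∫ x in X..Q, (x⁻¹) ^ 3 * Hf (ν' A T) y0 y1 x ≤
        (1 / X) * (Real.pi * ((A : ℝ) ^ 2 + 1 / 3 - lam A * ρ) + ε))
    (Plow : ∀ A, A1 ≤ A → ∀ ε : ℝ, 0 < ε → ∃ a b : ℝ, 0 < a ∧ a ≤ b ∧ ∀ x1 x2 : ℝ, 0 < x1 → x1 < x2 →
      ∀ᶠ T in atTop, ∀ x ∈ Icc x1 x2, x * (Real.pi * (A : ℝ) ^ 2 - ε) ≤ Hf (νA A T) (a / x) (b / x) x)
    (ε : ℝ) (hε : 0 < ε) : ∃ a b K : ℝ, 0 < a ∧ a ≤ b ∧ 2 ≤ K ∧ ∀ X : ℝ, 0 < X → ∀ᶠ T in atTop,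
      (1 / X) * (Real.pi * ρ - ε) ≤ ∫ x in X..(K * X), (x⁻¹) ^ 3 * Hf (ν T) (a / (K * X)) (b / X) x := by
  have hpi := Real.pi_pos
  have hpi4 := Real.pi_le_four
  obtain ⟨A, hA1, hA2⟩ := ((eventually_ge_atTop A1).and (hlam.eventually_ge_atTop (max 1 (16 / ε)))).exists
  have hl1 : 1 ≤ lam A := (le_max_left _ _).trans hA2
  have hl2 : 16 / ε ≤ lam A := (le_max_right _ _).trans hA2
  rw [div_le_iff₀ hε] at hl2
  have hl0 : 0 < lam A := by linarith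
  obtain ⟨a, b, ha, hab, hP⟩ := Plow A hA1 1 one_pos
  set K : ℝ := max 2 (4 * (Real.pi * (A : ℝ) ^ 2) / ε) with hK
  have hK2 : 2 ≤ K := le_max_left _ _
  have hKe : 4 * (Real.pi * (A : ℝ) ^ 2) ≤ K * ε := by
    have : 4 * (Real.pi * (A : ℝ) ^ 2) / ε ≤ K := le_max_right _ _
    rwa [div_le_iff₀ hε] at this
  refine ⟨a, b, K, ha, hab, hK2, fun X hX => ?_⟩
  have hXK : X < K * X := by nlinarith
  have hKX : 0 < K * X := by positivity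
  have hb : 0 < b := by linarith
  have hr : a / (K * X) ≤ b / X := by
    calc a / (K * X) ≤ a / X := div_le_div_of_nonneg_left ha.le hX hXK.le
      _ ≤ b / X := div_le_div_of_nonneg_right hab hX.le
  filter_upwards [Tup' A hA1 X (K * X) hX hXK (a / (K * X)) (b / X) (by positivity) hr 1 one_pos,
    hP X (K * X) hX hXK] with T h1 h2
  have hν'c := hc' A T
  have hν'0 := h0' A hA1 T
  have hνAc : Continuous (νA A T) := by
    have : νA A T = fun y => ν' A T y + lam A * ν T y := funext fun y => hsplit A T y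
    rw [this]
    have := hc T
    fun_prop
  have hνA0 : ∀ y, 0 ≤ νA A T y := fun y => by
    rw [hsplit]
    have := hν'0 y
    have := h0 T y
    positivity
  have h3 : ∫ x in X..(K * X), (Real.pi * (A : ℝ) ^ 2 - 1) * (x⁻¹) ^ 2 ≤
      ∫ x in X..(K * X), ((x⁻¹) ^ 3 * Hf (ν' A T) (a / (K * X)) (b / X) x +
        lam A * ((x⁻¹) ^ 3 * Hf (ν T) (a / (K * X)) (b / X) x)) := by
    apply intervalIntegral.integral_mono_on hXK.le
    · have : ContinuousOn (fun x : ℝ => (Real.pi * (A : ℝ) ^ 2 - 1) * (x⁻¹) ^ 2) (Ioi 0) :=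
        continuousOn_const.mul ((continuousOn_inv₀.mono fun x hx => ne_of_gt hx).pow 2)
      exact ii this hX hKX
    · exact (Wi hν'c hν'0 (by positivity) hr hX hKX).add ((Wi (hc T) (h0 T) (by positivity) hr hX hKX).const_mul _)
    · intro x hx
      have hx0 : 0 < x := lt_of_lt_of_le hX hx.1
      have g1 := h2 x hx
      have g2 : Hf (νA A T) (a / x) (b / x) x ≤ Hf (νA A T) (a / (K * X)) (b / X) x := by
        apply Hf_mono hνAc hνA0 (by positivity)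
        · exact div_le_div_of_nonneg_left ha.le hx0 hx.2
        · exact div_le_div_of_nonneg_right hab hx0.le
        · exact div_le_div_of_nonneg_left hb.le hX hx.1
      rw [Hf_split (lam A) hν'c (hc T) (hsplit A T) (by positivity : 0 < a / (K * X)) (by positivity : 0 < b / X) x] at g2
      have g3 := mul_le_mul_of_nonneg_left (g1.trans g2) (by positivity : 0 ≤ (x⁻¹) ^ 3)
      calc (Real.pi * (A : ℝ) ^ 2 - 1) * (x⁻¹) ^ 2 = (x⁻¹) ^ 3 * (x * (Real.pi * (A : ℝ) ^ 2 - 1)) := by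
            field_simp
        _ ≤ _ := g3
        _ = _ := by ring
  rw [intervalIntegral.integral_const_mul, int_inv_sq hX hXK.le, intervalIntegral.integral_add
    (Wi hν'c hν'0 (by positivity) hr hX hKX) ((Wi (hc T) (h0 T) (by positivity) hr hX hKX).const_mul _),
    intervalIntegral.integral_const_mul] at h3
  generalize (∫ x in X..(K * X), (x⁻¹) ^ 3 * Hf (ν' A T) (a / (K * X)) (b / X) x) = I' at *
  generalize (∫ x in X..(K * X), (x⁻¹) ^ 3 * Hf (ν T) (a / (K * X)) (b / X) x) = I at *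
  have h4 : (Real.pi * (A : ℝ) ^ 2 - 1) * (X⁻¹ - (K * X)⁻¹) ≤
      (1 / X) * (Real.pi * ((A : ℝ) ^ 2 + 1 / 3 - lam A * ρ) + 1) + lam A * I := by linarith
  have h5 : (Real.pi * (A : ℝ) ^ 2 - 1) * (X⁻¹ - (K * X)⁻¹) = (1 / X) * ((Real.pi * (A : ℝ) ^ 2 - 1) * (1 - K⁻¹)) := by
    have : K ≠ 0 := by linarith
    field_simp
  rw [h5] at h4
  have h6 : (Real.pi * (A : ℝ) ^ 2 - 1) * K⁻¹ ≤ ε / 4 := by
    rw [← div_eq_mul_inv, div_le_iff₀ (by linarith)]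
    linarith
  have h7 : lam A * ((1 / X) * (Real.pi * ρ - ε)) ≤ lam A * I := by
    have g1 : (1 / X) * ((Real.pi * (A : ℝ) ^ 2 - 1) * (1 - K⁻¹) - (Real.pi * ((A : ℝ) ^ 2 + 1 / 3 - lam A * ρ) + 1)) ≤
        lam A * I := by linarith
    refine le_trans ?_ g1
    rw [mul_left_comm]
    apply mul_le_mul_of_nonneg_left _ (by positivity)
    have g2 : ε ≤ lam A * ε := by nlinarith
    nlinarith
  exact le_of_mul_le_mul_left h7 hl0


section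
variable {f : ℝ → ℝ} (hf : Continuous f) (h0 : ∀ y, 0 ≤ f y)

include hf h0 in
lemma Wmono {y0 y1 z0 z1 : ℝ} (hz : 0 < z0) (h1 : z0 ≤ y0) (h2 : y0 ≤ y1) (h3 : y1 ≤ z1) {a b : ℝ} (ha : 0 < a)
    (hab : a ≤ b) : ∫ x in a..b, (x⁻¹) ^ 3 * Hf f y0 y1 x ≤ ∫ x in a..b, (x⁻¹) ^ 3 * Hf f z0 z1 x := by
  apply intervalIntegral.integral_mono_on hab (Wi hf h0 (by linarith) h2 ha (by linarith))
    (Wi hf h0 hz (by linarith) ha (by linarith))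
  intro x hx
  have hx0 : 0 < x := lt_of_lt_of_le ha hx.1
  exact mul_le_mul_of_nonneg_left (Hf_mono hf h0 hz h1 h2 h3 x) (by positivity)

end

theorem Wup (ν : ℝ → ℝ → ℝ) (ρ : ℝ) (hc : ∀ T, Continuous (ν T)) (h0 : ∀ T y, 0 ≤ ν T y)
    (Tup : ∀ X Q : ℝ, 0 < X → X < Q → ∀ y0 y1 : ℝ, 0 < y0 → y0 ≤ y1 → ∀ ε : ℝ, 0 < ε → ∀ᶠ T in atTop,
      ∫ x in X..Q, (x⁻¹) ^ 3 * Hf (ν T) y0 y1 x ≤ (1 / X) * (Real.pi * ρ + ε))
    (hTL : ∀ ε : ℝ, 0 < ε → ∃ a b K : ℝ, 0 < a ∧ a ≤ b ∧ 2 ≤ K ∧ ∀ X : ℝ, 0 < X → ∀ᶠ T in atTop,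
      (1 / X) * (Real.pi * ρ - ε) ≤ ∫ x in X..(K * X), (x⁻¹) ^ 3 * Hf (ν T) (a / (K * X)) (b / X) x)
    (x1 x2 : ℝ) (h1 : 0 < x1) (h12 : x1 < x2) (y0 y1 : ℝ) (hy0 : 0 < y0) (hy : y0 ≤ y1) (ε : ℝ) (hε : 0 < ε) :
    ∀ᶠ T in atTop, ∫ x in x1..x2, (x⁻¹) ^ 3 * Hf (ν T) y0 y1 x ≤
      (1 / x1) * (Real.pi * ρ + ε) - (1 / x2) * (Real.pi * ρ - ε) := by
  obtain ⟨a, b, K, ha, hab, hK, hTL⟩ := hTL ε hε
  have hx2 : 0 < x2 := by linarith
  have hKx : x2 < K * x2 := by nlinarith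
  have hr : a / (K * x2) ≤ b / x2 := by
    calc a / (K * x2) ≤ a / x2 := div_le_div_of_nonneg_left ha.le hx2 hKx.le
      _ ≤ b / x2 := div_le_div_of_nonneg_right hab hx2.le
  set z0 := min y0 (a / (K * x2)) with hz0
  set z1 := max y1 (b / x2) with hz1
  have hz0p : 0 < z0 := lt_min hy0 (by positivity)
  have hz01 : z0 ≤ z1 := (min_le_left _ _).trans (hy.trans (le_max_left _ _))
  filter_upwards [Tup x1 (K * x2) h1 (by linarith) z0 z1 hz0p hz01 ε hε, hTL x2 hx2] with T t1 t2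
  have g1 := Wmono (hc T) (h0 T) hz0p (min_le_left _ _ : z0 ≤ y0) hy (le_max_left _ _ : y1 ≤ z1) h1 h12.le
  have g2 := Wmono (hc T) (h0 T) hz0p (min_le_right _ _ : z0 ≤ a / (K * x2)) hr (le_max_right _ _ : b / x2 ≤ z1) hx2 hKx.le
  have g3 := intervalIntegral.integral_add_adjacent_intervals (Wi (hc T) (h0 T) hz0p hz01 h1 hx2)
    (Wi (hc T) (h0 T) hz0p hz01 hx2 (by linarith : 0 < K * x2))
  linarith

theorem Wlow (ν : ℝ → ℝ → ℝ) (ρ : ℝ) (hc : ∀ T, Continuous (ν T)) (h0 : ∀ T y, 0 ≤ ν T y)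
    (Tup : ∀ X Q : ℝ, 0 < X → X < Q → ∀ y0 y1 : ℝ, 0 < y0 → y0 ≤ y1 → ∀ ε : ℝ, 0 < ε → ∀ᶠ T in atTop,
      ∫ x in X..Q, (x⁻¹) ^ 3 * Hf (ν T) y0 y1 x ≤ (1 / X) * (Real.pi * ρ + ε))
    (hTL : ∀ ε : ℝ, 0 < ε → ∃ a b K : ℝ, 0 < a ∧ a ≤ b ∧ 2 ≤ K ∧ ∀ X : ℝ, 0 < X → ∀ᶠ T in atTop,
      (1 / X) * (Real.pi * ρ - ε) ≤ ∫ x in X..(K * X), (x⁻¹) ^ 3 * Hf (ν T) (a / (K * X)) (b / X) x)
    (ε : ℝ) (hε : 0 < ε) : ∃ a b K : ℝ, 0 < a ∧ a ≤ b ∧ 2 ≤ K ∧ ∀ x1 x2 : ℝ, 0 < x1 → x1 < x2 → x2 < K * x1 →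
      ∀ y0 y1 : ℝ, 0 < y0 → y0 ≤ a / (K * x1) → b / x1 ≤ y1 → ∀ᶠ T in atTop,
      (1 / x1) * (Real.pi * ρ - ε) - (1 / x2) * (Real.pi * ρ + ε) ≤
        ∫ x in x1..x2, (x⁻¹) ^ 3 * Hf (ν T) y0 y1 x := by
  obtain ⟨a, b, K, ha, hab, hK, hTL⟩ := hTL ε hε
  refine ⟨a, b, K, ha, hab, hK, fun x1 x2 h1 h12 h2K y0 y1 hy0 hya hyb => ?_⟩
  have hx2 : 0 < x2 := by linarith
  have hKx : x1 < K * x1 := by nlinarith
  have hr : a / (K * x1) ≤ b / x1 := by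
    calc a / (K * x1) ≤ a / x1 := div_le_div_of_nonneg_left ha.le h1 hKx.le
      _ ≤ b / x1 := div_le_div_of_nonneg_right hab h1.le
  have hy : y0 ≤ y1 := hya.trans (hr.trans hyb)
  filter_upwards [Tup x2 (K * x1) hx2 h2K y0 y1 hy0 hy ε hε, hTL x1 h1] with T t1 t2
  have g2 := Wmono (hc T) (h0 T) hy0 hya hr hyb h1 hKx.le
  have g3 := intervalIntegral.integral_add_adjacent_intervals (Wi (hc T) (h0 T) hy0 hy h1 hx2)
    (Wi (hc T) (h0 T) hy0 hy hx2 (by linarith : 0 < K * x1))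
  linarith

theorem Aup_of (ν : ℝ → ℝ → ℝ) (ρ C0 : ℝ) (hρ : 0 ≤ ρ) (hC0 : 0 ≤ C0) (hc : ∀ T, Continuous (ν T))
    (h0 : ∀ T y, 0 ≤ ν T y)
    (A0 : ∀ V : ℝ, 0 < V → ∀ᶠ T in atTop, ∫ y in V..(2 * V), ν T y ≤ C0 * V)
    (hW : ∀ x1 x2 : ℝ, 0 < x1 → x1 < x2 → ∀ y0 y1 : ℝ, 0 < y0 → y0 ≤ y1 → ∀ ε : ℝ, 0 < ε → ∀ᶠ T in atTop,
      ∫ x in x1..x2, (x⁻¹) ^ 3 * Hf (ν T) y0 y1 x ≤ (1 / x1) * (Real.pi * ρ + ε) - (1 / x2) * (Real.pi * ρ - ε))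
    (X : ℝ) (hX : 0 < X) (y0 y1 : ℝ) (hy0 : 0 < y0) (hy : y0 ≤ y1) (ε : ℝ) (hε : 0 < ε) :
    ∀ᶠ T in atTop, Hf (ν T) y0 y1 X ≤ X * (Real.pi * ρ + ε) := by
  have hpi := Real.pi_pos
  obtain ⟨n, hn⟩ := pow_unbounded_of_one_lt (y1 / y0) (by norm_num : (1 : ℝ) < 2)
  rw [div_lt_iff₀ hy0] at hn
  set D : ℝ := C0 * y0 * 2 ^ n with hD
  have hD0 : 0 ≤ D := by positivity
  set h : ℝ := min 1 (ε / (4 * (3 * (Real.pi * ρ) + 2 * D / y0 + 1))) with hh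
  have hh0 : 0 < h := by positivity
  have hh1 : h ≤ 1 := min_le_left _ _
  have hh2 : h * (3 * (Real.pi * ρ) + 2 * D / y0 + 1) ≤ ε / 4 := by
    have : h ≤ ε / (4 * (3 * (Real.pi * ρ) + 2 * D / y0 + 1)) := min_le_right _ _
    rw [le_div_iff₀ (by positivity)] at this
    linarith
  have hπρ : 0 ≤ Real.pi * ρ := by positivity
  have hDy : 0 ≤ 2 * D / y0 := by positivity
  set ε' : ℝ := h * ε / 64 with hε'
  have hε'0 : 0 < ε' := by positivity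
  have hX2 : X < (1 + h) * X := by nlinarith
  have h1h : 0 < 1 + h := by linarith
  filter_upwards [hW X ((1 + h) * X) hX hX2 y0 y1 hy0 hy ε' hε'0, layers hc A0 y0 hy0 n] with T t1 t2
  have hmass : ∫ y in y0..y1, ν T y ≤ D := by
    have g1 : ∫ y in y0..y1, ν T y ≤ ∫ y in y0..(y0 * 2 ^ n), ν T y := by
      have hi : ∀ a b : ℝ, IntervalIntegrable (ν T) volume a b := fun a b => (hc T).intervalIntegrable a b
      rw [← intervalIntegral.integral_add_adjacent_intervals (hi y0 y1) (hi y1 (y0 * 2 ^ n))]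
      have : 0 ≤ ∫ y in y1..(y0 * 2 ^ n), ν T y :=
        intervalIntegral.integral_nonneg (by linarith) fun y _ => h0 T y
      linarith
    have g2 : C0 * y0 * (2 ^ n - 1) ≤ D := by
      rw [hD]
      have : 0 ≤ C0 * y0 := by positivity
      linarith
    linarith
  set G : ℝ := Hf (ν T) y0 y1 X - h * X * (2 * D / y0) with hG
  have hGx : ∀ x ∈ Icc X ((1 + h) * X), G ≤ Hf (ν T) y0 y1 x := by
    intro x hx
    have g1 := Hf_lip (hc T) (h0 T) hy0 hy X x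
    have g2 : |X - x| ≤ h * X := by
      rw [abs_sub_comm, abs_of_nonneg (by linarith [hx.1])]
      linarith [hx.2]
    have g3 : 2 * |X - x| / y0 * ∫ y in y0..y1, ν T y ≤ 2 * (h * X) / y0 * D := by
      apply mul_le_mul _ hmass (intervalIntegral.integral_nonneg hy fun y _ => h0 T y) (by positivity)
      exact div_le_div_of_nonneg_right (by linarith) hy0.le
    have g4 : 2 * (h * X) / y0 * D = h * X * (2 * D / y0) := by ring
    have g5 := (abs_le.1 g1).2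
    rw [hG]
    linarith
  have hGb : G ≤ X * (Real.pi * ρ + 3 * h * (Real.pi * ρ) + ε / 4) := by
    rcases le_or_gt G 0 with hG0 | hG0
    · refine hG0.trans ?_
      positivity
    · have k1 : ∫ x in X..((1 + h) * X), (((1 + h) * X)⁻¹) ^ 3 * G ≤
          ∫ x in X..((1 + h) * X), (x⁻¹) ^ 3 * Hf (ν T) y0 y1 x := by
        apply intervalIntegral.integral_mono_on hX2.le (by simp) (Wi (hc T) (h0 T) hy0 hy hX (by positivity))
        intro x hx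
        have hx0 : 0 < x := lt_of_lt_of_le hX hx.1
        apply mul_le_mul _ (hGx x hx) hG0.le (by positivity)
        apply pow_le_pow_left₀ (by positivity)
        exact inv_anti₀ hx0 hx.2
      rw [intervalIntegral.integral_const, smul_eq_mul] at k1
      have k2 := k1.trans t1
      have k3 : (1 / X) * (Real.pi * ρ + ε') - (1 / ((1 + h) * X)) * (Real.pi * ρ - ε') ≤
          (1 / X) * (Real.pi * ρ * h / (1 + h) + 2 * ε') := by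
        have e1 : (1 / X) * (Real.pi * ρ + ε') - (1 / ((1 + h) * X)) * (Real.pi * ρ - ε') =
            (1 / X) * (Real.pi * ρ * h / (1 + h) + ε' + ε' / (1 + h)) := by
          field_simp; ring
        rw [e1]
        apply mul_le_mul_of_nonneg_left _ (by positivity)
        have : ε' / (1 + h) ≤ ε' := div_le_self hε'0.le (by linarith)
        linarith
      have k4 := k2.trans k3
      have k5 : ((1 + h) * X - X) * ((((1 + h) * X)⁻¹) ^ 3 * G) = (h / ((1 + h) ^ 3 * X ^ 2)) * G := by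
        field_simp; ring
      rw [k5] at k4
      have k6 : G ≤ ((1 + h) ^ 3 * X ^ 2) / h * ((1 / X) * (Real.pi * ρ * h / (1 + h) + 2 * ε')) := by
        have := mul_le_mul_of_nonneg_left k4 (by positivity : 0 ≤ ((1 + h) ^ 3 * X ^ 2) / h)
        refine le_trans (le_of_eq ?_) this
        field_simp
      have k7 : ((1 + h) ^ 3 * X ^ 2) / h * ((1 / X) * (Real.pi * ρ * h / (1 + h) + 2 * ε')) =
          X * ((1 + h) ^ 2 * (Real.pi * ρ) + (1 + h) ^ 3 * (ε / 32)) := by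
        rw [hε']; field_simp; ring
      rw [k7] at k6
      refine k6.trans (mul_le_mul_of_nonneg_left ?_ hX.le)
      have k8 : (1 + h) ^ 2 ≤ 1 + 3 * h := by nlinarith
      have k9 : (1 + h) ^ 3 ≤ 8 := by
        calc (1 + h) ^ 3 ≤ 2 ^ 3 := pow_le_pow_left₀ h1h.le (by linarith) 3
          _ = 8 := by norm_num
      have k10 := mul_le_mul_of_nonneg_right k8 hπρ
      have k11 := mul_le_mul_of_nonneg_right k9 (by positivity : 0 ≤ ε / 32)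
      linarith
  have hfin : Hf (ν T) y0 y1 X = G + h * X * (2 * D / y0) := by rw [hG]; ring
  rw [hfin]
  have : X * (Real.pi * ρ + 3 * h * (Real.pi * ρ) + ε / 4) + h * X * (2 * D / y0) ≤ X * (Real.pi * ρ + ε) := by
    have : X * (Real.pi * ρ + 3 * h * (Real.pi * ρ) + ε / 4) + h * X * (2 * D / y0) =
        X * (Real.pi * ρ + 3 * h * (Real.pi * ρ) + ε / 4 + h * (2 * D / y0)) := by ring
    rw [this]
    apply mul_le_mul_of_nonneg_left _ hX.le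
    linarith
  linarith

/-- the tails, uniformly in the scale -/
lemma tailU (ν : ℝ → ℝ → ℝ) (C0 : ℝ) (hC0 : 0 ≤ C0) (hc : ∀ T, Continuous (ν T)) (h0 : ∀ T y, 0 ≤ ν T y)
    (A0 : ∀ V : ℝ, 0 < V → ∀ᶠ T in atTop, ∫ y in V..(2 * V), ν T y ≤ C0 * V) (c : ℝ) (hc0 : 0 < c)
    (m n : ℕ) (hmn : m ≤ n) :
    ∀ᶠ T in atTop, ∀ x : ℝ, Hf (ν T) (c * ((2 : ℝ) ^ n)⁻¹) (c * 2 ^ n) x ≤
      Hf (ν T) (c * ((2 : ℝ) ^ m)⁻¹) (c * 2 ^ m) x + C0 * (x ^ 2 * c + 8 / c) * ((2 : ℝ) ^ m)⁻¹ := by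
  obtain ⟨k, rfl⟩ := Nat.exists_eq_add_of_le hmn
  have hpn : (0 : ℝ) < c * ((2 : ℝ) ^ (m + k))⁻¹ := by positivity
  have hpm : (0 : ℝ) < c * ((2 : ℝ) ^ m)⁻¹ := by positivity
  have hqm : (0 : ℝ) < c * (2 : ℝ) ^ m := by positivity
  have hqn : (0 : ℝ) < c * (2 : ℝ) ^ (m + k) := by positivity
  filter_upwards [layers hc A0 _ hpn k, layers_sq hc h0 A0 (c * 2 ^ m) (by positivity) k] with T h1 h2 x
  have hcont := wf_cont (hc T) x
  unfold Hf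
  rw [split3 hcont hpn hpm hqm hqn]
  have e1 : c * ((2 : ℝ) ^ (m + k))⁻¹ * 2 ^ k = c * ((2 : ℝ) ^ m)⁻¹ := by
    rw [pow_add]; field_simp
  rw [e1] at h1
  have e2 : c * (2 : ℝ) ^ m * 2 ^ k = c * 2 ^ (m + k) := by rw [pow_add]; ring
  rw [e2] at h2
  have hle : c * ((2 : ℝ) ^ (m + k))⁻¹ ≤ c * ((2 : ℝ) ^ m)⁻¹ := by
    apply mul_le_mul_of_nonneg_left _ hc0.le
    exact inv_anti₀ (by positivity) (pow_le_pow_right₀ (by norm_num) (by omega))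
  have hle2 : c * (2 : ℝ) ^ m ≤ c * 2 ^ (m + k) := by
    apply mul_le_mul_of_nonneg_left _ hc0.le
    exact pow_le_pow_right₀ (by norm_num) (by omega)
  have h3 : ∫ y in (c * ((2 : ℝ) ^ (m + k))⁻¹)..(c * ((2 : ℝ) ^ m)⁻¹), w x y * ν T y ≤
      x ^ 2 * ∫ y in (c * ((2 : ℝ) ^ (m + k))⁻¹)..(c * ((2 : ℝ) ^ m)⁻¹), ν T y := by
    rw [← intervalIntegral.integral_const_mul]
    refine intervalIntegral.integral_mono_on hle (ii hcont hpn hpm)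
      ((continuous_const.mul (hc T)).intervalIntegrable _ _) ?_
    intro y _
    exact mul_le_mul_of_nonneg_right (w_le_sq x y) (h0 T y)
  have h4 : ∫ y in (c * (2 : ℝ) ^ m)..(c * 2 ^ (m + k)), w x y * ν T y ≤
      4 * ∫ y in (c * (2 : ℝ) ^ m)..(c * 2 ^ (m + k)), ν T y / y ^ 2 := by
    rw [← intervalIntegral.integral_const_mul]
    have hcont2 : ContinuousOn (fun y => 4 * (ν T y / y ^ 2)) (Ioi 0) :=
      continuousOn_const.mul (((hc T).continuousOn).div (by fun_prop)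
        fun y hy => pow_ne_zero _ (ne_of_gt hy))
    refine intervalIntegral.integral_mono_on hle2 (ii hcont hqm hqn) (ii hcont2 hqm hqn) ?_
    intro y _
    have := mul_le_mul_of_nonneg_right (w_le_four x y) (h0 T y)
    calc w x y * ν T y ≤ 4 / y ^ 2 * ν T y := this
      _ = 4 * (ν T y / y ^ 2) := by ring
  have h5 : C0 * (c * ((2 : ℝ) ^ (m + k))⁻¹) * (2 ^ k - 1) ≤ C0 * (c * ((2 : ℝ) ^ m)⁻¹) := by
    have : C0 * (c * ((2 : ℝ) ^ (m + k))⁻¹) * (2 ^ k - 1) =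
        C0 * (c * ((2 : ℝ) ^ (m + k))⁻¹ * 2 ^ k) - C0 * (c * ((2 : ℝ) ^ (m + k))⁻¹) := by ring
    rw [this, e1]
    have : 0 ≤ C0 * (c * ((2 : ℝ) ^ (m + k))⁻¹) := by positivity
    linarith
  have h6 : C0 / (c * 2 ^ m) * (2 * (1 - ((2 : ℝ) ^ k)⁻¹)) ≤ 2 * (C0 / c * ((2 : ℝ) ^ m)⁻¹) := by
    have h7 : (0 : ℝ) ≤ ((2 : ℝ) ^ k)⁻¹ := by positivity
    have h8 : 0 ≤ C0 / (c * 2 ^ m) := by positivity
    have h9 : C0 / c * ((2 : ℝ) ^ m)⁻¹ = C0 / (c * 2 ^ m) := by field_simp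
    rw [h9]
    nlinarith
  have h9 : x ^ 2 * ∫ y in (c * ((2 : ℝ) ^ (m + k))⁻¹)..(c * ((2 : ℝ) ^ m)⁻¹), ν T y ≤
      x ^ 2 * (C0 * (c * ((2 : ℝ) ^ m)⁻¹)) :=
    mul_le_mul_of_nonneg_left (le_trans h1 h5) (sq_nonneg x)
  have h10 : C0 * (x ^ 2 * c + 8 / c) * ((2 : ℝ) ^ m)⁻¹ =
      x ^ 2 * (C0 * (c * ((2 : ℝ) ^ m)⁻¹)) + 8 * (C0 / c * ((2 : ℝ) ^ m)⁻¹) := by ring
  rw [h10]
  linarith

theorem Alow_of (ν : ℝ → ℝ → ℝ) (ρ C0 : ℝ) (hρ : 0 ≤ ρ) (hC0 : 0 ≤ C0) (hc : ∀ T, Continuous (ν T))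
    (h0 : ∀ T y, 0 ≤ ν T y)
    (A0 : ∀ V : ℝ, 0 < V → ∀ᶠ T in atTop, ∫ y in V..(2 * V), ν T y ≤ C0 * V)
    (hW : ∀ ε : ℝ, 0 < ε → ∃ a b K : ℝ, 0 < a ∧ a ≤ b ∧ 2 ≤ K ∧ ∀ x1 x2 : ℝ, 0 < x1 → x1 < x2 → x2 < K * x1 →
      ∀ y0 y1 : ℝ, 0 < y0 → y0 ≤ a / (K * x1) → b / x1 ≤ y1 → ∀ᶠ T in atTop,
      (1 / x1) * (Real.pi * ρ - ε) - (1 / x2) * (Real.pi * ρ + ε) ≤
        ∫ x in x1..x2, (x⁻¹) ^ 3 * Hf (ν T) y0 y1 x)
    (ε : ℝ) (hε : 0 < ε) : ∃ a b : ℝ, 0 < a ∧ a ≤ b ∧ ∀ X : ℝ, 0 < X → ∀ᶠ T in atTop,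
      X * (Real.pi * ρ - ε) ≤ Hf (ν T) (a / X) (b / X) X := by
  have hpi := Real.pi_pos
  have hπρ : 0 ≤ Real.pi * ρ := by positivity
  obtain ⟨m, hm⟩ := pow_unbounded_of_one_lt (48 * C0 / ε) (by norm_num : (1 : ℝ) < 2)
  have h2m : (0 : ℝ) < 2 ^ m := by positivity
  have hm' : 12 * C0 * ((2 : ℝ) ^ m)⁻¹ ≤ ε / 4 := by
    rw [div_lt_iff₀ hε] at hm
    rw [← div_eq_mul_inv, div_le_iff₀ h2m]
    linarith
  set h : ℝ := min (1 / 2) (ε / (4 * (Real.pi * ρ + 2 * C0 * (2 ^ m) ^ 2 + 1))) with hh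
  have hh0 : 0 < h := by positivity
  have hh1 : h ≤ 1 / 2 := min_le_left _ _
  have hh2 : h * (Real.pi * ρ + 2 * C0 * (2 ^ m) ^ 2 + 1) ≤ ε / 4 := by
    have : h ≤ ε / (4 * (Real.pi * ρ + 2 * C0 * (2 ^ m) ^ 2 + 1)) := min_le_right _ _
    rw [le_div_iff₀ (by positivity)] at this
    linarith
  set ε' : ℝ := h * ε / 8 with hε'
  have hε'0 : 0 < ε' := by positivity
  obtain ⟨a, b, K, ha, hab, hK, hWl⟩ := hW ε' hε'0
  have hb : 0 < b := by linarith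
  obtain ⟨n1, hn1⟩ := pow_unbounded_of_one_lt (K / a) (by norm_num : (1 : ℝ) < 2)
  obtain ⟨n2, hn2⟩ := pow_unbounded_of_one_lt b (by norm_num : (1 : ℝ) < 2)
  set n := max m (max n1 n2) with hn
  have hmn : m ≤ n := le_max_left _ _
  have hn1' : K / a ≤ 2 ^ n :=
    hn1.le.trans (pow_le_pow_right₀ (by norm_num) ((le_max_left _ _).trans (le_max_right _ _)))
  have hn2' : b ≤ 2 ^ n :=
    hn2.le.trans (pow_le_pow_right₀ (by norm_num) ((le_max_right _ _).trans (le_max_right _ _)))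
  have h2n : (0 : ℝ) < 2 ^ n := by positivity
  have h1m : (1 : ℝ) ≤ 2 ^ m := one_le_pow₀ (by norm_num)
  refine ⟨((2 : ℝ) ^ m)⁻¹, 2 ^ m, by positivity, (inv_le_one_of_one_le₀ h1m).trans h1m, fun X hX => ?_⟩
  have h1h : 0 < 1 + h := by linarith
  have hX2 : X < (1 + h) * X := by nlinarith
  have hXK : (1 + h) * X < K * X := mul_lt_mul_of_pos_right (by linarith) hX
  have hy0 : 1 / X * ((2 : ℝ) ^ n)⁻¹ ≤ a / (K * X) := by
    rw [div_le_iff₀ ha] at hn1'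
    rw [one_div, ← mul_inv, inv_eq_one_div, div_le_div_iff₀ (by positivity) (by positivity)]
    nlinarith
  have hy1 : b / X ≤ 1 / X * 2 ^ n := by
    rw [div_eq_mul_inv, mul_comm, one_div]
    exact mul_le_mul_of_nonneg_left hn2' (by positivity)
  have ec : ∀ t : ℝ, 1 / X * t = t / X := fun t => by ring
  have hmm : 1 / X * ((2 : ℝ) ^ m)⁻¹ ≤ 1 / X * 2 ^ m :=
    mul_le_mul_of_nonneg_left ((inv_le_one_of_one_le₀ h1m).trans h1m) (by positivity)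
  filter_upwards [hWl X ((1 + h) * X) hX hX2 hXK (1 / X * ((2 : ℝ) ^ n)⁻¹) (1 / X * 2 ^ n) (by positivity) hy0 hy1,
    tailU ν C0 hC0 hc h0 A0 (1 / X) (by positivity) m n hmn,
    layers hc A0 (1 / X * ((2 : ℝ) ^ m)⁻¹) (by positivity) (2 * m)] with T t1 t2 t3
  have e1 : 1 / X * ((2 : ℝ) ^ m)⁻¹ * 2 ^ (2 * m) = 1 / X * 2 ^ m := by
    rw [two_mul, pow_add]; field_simp
  rw [e1] at t3
  have hmass : ∫ y in (1 / X * ((2 : ℝ) ^ m)⁻¹)..(1 / X * 2 ^ m), ν T y ≤ C0 * (1 / X * 2 ^ m) := by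
    refine t3.trans ?_
    have : C0 * (1 / X * ((2 : ℝ) ^ m)⁻¹) * (2 ^ (2 * m) - 1) =
        C0 * (1 / X * ((2 : ℝ) ^ m)⁻¹ * 2 ^ (2 * m)) - C0 * (1 / X * ((2 : ℝ) ^ m)⁻¹) := by ring
    rw [this, e1]
    have : 0 ≤ C0 * (1 / X * ((2 : ℝ) ^ m)⁻¹) := by positivity
    linarith
  rw [← ec ((2 : ℝ) ^ m)⁻¹, ← ec ((2 : ℝ) ^ m)]
  set H0 : ℝ := Hf (ν T) (1 / X * ((2 : ℝ) ^ m)⁻¹) (1 / X * 2 ^ m) X with hH0
  set G : ℝ := H0 + h * X * (2 * C0 * (2 ^ m) ^ 2) + X * (12 * C0 * ((2 : ℝ) ^ m)⁻¹) with hG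
  have hGx : ∀ x ∈ Icc X ((1 + h) * X), Hf (ν T) (1 / X * ((2 : ℝ) ^ n)⁻¹) (1 / X * 2 ^ n) x ≤ G := by
    intro x hx
    have hx0 : 0 < x := lt_of_lt_of_le hX hx.1
    have g0 := t2 x
    have g1 := (abs_le.1 (Hf_lip (hc T) (h0 T) (by positivity : 0 < 1 / X * ((2 : ℝ) ^ m)⁻¹) hmm x X)).2
    have g2 : |x - X| ≤ h * X := by
      rw [abs_of_nonneg (by linarith [hx.1])]
      linarith [hx.2]
    have g3 : 2 * |x - X| / (1 / X * ((2 : ℝ) ^ m)⁻¹) * (∫ y in (1 / X * ((2 : ℝ) ^ m)⁻¹)..(1 / X * 2 ^ m), ν T y) ≤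
        2 * (h * X) / (1 / X * ((2 : ℝ) ^ m)⁻¹) * (C0 * (1 / X * 2 ^ m)) := by
      apply mul_le_mul _ hmass (intervalIntegral.integral_nonneg hmm fun y _ => h0 T y) (by positivity)
      exact div_le_div_of_nonneg_right (by linarith) (by positivity)
    have g4 : 2 * (h * X) / (1 / X * ((2 : ℝ) ^ m)⁻¹) * (C0 * (1 / X * 2 ^ m)) = h * X * (2 * C0 * (2 ^ m) ^ 2) := by
      field_simp
    have g5 : C0 * (x ^ 2 * (1 / X) + 8 / (1 / X)) * ((2 : ℝ) ^ m)⁻¹ ≤ X * (12 * C0 * ((2 : ℝ) ^ m)⁻¹) := by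
      have k1 : x ≤ 2 * X := hx.2.trans (mul_le_mul_of_nonneg_right (by linarith) hX.le)
      have k2 : x ^ 2 ≤ (2 * X) ^ 2 := pow_le_pow_left₀ hx0.le k1 2
      have k3 : x ^ 2 * (1 / X) + 8 / (1 / X) ≤ 12 * X := by
        have : x ^ 2 * (1 / X) ≤ (2 * X) ^ 2 * (1 / X) := mul_le_mul_of_nonneg_right k2 (by positivity)
        have e2 : (2 * X) ^ 2 * (1 / X) = 4 * X := by field_simp; ring
        have e3 : 8 / (1 / X) = 8 * X := by field_simp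
        rw [e2] at this
        rw [e3]
        linarith
      calc C0 * (x ^ 2 * (1 / X) + 8 / (1 / X)) * ((2 : ℝ) ^ m)⁻¹ ≤ C0 * (12 * X) * ((2 : ℝ) ^ m)⁻¹ := by
            gcongr
        _ = _ := by ring
    rw [hG]
    linarith
  have hH0' : 0 ≤ H0 := Hf_nonneg (h0 T) hmm X
  have hG0 : 0 ≤ G := by
    rw [hG]
    positivity
  have k1 : ∫ x in X..((1 + h) * X), (x⁻¹) ^ 3 * Hf (ν T) (1 / X * ((2 : ℝ) ^ n)⁻¹) (1 / X * 2 ^ n) x ≤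
      ∫ x in X..((1 + h) * X), (X⁻¹) ^ 3 * G := by
    have hnn : 1 / X * ((2 : ℝ) ^ n)⁻¹ ≤ 1 / X * 2 ^ n := by
      have h1n : (1 : ℝ) ≤ 2 ^ n := one_le_pow₀ (by norm_num)
      exact mul_le_mul_of_nonneg_left ((inv_le_one_of_one_le₀ h1n).trans h1n) (by positivity)
    apply intervalIntegral.integral_mono_on hX2.le (Wi (hc T) (h0 T) (by positivity) hnn hX (by positivity)) (by simp)
    intro x hx
    have hx0 : 0 < x := lt_of_lt_of_le hX hx.1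
    apply mul_le_mul _ (hGx x hx) (Hf_nonneg (h0 T) hnn x) (by positivity)
    apply pow_le_pow_left₀ (by positivity)
    exact inv_anti₀ hX hx.1
  rw [intervalIntegral.integral_const, smul_eq_mul] at k1
  have k2 := t1.trans k1
  have k3 : (1 / X) * (Real.pi * ρ * h / (1 + h) - 2 * ε') ≤
      (1 / X) * (Real.pi * ρ - ε') - (1 / ((1 + h) * X)) * (Real.pi * ρ + ε') := by
    have e1 : (1 / X) * (Real.pi * ρ - ε') - (1 / ((1 + h) * X)) * (Real.pi * ρ + ε') =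
        (1 / X) * (Real.pi * ρ * h / (1 + h) - ε' - ε' / (1 + h)) := by
      field_simp; ring
    rw [e1]
    apply mul_le_mul_of_nonneg_left _ (by positivity)
    have : ε' / (1 + h) ≤ ε' := div_le_self hε'0.le (by linarith)
    linarith
  have k4 := k3.trans k2
  have k5 : ((1 + h) * X - X) * ((X⁻¹) ^ 3 * G) = (h / X ^ 2) * G := by
    field_simp; ring
  rw [k5] at k4
  have k6 : X * (Real.pi * ρ / (1 + h) - ε / 4) ≤ G := by
    have := mul_le_mul_of_nonneg_left k4 (by positivity : 0 ≤ X ^ 2 / h)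
    refine le_trans (le_of_eq ?_) (this.trans (le_of_eq ?_))
    · rw [hε']; field_simp; ring
    · field_simp
  have k7 : Real.pi * ρ * (1 - h) ≤ Real.pi * ρ / (1 + h) := by
    rw [le_div_iff₀ h1h]
    have : 0 ≤ Real.pi * ρ * h ^ 2 := by positivity
    linarith
  have k8 : X * (Real.pi * ρ * (1 - h) - ε / 4) ≤ G := le_trans (mul_le_mul_of_nonneg_left (by linarith) hX.le) k6
  have k9 : X * (Real.pi * ρ - ε) ≤ X * (Real.pi * ρ * (1 - h) - ε / 4) - h * X * (2 * C0 * (2 ^ m) ^ 2) -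
      X * (12 * C0 * ((2 : ℝ) ^ m)⁻¹) := by
    have : X * (Real.pi * ρ * (1 - h) - ε / 4) - h * X * (2 * C0 * (2 ^ m) ^ 2) - X * (12 * C0 * ((2 : ℝ) ^ m)⁻¹) =
        X * (Real.pi * ρ * (1 - h) - ε / 4 - h * (2 * C0 * (2 ^ m) ^ 2) - 12 * C0 * ((2 : ℝ) ^ m)⁻¹) := by ring
    rw [this]
    apply mul_le_mul_of_nonneg_left _ hX.le
    linarith
  have k10 : G = H0 + h * X * (2 * C0 * (2 ^ m) ^ 2) + X * (12 * C0 * ((2 : ℝ) ^ m)⁻¹) := hG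
  linarith

/-- **Windows.** -/
theorem windows (ν : ℝ → ℝ → ℝ) (ρ : ℝ) (hρ : 0 ≤ ρ) (νA ν' : ℕ → ℝ → ℝ → ℝ) (lam : ℕ → ℝ) (A1 : ℕ)
    (hc : ∀ T, Continuous (ν T)) (h0 : ∀ T y, 0 ≤ ν T y) (hc' : ∀ A T, Continuous (ν' A T))
    (h0' : ∀ A, A1 ≤ A → ∀ T y, 0 ≤ ν' A T y)
    (hlam : Tendsto lam atTop atTop) (hsplit : ∀ A T y, νA A T y = ν' A T y + lam A * ν T y)
    (Tup : ∀ X Q : ℝ, 0 < X → X < Q → ∀ y0 y1 : ℝ, 0 < y0 → y0 ≤ y1 → ∀ ε : ℝ, 0 < ε → ∀ᶠ T in atTop,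
      ∫ x in X..Q, (x⁻¹) ^ 3 * ∫ y in y0..y1, (2 - 2 * Real.cos (x * y)) / y ^ 2 * ν T y ≤
        (1 / X) * (Real.pi * ρ + ε))
    (Tup' : ∀ A, A1 ≤ A → ∀ X Q : ℝ, 0 < X → X < Q → ∀ y0 y1 : ℝ, 0 < y0 → y0 ≤ y1 → ∀ ε : ℝ, 0 < ε →
      ∀ᶠ T in atTop, ∫ x in X..Q, (x⁻¹) ^ 3 * ∫ y in y0..y1, (2 - 2 * Real.cos (x * y)) / y ^ 2 * ν' A T y ≤
        (1 / X) * (Real.pi * ((A : ℝ) ^ 2 + 1 / 3 - lam A * ρ) + ε))
    (Plow : ∀ A, A1 ≤ A → ∀ ε : ℝ, 0 < ε → ∃ a b : ℝ, 0 < a ∧ a ≤ b ∧ ∀ x1 x2 : ℝ, 0 < x1 → x1 < x2 →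
      ∀ᶠ T in atTop, ∀ x ∈ Icc x1 x2, x * (Real.pi * (A : ℝ) ^ 2 - ε) ≤
        ∫ y in (a / x)..(b / x), (2 - 2 * Real.cos (x * y)) / y ^ 2 * νA A T y) :
    (∃ C0 : ℝ, 0 ≤ C0 ∧ ∀ V : ℝ, 0 < V → ∀ᶠ T in atTop, ∫ y in V..(2 * V), ν T y ≤ C0 * V) ∧
    (∀ X : ℝ, 0 < X → ∀ y0 y1 : ℝ, 0 < y0 → y0 ≤ y1 → ∀ ε : ℝ, 0 < ε → ∀ᶠ T in atTop,
      ∫ y in y0..y1, (2 - 2 * Real.cos (X * y)) / y ^ 2 * ν T y ≤ X * (Real.pi * ρ + ε)) ∧
    (∀ ε : ℝ, 0 < ε → ∃ a b : ℝ, 0 < a ∧ a ≤ b ∧ ∀ X : ℝ, 0 < X → ∀ᶠ T in atTop,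
      X * (Real.pi * ρ - ε) ≤ ∫ y in (a / X)..(b / X), (2 - 2 * Real.cos (X * y)) / y ^ 2 * ν T y) := by
  obtain ⟨C0, hC0, hA0⟩ := A0_of ν ρ hρ hc h0 Tup
  have hTL := TL ν ρ νA ν' lam A1 hc h0 hc' h0' hlam hsplit Tup' Plow
  refine ⟨⟨C0, hC0, hA0⟩, fun X hX y0 y1 hy0 hy ε hε => ?_, fun ε hε => ?_⟩
  · exact Aup_of ν ρ C0 hρ hC0 hc h0 hA0 (fun x1 x2 h1 h12 y0 y1 hy0 hy ε hε =>
      Wup ν ρ hc h0 Tup hTL x1 x2 h1 h12 y0 y1 hy0 hy ε hε) X hX y0 y1 hy0 hy ε hε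
  · exact Alow_of ν ρ C0 hρ hC0 hc h0 hA0 (fun ε hε => Wlow ν ρ hc h0 Tup hTL ε hε) ε hε

end Pool.Agent.L5helper12.PV.Win
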