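import Pool.Agent.L5helper12.PV.Loc
import Pool.Agent.L5helper10.TV.Wr

/-! Upper bounds for weighted mean squares from upper bounds on windows. -/

set_option autoImplicit false

open Filter Topology Set MeasureTheory H370

namespace Pool.Agent.L5helper12.PV

open Pool.Agent.L5helper10.TV

/-- the upper half of the variance asymptotics -/
def UpperV : Prop := ∀ a b ε : ℝ, 1 ≤ a → a < b → 0 < ε → ∀ᶠ κ in 𝓝[>] (0 : ℝ),
  ∫ v in (a * La κ)..(b * La κ), fk κ v ^ 2 ≤ (b - a + ε) * (κ * La κ ^ 2)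

lemma fk2_ii (κ A B : ℝ) (hκ0 : 0 < κ) (hκ : κ ≤ 1) (hAB : A ≤ B) :
    IntervalIntegrable (fun v => fk κ v ^ 2) volume A B := by
  rw [intervalIntegrable_iff_integrableOn_Ioc_of_le hAB]
  exact fk2_ioc κ A B hκ0 hκ

lemma win_ev (hU : UpperV) (m i : ℕ) (hm : 1 ≤ m) (ε : ℝ) (hε : 0 < ε) : ∀ᶠ κ in 𝓝[>] (0 : ℝ),
    ∫ v in ((i / m : ℝ) * La κ)..(((i + 1 : ℕ) / m : ℝ) * La κ), fk κ v ^ 2 ≤
      (min (((i + 1 : ℕ) / m : ℝ)) 1 * (1 / m) + ε) * (κ * La κ ^ 2) := by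
  have hm0 : (0 : ℝ) < m := by exact_mod_cast hm
  have hlt : (i / m : ℝ) < ((i + 1 : ℕ) / m : ℝ) := by
    apply div_lt_div_of_pos_right _ hm0
    push_cast; linarith
  have hd : ((i + 1 : ℕ) / m : ℝ) - (i / m : ℝ) = 1 / m := by push_cast; ring
  rcases le_or_gt m i with h | h
  · have h1 : (1 : ℝ) ≤ (i / m : ℝ) := by
      rw [le_div_iff₀ hm0, one_mul]; exact_mod_cast h
    filter_upwards [hU _ _ ε h1 hlt hε] with κ hκ
    rw [min_eq_right (by linarith), one_mul, ← hd]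
    exact hκ
  · have h1 : ((i + 1 : ℕ) / m : ℝ) ≤ 1 := by
      rw [div_le_one hm0]; exact_mod_cast h
    filter_upwards [loc_ev (i / m : ℝ) ((i + 1 : ℕ) / m : ℝ) ε (by positivity) hlt.le h1 hε, La_ge 0] with κ hκ hL
    rw [min_eq_left h1, ← hd, intervalIntegral.integral_of_le (by gcongr)]
    exact hκ

lemma unif (K : ℝ → ℝ) (hK : Continuous K) (ℓ : ℝ) (ε : ℝ) (hε : 0 < ε) :
    ∃ δ : ℝ, 0 < δ ∧ ∀ x ∈ Icc (0 : ℝ) ℓ, ∀ y ∈ Icc (0 : ℝ) ℓ, |x - y| ≤ δ → |K x - K y| ≤ ε := by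
  have h := (isCompact_Icc (a := (0 : ℝ)) (b := ℓ)).uniformContinuousOn_of_continuous hK.continuousOn
  rw [Metric.uniformContinuousOn_iff] at h
  obtain ⟨δ, hδ, h⟩ := h ε hε
  refine ⟨δ / 2, by positivity, fun x hx y hy hxy => ?_⟩
  have := h x hx y hy (by rw [Real.dist_eq]; linarith)
  rw [Real.dist_eq] at this
  exact this.le

theorem wt_upper (hU : UpperV) (K : ℝ → ℝ) (hK : Continuous K) (hK0 : ∀ α, 0 ≤ K α) (ℓ : ℕ) (hℓ : 1 ≤ ℓ)
    (hKs : ∀ α, (ℓ : ℝ) ≤ α → K α = 0) (B : ℝ) (hKB : ∀ α, K α ≤ B) (ε : ℝ) (hε : 0 < ε) :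
    ∀ᶠ κ in 𝓝[>] (0 : ℝ), Integrable (fun v => fk κ v ^ 2 * (La κ * K (v / La κ))) ∧
      ∫ v, fk κ v ^ 2 * (La κ * K (v / La κ)) ≤
      ((∫ α in (0 : ℝ)..ℓ, K α * min α 1) + ε) * (κ * La κ ^ 3) := by
  have hℓ0 : (1 : ℝ) ≤ ℓ := by exact_mod_cast hℓ
  have hB : 0 ≤ B := (hK0 0).trans (hKB 0)
  set ε' : ℝ := ε / (8 * (ℓ + 1)) with hε'
  have hε'0 : 0 < ε' := by rw [hε']; positivity
  obtain ⟨δ, hδ, hmod⟩ := unif K hK ℓ ε' hε'0
  obtain ⟨m, hm⟩ := exists_nat_gt (max (1 / δ) (max 1 (8 * (B + ε + 1) * (ℓ + 1) / ε)))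
  have hm1 : 1 / δ < m := (le_max_left _ _).trans_lt hm
  have hm2 : (1 : ℝ) < m := ((le_max_left _ _).trans (le_max_right _ _)).trans_lt hm
  have hm3 : 8 * (B + ε + 1) * (ℓ + 1) / ε < m := ((le_max_right _ _).trans (le_max_right _ _)).trans_lt hm
  have hm0 : (0 : ℝ) < m := by linarith
  have hmN : 1 ≤ m := by exact_mod_cast hm2.le
  have hmδ : 1 / (m : ℝ) ≤ δ := by
    rw [div_le_iff₀ hm0]
    rw [div_lt_iff₀ hδ] at hm1
    linarith
  set ε'' : ℝ := ε / (8 * ((ℓ * m : ℕ) + 1) * (B + ε + 1)) with hε''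
  have hε''0 : 0 < ε'' := by rw [hε'']; positivity
  have hall : ∀ᶠ κ in 𝓝[>] (0 : ℝ), ∀ i ∈ Finset.range (ℓ * m),
      ∫ v in ((i / m : ℝ) * La κ)..(((i + 1 : ℕ) / m : ℝ) * La κ), fk κ v ^ 2 ≤
      (min (((i + 1 : ℕ) / m : ℝ)) 1 * (1 / m) + ε'') * (κ * La κ ^ 2) := by
    rw [Filter.eventually_all_finset]
    exact fun i _ => win_ev hU m i hmN ε'' hε''0
  filter_upwards [hall, le_one_ev2, La_ge 1, La_ge (4000 * (B + 1) / ε), self_mem_nhdsWithin] with κ h1 hκ1 hL1 hL2 h3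
  have hκ : 0 < κ := h3
  obtain ⟨Λ, hΛ⟩ : ∃ Λ, Λ = La κ := ⟨_, rfl⟩
  rw [← hΛ] at h1 hL1 hL2 ⊢
  have hΛ0 : 0 < Λ := by linarith
  have hGm : Measurable (fun v => Λ * K (v / Λ)) := (by fun_prop : Continuous (fun v => Λ * K (v / Λ))).measurable
  have hint : Integrable (fun v => fk κ v ^ 2 * (Λ * K (v / Λ))) := by
    apply fkG_int κ hκ.le hκ1 _ hGm (fun v => mul_nonneg hΛ0.le (hK0 _)) (Λ * B) (ℓ * Λ)
    · intro v
      exact mul_le_mul_of_nonneg_left (hKB _) hΛ0.le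
    · intro v hv
      rw [hKs _ (by rw [le_div_iff₀ hΛ0]; exact hv.le), mul_zero]
  refine ⟨hint, ?_⟩
  -- split
  have hsp : ∫ v, fk κ v ^ 2 * (Λ * K (v / Λ)) = (∫ v in Iic 0, fk κ v ^ 2 * (Λ * K (v / Λ))) +
      ∫ v in (0 : ℝ)..(ℓ * Λ), fk κ v ^ 2 * (Λ * K (v / Λ)) := by
    have e1 : ∫ v in Ioi (0 : ℝ), fk κ v ^ 2 * (Λ * K (v / Λ)) =
        ∫ v in (0 : ℝ)..(ℓ * Λ), fk κ v ^ 2 * (Λ * K (v / Λ)) := by
      rw [intervalIntegral.integral_of_le (by positivity)]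
      apply setIntegral_eq_of_subset_of_forall_sdiff_eq_zero measurableSet_Ioi Ioc_subset_Ioi_self
      intro v hv
      have : ℓ * Λ < v := by
        by_contra hc
        exact hv.2 ⟨hv.1, not_lt.1 hc⟩
      rw [hKs _ (by rw [le_div_iff₀ hΛ0]; exact this.le), mul_zero, mul_zero]
    rw [← e1, ← compl_Iic, integral_add_compl measurableSet_Iic hint]
  have hneg : ∫ v in Iic 0, fk κ v ^ 2 * (Λ * K (v / Λ)) ≤ ε / 8 * (κ * Λ ^ 3) := by
    have hfi : IntegrableOn (fun v => fk κ v ^ 2) (Iic 0) := by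
      have := fk_wt_int κ 1 0 0 0 hκ hκ1 zero_le_one le_rfl le_rfl
      simpa using this
    have h4 : ∫ v in Iic 0, fk κ v ^ 2 * (Λ * K (v / Λ)) ≤ ∫ v in Iic 0, (Λ * B) * fk κ v ^ 2 := by
      apply setIntegral_mono_on hint.integrableOn (hfi.const_mul _) measurableSet_Iic
      intro v _
      rw [mul_comm]
      exact mul_le_mul_of_nonneg_right (mul_le_mul_of_nonneg_left (hKB _) hΛ0.le) (sq_nonneg _)
    rw [integral_const_mul] at h4
    have h5 := crude κ 0 hκ hκ1 le_rfl (by rw [← hΛ]; exact hΛ0.le)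
    have h6 : 500 * B ≤ ε / 8 * Λ ^ 2 := by
      rw [div_le_iff₀ hε] at hL2
      nlinarith
    calc _ ≤ Λ * B * ∫ v in Iic 0, fk κ v ^ 2 := h4
      _ ≤ Λ * B * (500 * κ * (1 + 0) ^ 2) := mul_le_mul_of_nonneg_left h5 (by positivity)
      _ = (500 * B) * (κ * Λ) := by ring
      _ ≤ (ε / 8 * Λ ^ 2) * (κ * Λ) := mul_le_mul_of_nonneg_right h6 (by positivity)
      _ = _ := by ring
  -- the grid
  have hgi : ∀ i : ℕ, (i / m : ℝ) * Λ ≤ ((i + 1 : ℕ) / m : ℝ) * Λ := by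
    intro i
    apply mul_le_mul_of_nonneg_right _ hΛ0.le
    apply div_le_div_of_nonneg_right _ hm0.le
    push_cast; linarith
  have hgrid : ∫ v in (0 : ℝ)..(ℓ * Λ), fk κ v ^ 2 * (Λ * K (v / Λ)) = ∑ i ∈ Finset.range (ℓ * m),
      ∫ v in ((i / m : ℝ) * Λ)..(((i + 1 : ℕ) / m : ℝ) * Λ), fk κ v ^ 2 * (Λ * K (v / Λ)) := by
    have := intervalIntegral.sum_integral_adjacent_intervals (f := fun v => fk κ v ^ 2 * (Λ * K (v / Λ)))
      (μ := volume) (a := fun i : ℕ => (i / m : ℝ) * Λ) (n := ℓ * m) (fun k _ => hint.intervalIntegrable)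
    rw [this]
    congr 1
    · simp
    · push_cast
      field_simp
  have hcell : ∀ i ∈ Finset.range (ℓ * m),
      ∫ v in ((i / m : ℝ) * Λ)..(((i + 1 : ℕ) / m : ℝ) * Λ), fk κ v ^ 2 * (Λ * K (v / Λ)) ≤
      ((∫ α in (i / m : ℝ)..((i + 1 : ℕ) / m : ℝ), K α * min α 1) + (2 * ε' + (B + ε') / m) * (1 / m) +
        ε'' * (B + ε')) * (κ * Λ ^ 3) := by
    intro i hi
    have hiN := Finset.mem_range.1 hi
    have him : ((i + 1 : ℕ) / m : ℝ) ≤ ℓ := by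
      rw [div_le_iff₀ hm0]
      exact_mod_cast hiN
    have hi0 : (0 : ℝ) ≤ (i / m : ℝ) := by positivity
    have hstep : ((i + 1 : ℕ) / m : ℝ) - (i / m : ℝ) = 1 / m := by push_cast; ring
    have hm0' : (0 : ℝ) < 1 / m := by positivity
    have hKi : ∀ α ∈ Icc (i / m : ℝ) ((i + 1 : ℕ) / m : ℝ), |K α - K (i / m)| ≤ ε' := by
      intro α hα
      apply hmod α ⟨by linarith [hα.1], hα.2.trans him⟩ _ ⟨hi0, by linarith⟩
      rw [abs_of_nonneg (by linarith [hα.1])]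
      linarith [hα.2]
    have c1 : ∫ v in ((i / m : ℝ) * Λ)..(((i + 1 : ℕ) / m : ℝ) * Λ), fk κ v ^ 2 * (Λ * K (v / Λ)) ≤
        Λ * (K (i / m) + ε') * ∫ v in ((i / m : ℝ) * Λ)..(((i + 1 : ℕ) / m : ℝ) * Λ), fk κ v ^ 2 := by
      rw [← intervalIntegral.integral_const_mul]
      apply intervalIntegral.integral_mono_on (hgi i) hint.intervalIntegrable
        ((fk2_ii κ _ _ hκ hκ1 (hgi i)).const_mul _)
      intro v hv
      have hv' : v / Λ ∈ Icc (i / m : ℝ) ((i + 1 : ℕ) / m : ℝ) :=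
        ⟨by rw [le_div_iff₀ hΛ0]; exact hv.1, by rw [div_le_iff₀ hΛ0]; exact hv.2⟩
      have := (abs_le.1 (hKi _ hv')).2
      rw [mul_comm]
      apply mul_le_mul_of_nonneg_right _ (sq_nonneg _)
      apply mul_le_mul_of_nonneg_left _ hΛ0.le
      linarith
    have hKi0 := hK0 (i / m)
    have c2 := mul_le_mul_of_nonneg_left (h1 i hi) (by positivity : 0 ≤ Λ * (K (i / m) + ε'))
    refine (c1.trans c2).trans ?_
    have hmin : min ((i + 1 : ℕ) / m : ℝ) 1 ≤ 1 := min_le_right _ _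
    have hmin0 : 0 ≤ min ((i + 1 : ℕ) / m : ℝ) 1 := le_min (by positivity) zero_le_one
    have c3 : K (i / m) * min ((i + 1 : ℕ) / m : ℝ) 1 * (1 / m) ≤
        (∫ α in (i / m : ℝ)..((i + 1 : ℕ) / m : ℝ), K α * min α 1) + (ε' + (B + ε') / m) * (1 / m) := by
      have hci : IntervalIntegrable (fun α => K α * min α 1) volume (i / m : ℝ) ((i + 1 : ℕ) / m : ℝ) :=
        (hK.mul (by fun_prop)).intervalIntegrable _ _
      have d1 : ∫ _ in (i / m : ℝ)..((i + 1 : ℕ) / m : ℝ), K (i / m) * min ((i + 1 : ℕ) / m : ℝ) 1 ≤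
          ∫ α in (i / m : ℝ)..((i + 1 : ℕ) / m : ℝ), (K α * min α 1 + (ε' + (B + ε') / m)) := by
        apply intervalIntegral.integral_mono_on (by linarith) (by simp) (hci.add (by simp))
        intro α hα
        have e1 := (abs_le.1 (hKi α hα)).1
        have e2 : min ((i + 1 : ℕ) / m : ℝ) 1 ≤ min α 1 + 1 / m := by
          have : min ((i + 1 : ℕ) / m : ℝ) 1 ≤ min (α + 1 / m) (1 + 1 / m) :=
            min_le_min (by linarith [hα.1]) (by linarith)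
          rwa [min_add_add_right] at this
        have e3 : 0 ≤ min α 1 := le_min (hi0.trans hα.1) zero_le_one
        have e4 : min α 1 ≤ 1 := min_le_right _ _
        have e5 := hK0 α
        have e6 := hKB α
        have e7 : K (i / m) ≤ K α + ε' := by linarith
        calc K (i / m) * min ((i + 1 : ℕ) / m : ℝ) 1 ≤ (K α + ε') * (min α 1 + 1 / m) :=
              mul_le_mul e7 e2 hmin0 (by linarith)
          _ = K α * min α 1 + ε' * min α 1 + (K α + ε') * (1 / m) := by ring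
          _ ≤ K α * min α 1 + ε' * 1 + (B + ε') * (1 / m) := by gcongr
          _ = _ := by ring
      rw [intervalIntegral.integral_const, smul_eq_mul, intervalIntegral.integral_add hci (by simp),
        intervalIntegral.integral_const, smul_eq_mul, hstep] at d1
      linarith
    have c4 : Λ * (K (i / m) + ε') * ((min ((i + 1 : ℕ) / m : ℝ) 1 * (1 / m) + ε'') * (κ * Λ ^ 2)) =
        (K (i / m) * min ((i + 1 : ℕ) / m : ℝ) 1 * (1 / m) + ε' * (min ((i + 1 : ℕ) / m : ℝ) 1 * (1 / m)) +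
          ε'' * (K (i / m) + ε')) * (κ * Λ ^ 3) := by ring
    rw [c4]
    apply mul_le_mul_of_nonneg_right _ (by positivity)
    have c5 : ε' * (min ((i + 1 : ℕ) / m : ℝ) 1 * (1 / m)) ≤ ε' * (1 * (1 / m)) := by gcongr
    have c6 : ε'' * (K (i / m) + ε') ≤ ε'' * (B + ε') := by
      have := hKB (i / m)
      gcongr
    linarith
  have hsum := Finset.sum_le_sum hcell
  rw [← hgrid, ← Finset.sum_mul, Finset.sum_add_distrib, Finset.sum_add_distrib] at hsum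
  have hI : ∑ i ∈ Finset.range (ℓ * m), ∫ α in (i / m : ℝ)..((i + 1 : ℕ) / m : ℝ), K α * min α 1 =
      ∫ α in (0 : ℝ)..ℓ, K α * min α 1 := by
    have := intervalIntegral.sum_integral_adjacent_intervals (f := fun α => K α * min α 1)
      (μ := volume) (a := fun i : ℕ => (i / m : ℝ)) (n := ℓ * m)
      (fun k _ => (hK.mul (by fun_prop)).intervalIntegrable _ _)
    rw [this]
    congr 1
    · simp
    · push_cast
      field_simp
  rw [hI] at hsum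
  simp only [Finset.sum_const, Finset.card_range, nsmul_eq_mul] at hsum
  have b1 : ((ℓ * m : ℕ) : ℝ) * ((2 * ε' + (B + ε') / m) * (1 / m)) ≤ ε / 2 := by
    have e1 : ((ℓ * m : ℕ) : ℝ) * ((2 * ε' + (B + ε') / m) * (1 / m)) = 2 * (ℓ * ε') + ℓ * ((B + ε') / m) := by
      push_cast; field_simp
    rw [e1]
    have e2 : ℓ * ε' ≤ ε / 8 := by
      rw [hε', ← mul_div_assoc, div_le_div_iff₀ (by positivity) (by norm_num)]
      nlinarith
    have e3 : ε' ≤ ε := by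
      rw [hε', div_le_iff₀ (by positivity)]
      nlinarith
    have e4 : ℓ * ((B + ε') / m) ≤ ε / 8 := by
      rw [← mul_div_assoc, div_le_iff₀ hm0]
      rw [div_lt_iff₀ hε] at hm3
      have : ℓ * (B + ε') ≤ (B + ε + 1) * (ℓ + 1) := by nlinarith
      linarith
    linarith
  have b2 : ((ℓ * m : ℕ) : ℝ) * (ε'' * (B + ε')) ≤ ε / 8 := by
    have e3 : ε' ≤ ε := by
      rw [hε', div_le_iff₀ (by positivity)]
      nlinarith
    have e5 : ((ℓ * m : ℕ) : ℝ) * (ε'' * (B + ε')) ≤ (((ℓ * m : ℕ) : ℝ) + 1) * (ε'' * (B + ε + 1)) :=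
      mul_le_mul (by linarith) (mul_le_mul_of_nonneg_left (by linarith) hε''0.le) (by positivity) (by positivity)
    refine e5.trans (le_of_eq ?_)
    rw [hε'']
    field_simp
  rw [hsp]
  have hκΛ : 0 ≤ κ * Λ ^ 3 := by positivity
  have hfin : (∫ α in (0 : ℝ)..ℓ, K α * min α 1) + ((ℓ * m : ℕ) : ℝ) * ((2 * ε' + (B + ε') / m) * (1 / m)) +
      ((ℓ * m : ℕ) : ℝ) * (ε'' * (B + ε')) ≤ (∫ α in (0 : ℝ)..ℓ, K α * min α 1) + ε / 2 + ε / 8 := by linarith
  have := mul_le_mul_of_nonneg_right hfin hκΛ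
  nlinarith

end Pool.Agent.L5helper12.PV
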